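import Pool.Agent.H12.IT.Defs

set_option autoImplicit false

/-! PROJECT IT, module Bas: composition, iterates. -/

open Polynomial

namespace H12IT

theorem comp_cancel {F G V : ℂ[X]} (hV : 1 ≤ V.natDegree) (h : F.comp V = G.comp V) : F = G := by
  have h1 : (F - G).comp V = 0 := by rw [sub_comp, h, sub_self]
  rcases comp_eq_zero_iff.1 h1 with h2 | h2
  · exact sub_eq_zero.1 h2
  · exfalso
    have h3 : V.natDegree = 0 := by
      rw [h2.2]
      exact natDegree_C _
    omega

theorem it_zero (P : ℂ[X]) : it P 0 = X := rfl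

theorem it_succ (P : ℂ[X]) (n : ℕ) : it P (n + 1) = P.comp (it P n) := rfl

theorem it_one (P : ℂ[X]) : it P 1 = P := by simp [it]

theorem natDegree_it (P : ℂ[X]) (n : ℕ) : (it P n).natDegree = P.natDegree ^ n := by
  induction n with
  | zero => rw [it_zero, natDegree_X, pow_zero]
  | succ n ih => rw [it_succ, natDegree_comp, ih, pow_succ, mul_comm]

theorem it_succ' (P : ℂ[X]) (n : ℕ) : it P (n + 1) = (it P n).comp P := by
  induction n with
  | zero => rw [it_succ, it_zero, comp_X, X_comp]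
  | succ n ih => rw [it_succ, ih, ← comp_assoc, ← it_succ, ← ih]

theorem it_add (P : ℂ[X]) (m n : ℕ) : it P (m + n) = (it P m).comp (it P n) := by
  induction m with
  | zero => rw [Nat.zero_add, it_zero, X_comp]
  | succ m ih => rw [Nat.add_right_comm, it_succ, ih, it_succ, comp_assoc]

theorem it_mul (P : ℂ[X]) (m n : ℕ) : it P (m * n) = it (it P m) n := by
  induction n with
  | zero => rw [Nat.mul_zero, it_zero, it_zero]
  | succ n ih => rw [Nat.mul_succ, Nat.add_comm, it_add, ih, it_succ]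

/-- semiconjugacies of iterates -/
theorem semi_it {p R M : ℂ[X]} (h : p.comp R = M.comp p) (j : ℕ) :
    p.comp (it R j) = (it M j).comp p := by
  induction j with
  | zero => rw [it_zero, it_zero, comp_X, X_comp]
  | succ j ih => rw [it_succ, it_succ, ← comp_assoc, h, comp_assoc, ih, comp_assoc]

/-- degree of `R` in a semiconjugacy -/
theorem semi_deg {p R M : ℂ[X]} (hp : 1 ≤ p.natDegree) (hM : 1 ≤ M.natDegree)
    (h : p.comp R = M.comp p) : R.natDegree = M.natDegree := by
  have h1 := congrArg natDegree h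
  rw [natDegree_comp, natDegree_comp, mul_comm M.natDegree] at h1
  exact Nat.eq_of_mul_eq_mul_left hp h1

private theorem bas_form {L : ℂ[X]} (hL : L.natDegree = 1) :
    ∃ a b : ℂ, a ≠ 0 ∧ L = C a * X + C b := by
  obtain ⟨a, ha, b, h⟩ := natDegree_eq_one.1 hL
  exact ⟨a, b, ha, h.symm⟩

/-- linear polynomials are invertible -/
theorem lin_inv {L : ℂ[X]} (hL : L.natDegree = 1) :
    ∃ L' : ℂ[X], L'.natDegree = 1 ∧ L.comp L' = X ∧ L'.comp L = X := by
  obtain ⟨a, b, ha, rfl⟩ := bas_form hL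
  have h1 : C a * C a⁻¹ = (1 : ℂ[X]) := by rw [← C_mul, mul_inv_cancel₀ ha, C_1]
  refine ⟨C a⁻¹ * (X - C b), ?_, ?_, ?_⟩
  · rw [natDegree_C_mul (inv_ne_zero ha), natDegree_X_sub_C]
  · simp only [add_comp, mul_comp, C_comp, X_comp]
    rw [← mul_assoc, h1]
    ring
  · simp only [sub_comp, mul_comp, C_comp, X_comp]
    linear_combination X * h1

theorem lin_form {L : ℂ[X]} (hL : L.natDegree = 1) :
    ∃ a b : ℂ, a ≠ 0 ∧ L = C a * X + C b := bas_form hL

theorem Sym.comp {p L L' : ℂ[X]} (h : Sym p L) (h' : Sym p L') : Sym p (L.comp L') := by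
  refine ⟨?_, ?_⟩
  · rw [natDegree_comp, h.1, h'.1]
  · rw [← comp_assoc, h.2, h'.2]

theorem Sym.inv {p L : ℂ[X]} (h : Sym p L) :
    ∃ L' : ℂ[X], Sym p L' ∧ L.comp L' = X ∧ L'.comp L = X := by
  obtain ⟨L', h1, h2, h3⟩ := lin_inv h.1
  refine ⟨L', ⟨h1, ?_⟩, h2, h3⟩
  calc p.comp L' = (p.comp L).comp L' := by rw [h.2]
    _ = p := by rw [comp_assoc, h2, comp_X]

end H12IT
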