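import Pool.Agent.H12.IT.Cnt

set_option autoImplicit false

/-! PROJECT IT, module Cnc: iterates of polynomials of Chebyshev type or power type. -/

open Polynomial

namespace H12IT

private theorem cnc_it_pos {P : ℂ[X]} (hd : 2 ≤ P.natDegree) (t : ℕ) :
    1 ≤ (it P t).natDegree := by
  rw [natDegree_it]
  exact Nat.one_le_pow _ _ (by omega)

private theorem cnc_mu_succ {P : ℂ[X]} (hd : 2 ≤ P.natDegree) (t : ℕ) (w : ℂ) :
    mu (it P (t + 1)) w = mu P ((it P t).eval w) * mu (it P t) w := by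
  rw [it_succ, mu_comp (by omega) (cnc_it_pos hd t)]

private theorem cnc_mu_succ' {P : ℂ[X]} (hd : 2 ≤ P.natDegree) (t : ℕ) (w : ℂ) :
    mu (it P (t + 1)) w = mu (it P t) (P.eval w) * mu P w := by
  rw [it_succ', mu_comp (cnc_it_pos hd t) (by omega)]

private theorem cnc_eval_succ (P : ℂ[X]) (t : ℕ) (w : ℂ) :
    (it P (t + 1)).eval w = P.eval ((it P t).eval w) := by
  rw [it_succ, eval_comp]

private theorem cnc_eval_succ' (P : ℂ[X]) (t : ℕ) (w : ℂ) :
    (it P (t + 1)).eval w = (it P t).eval (P.eval w) := by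
  rw [it_succ', eval_comp]

/-- the number of preimages of a Chebyshev set -/
private theorem cnc_card {P : ℂ[X]} (hd : 1 ≤ P.natDegree) {S : Finset ℂ} (h : ChebSet P S) :
    ∑ x ∈ S, (fib P x).card ≤ P.natDegree + 1 := by
  classical
  obtain ⟨hS, h1, h2⟩ := h
  have hx : ∀ x ∈ S, 2 * (fib P x).card =
      (∑ z ∈ fib P x, mu P z) + (S.filter fun z => P.eval z = x).card := by
    intro x hxS
    have e1 : (S.filter fun z => P.eval z = x) = (fib P x).filter fun z => z ∈ S := by
      ext z
      simp only [Finset.mem_filter, mem_fib hd]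
      tauto
    rw [e1, Finset.card_filter, ← Finset.sum_add_distrib, Finset.card_eq_sum_ones,
      Finset.mul_sum]
    refine Finset.sum_congr rfl fun z hz => ?_
    rw [mem_fib hd] at hz
    by_cases hzS : z ∈ S
    · rw [(h1 z hzS).2, if_pos hzS, mul_one]
    · rw [h2 z (by rw [hz]; exact hxS) hzS, if_neg hzS, add_zero, mul_one]
  have e2 : ∑ x ∈ S, 2 * (fib P x).card = 2 * P.natDegree + 2 := by
    rw [Finset.sum_congr rfl hx, Finset.sum_add_distrib]
    have e3 : ∑ x ∈ S, ∑ z ∈ fib P x, mu P z = 2 * P.natDegree := by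
      rw [Finset.sum_congr rfl fun x _ => sum_mu hd x, Finset.sum_const, hS, smul_eq_mul]
    have e4 : ∑ x ∈ S, (S.filter fun z => P.eval z = x).card = S.card :=
      (Finset.card_eq_sum_card_fiberwise fun z hz => (h1 z hz).1).symm
    rw [e3, e4, hS]
  rw [← Finset.mul_sum] at e2
  omega

/-- outside the preimage of a Chebyshev set there is no ramification -/
private theorem cnc_simple {P : ℂ[X]} (hd : 1 ≤ P.natDegree) {S : Finset ℂ} (h : ChebSet P S)
    {w : ℂ} (hw : P.eval w ∉ S) : mu P w = 1 := by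
  classical
  have h0 := cnc_card hd h
  have h1 := rh hd (insert (P.eval w) S)
  rw [Finset.card_insert_of_notMem hw, Finset.sum_insert hw, h.1] at h1
  have h2 : P.natDegree ≤ (fib P (P.eval w)).card := by omega
  by_contra hne
  have h3 : 2 ≤ mu P w := by
    have := one_le_mu hd w
    omega
  have h4 : w ∈ fib P (P.eval w) := (mem_fib hd).2 rfl
  have h5 := sum_mu hd (P.eval w)
  rw [← Finset.add_sum_erase _ _ h4] at h5
  have h6 : ((fib P (P.eval w)).erase w).card ≤ ∑ z ∈ (fib P (P.eval w)).erase w, mu P z := by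
    rw [Finset.card_eq_sum_ones]
    exact Finset.sum_le_sum fun z _ => one_le_mu hd z
  rw [Finset.card_erase_of_mem h4] at h6
  have h7 : 1 ≤ (fib P (P.eval w)).card := Finset.card_pos.2 ⟨w, h4⟩
  omega

private theorem cnc_cheb {P : ℂ[X]} (hd : 2 ≤ P.natDegree) {S : Finset ℂ} (h : ChebSet P S)
    (t : ℕ) : ChebSet (it P (t + 1)) S := by
  induction t with
  | zero =>
    rw [zero_add, it_one]
    exact h
  | succ t ih =>
    obtain ⟨-, i1, i2⟩ := ih
    refine ⟨h.1, fun w hw => ?_, fun w hw hwS => ?_⟩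
    · rw [cnc_eval_succ', cnc_mu_succ' hd, (h.2.1 w hw).2, mul_one]
      exact i1 _ (h.2.1 w hw).1
    · rw [cnc_eval_succ'] at hw
      rw [cnc_mu_succ' hd]
      by_cases hPw : P.eval w ∈ S
      · rw [(i1 _ hPw).2, h.2.2 w hPw hwS]
      · rw [cnc_simple (by omega) h hPw, mul_one]
        exact i2 _ hw hPw

private theorem cnc_oddMass {M : ℂ[X]} (hd : 1 ≤ M.natDegree) {S : Finset ℂ}
    (h : ChebSet M S) :
    ∑ x ∈ S, ∑ z ∈ (fib M x).filter (fun z => Odd (mu M z)), mu M z = 2 := by
  classical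
  obtain ⟨hS, h1, h2⟩ := h
  have hx : ∀ x ∈ S, ∑ z ∈ (fib M x).filter (fun z => Odd (mu M z)), mu M z =
      ∑ z ∈ S.filter (fun z => M.eval z = x), mu M z := by
    intro x hxS
    refine Finset.sum_congr ?_ fun _ _ => rfl
    ext z
    simp only [Finset.mem_filter, mem_fib hd]
    constructor
    · rintro ⟨hz, hodd⟩
      refine ⟨?_, hz⟩
      by_contra hzS
      rw [h2 z (by rw [hz]; exact hxS) hzS] at hodd
      exact absurd hodd (by decide)
    · rintro ⟨hzS, hz⟩
      exact ⟨hz, by rw [(h1 z hzS).2]; exact odd_one⟩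
  rw [Finset.sum_congr rfl hx, Finset.sum_fiberwise_of_maps_to (fun z hz => (h1 z hz).1),
    Finset.sum_congr rfl fun z hz => (h1 z hz).2, Finset.sum_const, hS]
  rfl

/-- the iterates of a polynomial with a Chebyshev set -/
theorem cheb_it {P : ℂ[X]} (hd : 2 ≤ P.natDegree) {S : Finset ℂ} (h : ChebSet P S) {t : ℕ}
    (ht : 1 ≤ t) : ChebSet (it P t) S ∧ oddMass P t S = 2 := by
  obtain ⟨s, rfl⟩ : ∃ s, t = s + 1 := ⟨t - 1, by omega⟩
  exact ⟨cnc_cheb hd h s, cnc_oddMass (cnc_it_pos hd _) (cnc_cheb hd h s)⟩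

/-- if an iterate has a Chebyshev set, so has `P` -/
theorem cheb_of_it {P : ℂ[X]} (hd : 2 ≤ P.natDegree) {S : Finset ℂ} {t : ℕ} (ht : 1 ≤ t)
    (h : ChebSet (it P t) S) : ChebSet P S := by
  have hM : 2 ≤ (it P t).natDegree := by
    rw [natDegree_it]
    exact hd.trans (Nat.le_self_pow (by omega) _)
  have h1 := (cheb_it hM h (t := 3) (by norm_num)).2
  have h2 : oddMass P (t * 3) S = 2 := by
    rw [← h1]
    unfold oddMass fibt
    rw [it_mul]
  refine cheb_detect hd h.1 (t := t * 3) (by omega) ?_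
  rw [h2]
  have h3 : 1 ≤ P.natDegree ^ (t * 3 - 3) := Nat.one_le_pow _ _ (by omega)
  omega

private theorem cnc_fib_total {P : ℂ[X]} (hd : 1 ≤ P.natDegree) {a : ℂ}
    (ha : mu P a = P.natDegree) {b : ℂ} (hb : P.eval b = P.eval a) : b = a := by
  classical
  by_contra hne
  have h4 : a ∈ fib P (P.eval a) := (mem_fib hd).2 rfl
  have h5 := sum_mu hd (P.eval a)
  rw [← Finset.add_sum_erase _ _ h4, ha] at h5
  have h6 : b ∈ (fib P (P.eval a)).erase a :=
    Finset.mem_erase.2 ⟨hne, (mem_fib hd).2 hb⟩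
  have h7 := Finset.single_le_sum (f := fun z => mu P z) (fun _ _ => Nat.zero_le _) h6
  have h8 := one_le_mu hd b
  have h9 : mu P b ≤ ∑ z ∈ (fib P (P.eval a)).erase a, mu P z := h7
  omega

private theorem cnc_total_unique {P : ℂ[X]} (hd : 2 ≤ P.natDegree) {a b : ℂ}
    (ha : mu P a = P.natDegree) (hb : mu P b = P.natDegree) : b = a := by
  classical
  by_cases hab : P.eval b = P.eval a
  · exact cnc_fib_total (by omega) ha hab
  · exfalso
    have hc : ∀ c : ℂ, mu P c = P.natDegree → (fib P (P.eval c)).card ≤ 1 := by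
      intro c hc
      refine Finset.card_le_one.2 fun x hx y hy => ?_
      rw [mem_fib (by omega)] at hx hy
      rw [cnc_fib_total (by omega) hc hx, cnc_fib_total (by omega) hc hy]
    have h1 := rh (F := P) (by omega) {P.eval b, P.eval a}
    rw [Finset.card_pair hab, Finset.sum_pair hab] at h1
    have h2 := hc a ha
    have h3 := hc b hb
    omega

/-- if an iterate is of power type, so is `P`, and conversely -/
theorem power_it {P : ℂ[X]} (hd : 2 ≤ P.natDegree) {t : ℕ} (ht : 1 ≤ t) :
    PowerType (it P t) ↔ PowerType P := by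
  obtain ⟨s, rfl⟩ : ∃ s, t = s + 1 := ⟨t - 1, by omega⟩
  constructor
  · rintro ⟨o, ho, hmu⟩
    rw [natDegree_it] at hmu
    have hle : mu (it P s) (P.eval o) ≤ P.natDegree ^ s := by
      rw [← natDegree_it]
      exact mu_le (cnc_it_pos hd s) _
    have hle' : mu (it P s) o ≤ P.natDegree ^ s := by
      rw [← natDegree_it]
      exact mu_le (cnc_it_pos hd s) _
    have hpos : 0 < P.natDegree ^ s := Nat.pow_pos (by omega)
    have h1 : mu P o = P.natDegree := by
      refine le_antisymm (mu_le (by omega) _) ?_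
      rw [cnc_mu_succ' hd, pow_succ] at hmu
      by_contra hlt
      have : mu (it P s) (P.eval o) * mu P o < P.natDegree ^ s * P.natDegree :=
        Nat.mul_lt_mul_of_le_of_lt hle (not_le.1 hlt) hpos
      omega
    have h2 : mu P ((it P s).eval o) = P.natDegree := by
      refine le_antisymm (mu_le (by omega) _) ?_
      rw [cnc_mu_succ hd, pow_succ'] at hmu
      by_contra hlt
      have : mu P ((it P s).eval o) * mu (it P s) o < P.natDegree * P.natDegree ^ s :=
        Nat.mul_lt_mul_of_lt_of_le (not_le.1 hlt) hle' hpos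
      omega
    have h3 : (it P s).eval o = o := cnc_total_unique hd h1 h2
    refine ⟨o, ?_, h1⟩
    rw [cnc_eval_succ, h3] at ho
    exact ho
  · rintro ⟨o, ho, hmu⟩
    have key : ∀ n, (it P n).eval o = o ∧ mu (it P n) o = P.natDegree ^ n := by
      intro n
      induction n with
      | zero =>
        refine ⟨by rw [it_zero, eval_X], ?_⟩
        rw [it_zero, pow_zero]
        exact mu_lin natDegree_X o
      | succ n ih =>
        refine ⟨by rw [cnc_eval_succ, ih.1, ho], ?_⟩
        rw [cnc_mu_succ hd, ih.1, ih.2, hmu, pow_succ']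
    refine ⟨o, (key _).1, ?_⟩
    rw [natDegree_it]
    exact (key _).2

end H12IT
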