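import Pool.Agent.H12.IT.Com
import Pool.Agent.H12.IT.Bas

set_option autoImplicit false

/-! PROJECT IT, module Gcd: common right factors. -/

open Polynomial

namespace H12IT

/-- two right factors of one polynomial have a common right factor of degree `gcd` -/
theorem gcd_right {A B f g : ℂ[X]} (hA : 1 ≤ A.natDegree) (hf : 1 ≤ f.natDegree)
    (hg : 1 ≤ g.natDegree) (h : A.comp f = B.comp g) :
    ∃ u p q : ℂ[X], u.natDegree = Nat.gcd f.natDegree g.natDegree ∧
      f = p.comp u ∧ g = q.comp u := by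
  have hF : 1 ≤ (A.comp f).natDegree := by
    rw [natDegree_comp]
    exact Nat.mul_pos hA hf
  obtain ⟨K1, R1, h1⟩ := germ_ex hf
  obtain ⟨K2, R2, h2⟩ := germ_ex hg
  obtain ⟨R3, h3⟩ := germ_uniq hF (max K1 K2)
  have hm : 0 < Nat.gcd f.natDegree g.natDegree := Nat.gcd_pos_of_pos_left _ hf
  obtain ⟨u, p, q, hu, hp, hq, -⟩ := common_factor (m := Nat.gcd f.natDegree g.natDegree) hf hg rfl
    (max K1 K2) (max R1 (max R2 R3)) (fun z hz w hw => by
      have hz1 : R1 ≤ ‖z‖ := (le_max_left _ _).trans hz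
      have hz2 : R2 ≤ ‖z‖ := ((le_max_left _ _).trans (le_max_right _ _)).trans hz
      have hz3 : R3 ≤ ‖z‖ := ((le_max_right _ _).trans (le_max_right _ _)).trans hz
      have hwn : ‖w‖ = 1 := Complex.norm_eq_one_of_pow_eq_one hw hm.ne'
      have hwf : w ^ f.natDegree = 1 := by
        obtain ⟨k, hk⟩ := Nat.gcd_dvd_left f.natDegree g.natDegree
        rw [hk, pow_mul, hw, one_pow]
      have hwg : w ^ g.natDegree = 1 := by
        obtain ⟨k, hk⟩ := Nat.gcd_dvd_right f.natDegree g.natDegree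
        rw [hk, pow_mul, hw, one_pow]
      obtain ⟨y1, hy1, hy1'⟩ := h1 z hz1 w hwf
      obtain ⟨y2, hy2, hy2'⟩ := h2 z hz2 w hwg
      have e : y1 = y2 := by
        refine h3 z hz3 w hwn y1 y2 (hy1'.trans (le_max_left _ _)) (hy2'.trans (le_max_right _ _)) ?_
        have e1 : (A.comp f).eval y1 = (A.comp f).eval z := by
          rw [eval_comp, eval_comp, hy1]
        have e2 : (A.comp f).eval y2 = (A.comp f).eval z := by
          rw [h, eval_comp, eval_comp, hy2]
        rw [e1, e2]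
      exact ⟨y1, hy1, by rw [e]; exact hy2, hy1'.trans (le_max_left _ _)⟩)
  exact ⟨u, p, q, hu, hp, hq⟩

/-- degrees dividing each other -/
theorem dvd_right {A B f g : ℂ[X]} (hA : 1 ≤ A.natDegree) (hf : 1 ≤ f.natDegree)
    (hg : 1 ≤ g.natDegree) (h : A.comp f = B.comp g) (hd : g.natDegree ∣ f.natDegree) :
    ∃ p : ℂ[X], f = p.comp g := by
  obtain ⟨u, p, q, hu, hp, hq⟩ := gcd_right hA hf hg h
  rw [Nat.gcd_eq_right hd] at hu
  have hq1 : q.natDegree = 1 := by
    have h1 : g.natDegree = q.natDegree * u.natDegree := by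
      conv_lhs => rw [hq]
      exact natDegree_comp
    rw [hu] at h1
    exact Nat.eq_of_mul_eq_mul_right hg (by rw [← h1, one_mul])
  obtain ⟨q', -, -, hq'⟩ := lin_inv hq1
  refine ⟨p.comp q', ?_⟩
  have hu' : q'.comp g = u := by
    conv_lhs => rw [hq]
    rw [← comp_assoc, hq', X_comp]
  rw [comp_assoc, hu']
  exact hp

/-- same degree -/
theorem same_right {A B f g : ℂ[X]} (hA : 1 ≤ A.natDegree) (hf : 1 ≤ f.natDegree)
    (h : A.comp f = B.comp g) (hd : g.natDegree = f.natDegree) :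
    ∃ L : ℂ[X], L.natDegree = 1 ∧ f = L.comp g ∧ A.comp L = B := by
  have hg : 1 ≤ g.natDegree := by rw [hd]; exact hf
  obtain ⟨L, hL⟩ := dvd_right hA hf hg h (by rw [hd])
  refine ⟨L, ?_, hL, ?_⟩
  · have h1 : f.natDegree = L.natDegree * g.natDegree := by
      conv_lhs => rw [hL]
      exact natDegree_comp
    exact Nat.eq_of_mul_eq_mul_right hg (by rw [← h1, one_mul, hd])
  · apply comp_cancel hg
    rw [comp_assoc, ← hL, h]

/-- `p ∘ f = p ∘ g` -/
theorem sym_of_comp {p f g : ℂ[X]} (hp : 1 ≤ p.natDegree) (hf : 1 ≤ f.natDegree)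
    (h : p.comp f = p.comp g) (hd : g.natDegree = f.natDegree) :
    ∃ L : ℂ[X], Sym p L ∧ f = L.comp g := by
  obtain ⟨L, h1, h2, h3⟩ := same_right hp hf h hd
  exact ⟨L, ⟨h1, h3⟩, h2⟩

end H12IT
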