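import Pool.Agent.H12.IT.Mul

set_option autoImplicit false

/-! PROJECT IT, module Mur: Riemann-Hurwitz for polynomials, normal forms. -/

open Polynomial

namespace H12IT

/-- the derivative at a point -/
theorem mur_der (F : ℂ[X]) (z : ℂ) : F.derivative.rootMultiplicity z = mu F z - 1 := by
  have h : (F - C (F.eval z)).IsRoot z := by
    rw [IsRoot.def, eval_sub, eval_C, sub_self]
  have h2 := derivative_rootMultiplicity_of_root h
  rw [derivative_sub, derivative_C, sub_zero] at h2
  exact h2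

theorem mur_der_ne {F : ℂ[X]} (hF : 1 ≤ F.natDegree) : F.derivative ≠ 0 := by
  intro h
  have h1 := derivative_eq_zero.1 h
  omega

/-- the degree of the derivative counts the ramification over a finite set of points -/
theorem mur_sum {F : ℂ[X]} (hF : 1 ≤ F.natDegree) (T : Finset ℂ) :
    ∑ z ∈ T, (mu F z - 1) ≤ F.natDegree - 1 ∧
      ((∀ z, F.derivative.IsRoot z → z ∈ T) → ∑ z ∈ T, (mu F z - 1) = F.natDegree - 1) := by
  classical
  have h0 := mur_der_ne hF
  have h1 : ∀ z, mu F z - 1 = F.derivative.roots.count z := fun z => by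
    rw [count_roots, mur_der]
  have h2 : Multiset.card F.derivative.roots = F.natDegree - 1 := by
    rw [← (IsAlgClosed.splits F.derivative).natDegree_eq_card_roots, natDegree_derivative]
  constructor
  · calc ∑ z ∈ T, (mu F z - 1) = ∑ z ∈ T, F.derivative.roots.count z :=
          Finset.sum_congr rfl fun z _ => h1 z
      _ ≤ ∑ z ∈ T ∪ F.derivative.roots.toFinset, F.derivative.roots.count z :=
          Finset.sum_le_sum_of_subset Finset.subset_union_left
      _ = Multiset.card F.derivative.roots :=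
          Multiset.sum_count_eq_card fun a ha =>
            Finset.mem_union_right _ (Multiset.mem_toFinset.2 ha)
      _ = F.natDegree - 1 := h2
  · intro hT
    rw [← h2, Finset.sum_congr rfl fun z _ => h1 z]
    exact Multiset.sum_count_eq_card fun a ha => hT a (isRoot_of_mem_roots ha)

/-- disjoint fibres -/
theorem mur_fib {F : ℂ[X]} (hF : 1 ≤ F.natDegree) (S : Finset ℂ) :
    ∑ x ∈ S, ∑ z ∈ fib F x, (mu F z - 1) = ∑ z ∈ S.biUnion (fib F), (mu F z - 1) := by
  classical
  rw [Finset.sum_biUnion]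
  intro x _ y _ hxy
  rw [Function.onFun, Finset.disjoint_left]
  intro z hz hz'
  rw [mem_fib hF] at hz hz'
  exact hxy (hz.symm.trans hz')

theorem mur_count {F : ℂ[X]} (hF : 1 ≤ F.natDegree) (S : Finset ℂ) :
    ∑ x ∈ S, ∑ z ∈ fib F x, (mu F z - 1) + ∑ x ∈ S, (fib F x).card = S.card * F.natDegree := by
  rw [← Finset.sum_add_distrib, ← smul_eq_mul, ← Finset.sum_const]
  refine Finset.sum_congr rfl fun x _ => ?_
  rw [Finset.card_eq_sum_ones, ← Finset.sum_add_distrib, ← sum_mu hF x]
  refine Finset.sum_congr rfl fun z _ => ?_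
  have := one_le_mu hF z
  omega

/-- Riemann-Hurwitz inequality -/
theorem rh {F : ℂ[X]} (hF : 1 ≤ F.natDegree) (S : Finset ℂ) :
    S.card * F.natDegree + 1 ≤ F.natDegree + ∑ x ∈ S, (fib F x).card := by
  classical
  have h1 := mur_count hF S
  have h2 := (mur_sum hF (S.biUnion (fib F))).1
  rw [← mur_fib hF] at h2
  omega

/-- critical values, and the Riemann-Hurwitz equality -/
theorem rh_eq {F : ℂ[X]} (hF : 1 ≤ F.natDegree) :
    ∃ CV : Finset ℂ, (∀ y, F.eval y ∉ CV → mu F y = 1) ∧
      (∀ v ∈ CV, ∃ y, F.eval y = v ∧ 2 ≤ mu F y) ∧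
      CV.card * F.natDegree + 1 = F.natDegree + ∑ x ∈ CV, (fib F x).card := by
  classical
  have h0 := mur_der_ne hF
  have hr : ∀ y, F.derivative.IsRoot y ↔ 2 ≤ mu F y := fun y => by
    rw [← rootMultiplicity_pos h0, mur_der]
    have := one_le_mu hF y
    omega
  refine ⟨F.derivative.roots.toFinset.image (fun y => F.eval y), ?_, ?_, ?_⟩
  · intro y hy
    by_contra hne
    have h1 := one_le_mu hF y
    have h2 : F.derivative.IsRoot y := (hr y).2 (by omega)
    exact hy (Finset.mem_image.2 ⟨y, Multiset.mem_toFinset.2 ((mem_roots h0).2 h2), rfl⟩)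
  · intro v hv
    obtain ⟨y, hy, rfl⟩ := Finset.mem_image.1 hv
    exact ⟨y, rfl, (hr y).1 (isRoot_of_mem_roots (Multiset.mem_toFinset.1 hy))⟩
  · set CV := F.derivative.roots.toFinset.image (fun y => F.eval y) with hCV
    have h1 := mur_count hF CV
    have h2 := (mur_sum hF (CV.biUnion (fib F))).2 fun z hz => by
      rw [Finset.mem_biUnion]
      refine ⟨F.eval z, ?_, (mem_fib hF).2 rfl⟩
      exact Finset.mem_image.2 ⟨z, Multiset.mem_toFinset.2 ((mem_roots h0).2 hz), rfl⟩
    rw [← mur_fib hF] at h2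
    omega

/-- factorization of a fibre -/
theorem mur_prod {F : ℂ[X]} (hF : 1 ≤ F.natDegree) (x : ℂ) :
    F - C x = C F.leadingCoeff * ∏ w ∈ fib F x, (X - C w) ^ mu F w := by
  classical
  have h1 := (IsAlgClosed.splits (F - C x)).eq_prod_roots
  have h2 : (F - C x).leadingCoeff = F.leadingCoeff := by
    rw [leadingCoeff, natDegree_sub_C, coeff_sub, coeff_C, if_neg (by omega), sub_zero,
      leadingCoeff]
  rw [h2, Finset.prod_multiset_map_count] at h1
  rw [h1]
  congr 1
  refine Finset.prod_congr rfl fun w hw => ?_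
  have h3 : F.eval w = x := (mem_fib hF).1 hw
  rw [count_roots, mu, h3]

/-- a totally ramified point -/
theorem total_form {F : ℂ[X]} (hF : 1 ≤ F.natDegree) {z : ℂ} (h : mu F z = F.natDegree) :
    F = C (F.eval z) + C F.leadingCoeff * (X - C z) ^ F.natDegree := by
  classical
  have h1 := mur_prod hF (F.eval z)
  have hz : z ∈ fib F (F.eval z) := (mem_fib hF).2 rfl
  have h2 : fib F (F.eval z) = {z} := by
    rw [Finset.eq_singleton_iff_unique_mem]
    refine ⟨hz, fun w hw => ?_⟩
    by_contra hne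
    have h3 := sum_mu hF (F.eval z)
    rw [← Finset.add_sum_erase _ _ hz] at h3
    have h4 : w ∈ (fib F (F.eval z)).erase z := Finset.mem_erase.2 ⟨hne, hw⟩
    have h5 : mu F w ≤ ∑ y ∈ (fib F (F.eval z)).erase z, mu F y :=
      Finset.single_le_sum (f := fun y => mu F y) (fun _ _ => Nat.zero_le _) h4
    have h6 := one_le_mu hF w
    omega
  rw [h2, Finset.prod_singleton, h] at h1
  rw [← h1, add_sub_cancel]

/-- all points of a fibre except one have index divisible by `l` -/
theorem pow_form {F : ℂ[X]} (hF : 1 ≤ F.natDegree) {l : ℕ} (hl : 1 ≤ l) {x o : ℂ}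
    (ho : F.eval o = x) (h : ∀ w, F.eval w = x → w ≠ o → l ∣ mu F w) :
    ∃ (s : ℕ) (g : ℂ[X]), F = C x + (X - C o) ^ s * g ^ l ∧ s = mu F o := by
  classical
  have h1 := mur_prod hF x
  have hz : o ∈ fib F x := (mem_fib hF).2 ho
  obtain ⟨c, hc⟩ := IsAlgClosed.exists_pow_nat_eq F.leadingCoeff (show 0 < l by omega)
  refine ⟨mu F o, C c * ∏ w ∈ (fib F x).erase o, (X - C w) ^ (mu F w / l), ?_, rfl⟩
  have h2 : (C c * ∏ w ∈ (fib F x).erase o, (X - C w) ^ (mu F w / l)) ^ l =
      C F.leadingCoeff * ∏ w ∈ (fib F x).erase o, (X - C w) ^ mu F w := by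
    rw [mul_pow, ← C_pow, hc, ← Finset.prod_pow]
    congr 1
    refine Finset.prod_congr rfl fun w hw => ?_
    obtain ⟨hw1, hw2⟩ := Finset.mem_erase.1 hw
    rw [← pow_mul, Nat.div_mul_cancel (h w ((mem_fib hF).1 hw2) hw1)]
  rw [h2]
  rw [← Finset.mul_prod_erase _ _ hz] at h1
  rw [show (X - C o) ^ mu F o * (C F.leadingCoeff * ∏ w ∈ (fib F x).erase o, (X - C w) ^ mu F w) =
    C F.leadingCoeff * ((X - C o) ^ mu F o * ∏ w ∈ (fib F x).erase o, (X - C w) ^ mu F w) by ring,
    ← h1, add_sub_cancel]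

end H12IT
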