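import Pool.Agent.H12.IT.Fip
import Pool.Agent.H12.IT.Mur

set_option autoImplicit false

/-! PROJECT IT, module Ram: the ramification lemma. -/

open Polynomial

namespace H12IT

/-- cyclic alternative: `G` is totally ramified over `v0`, `P` over `x0`, and `x0` is the only point
of `Z⁻¹(v0)` whose index is not divisible by `deg G` -/
def CycAlt (G Z P : ℂ[X]) : Prop :=
  ∃ y0 x0 z0 : ℂ, mu G y0 = G.natDegree ∧ Z.eval x0 = G.eval y0 ∧
    Nat.Coprime G.natDegree (mu Z x0) ∧
    (∀ x, Z.eval x = G.eval y0 → x ≠ x0 → G.natDegree ∣ mu Z x) ∧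
    P.eval z0 = x0 ∧ mu P z0 = P.natDegree

/-- Chebyshev alternative -/
def ChebAlt (G Z P : ℂ[X]) : Prop :=
  3 ≤ G.natDegree ∧ ∃ V W Y : Finset ℂ, V.card = 2 ∧ W.card = 2 ∧ Y.card = 2 ∧
    (∀ y, G.eval y ∉ V → mu G y = 1) ∧ (∀ v ∈ V, ∃ y, G.eval y = v ∧ mu G y = 2) ∧
    (∀ x ∈ W, Z.eval x ∈ V ∧ mu Z x = 1) ∧ (∀ x, Z.eval x ∈ V → x ∉ W → Even (mu Z x)) ∧
    (∀ z ∈ Y, P.eval z ∈ W ∧ mu P z = 1) ∧ (∀ z, P.eval z ∈ W → z ∉ Y → mu P z = 2) ∧
    (∀ x ∈ W, ∃ z, P.eval z = x ∧ mu P z = 2)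

private theorem ram_card_le {F : ℂ[X]} (hF : 1 ≤ F.natDegree) (x : ℂ) :
    (fib F x).card ≤ F.natDegree := by
  rw [← sum_mu hF x, Finset.card_eq_sum_ones]
  exact Finset.sum_le_sum fun z _ => one_le_mu hF z

private theorem ram_rh {F : ℂ[X]} (hF : 1 ≤ F.natDegree) (S : Finset ℂ) :
    ∑ x ∈ S, (F.natDegree - (fib F x).card) + 1 ≤ F.natDegree := by
  have h1 := rh hF S
  have h2 : ∑ x ∈ S, (F.natDegree - (fib F x).card) + ∑ x ∈ S, (fib F x).card =
      S.card * F.natDegree := by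
    rw [← Finset.sum_add_distrib, ← smul_eq_mul, ← Finset.sum_const]
    exact Finset.sum_congr rfl fun x _ => Nat.sub_add_cancel (ram_card_le hF x)
  omega

private theorem ram_disj {F : ℂ[X]} (hF : 1 ≤ F.natDegree) (S : Finset ℂ) :
    (S : Set ℂ).PairwiseDisjoint (fib F) := by
  intro v _ w _ hvw
  rw [Function.onFun, Finset.disjoint_left]
  intro x hx hx'
  rw [mem_fib hF] at hx hx'
  exact hvw (hx.symm.trans hx')

/-- sum of the defects over the fibres over a finite set -/
private theorem ram_sumT {Z P : ℂ[X]} (hP : 1 ≤ P.natDegree) (hZ : 1 ≤ Z.natDegree)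
    (S : Finset ℂ) :
    ∑ v ∈ S, ∑ x ∈ fib Z v, (P.natDegree - (fib P x).card) + 1 ≤ P.natDegree := by
  rw [← Finset.sum_biUnion (ram_disj hZ S)]
  exact ram_rh hP _

private theorem ram_t {G V Z P : ℂ[X]} (hG : 1 ≤ G.natDegree) (hV : 1 ≤ V.natDegree)
    (hP : P.natDegree = G.natDegree) (hZ : Z.natDegree = V.natDegree)
    (hc : Nat.Coprime G.natDegree V.natDegree) (h : G.comp V = Z.comp P) (x : ℂ) :
    ∑ y ∈ fib G (Z.eval x), (mu G y - Nat.gcd (mu G y) (mu Z x)) ≤
      P.natDegree - (fib P x).card := by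
  have h1 := fip_fib hG hV hP hZ hc h x
  rw [Finset.sum_tsub_distrib _ fun y _ => Nat.gcd_le_left _ (one_le_mu hG y), sum_mu hG, hP]
  exact Nat.sub_le_sub_left h1 _

private theorem ram_dvd {G V Z P : ℂ[X]} (hG : 1 ≤ G.natDegree) (hV : 1 ≤ V.natDegree)
    (hP : P.natDegree = G.natDegree) (hZ : Z.natDegree = V.natDegree)
    (hc : Nat.Coprime G.natDegree V.natDegree) (h : G.comp V = Z.comp P) {x y : ℂ}
    (hxy : G.eval y = Z.eval x) (ht : P.natDegree - (fib P x).card = 0) : mu G y ∣ mu Z x := by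
  have h1 := ram_t hG hV hP hZ hc h x
  rw [ht, Nat.le_zero, Finset.sum_eq_zero_iff] at h1
  have h2 := h1 y ((mem_fib hG).2 hxy)
  have h3 := Nat.gcd_le_left (mu Z x) (one_le_mu hG y)
  have h4 : Nat.gcd (mu G y) (mu Z x) = mu G y := by omega
  rw [← h4]
  exact Nat.gcd_dvd_right _ _

/-- points over a critical value: the weight `k` -/
private theorem ram_N {G V Z P : ℂ[X]} (hG : 1 ≤ G.natDegree) (hV : 1 ≤ V.natDegree)
    (hP : P.natDegree = G.natDegree) (hZ : Z.natDegree = V.natDegree)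
    (hc : Nat.Coprime G.natDegree V.natDegree) (h : G.comp V = Z.comp P) {y : ℂ} {k : ℕ}
    (hy : k + 1 ≤ mu G y) :
    (k + 1) * (fib Z (G.eval y)).card ≤ V.natDegree +
      k * ∑ x ∈ fib Z (G.eval y), (P.natDegree - (fib P x).card) := by
  have hZ1 : 1 ≤ Z.natDegree := by omega
  have h1 : ∀ x ∈ fib Z (G.eval y), k + 1 ≤ mu Z x + k * (P.natDegree - (fib P x).card) := by
    intro x hx
    rw [mem_fib hZ1] at hx
    have h2 := one_le_mu hZ1 x
    by_cases ht : P.natDegree - (fib P x).card = 0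
    · have h3 := Nat.le_of_dvd h2 (ram_dvd hG hV hP hZ hc h hx.symm ht)
      omega
    · have h3 : k * 1 ≤ k * (P.natDegree - (fib P x).card) := Nat.mul_le_mul_left _ (by omega)
      omega
  have h2 := Finset.sum_le_sum h1
  rw [Finset.sum_const, smul_eq_mul, Finset.sum_add_distrib, sum_mu hZ1, ← Finset.mul_sum, hZ,
    mul_comm] at h2
  exact h2

/-- the unique point of the fibre product over a simple point -/
private theorem ram_uniq {G V Z P : ℂ[X]} (hG : 1 ≤ G.natDegree) (hV : 1 ≤ V.natDegree)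
    (hP : P.natDegree = G.natDegree) (hZ : Z.natDegree = V.natDegree)
    (hc : Nat.Coprime G.natDegree V.natDegree) (h : G.comp V = Z.comp P) {x y : ℂ}
    (hxy : G.eval y = Z.eval x) (hx : mu Z x = 1) :
    ∃ z, P.eval z = x ∧ V.eval z = y ∧ mu P z = mu G y ∧
      ∀ z', P.eval z' = x → V.eval z' = y → z' = z := by
  have hP1 : 1 ≤ P.natDegree := by omega
  have h1 := fip_sum hG hV hP hZ hc h hxy.symm
  have h2 := (fip_card hG hV hP hZ hc h hxy.symm).1
  rw [hx, Nat.gcd_one_right] at h2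
  have h3 : ((fib P x).filter (fun z => V.eval z = y)).card = 1 := by
    apply le_antisymm h2
    rw [Nat.one_le_iff_ne_zero]
    intro h0
    rw [Finset.card_eq_zero] at h0
    rw [h0, Finset.sum_empty] at h1
    have := one_le_mu hG y
    omega
  obtain ⟨z, hz⟩ := Finset.card_eq_one.1 h3
  have hzm : z ∈ (fib P x).filter (fun z => V.eval z = y) := by rw [hz]; simp
  rw [Finset.mem_filter, mem_fib hP1] at hzm
  refine ⟨z, hzm.1, hzm.2, ?_, ?_⟩
  · rw [hz, Finset.sum_singleton] at h1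
    exact h1
  · intro z' h4 h5
    have : z' ∈ (fib P x).filter (fun z => V.eval z = y) := by
      rw [Finset.mem_filter, mem_fib hP1]
      exact ⟨h4, h5⟩
    rw [hz, Finset.mem_singleton] at this
    exact this

private theorem ram_mu {G V Z P : ℂ[X]} (hG : 1 ≤ G.natDegree) (hV : 1 ≤ V.natDegree)
    (hP : P.natDegree = G.natDegree) (hZ : Z.natDegree = V.natDegree)
    (hc : Nat.Coprime G.natDegree V.natDegree) (h : G.comp V = Z.comp P) {z : ℂ}
    (hx : mu Z (P.eval z) = 1) : G.eval (V.eval z) = Z.eval (P.eval z) ∧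
      mu P z = mu G (V.eval z) := by
  have h1 : G.eval (V.eval z) = Z.eval (P.eval z) := by
    rw [← eval_comp, ← eval_comp, h]
  refine ⟨h1, ?_⟩
  obtain ⟨w, -, -, h2, h3⟩ := ram_uniq hG hV hP hZ hc h h1 hx
  rw [h3 z rfl rfl]
  rw [h3 z rfl rfl] at h2
  exact h2

private theorem ram_simple {G V Z P : ℂ[X]} (hG : 1 ≤ G.natDegree) (hV : 1 ≤ V.natDegree)
    (hP : P.natDegree = G.natDegree) (hZ : Z.natDegree = V.natDegree)
    (hc : Nat.Coprime G.natDegree V.natDegree) (h : G.comp V = Z.comp P) {x : ℂ}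
    (hx : mu Z x = 1) :
    ((fib P x).filter (fun z => mu P z = 1)).card =
      ((fib G (Z.eval x)).filter (fun y => mu G y = 1)).card := by
  have hP1 : 1 ≤ P.natDegree := by omega
  apply Finset.card_bij (fun z _ => V.eval z)
  · intro z hz
    rw [Finset.mem_filter, mem_fib hP1] at hz
    obtain ⟨hz1, hz2⟩ := hz
    subst hz1
    have h1 := ram_mu hG hV hP hZ hc h hx
    rw [Finset.mem_filter, mem_fib hG]
    exact ⟨h1.1, by rw [← h1.2]; exact hz2⟩
  · intro z hz z' hz' hzz
    rw [Finset.mem_filter, mem_fib hP1] at hz hz'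
    obtain ⟨hz1, hz2⟩ := hz
    subst hz1
    have h1 := ram_mu hG hV hP hZ hc h hx
    obtain ⟨w, -, -, h2, h3⟩ := ram_uniq hG hV hP hZ hc h h1.1 hx
    rw [h3 z rfl rfl, h3 z' hz'.1 hzz.symm]
  · intro y hy
    rw [Finset.mem_filter, mem_fib hG] at hy
    obtain ⟨z, h1, h2, h3, -⟩ := ram_uniq hG hV hP hZ hc h hy.1 hx
    refine ⟨z, ?_, h2⟩
    rw [Finset.mem_filter, mem_fib hP1]
    exact ⟨h1, by rw [h3]; exact hy.2⟩

/-- one critical value -/
private theorem ram_one {G V Z P : ℂ[X]} (hG : 2 ≤ G.natDegree) (hV : 1 ≤ V.natDegree)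
    (hP : P.natDegree = G.natDegree) (hZ : Z.natDegree = V.natDegree)
    (hc : Nat.Coprime G.natDegree V.natDegree) (h : G.comp V = Z.comp P) {v : ℂ}
    (hv : (fib G v).card = 1) : CycAlt G Z P := by
  have hG1 : 1 ≤ G.natDegree := by omega
  have hZ1 : 1 ≤ Z.natDegree := by omega
  have hP1 : 1 ≤ P.natDegree := by omega
  obtain ⟨y0, hy0⟩ := Finset.card_eq_one.1 hv
  have hy1 : G.eval y0 = v := by
    rw [← mem_fib hG1, hy0]; simp
  have hy2 : mu G y0 = G.natDegree := by
    have := sum_mu hG1 v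
    rw [hy0, Finset.sum_singleton] at this
    exact this
  have ht : ∀ x, Z.eval x = v → G.natDegree - Nat.gcd G.natDegree (mu Z x) ≤
      P.natDegree - (fib P x).card := by
    intro x hx
    have h1 := ram_t hG1 hV hP hZ hc h x
    rw [hx, hy0, Finset.sum_singleton, hy2] at h1
    exact h1
  have hhalf : ∀ x, ¬ G.natDegree ∣ mu Z x →
      2 * Nat.gcd G.natDegree (mu Z x) ≤ G.natDegree := by
    intro x hx
    obtain ⟨c, hc'⟩ := Nat.gcd_dvd_left G.natDegree (mu Z x)
    have h0 : c ≠ 0 := by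
      rintro rfl
      omega
    have h1 : c ≠ 1 := by
      rintro rfl
      apply hx
      rw [mul_one] at hc'
      rw [hc']
      exact Nat.gcd_dvd_right _ _
    have h2 : 2 ≤ c := by omega
    calc 2 * Nat.gcd G.natDegree (mu Z x) = Nat.gcd G.natDegree (mu Z x) * 2 := mul_comm _ _
      _ ≤ Nat.gcd G.natDegree (mu Z x) * c := Nat.mul_le_mul_left _ h2
      _ = G.natDegree := hc'.symm
  have hx0 : ∃ x0, Z.eval x0 = v ∧ ¬ G.natDegree ∣ mu Z x0 := by
    by_contra hne
    push Not at hne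
    have h1 : G.natDegree ∣ V.natDegree := by
      rw [← hZ, ← sum_mu hZ1 v]
      exact Finset.dvd_sum fun x hx => hne x ((mem_fib hZ1).1 hx)
    have h2 := Nat.Coprime.eq_one_of_dvd hc h1
    omega
  obtain ⟨x0, hx1, hx2⟩ := hx0
  have huniq : ∀ x, Z.eval x = v → x ≠ x0 → G.natDegree ∣ mu Z x := by
    intro x hx hne
    by_contra hnd
    have h1 := ram_rh hP1 {x, x0}
    rw [Finset.sum_pair hne] at h1
    have h2 := ht x hx
    have h3 := ht x0 hx1
    have h4 := hhalf x hnd
    have h5 := hhalf x0 hx2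
    omega
  have hcop : Nat.Coprime G.natDegree (mu Z x0) := by
    have h1 : ∑ x ∈ (fib Z v).erase x0, mu Z x + mu Z x0 = V.natDegree := by
      rw [Finset.sum_erase_add _ _ ((mem_fib hZ1).2 hx1), sum_mu hZ1, hZ]
    have h2 : G.natDegree ∣ ∑ x ∈ (fib Z v).erase x0, mu Z x := by
      apply Finset.dvd_sum
      intro x hx
      rw [Finset.mem_erase, mem_fib hZ1] at hx
      exact huniq x hx.2 hx.1
    obtain ⟨c, hc'⟩ := h2
    rw [← h1, hc'] at hc
    rw [Nat.coprime_mul_left_add_right] at hc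
    exact hc
  have hcard : (fib P x0).card = 1 := by
    have h1 := ht x0 hx1
    rw [hcop.gcd_eq_one] at h1
    have h2 := (fib_nonempty hP1 x0).card_pos
    have h3 := ram_card_le hP1 x0
    omega
  obtain ⟨z0, hz0⟩ := Finset.card_eq_one.1 hcard
  have hz1 : P.eval z0 = x0 := by
    rw [← mem_fib hP1, hz0]; simp
  have hz2 : mu P z0 = P.natDegree := by
    have := sum_mu hP1 x0
    rw [hz0, Finset.sum_singleton] at this
    exact this
  refine ⟨y0, x0, z0, hy2, by rw [hx1, hy1], hcop, ?_, hz1, hz2⟩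
  intro x hx hne
  exact huniq x (hx.trans hy1) hne

/-- two critical values, indices at most two -/
private theorem ram_two {G V Z P : ℂ[X]} (hG : 2 ≤ G.natDegree) (hV : 1 ≤ V.natDegree)
    (hP : P.natDegree = G.natDegree) (hZ : Z.natDegree = V.natDegree)
    (hc : Nat.Coprime G.natDegree V.natDegree) (h : G.comp V = Z.comp P) {v1 v2 : ℂ}
    (hne : v1 ≠ v2) (hcrit : ∀ y, G.eval y ∉ ({v1, v2} : Finset ℂ) → mu G y = 1)
    (h2 : ∀ v ∈ ({v1, v2} : Finset ℂ), ∃ y, G.eval y = v ∧ 2 ≤ mu G y)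
    (hle : ∀ y, G.eval y ∈ ({v1, v2} : Finset ℂ) → mu G y ≤ 2)
    (hrh : G.natDegree + 1 = (fib G v1).card + (fib G v2).card) : ChebAlt G Z P := by
  have hG1 : 1 ≤ G.natDegree := by omega
  have hZ1 : 1 ≤ Z.natDegree := by omega
  have hP1 : 1 ≤ P.natDegree := by omega
  set a : ℂ → ℕ := fun v => ((fib G v).filter (fun y => mu G y = 2)).card with ha
  set s : ℂ → ℕ := fun v => ((fib G v).filter (fun y => mu G y = 1)).card with hs
  set o : ℂ → ℕ := fun v => ((fib Z v).filter (fun x => Odd (mu Z x))).card with ho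
  have hmem : ∀ v ∈ ({v1, v2} : Finset ℂ), ∀ y ∈ fib G v, mu G y = 1 ∨ mu G y = 2 := by
    intro v hv y hy
    rw [mem_fib hG1] at hy
    have h3 := hle y (by rw [hy]; exact hv)
    have h4 := one_le_mu hG1 y
    omega
  -- counts over the critical values
  have hcount : ∀ v ∈ ({v1, v2} : Finset ℂ), (fib G v).card = a v + s v ∧
      G.natDegree = 2 * a v + s v ∧ 1 ≤ a v := by
    intro v hv
    refine ⟨?_, ?_, ?_⟩
    · rw [ha, hs]
      simp only [Finset.card_filter]
      rw [Finset.card_eq_sum_ones, ← Finset.sum_add_distrib]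
      apply Finset.sum_congr rfl
      intro y hy
      rcases hmem v hv y hy with h3 | h3 <;> simp [h3]
    · rw [ha, hs, ← sum_mu hG1 v]
      simp only [Finset.card_filter]
      rw [Finset.mul_sum, ← Finset.sum_add_distrib]
      apply Finset.sum_congr rfl
      intro y hy
      rcases hmem v hv y hy with h3 | h3 <;> simp [h3]
    · obtain ⟨y, hy1, hy2⟩ := h2 v hv
      rw [ha]
      apply Finset.card_pos.2
      refine ⟨y, ?_⟩
      rw [Finset.mem_filter, mem_fib hG1]
      refine ⟨hy1, le_antisymm (hle y (by rw [hy1]; exact hv)) hy2⟩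
  have m1 : v1 ∈ ({v1, v2} : Finset ℂ) := by simp
  have m2 : v2 ∈ ({v1, v2} : Finset ℂ) := by simp
  obtain ⟨c1, d1, e1⟩ := hcount v1 m1
  obtain ⟨c2, d2, e2⟩ := hcount v2 m2
  have hA1 : a v1 + a v2 + 1 = G.natDegree := by omega
  have hS1 : s v1 + s v2 = 2 := by omega
  -- defects
  have hdef : ∀ v ∈ ({v1, v2} : Finset ℂ), o v * a v ≤
      ∑ x ∈ fib Z v, (P.natDegree - (fib P x).card) := by
    intro v hv
    calc o v * a v = ∑ x ∈ (fib Z v).filter (fun x => Odd (mu Z x)), a v := by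
          rw [Finset.sum_const, smul_eq_mul]
      _ ≤ ∑ x ∈ (fib Z v).filter (fun x => Odd (mu Z x)), (P.natDegree - (fib P x).card) := by
          apply Finset.sum_le_sum
          intro x hx
          rw [Finset.mem_filter, mem_fib hZ1] at hx
          refine le_trans ?_ (ram_t hG1 hV hP hZ hc h x)
          rw [ha]
          simp only [Finset.card_filter]
          rw [hx.1]
          apply Finset.sum_le_sum
          intro y hy
          split_ifs with hy2
          · rw [hy2]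
            have : Nat.gcd 2 (mu Z x) = 1 := by
              rw [← Nat.coprime_iff_gcd_eq_one, Nat.coprime_two_left]
              exact hx.2
            rw [this]
          · exact Nat.zero_le _
      _ ≤ _ := Finset.sum_le_sum_of_subset (Finset.filter_subset _ _)
  have hsumT := ram_sumT hP1 hZ1 {v1, v2}
  rw [Finset.sum_pair hne] at hsumT
  have hD1 := hdef v1 m1
  have hD2 := hdef v2 m2
  have hoa : o v1 * a v1 + o v2 * a v2 ≤ a v1 + a v2 := by omega
  -- number of points
  have hN : ∀ v, 2 * (fib Z v).card ≤ V.natDegree + o v := by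
    intro v
    rw [ho, ← hZ, ← sum_mu hZ1 v]
    simp only [Finset.card_filter]
    rw [← Finset.sum_add_distrib, mul_comm, ← smul_eq_mul, ← Finset.sum_const]
    apply Finset.sum_le_sum
    intro x _
    have := one_le_mu hZ1 x
    split_ifs with hx
    · omega
    · rw [Nat.not_odd_iff_even] at hx
      obtain ⟨c, hc'⟩ := hx
      omega
  have hrZ := rh hZ1 {v1, v2}
  rw [Finset.sum_pair hne, Finset.card_pair hne, hZ] at hrZ
  have hN1 := hN v1
  have hN2 := hN v2
  have ho2 : 2 ≤ o v1 + o v2 := by omega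
  -- parity
  have hpar : ∀ v, Odd V.natDegree ↔ Odd (o v) := by
    intro v
    rw [ho, ← hZ, ← sum_mu hZ1 v]
    exact Finset.odd_sum_iff_odd_card_odd _
  have hkey : o v1 + o v2 = 2 ∧ o v1 * s v1 + o v2 * s v2 = 2 := by
    rcases Nat.even_or_odd G.natDegree with hev | hod
    · have hodd : Odd V.natDegree := by
        rw [← Nat.not_even_iff_odd]
        intro hev2
        have h3 := Nat.dvd_gcd hev.two_dvd hev2.two_dvd
        rw [hc.gcd_eq_one] at h3
        omega
      have p1 := ((hpar v1).1 hodd).pos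
      have p2 := ((hpar v2).1 hodd).pos
      have q1 : o v1 = 1 := by
        by_contra hq
        have h3 : 2 * a v1 ≤ o v1 * a v1 := Nat.mul_le_mul_right _ (by omega)
        have h4 : 1 * a v2 ≤ o v2 * a v2 := Nat.mul_le_mul_right _ (by omega)
        omega
      have q2 : o v2 = 1 := by
        by_contra hq
        have h3 : 1 * a v1 ≤ o v1 * a v1 := Nat.mul_le_mul_right _ (by omega)
        have h4 : 2 * a v2 ≤ o v2 * a v2 := Nat.mul_le_mul_right _ (by omega)
        omega
      rw [q1, q2]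
      exact ⟨rfl, by omega⟩
    · obtain ⟨k, hk⟩ := hod
      have t1 : s v1 = 1 := by omega
      have t2 : s v2 = 1 := by omega
      have t3 : a v1 = a v2 := by omega
      rw [t3, ← add_mul] at hoa
      have t4 : o v1 + o v2 ≤ 2 := by
        by_contra hq
        have h3 : 3 * a v2 ≤ (o v1 + o v2) * a v2 := Nat.mul_le_mul_right _ (by omega)
        omega
      rw [t1, t2]
      omega
  obtain ⟨hk1, hk2⟩ := hkey
  -- equality
  have heq : ∀ v ∈ ({v1, v2} : Finset ℂ), 2 * (fib Z v).card = V.natDegree + o v := by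
    intro v hv
    simp only [Finset.mem_insert, Finset.mem_singleton] at hv
    rcases hv with rfl | rfl <;> omega
  have hpt : ∀ v ∈ ({v1, v2} : Finset ℂ), ∀ x, Z.eval x = v → Odd (mu Z x) → mu Z x = 1 := by
    intro v hv x hx hodd
    have h3 := heq v hv
    rw [ho, ← hZ, ← sum_mu hZ1 v] at h3
    simp only [Finset.card_filter] at h3
    rw [← Finset.sum_add_distrib, mul_comm, ← smul_eq_mul, ← Finset.sum_const] at h3
    have h4 := (Finset.sum_eq_sum_iff_of_le (fun x _ => by
      have := one_le_mu hZ1 x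
      split_ifs with hx
      · omega
      · rw [Nat.not_odd_iff_even] at hx
        obtain ⟨c, hc'⟩ := hx
        omega)).1 h3 x ((mem_fib hZ1).2 hx)
    rw [if_pos hodd] at h4
    omega
  -- the sets
  set W : Finset ℂ := (({v1, v2} : Finset ℂ).biUnion (fib Z)).filter (fun x => Odd (mu Z x)) with hW
  have hWm : ∀ x, x ∈ W ↔ Z.eval x ∈ ({v1, v2} : Finset ℂ) ∧ Odd (mu Z x) := by
    intro x
    rw [hW, Finset.mem_filter, Finset.mem_biUnion]
    constructor
    · rintro ⟨⟨v, hv, hx⟩, hodd⟩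
      rw [mem_fib hZ1] at hx
      rw [hx]
      exact ⟨hv, hodd⟩
    · rintro ⟨hv, hodd⟩
      exact ⟨⟨_, hv, (mem_fib hZ1).2 rfl⟩, hodd⟩
  have hW1 : ∀ x ∈ W, mu Z x = 1 := by
    intro x hx
    rw [hWm] at hx
    exact hpt _ hx.1 x rfl hx.2
  have hWsum : ∀ f : ℂ → ℕ, ∑ x ∈ W, f (Z.eval x) = o v1 * f v1 + o v2 * f v2 := by
    intro f
    rw [hW, Finset.sum_filter, Finset.sum_biUnion (ram_disj hZ1 _), Finset.sum_pair hne]
    have h3 : ∀ v, ∑ x ∈ fib Z v, (if Odd (mu Z x) then f (Z.eval x) else 0) = o v * f v := by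
      intro v
      rw [← Finset.sum_filter, ho]
      rw [← smul_eq_mul, ← Finset.sum_const]
      apply Finset.sum_congr rfl
      intro x hx
      rw [Finset.mem_filter, mem_fib hZ1] at hx
      rw [hx.1]
    rw [h3, h3]
  have hWc : W.card = 2 := by
    rw [Finset.card_eq_sum_ones, hWsum (fun _ => 1)]
    omega
  have hYc : ((W.biUnion (fib P)).filter (fun z => mu P z = 1)).card = 2 := by
    rw [Finset.card_filter, Finset.sum_biUnion (ram_disj hP1 _), ← hk2, ← hWsum s]
    apply Finset.sum_congr rfl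
    intro x hx
    rw [← Finset.card_filter]
    exact ram_simple hG1 hV hP hZ hc h (hW1 x hx)
  refine ⟨by omega, {v1, v2}, W, (W.biUnion (fib P)).filter (fun z => mu P z = 1),
    Finset.card_pair hne, hWc, hYc, hcrit, ?_, ?_, ?_, ?_, ?_, ?_⟩
  · intro v hv
    obtain ⟨y, hy1, hy2⟩ := h2 v hv
    exact ⟨y, hy1, le_antisymm (hle y (by rw [hy1]; exact hv)) hy2⟩
  · intro x hx
    exact ⟨((hWm x).1 hx).1, hW1 x hx⟩
  · intro x hx hxW
    rw [hWm] at hxW
    rw [← Nat.not_odd_iff_even]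
    intro hodd
    exact hxW ⟨hx, hodd⟩
  · intro z hz
    rw [Finset.mem_filter, Finset.mem_biUnion] at hz
    obtain ⟨⟨x, hx, hzx⟩, hz1⟩ := hz
    rw [mem_fib hP1] at hzx
    rw [hzx]
    exact ⟨hx, hz1⟩
  · intro z hz hzY
    have h3 := ram_mu hG1 hV hP hZ hc h (hW1 _ hz)
    have h4 := hmem _ ((hWm _).1 hz).1 (V.eval z) ((mem_fib hG1).2 h3.1)
    rcases h4 with h4 | h4
    · exfalso
      apply hzY
      rw [Finset.mem_filter, Finset.mem_biUnion]
      exact ⟨⟨_, hz, (mem_fib hP1).2 rfl⟩, h3.2.trans h4⟩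
    · exact h3.2.trans h4
  · intro x hx
    obtain ⟨y, hy1, hy2⟩ := h2 _ ((hWm x).1 hx).1
    have hy3 : mu G y = 2 := le_antisymm (hle y (by rw [hy1]; exact ((hWm x).1 hx).1)) hy2
    obtain ⟨z, hz1, -, hz2, -⟩ := ram_uniq hG1 hV hP hZ hc h hy1 (hW1 x hx)
    exact ⟨z, hz1, hz2.trans hy3⟩

theorem ram {G V Z P : ℂ[X]} (hG : 2 ≤ G.natDegree) (hm : 4 * G.natDegree ≤ V.natDegree)
    (hP : P.natDegree = G.natDegree) (hZ : Z.natDegree = V.natDegree)
    (hc : Nat.Coprime G.natDegree V.natDegree) (h : G.comp V = Z.comp P) :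
    CycAlt G Z P ∨ ChebAlt G Z P := by
  have hG1 : 1 ≤ G.natDegree := by omega
  have hV1 : 1 ≤ V.natDegree := by omega
  have hZ1 : 1 ≤ Z.natDegree := by omega
  have hP1 : 1 ≤ P.natDegree := by omega
  obtain ⟨CV, hcrit, h2, hrh⟩ := rh_eq hG1
  have hN2 : ∀ v ∈ CV, 2 * (fib Z v).card ≤ V.natDegree +
      ∑ x ∈ fib Z v, (P.natDegree - (fib P x).card) := by
    intro v hv
    obtain ⟨y, hy1, hy2⟩ := h2 v hv
    have h3 := ram_N hG1 hV1 hP hZ hc h (y := y) (k := 1) hy2
    rw [hy1, one_mul] at h3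
    exact h3
  have hT := ram_sumT hP1 hZ1 CV
  have hrZ := rh hZ1 CV
  rw [hZ] at hrZ
  have hsum := Finset.sum_le_sum hN2
  rw [← Finset.mul_sum, Finset.sum_add_distrib, Finset.sum_const, smul_eq_mul] at hsum
  have hcard : CV.card ≤ 2 := by
    by_contra hq
    have h3 : 3 * V.natDegree ≤ CV.card * V.natDegree := Nat.mul_le_mul_right _ (by omega)
    omega
  interval_cases hcv : CV.card
  · rw [Finset.card_eq_zero] at hcv
    rw [hcv, Finset.sum_empty] at hrh
    omega
  · left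
    obtain ⟨v, hv⟩ := Finset.card_eq_one.1 hcv
    rw [hv, Finset.sum_singleton] at hrh
    exact ram_one hG hV1 hP hZ hc h (v := v) (by omega)
  · right
    obtain ⟨v1, v2, hne, hv⟩ := Finset.card_eq_two.1 hcv
    have hle : ∀ y, G.eval y ∈ CV → mu G y ≤ 2 := by
      intro y hy
      by_contra hq
      have h3 := ram_N hG1 hV1 hP hZ hc h (y := y) (k := 2) (by omega)
      have hT' := hT
      rw [← Finset.add_sum_erase _ _ hy] at hT'
      have hrZ' := hrZ
      rw [← Finset.add_sum_erase _ _ hy] at hrZ'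
      have hsum' := Finset.sum_le_sum (fun v hv => hN2 v (Finset.mem_of_mem_erase hv) :
        ∀ v ∈ CV.erase (G.eval y), 2 * (fib Z v).card ≤ V.natDegree +
          ∑ x ∈ fib Z v, (P.natDegree - (fib P x).card))
      rw [← Finset.mul_sum, Finset.sum_add_distrib, Finset.sum_const, smul_eq_mul,
        Finset.card_erase_of_mem hy, hcv] at hsum'
      omega
    subst hv
    rw [Finset.sum_pair hne] at hrh
    exact ram_two hG hV1 hP hZ hc h hne hcrit h2 hle (by omega)

end H12IT
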