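import Pool.Agent.H12.IT.Bst
import Pool.Agent.H12.IT.Ram
import Pool.Agent.H12.IT.Cnc
import Pool.Agent.H12.IT.Gcd

set_option autoImplicit false

/-! PROJECT IT, module Bse: semiconjugacies of degree prime to the degree of P. -/

open Polynomial

namespace H12IT

/-- a totally ramified point is alone in its fibre -/
theorem bse_alone {B : ℂ[X]} (hB : 1 ≤ B.natDegree) {z : ℂ} (h : mu B z = B.natDegree) {w : ℂ}
    (hw : B.eval w = B.eval z) : w = z := by
  have hf := total_form hB h
  have hB0 : B ≠ 0 := by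
    rintro rfl
    simp at hB
  have hc : B.leadingCoeff ≠ 0 := leadingCoeff_ne_zero.mpr hB0
  have h1 : B.eval w = B.eval z + B.leadingCoeff * (w - z) ^ B.natDegree := by
    conv_lhs => rw [hf]
    simp
  rw [hw] at h1
  have h2 : B.leadingCoeff * (w - z) ^ B.natDegree = 0 := by
    have h3 := sub_eq_zero.mpr h1
    linear_combination -h3
  rcases mul_eq_zero.mp h2 with h3 | h3
  · exact absurd h3 hc
  · have h4 : w - z = 0 := pow_eq_zero_iff (by omega) |>.mp h3
    exact sub_eq_zero.mp h4

theorem bse_card {B : ℂ[X]} (hB : 1 ≤ B.natDegree) {z : ℂ} (h : mu B z = B.natDegree) :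
    (fib B (B.eval z)).card = 1 := by
  rw [Finset.card_eq_one]
  refine ⟨z, ?_⟩
  ext w
  rw [mem_fib hB, Finset.mem_singleton]
  constructor
  · intro hw
    exact bse_alone hB h hw
  · rintro rfl
    rfl

/-- two totally ramified points are equal -/
theorem bse_total {B : ℂ[X]} (hB : 2 ≤ B.natDegree) {y z : ℂ} (hy : mu B y = B.natDegree)
    (hz : mu B z = B.natDegree) : y = z := by
  have h1 : 1 ≤ B.natDegree := by omega
  by_cases he : B.eval y = B.eval z
  · exact bse_alone h1 hz he
  · exfalso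
    have h2 := rh h1 {B.eval y, B.eval z}
    rw [Finset.card_pair he, Finset.sum_pair he, bse_card h1 hy, bse_card h1 hz] at h2
    omega

theorem bse_cheb {P B : ℂ[X]} (hd : 2 ≤ P.natDegree) (hP : NonSpecial P) {N : ℕ} (hN : 3 ≤ N)
    (h : ChebAlt B (it P N) B) : False := by
  obtain ⟨-, V, W, Y, hV, hW, -, h1, -, h3, h4, -, -, h7⟩ := h
  have hsub : W ⊆ V := by
    intro x hx
    obtain ⟨z, hz, hz2⟩ := h7 x hx
    by_contra hn
    have := h1 z (by rw [hz]; exact hn)
    omega
  have hWV : W = V := Finset.eq_of_subset_of_card_le hsub (by rw [hV, hW])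
  have hodd : oddMass P N W ≤ 2 := by
    have hle : oddMass P N W ≤ ∑ x ∈ W, (W.filter (fun z => (it P N).eval z = x)).card := by
      unfold oddMass
      apply Finset.sum_le_sum
      intro x hx
      have hdeg : 1 ≤ (it P N).natDegree := by
        rw [natDegree_it]
        exact Nat.one_le_pow _ _ (by omega)
      have hmem : ∀ z ∈ (fibt P N x).filter (fun z => Odd (mu (it P N) z)),
          z ∈ W.filter (fun z => (it P N).eval z = x) ∧ mu (it P N) z = 1 := by
        intro z hz
        rw [Finset.mem_filter] at hz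
        obtain ⟨hz1, hz2⟩ := hz
        have hz3 : (it P N).eval z = x := (mem_fib hdeg).mp hz1
        have hz4 : z ∈ W := by
          by_contra hn
          have h5 := h4 z (by rw [hz3, ← hWV]; exact hx) hn
          exact (Nat.not_even_iff_odd.mpr hz2) h5
        exact ⟨Finset.mem_filter.mpr ⟨hz4, hz3⟩, (h3 z hz4).2⟩
      calc ∑ z ∈ (fibt P N x).filter (fun z => Odd (mu (it P N) z)), mu (it P N) z
          = ∑ z ∈ (fibt P N x).filter (fun z => Odd (mu (it P N) z)), 1 :=
            Finset.sum_congr rfl (fun z hz => (hmem z hz).2)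
        _ = ((fibt P N x).filter (fun z => Odd (mu (it P N) z))).card := by simp
        _ ≤ (W.filter (fun z => (it P N).eval z = x)).card :=
            Finset.card_le_card (fun z hz => (hmem z hz).1)
    have heq : ∑ x ∈ W, (W.filter (fun z => (it P N).eval z = x)).card = W.card := by
      rw [Finset.card_eq_sum_card_fiberwise (f := fun z => (it P N).eval z) (t := W)]
      intro z hz
      have := (h3 z hz).1
      rw [← hWV] at this
      exact this
    rw [heq, hW] at hle
    exact hle
  have hfin := cheb_detect hd hW hN (le_trans hodd (by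
    have : 1 ≤ P.natDegree ^ (N - 3) := Nat.one_le_pow _ _ (by omega)
    omega))
  exact hP.2 ⟨W, hfin⟩

/-- structure of `B` -/
theorem b_struct {P B R1 : ℂ[X]} (hd : 2 ≤ P.natDegree) (hP : NonSpecial P) {N : ℕ} (hN : 3 ≤ N)
    (hB : 2 ≤ B.natDegree) (hc : Nat.Coprime B.natDegree P.natDegree)
    (hb : 4 * B.natDegree ≤ P.natDegree ^ N) (h : B.comp R1 = (it P N).comp B) :
    ∃ x0 z0 : ℂ, SpPt P B.natDegree x0 ∧ B.eval z0 = x0 ∧ mu B z0 = B.natDegree := by
  have hit : (it P N).natDegree = P.natDegree ^ N := natDegree_it P N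
  have hit1 : 1 ≤ (it P N).natDegree := by
    rw [hit]
    exact Nat.one_le_pow _ _ (by omega)
  have hR : R1.natDegree = (it P N).natDegree := semi_deg (by omega) hit1 h
  rcases ram hB (by rw [hR, hit]; exact hb) rfl hR.symm
    (by rw [hR, hit]; exact Nat.Coprime.pow_right _ hc) h with hcyc | hcheb
  · obtain ⟨y0, x0, z0, h1, h2, h3, h4, h5, h6⟩ := hcyc
    have hyz : y0 = z0 := bse_total hB h1 h6
    subst hyz
    rw [h5] at h2 h4
    exact ⟨x0, y0, orbit_arg hd hP hB hc hN h2 h3 h4, h5, h6⟩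
  · exact (bse_cheb hd hP hN hcheb).elim

/-- hence `B` is a semiconjugacy for `P` itself -/
theorem b_semi {P B R1 : ℂ[X]} (hd : 2 ≤ P.natDegree) (hP : NonSpecial P) {N : ℕ} (hN : 3 ≤ N)
    (hB : 1 ≤ B.natDegree) (hc : Nat.Coprime B.natDegree P.natDegree)
    (hb : 4 * B.natDegree ≤ P.natDegree ^ N) (h : B.comp R1 = (it P N).comp B) :
    (∃ S : ℂ[X], B.comp S = P.comp B) ∧ B.natDegree ≤ P.natDegree := by
  rcases Nat.lt_or_ge B.natDegree 2 with hlt | hge
  · have h1 : B.natDegree = 1 := by omega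
    obtain ⟨L', -, hL, -⟩ := lin_inv h1
    refine ⟨⟨L'.comp (P.comp B), ?_⟩, by omega⟩
    rw [← comp_assoc, hL, X_comp]
  · obtain ⟨x0, z0, hsp, hz, hm⟩ := b_struct hd hP hN hge hc hb h
    refine ⟨?_, spPt_le hd hP hsp⟩
    obtain ⟨hs1, hs2, -⟩ := hsp
    have hBf := total_form hB hm
    rw [hz] at hBf
    obtain ⟨s, g, hPf, hs⟩ := pow_form (F := P) (by omega) hB hs1 hs2
    have hs1' : 1 ≤ s := by
      rw [hs]
      exact one_le_mu (by omega) x0
    obtain ⟨c', hc'⟩ := IsAlgClosed.exists_pow_nat_eq (B.leadingCoeff ^ (s - 1))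
      (show 0 < B.natDegree by omega)
    refine ⟨C z0 + C c' * ((X - C z0) ^ s * g.comp B), ?_⟩
    have e1 : P.comp B = C x0 + (B - C x0) ^ s * (g.comp B) ^ B.natDegree := by
      conv_lhs => rw [hPf]
      simp
    have e2 : B - C x0 = C B.leadingCoeff * (X - C z0) ^ B.natDegree := by
      conv_lhs => rw [hBf]
      ring
    have e3 : ∀ S : ℂ[X], B.comp S = C x0 + C B.leadingCoeff * (S - C z0) ^ B.natDegree := by
      intro S
      conv_lhs => rw [hBf]
      simp
    rw [e3, e1, e2]
    have e4 : C z0 + C c' * ((X - C z0) ^ s * g.comp B) - C z0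
        = C c' * ((X - C z0) ^ s * g.comp B) := by ring
    rw [e4, mul_pow, mul_pow, mul_pow, ← C_pow, hc']
    have e5 : C (B.leadingCoeff ^ s) = C B.leadingCoeff * C (B.leadingCoeff ^ (s - 1)) := by
      rw [← C_mul, ← pow_succ']
      congr 2
      omega
    have e6 : (C B.leadingCoeff : ℂ[X]) ^ s = C B.leadingCoeff * C (B.leadingCoeff ^ (s - 1)) := by
      rw [← C_pow, e5]
    rw [e6, ← pow_mul, ← pow_mul, Nat.mul_comm s B.natDegree]
    ring

/-- two such `B` of the same degree differ by a linear map -/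
theorem b_unique {P B R1 B' R1' : ℂ[X]} (hd : 2 ≤ P.natDegree) (hP : NonSpecial P) {N : ℕ}
    (hN : 3 ≤ N) (hB : 1 ≤ B.natDegree) (hc : Nat.Coprime B.natDegree P.natDegree)
    (hb : 4 * B.natDegree ≤ P.natDegree ^ N) (h : B.comp R1 = (it P N).comp B)
    (hBB : B'.natDegree = B.natDegree) (h' : B'.comp R1' = (it P N).comp B') :
    ∃ L : ℂ[X], L.natDegree = 1 ∧ B' = B.comp L := by
  rcases Nat.lt_or_ge B.natDegree 2 with hlt | hge
  · have h1 : B.natDegree = 1 := by omega
    obtain ⟨L', hL', hL, -⟩ := lin_inv h1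
    refine ⟨L'.comp B', ?_, ?_⟩
    · rw [natDegree_comp, hL', hBB, h1]
    · rw [← comp_assoc, hL, X_comp]
  · obtain ⟨x0, z0, hsp, hz, hm⟩ := b_struct hd hP hN hge hc hb h
    obtain ⟨x1, z1, hsp1, hz1, hm1⟩ := b_struct (B := B') hd hP hN (by rw [hBB]; exact hge)
      (by rw [hBB]; exact hc) (by rw [hBB]; exact hb) h'
    rw [hBB] at hsp1
    have hx : x0 = x1 := spPt_unique hd hP hge hsp hsp1
    subst hx
    have hB0 : B ≠ 0 := by
      rintro rfl
      simp at hge
    have hlc : B.leadingCoeff ≠ 0 := leadingCoeff_ne_zero.mpr hB0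
    have hB0' : B' ≠ 0 := by
      rintro rfl
      rw [natDegree_zero] at hBB
      omega
    have hlc' : B'.leadingCoeff ≠ 0 := leadingCoeff_ne_zero.mpr hB0'
    have hBf := total_form hB hm
    rw [hz] at hBf
    have hBf' := total_form (show 1 ≤ B'.natDegree by omega) hm1
    rw [hz1, hBB] at hBf'
    obtain ⟨e, he⟩ := IsAlgClosed.exists_pow_nat_eq (B'.leadingCoeff / B.leadingCoeff)
      (show 0 < B.natDegree by omega)
    have he0 : e ≠ 0 := by
      rintro rfl
      rw [zero_pow (by omega)] at he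
      exact (div_ne_zero hlc' hlc) he.symm
    refine ⟨C z0 + C e * (X - C z1), ?_, ?_⟩
    · have h2 : C z0 + C e * (X - C z1) = C e * X + C (z0 - e * z1) := by
        rw [C_sub, C_mul]
        ring
      rw [h2]
      exact natDegree_linear he0
    · have e3 : ∀ S : ℂ[X], B.comp S = C x0 + C B.leadingCoeff * (S - C z0) ^ B.natDegree := by
        intro S
        conv_lhs => rw [hBf]
        simp
      rw [e3]
      have e4 : C z0 + C e * (X - C z1) - C z0 = C e * (X - C z1) := by ring
      rw [e4, mul_pow, ← C_pow, he, ← mul_assoc, ← C_mul]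
      rw [mul_div_cancel₀ _ hlc]
      exact hBf'

end H12IT
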