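import Pool.Agent.H12.IT.Cnt

set_option autoImplicit false

/-! PROJECT IT, module Bst: semiconjugacies of degree prime to `d`. -/

open Polynomial

namespace H12IT

/-- the special fixed point of exponent `l` -/
def SpPt (P : ℂ[X]) (l : ℕ) (x0 : ℂ) : Prop :=
  P.eval x0 = x0 ∧ (∀ w, P.eval w = x0 → w ≠ x0 → l ∣ mu P w) ∧ Nat.Coprime l (mu P x0)

theorem bst_fib {P : ℂ[X]} (hd : 2 ≤ P.natDegree) {x z : ℂ} (e : P.eval z = x)
    (h : ∀ w, P.eval w = x → w ≠ z → 2 ≤ mu P w) :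
    2 * (fib P x).card + mu P z ≤ P.natDegree + 2 ∧
      (P.natDegree + 2 ≤ 2 * (fib P x).card + mu P z →
        ∀ w, P.eval w = x → w ≠ z → mu P w = 2) := by
  have h1 : 1 ≤ P.natDegree := by omega
  have hz : z ∈ fib P x := (mem_fib h1).2 e
  have hs : mu P z + ∑ w ∈ (fib P x).erase z, mu P w = P.natDegree := by
    rw [Finset.add_sum_erase _ _ hz]
    exact sum_mu h1 x
  have hc : ((fib P x).erase z).card + 1 = (fib P x).card := Finset.card_erase_add_one hz
  have hg : ∀ w ∈ (fib P x).erase z, 2 ≤ mu P w := by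
    intro w hw
    rw [Finset.mem_erase] at hw
    exact h w ((mem_fib h1).1 hw.2) hw.1
  have h2 : ((fib P x).erase z).card * 2 ≤ ∑ w ∈ (fib P x).erase z, mu P w := by
    have := Finset.card_nsmul_le_sum _ _ _ hg
    simpa using this
  refine ⟨by omega, fun hle w hw hwz => ?_⟩
  by_contra hne
  have hw' : w ∈ (fib P x).erase z := Finset.mem_erase.2 ⟨hwz, (mem_fib h1).2 hw⟩
  have h3 : ∑ w ∈ (fib P x).erase z, 2 < ∑ w ∈ (fib P x).erase z, mu P w := by
    refine Finset.sum_lt_sum hg ⟨w, hw', ?_⟩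
    have := hg w hw'
    omega
  rw [Finset.sum_const, smul_eq_mul] at h3
  omega

theorem bst_pair {P : ℂ[X]} (hd : 2 ≤ P.natDegree) {x0 x1 z0 z1 : ℂ} (hx : x0 ≠ x1)
    (e0 : P.eval z0 = x0) (e1 : P.eval z1 = x1)
    (h0 : ∀ w, P.eval w = x0 → w ≠ z0 → 2 ≤ mu P w)
    (h1 : ∀ w, P.eval w = x1 → w ≠ z1 → 2 ≤ mu P w) :
    mu P z0 = 1 ∧ mu P z1 = 1 ∧ (∀ w, P.eval w = x0 → w ≠ z0 → mu P w = 2) ∧
      (∀ w, P.eval w = x1 → w ≠ z1 → mu P w = 2) ∧
      (fib P x0).card + (fib P x1).card = P.natDegree + 1 := by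
  have hd1 : 1 ≤ P.natDegree := by omega
  obtain ⟨a0, b0⟩ := bst_fib hd e0 h0
  obtain ⟨a1, b1⟩ := bst_fib hd e1 h1
  have m0 := one_le_mu hd1 z0
  have m1 := one_le_mu hd1 z1
  have hr := rh hd1 ({x0, x1} : Finset ℂ)
  rw [Finset.card_pair hx, Finset.sum_pair hx] at hr
  have hz0 : mu P z0 = 1 := by omega
  have hz1 : mu P z1 = 1 := by omega
  exact ⟨hz0, hz1, b0 (by omega), b1 (by omega), by omega⟩

theorem bst_two {P : ℂ[X]} (hd : 2 ≤ P.natDegree) {l : ℕ} (hl : 2 ≤ l) {w : ℂ}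
    (h : l ∣ mu P w) : 2 ≤ mu P w := by
  have h1 := one_le_mu (by omega : 1 ≤ P.natDegree) w
  exact hl.trans (Nat.le_of_dvd (by omega) h)

/-- outside two points with few preimages everything is simple -/
theorem bst_simple {P : ℂ[X]} (hd : 2 ≤ P.natDegree) {x0 x1 : ℂ} (hx : x0 ≠ x1)
    (hc : (fib P x0).card + (fib P x1).card = P.natDegree + 1) {v w : ℂ} (hv0 : v ≠ x0)
    (hv1 : v ≠ x1) (hw : P.eval w = v) : mu P w = 1 := by
  have hd1 : 1 ≤ P.natDegree := by omega
  have hn : v ∉ ({x0, x1} : Finset ℂ) := by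
    rw [Finset.mem_insert, Finset.mem_singleton]
    rintro (h | h)
    · exact hv0 h
    · exact hv1 h
  have hr := rh hd1 (insert v ({x0, x1} : Finset ℂ))
  rw [Finset.card_insert_of_notMem hn, Finset.sum_insert hn, Finset.card_pair hx,
    Finset.sum_pair hx] at hr
  have hcv : P.natDegree ≤ (fib P v).card := by
    have : (2 + 1) * P.natDegree = 2 * P.natDegree + P.natDegree := by ring
    omega
  have hs := sum_mu hd1 v
  by_contra hne
  have hw' : w ∈ fib P v := (mem_fib hd1).2 hw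
  have h3 : ∑ w ∈ fib P v, 1 < ∑ w ∈ fib P v, mu P w := by
    refine Finset.sum_lt_sum (fun u _ => one_le_mu hd1 u) ⟨w, hw', ?_⟩
    have := one_le_mu hd1 w
    omega
  rw [Finset.sum_const, smul_eq_mul] at h3
  omega

theorem bst_mu {P : ℂ[X]} (hd : 2 ≤ P.natDegree) (k j : ℕ) (z : ℂ) :
    mu (it P (k + (j + 1))) z =
      mu (it P k) ((it P (j + 1)).eval z) * (mu P ((it P j).eval z) * mu (it P j) z) := by
  have hk : ∀ m, 1 ≤ (it P m).natDegree := by
    intro m
    rw [natDegree_it]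
    exact Nat.one_le_pow _ _ (by omega)
  rw [it_add, mu_comp (hk k) (hk (j + 1)), it_succ P j, mu_comp (by omega) (hk j)]

/-- one step of the orbit argument -/
theorem bst_step {P : ℂ[X]} (hd : 2 ≤ P.natDegree) {l k j : ℕ}
    (hc : Nat.Coprime l P.natDegree) {x0 : ℂ} (h0 : (it P (k + (j + 1))).eval x0 = x0)
    (h1 : Nat.Coprime l (mu (it P (k + (j + 1))) x0))
    (h2 : ∀ x, (it P (k + (j + 1))).eval x = x0 → x ≠ x0 → l ∣ mu (it P (k + (j + 1))) x) :
    Nat.Coprime l (mu P ((it P j).eval x0)) ∧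
      ∀ w, P.eval w = (it P (j + 1)).eval x0 → w ≠ (it P j).eval x0 → l ∣ mu P w := by
  have hk : ∀ m, 1 ≤ (it P m).natDegree := by
    intro m
    rw [natDegree_it]
    exact Nat.one_le_pow _ _ (by omega)
  rw [bst_mu hd] at h1
  have c1 : Nat.Coprime l (mu (it P k) ((it P (j + 1)).eval x0)) :=
    Nat.Coprime.coprime_mul_right_right h1
  have c2 : Nat.Coprime l (mu P ((it P j).eval x0)) :=
    Nat.Coprime.coprime_mul_right_right (Nat.Coprime.coprime_mul_left_right h1)
  refine ⟨c2, fun w hw hne => ?_⟩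
  have hz : ∀ z ∈ fib (it P j) w, l ∣ mu P w * mu (it P j) z := by
    intro z hz
    have hzw : (it P j).eval z = w := (mem_fib (hk j)).1 hz
    have hzj : (it P (j + 1)).eval z = (it P (j + 1)).eval x0 := by
      rw [it_succ P j, eval_comp, hzw, hw]
      rw [it_succ P j, eval_comp]
    have hzN : (it P (k + (j + 1))).eval z = x0 := by
      have h3 : (it P (k + (j + 1))).eval z = (it P k).eval ((it P (j + 1)).eval z) := by
        rw [it_add, eval_comp]
      have h4 : (it P (k + (j + 1))).eval x0 = (it P k).eval ((it P (j + 1)).eval x0) := by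
        rw [it_add, eval_comp]
      rw [h3, hzj, ← h4, h0]
    have hzx : z ≠ x0 := by
      intro h
      apply hne
      rw [← hzw, h]
    have h5 := h2 z hzN hzx
    rw [bst_mu hd, hzj, hzw] at h5
    exact c1.dvd_of_dvd_mul_left h5
  have hsum : l ∣ mu P w * P.natDegree ^ j := by
    have h6 := sum_mu (hk j) w
    rw [natDegree_it] at h6
    rw [← h6, Finset.mul_sum]
    exact Finset.dvd_sum hz
  exact (Nat.Coprime.pow_right j hc).dvd_of_dvd_mul_right hsum

theorem spPt_unique {P : ℂ[X]} (hd : 2 ≤ P.natDegree) (hP : NonSpecial P) {l : ℕ} (hl : 2 ≤ l)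
    {x0 x1 : ℂ} (h0 : SpPt P l x0) (h1 : SpPt P l x1) : x0 = x1 := by
  by_contra hne
  obtain ⟨e0, a0, -⟩ := h0
  obtain ⟨e1, a1, -⟩ := h1
  obtain ⟨m0, m1, b0, b1, -⟩ := bst_pair hd hne e0 e1
    (fun w hw hw' => bst_two hd hl (a0 w hw hw')) (fun w hw hw' => bst_two hd hl (a1 w hw hw'))
  apply hP.2
  refine ⟨{x0, x1}, Finset.card_pair hne, ?_, ?_⟩
  · intro w hw
    rw [Finset.mem_insert, Finset.mem_singleton] at hw
    rcases hw with rfl | rfl
    · rw [e0]
      exact ⟨Finset.mem_insert_self _ _, m0⟩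
    · rw [e1]
      exact ⟨Finset.mem_insert_of_mem (Finset.mem_singleton_self _), m1⟩
  · intro w hw hw'
    rw [Finset.mem_insert, Finset.mem_singleton] at hw hw'
    rcases hw with hw | hw
    · exact b0 w hw (fun h => hw' (Or.inl h))
    · exact b1 w hw (fun h => hw' (Or.inr h))

theorem spPt_le {P : ℂ[X]} (hd : 2 ≤ P.natDegree) (hP : NonSpecial P) {l : ℕ}
    {x0 : ℂ} (h0 : SpPt P l x0) : l ≤ P.natDegree := by
  have hd1 : 1 ≤ P.natDegree := by omega
  obtain ⟨e0, a0, -⟩ := h0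
  by_cases hex : ∃ w, P.eval w = x0 ∧ w ≠ x0
  · obtain ⟨w, hw, hw'⟩ := hex
    have h1 := one_le_mu hd1 w
    exact (Nat.le_of_dvd (by omega) (a0 w hw hw')).trans (mu_le hd1 w)
  · exfalso
    apply hP.1
    refine ⟨x0, e0, ?_⟩
    have hf : fib P x0 = {x0} := by
      ext w
      rw [mem_fib hd1, Finset.mem_singleton]
      constructor
      · intro hw
        by_contra hne
        exact hex ⟨w, hw, hne⟩
      · rintro rfl
        exact e0
    have hs := sum_mu hd1 x0
    rw [hf, Finset.sum_singleton] at hs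
    exact hs

/-- the orbit argument: `P^N` has all indices over `x0` except at `x0` divisible by `l` -/
theorem orbit_arg {P : ℂ[X]} (hd : 2 ≤ P.natDegree) (hP : NonSpecial P) {l N : ℕ} (hl : 2 ≤ l)
    (hc : Nat.Coprime l P.natDegree) (hN : 3 ≤ N) {x0 : ℂ} (h0 : (it P N).eval x0 = x0)
    (h1 : Nat.Coprime l (mu (it P N) x0))
    (h2 : ∀ x, (it P N).eval x = x0 → x ≠ x0 → l ∣ mu (it P N) x) : SpPt P l x0 := by
  have hd1 : 1 ≤ P.natDegree := by omega
  -- the orbit `y j = P^j (x0)`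
  have hstep : ∀ j, j < N → Nat.Coprime l (mu P ((it P j).eval x0)) ∧
      ∀ w, P.eval w = (it P (j + 1)).eval x0 → w ≠ (it P j).eval x0 → l ∣ mu P w := by
    intro j hj
    obtain ⟨k, rfl⟩ : ∃ k, N = k + (j + 1) := ⟨N - (j + 1), by omega⟩
    exact bst_step hd hc h0 h1 h2
  have hnext : ∀ j, P.eval ((it P j).eval x0) = (it P (j + 1)).eval x0 := by
    intro j
    rw [it_succ P j, eval_comp]
  have hy0 : (it P 0).eval x0 = x0 := by rw [it_zero, eval_X]
  have hP0 : P.eval x0 = (it P 1).eval x0 := by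
    have := hnext 0
    rwa [hy0] at this
  by_cases hfix : P.eval x0 = x0
  · obtain ⟨c0, d0⟩ := hstep 0 (by omega)
    rw [hy0] at c0
    refine ⟨hfix, fun w hw hw' => d0 w ?_ ?_, c0⟩
    · rw [zero_add, ← hP0, hfix]
      exact hw
    · rw [hy0]
      exact hw'
  exfalso
  obtain ⟨M, rfl⟩ : ∃ M, N = M + 3 := ⟨N - 3, by omega⟩
  obtain ⟨y3, hy3⟩ : ∃ y, y = (it P M).eval x0 := ⟨_, rfl⟩
  obtain ⟨y2, hy2⟩ : ∃ y, y = (it P (M + 1)).eval x0 := ⟨_, rfl⟩
  obtain ⟨y1, hy1⟩ : ∃ y, y = (it P (M + 2)).eval x0 := ⟨_, rfl⟩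
  have e1 : P.eval y1 = x0 := by rw [hy1, hnext (M + 2), h0]
  have e2 : P.eval y2 = y1 := by rw [hy2, hy1, hnext (M + 1)]
  have e3 : P.eval y3 = y2 := by rw [hy3, hy2, hnext M]
  have g1 : ∀ w, P.eval w = x0 → w ≠ y1 → l ∣ mu P w := by
    intro w hw hw'
    refine (hstep (M + 2) (by omega)).2 w ?_ ?_
    · rw [hw, h0]
    · rw [← hy1]
      exact hw'
  have g2 : ∀ w, P.eval w = y1 → w ≠ y2 → l ∣ mu P w := by
    intro w hw hw'
    refine (hstep (M + 1) (by omega)).2 w ?_ ?_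
    · rw [hw, hy1]
    · rw [← hy2]
      exact hw'
  have g3 : ∀ w, P.eval w = y2 → w ≠ y3 → l ∣ mu P w := by
    intro w hw hw'
    refine (hstep M (by omega)).2 w ?_ ?_
    · rw [hw, hy2]
    · rw [← hy3]
      exact hw'
  have n1 : x0 ≠ y1 := by
    intro h
    apply hfix
    have h3 := e1
    rw [← h] at h3
    exact h3
  have n2 : y1 ≠ y2 := by
    intro h
    apply n1
    have h3 := e2
    rw [← h, e1] at h3
    exact h3
  obtain ⟨m1, m2, b1, b2, hcard⟩ := bst_pair hd n1 e1 e2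
    (fun w hw hw' => bst_two hd hl (g1 w hw hw')) (fun w hw hw' => bst_two hd hl (g2 w hw hw'))
  obtain ⟨-, m3, -, b3, -⟩ := bst_pair hd n2 e2 e3
    (fun w hw hw' => bst_two hd hl (g2 w hw hw')) (fun w hw hw' => bst_two hd hl (g3 w hw hw'))
  -- `y2` has a double preimage
  have hy : y2 = x0 := by
    by_contra hne
    have hs := sum_mu hd1 y2
    have hf : ∃ w, P.eval w = y2 ∧ w ≠ y3 := by
      by_contra hcon
      have hf : fib P y2 = {y3} := by
        ext w
        rw [mem_fib hd1, Finset.mem_singleton]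
        constructor
        · intro hw
          by_contra hne
          exact hcon ⟨w, hw, hne⟩
        · rintro rfl
          exact e3
      rw [hf, Finset.sum_singleton, m3] at hs
      omega
    obtain ⟨w, hw, hw'⟩ := hf
    have h4 := b3 w hw hw'
    have h5 := bst_simple hd n1 hcard hne n2.symm hw
    omega
  apply hP.2
  refine ⟨{x0, y1}, Finset.card_pair n1, ?_, ?_⟩
  · intro w hw
    rw [Finset.mem_insert, Finset.mem_singleton] at hw
    rcases hw with hw | hw
    · rw [hw, ← hy, e2]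
      exact ⟨Finset.mem_insert_of_mem (Finset.mem_singleton_self _), m2⟩
    · rw [hw, e1]
      exact ⟨Finset.mem_insert_self _ _, m1⟩
  · intro w hw hw'
    rw [Finset.mem_insert, Finset.mem_singleton] at hw hw'
    rcases hw with hw | hw
    · exact b1 w hw (fun h => hw' (Or.inr h))
    · exact b2 w hw (fun h => hw' (Or.inl (h.trans hy)))

end H12IT
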