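import Pool.Agent.H12.IT.Cgm

set_option autoImplicit false

/-! PROJECT IT, module Cgd: descent. -/

open Polynomial

namespace H12IT

private theorem cgd_large {R : ℂ[X]} (hR : 1 ≤ R.natDegree) (R1 : ℝ) :
    ∃ R2 : ℝ, ∀ z : ℂ, R2 ≤ ‖z‖ → R1 ≤ ‖R.eval z‖ := by
  have h1 : Filter.Tendsto (fun z : ℂ => ‖R.eval z‖) (Bornology.cobounded ℂ) Filter.atTop :=
    R.tendsto_norm_atTop (natDegree_pos_iff_degree_pos.1 hR) tendsto_norm_cobounded_atTop
  have h2 := (Filter.tendsto_atTop.1 h1) R1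
  obtain ⟨R2, -, h3⟩ := (Filter.hasBasis_cobounded_norm (E := ℂ)).eventually_iff.1 h2
  exact ⟨R2, fun z hz => h3 hz⟩

/-- common right factor of degree `gcd`, with descent of `R` -/
theorem descend {p1 p2 R M1 M2 : ℂ[X]} (h1 : 1 ≤ p1.natDegree) (h2 : 1 ≤ p2.natDegree)
    (hR : 2 ≤ R.natDegree) (e1 : p1.comp R = M1.comp p1) (e2 : p2.comp R = M2.comp p2) :
    ∃ u q1 q2 R' : ℂ[X], u.natDegree = Nat.gcd p1.natDegree p2.natDegree ∧
      p1 = q1.comp u ∧ p2 = q2.comp u ∧ u.comp R = R'.comp u ∧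
      q1.comp R' = M1.comp q1 ∧ q2.comp R' = M2.comp q2 := by
  have hm : 1 ≤ Nat.gcd p1.natDegree p2.natDegree := Nat.gcd_pos_of_pos_left _ h1
  obtain ⟨K, R0, hK⟩ := common_germs h1 h2 hR e1 e2 (Nat.gcd_dvd_left _ _) (Nat.gcd_dvd_right _ _) hm
  obtain ⟨u, q1, q2, hu, hp1, hp2, R1, hR1⟩ := common_factor h1 h2 rfl K R0 hK
  obtain ⟨R2, hR2⟩ := cgd_large (by omega : 1 ≤ R.natDegree) R1
  have hu1 : 1 ≤ u.natDegree := by rw [hu]; exact hm
  have ev : ∀ (p M : ℂ[X]), p.comp R = M.comp p → ∀ z, p.eval (R.eval z) = M.eval (p.eval z) := by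
    intro p M h z
    rw [← eval_comp, ← eval_comp, h]
  obtain ⟨R', hR'⟩ := inv_comp (F := u.comp R) hu1 R2 (by
    intro z0 hz0 z1 hz
    rw [eval_comp, eval_comp]
    have a1 : p1.eval z1 = p1.eval z0 := by rw [hp1, eval_comp, eval_comp, hz]
    have a2 : p2.eval z1 = p2.eval z0 := by rw [hp2, eval_comp, eval_comp, hz]
    exact hR1 _ (hR2 z0 hz0) _ (by rw [ev p1 M1 e1, ev p1 M1 e1, a1])
      (by rw [ev p2 M2 e2, ev p2 M2 e2, a2]))
  refine ⟨u, q1, q2, R', hu, hp1, hp2, hR', ?_, ?_⟩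
  · apply comp_cancel hu1
    rw [comp_assoc, ← hR', ← comp_assoc, ← hp1, e1, comp_assoc, ← hp1]
  · apply comp_cancel hu1
    rw [comp_assoc, ← hR', ← comp_assoc, ← hp2, e2, comp_assoc, ← hp2]

/-- semiconjugacies from `R` of the same degree -/
theorem down_unique {p1 p2 R M1 M2 : ℂ[X]} (h1 : 1 ≤ p1.natDegree)
    (hR : 2 ≤ R.natDegree) (e1 : p1.comp R = M1.comp p1) (e2 : p2.comp R = M2.comp p2)
    (hd : p2.natDegree = p1.natDegree) :
    ∃ L : ℂ[X], L.natDegree = 1 ∧ p2 = L.comp p1 ∧ M2.comp L = L.comp M1 := by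
  obtain ⟨u, q1, q2, R', hu, hp1, hp2, -, -, -⟩ := descend h1 (by omega) hR e1 e2
  rw [hd, Nat.gcd_self] at hu
  have hq : ∀ q p : ℂ[X], p = q.comp u → p.natDegree = p1.natDegree → q.natDegree = 1 := by
    intro q p h h'
    have h3 : p.natDegree = q.natDegree * u.natDegree := by rw [h, natDegree_comp]
    rw [h', hu] at h3
    exact Nat.eq_of_mul_eq_mul_right (by omega : 0 < p1.natDegree) (by rw [one_mul]; exact h3.symm)
  have hq1 := hq q1 p1 hp1 rfl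
  have hq2 := hq q2 p2 hp2 hd
  obtain ⟨q1', hq1', -, hinv⟩ := lin_inv hq1
  have hu' : u = q1'.comp p1 := by
    conv_rhs => rw [hp1, ← comp_assoc, hinv, X_comp]
  have hL : p2 = (q2.comp q1').comp p1 := by
    rw [comp_assoc, ← hu']; exact hp2
  refine ⟨q2.comp q1', by rw [natDegree_comp, hq2, hq1'], hL, ?_⟩
  apply comp_cancel h1
  rw [comp_assoc, ← hL, ← e2, comp_assoc _ M1, ← e1, ← comp_assoc, ← hL]

end H12IT
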