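import Pool.Agent.H12.IT.Com
import Pool.Agent.H12.IT.Bas

set_option autoImplicit false

/-! PROJECT IT, module Cgm: two semiconjugacies from the same polynomial `R` have common germs. -/

open Polynomial

namespace H12IT

/-- a polynomial of degree at most `n` is `O(|z|^n)` -/
theorem cgm_bound (S : ℂ[X]) (n : ℕ) (hS : S.natDegree ≤ n) :
    ∃ C : ℝ, 0 ≤ C ∧ ∀ z : ℂ, 1 ≤ ‖z‖ → ‖S.eval z‖ ≤ C * ‖z‖ ^ n := by
  refine ⟨∑ i ∈ Finset.range (n + 1), ‖S.coeff i‖, Finset.sum_nonneg fun i _ => norm_nonneg _, ?_⟩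
  intro z hz
  rw [eval_eq_sum_range' (Nat.lt_succ_of_le hS) z, Finset.sum_mul]
  refine (norm_sum_le _ _).trans (Finset.sum_le_sum fun i hi => ?_)
  rw [norm_mul, norm_pow]
  have hi' : i ≤ n := by
    have := Finset.mem_range.mp hi
    omega
  exact mul_le_mul_of_nonneg_left (pow_le_pow_right₀ hz hi') (norm_nonneg _)

theorem cgm_split (R : ℂ[X]) (z : ℂ) :
    R.eval z = R.eraseLead.eval z + R.leadingCoeff * z ^ R.natDegree := by
  conv_lhs => rw [← eraseLead_add_C_mul_X_pow R]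
  rw [eval_add, eval_mul, eval_C, eval_pow, eval_X]

/-- lower bound near infinity -/
theorem cgm_low {R : ℂ[X]} (hR : 1 ≤ R.natDegree) :
    ∃ c R0 : ℝ, 0 < c ∧ 1 ≤ R0 ∧ ∀ z : ℂ, R0 ≤ ‖z‖ → c * ‖z‖ ^ R.natDegree ≤ ‖R.eval z‖ := by
  obtain ⟨C, hC, hb⟩ := cgm_bound R.eraseLead (R.natDegree - 1) (eraseLead_natDegree_le R)
  have ha : 0 < ‖R.leadingCoeff‖ := by
    rw [norm_pos_iff, Ne, leadingCoeff_eq_zero]
    rintro rfl
    simp at hR
  refine ⟨‖R.leadingCoeff‖ / 2, max 1 (2 * C / ‖R.leadingCoeff‖), by positivity,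
    le_max_left _ _, ?_⟩
  intro z hz
  have hz1 : 1 ≤ ‖z‖ := (le_max_left _ _).trans hz
  have hz2 : 2 * C ≤ ‖R.leadingCoeff‖ * ‖z‖ := by
    have := (le_max_right _ _).trans hz
    rw [div_le_iff₀ ha] at this
    linarith
  have h1 : ‖R.leadingCoeff * z ^ R.natDegree‖ ≤ ‖R.eval z‖ + ‖R.eraseLead.eval z‖ := by
    have : R.leadingCoeff * z ^ R.natDegree = R.eval z - R.eraseLead.eval z := by
      rw [cgm_split R z]; ring
    rw [this]
    exact norm_sub_le _ _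
  rw [norm_mul, norm_pow] at h1
  have h2 := hb z hz1
  have h3 : ‖z‖ ^ R.natDegree = ‖z‖ * ‖z‖ ^ (R.natDegree - 1) := by
    rw [← pow_succ', Nat.sub_add_cancel hR]
  have h4 : 0 ≤ ‖z‖ ^ (R.natDegree - 1) := by positivity
  have h5 : 2 * C * ‖z‖ ^ (R.natDegree - 1) ≤ ‖R.leadingCoeff‖ * ‖z‖ ^ R.natDegree := by
    rw [h3, ← mul_assoc]
    exact mul_le_mul_of_nonneg_right hz2 h4
  linarith

/-- near `w z` the polynomial is near `w^D R(z)` -/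
theorem cgm_diff {R : ℂ[X]} (hR : 1 ≤ R.natDegree) (K : ℝ) :
    ∃ C R0 : ℝ, 0 ≤ C ∧ 1 ≤ R0 ∧ ∀ z : ℂ, R0 ≤ ‖z‖ → ∀ w : ℂ, ‖w‖ = 1 → ∀ y : ℂ,
      ‖y - w * z‖ ≤ K →
      ‖R.eval y - w ^ R.natDegree * R.eval z‖ ≤ C * ‖z‖ ^ (R.natDegree - 1) := by
  obtain ⟨C, hC, hb⟩ := cgm_bound R.eraseLead (R.natDegree - 1) (eraseLead_natDegree_le R)
  set D := R.natDegree with hD
  set a := R.leadingCoeff with haa
  refine ⟨C * 2 ^ (D - 1) + C + ‖a‖ * ((D * 2 ^ (D - 1)) * |K|), max 2 (2 * |K|), by positivity,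
    le_trans (by norm_num) (le_max_left _ _), ?_⟩
  intro z hz w hw y hy
  have hz1 : 2 ≤ ‖z‖ := (le_max_left _ _).trans hz
  have hz2 : 2 * |K| ≤ ‖z‖ := (le_max_right _ _).trans hz
  have hK : ‖y - w * z‖ ≤ |K| := hy.trans (le_abs_self K)
  have hwz : ‖w * z‖ = ‖z‖ := by rw [norm_mul, hw, one_mul]
  have hyu : ‖y‖ ≤ 2 * ‖z‖ := by
    have : ‖y‖ ≤ ‖y - w * z‖ + ‖w * z‖ := by
      simpa using norm_add_le (y - w * z) (w * z)
    rw [hwz] at this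
    linarith
  have hyl : 1 ≤ ‖y‖ := by
    have : ‖w * z‖ ≤ ‖y - w * z‖ + ‖y‖ := by
      have h := norm_sub_le y (y - w * z)
      rw [show y - (y - w * z) = w * z by ring] at h
      linarith
    rw [hwz] at this
    linarith
  have e1 : R.eval y - w ^ D * R.eval z
      = R.eraseLead.eval y - w ^ D * R.eraseLead.eval z + a * (y ^ D - (w * z) ^ D) := by
    rw [cgm_split R y, cgm_split R z]
    ring
  have b1 : ‖R.eraseLead.eval y‖ ≤ C * 2 ^ (D - 1) * ‖z‖ ^ (D - 1) := by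
    refine (hb y hyl).trans ?_
    rw [mul_assoc, ← mul_pow]
    exact mul_le_mul_of_nonneg_left (pow_le_pow_left₀ (norm_nonneg _) hyu _) hC
  have b2 : ‖w ^ D * R.eraseLead.eval z‖ ≤ C * ‖z‖ ^ (D - 1) := by
    rw [norm_mul, norm_pow, hw, one_pow, one_mul]
    exact hb z (by linarith)
  have b3 : ‖y ^ D - (w * z) ^ D‖ ≤ (D * 2 ^ (D - 1)) * |K| * ‖z‖ ^ (D - 1) := by
    rw [← Commute.geom_sum₂_mul (Commute.all y (w * z)) D, norm_mul]
    have s1 : ‖∑ i ∈ Finset.range D, y ^ i * (w * z) ^ (D - 1 - i)‖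
        ≤ D * (2 ^ (D - 1) * ‖z‖ ^ (D - 1)) := by
      refine (norm_sum_le _ _).trans ?_
      have : ∀ i ∈ Finset.range D, ‖y ^ i * (w * z) ^ (D - 1 - i)‖
          ≤ 2 ^ (D - 1) * ‖z‖ ^ (D - 1) := by
        intro i hi
        have hi' : i ≤ D - 1 := by
          have := Finset.mem_range.mp hi
          omega
        rw [norm_mul, norm_pow, norm_pow, hwz, ← mul_pow]
        calc ‖y‖ ^ i * ‖z‖ ^ (D - 1 - i) ≤ (2 * ‖z‖) ^ i * (2 * ‖z‖) ^ (D - 1 - i) := by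
              gcongr
              linarith
          _ = (2 * ‖z‖) ^ (D - 1) := by
              rw [← pow_add, Nat.add_sub_cancel' hi']
      refine (Finset.sum_le_sum this).trans ?_
      rw [Finset.sum_const, Finset.card_range, nsmul_eq_mul]
    calc ‖∑ i ∈ Finset.range D, y ^ i * (w * z) ^ (D - 1 - i)‖ * ‖y - w * z‖
        ≤ (D * (2 ^ (D - 1) * ‖z‖ ^ (D - 1))) * |K| :=
          mul_le_mul s1 hK (norm_nonneg _) (by positivity)
      _ = (D * 2 ^ (D - 1)) * |K| * ‖z‖ ^ (D - 1) := by ring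
  rw [e1]
  calc ‖R.eraseLead.eval y - w ^ D * R.eraseLead.eval z + a * (y ^ D - (w * z) ^ D)‖
      ≤ ‖R.eraseLead.eval y‖ + ‖w ^ D * R.eraseLead.eval z‖ + ‖a‖ * ‖y ^ D - (w * z) ^ D‖ := by
        refine (norm_add_le _ _).trans ?_
        rw [norm_mul]
        exact add_le_add_left (norm_sub_le _ _) _ |>.trans (le_of_eq (by ring))
    _ ≤ C * 2 ^ (D - 1) * ‖z‖ ^ (D - 1) + C * ‖z‖ ^ (D - 1)
        + ‖a‖ * ((D * 2 ^ (D - 1)) * |K| * ‖z‖ ^ (D - 1)) := by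
        gcongr
    _ = (C * 2 ^ (D - 1) + C + ‖a‖ * ((D * 2 ^ (D - 1)) * |K|)) * ‖z‖ ^ (D - 1) := by ring

theorem cgm_norm_one {w : ℂ} {m : ℕ} (hm : 1 ≤ m) (h : w ^ m = 1) : ‖w‖ = 1 := by
  have : ‖w‖ ^ m = 1 := by rw [← norm_pow, h, norm_one]
  exact (pow_eq_one_iff_of_nonneg (norm_nonneg _) (by omega)).mp this

theorem cgm_sep {n : ℕ} (hn : 1 ≤ n) :
    ∃ η : ℝ, 0 < η ∧ ∀ w1 w2 : ℂ, w1 ^ n = 1 → w2 ^ n = 1 → ‖w1 - w2‖ < η → w1 = w2 := by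
  have hfin : {w : ℂ | w ^ n = 1}.Finite := by
    refine ((nthRoots n (1 : ℂ)).toFinset.finite_toSet).subset ?_
    intro w hw
    simp only [Finset.mem_coe, Multiset.mem_toFinset]
    rw [mem_nthRoots (by omega)]
    exact hw
  obtain ⟨ε, hε, h⟩ := hfin.relatively_discrete
  have hmin : min ε 1 ≠ ⊤ := ne_top_of_le_ne_top ENNReal.one_ne_top (min_le_right _ _)
  have hmin0 : 0 < min ε 1 := lt_min hε one_pos
  refine ⟨(min ε 1).toReal, ENNReal.toReal_pos hmin0.ne' hmin, fun w1 w2 h1 h2 h3 => ?_⟩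
  by_contra hne
  have h4 := h w1 h1 w2 h2 hne
  rw [edist_dist, dist_eq_norm] at h4
  have h5 : ENNReal.ofReal ‖w1 - w2‖ < min ε 1 :=
    (ENNReal.ofReal_lt_iff_lt_toReal (norm_nonneg _) hmin).mpr h3
  exact absurd (h4.trans_lt (h5.trans_le (min_le_left _ _))) (lt_irrefl _)

/-- the point `R(y)` is in the germ of `w^D` at `R(z)` -/
theorem cgm_step {p R M : ℂ[X]} (hp : 1 ≤ p.natDegree) (hR : 1 ≤ R.natDegree)
    (e : p.comp R = M.comp p) :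
    ∃ K' : ℝ, ∀ K : ℝ, ∃ R0 : ℝ, 1 ≤ R0 ∧
      (∀ z : ℂ, R0 ≤ ‖z‖ → ∀ w : ℂ, w ^ p.natDegree = 1 → ∀ y : ℂ,
      p.eval y = p.eval z → ‖y - w * z‖ ≤ K →
      p.eval (R.eval y) = p.eval (R.eval z) ∧
      ‖R.eval y - w ^ R.natDegree * R.eval z‖ ≤ K') := by
  obtain ⟨K', A, hA⟩ := germ_near hp
  obtain ⟨η, hη, hsep⟩ := cgm_sep hp
  obtain ⟨c, B, hc, hB, hlow⟩ := cgm_low hR
  refine ⟨K', fun K => ?_⟩
  obtain ⟨C, B', hC, hB', hdiff⟩ := cgm_diff hR K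
  refine ⟨max (max 1 (max B B')) (max (|A| / c) (2 * (C + |K'|) / (c * η) + 1)),
    (le_max_left _ _).trans (le_max_left _ _), ?_⟩
  intro z hz w hw y hy1 hy2
  have z1 : 1 ≤ ‖z‖ := ((le_max_left _ _).trans (le_max_left _ _)).trans hz
  have zB : B ≤ ‖z‖ :=
    (((le_max_left _ _).trans (le_max_right _ _)).trans (le_max_left _ _)).trans hz
  have zB' : B' ≤ ‖z‖ :=
    (((le_max_right _ _).trans (le_max_right _ _)).trans (le_max_left _ _)).trans hz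
  have zA : |A| / c ≤ ‖z‖ := ((le_max_left _ _).trans (le_max_right _ _)).trans hz
  have zC : 2 * (C + |K'|) / (c * η) + 1 ≤ ‖z‖ :=
    ((le_max_right _ _).trans (le_max_right _ _)).trans hz
  have hw1 : ‖w‖ = 1 := cgm_norm_one hp hw
  have hpe : p.eval (R.eval y) = p.eval (R.eval z) := by
    have h := congrArg (fun q : ℂ[X] => q.eval y) e
    have h' := congrArg (fun q : ℂ[X] => q.eval z) e
    simp only [eval_comp] at h h'
    rw [h, h', hy1]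
  refine ⟨hpe, ?_⟩
  have hlz := hlow z zB
  have hpowz : ‖z‖ ^ R.natDegree = ‖z‖ * ‖z‖ ^ (R.natDegree - 1) := by
    rw [← pow_succ', Nat.sub_add_cancel hR]
  have hpow1 : 1 ≤ ‖z‖ ^ (R.natDegree - 1) := one_le_pow₀ z1
  have hpos : 0 < ‖z‖ ^ (R.natDegree - 1) := by positivity
  -- `|R z|` is large
  have hRz : A ≤ ‖R.eval z‖ := by
    refine le_trans ?_ hlz
    rw [div_le_iff₀ hc] at zA
    have : ‖z‖ ≤ ‖z‖ ^ R.natDegree := by
      rw [hpowz]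
      exact le_mul_of_one_le_right (norm_nonneg _) hpow1
    calc A ≤ |A| := le_abs_self A
      _ ≤ ‖z‖ * c := zA
      _ ≤ c * ‖z‖ ^ R.natDegree := by
        rw [mul_comm]
        exact mul_le_mul_of_nonneg_left this hc.le
  obtain ⟨w1, hw1', hw1d⟩ := hA (R.eval z) hRz (R.eval y) hpe
  have hd := hdiff z zB' w hw1 y hy2
  have hRpos : 0 < ‖R.eval z‖ := lt_of_lt_of_le (by positivity) hlz
  have hclose : ‖w1 - w ^ R.natDegree‖ * ‖R.eval z‖ ≤ |K'| + C * ‖z‖ ^ (R.natDegree - 1) := by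
    rw [← norm_mul]
    have : (w1 - w ^ R.natDegree) * R.eval z
        = (R.eval y - w ^ R.natDegree * R.eval z) - (R.eval y - w1 * R.eval z) := by ring
    rw [this]
    refine (norm_sub_le _ _).trans ?_
    have := hw1d.trans (le_abs_self K')
    linarith
  have hlt : ‖w1 - w ^ R.natDegree‖ < η := by
    by_contra hcon
    push Not at hcon
    have h1 : η * (c * (‖z‖ * ‖z‖ ^ (R.natDegree - 1))) ≤ |K'| + C * ‖z‖ ^ (R.natDegree - 1) := by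
      rw [← hpowz]
      refine le_trans ?_ hclose
      exact mul_le_mul hcon hlz (by positivity) (norm_nonneg _)
    have h2 : |K'| + C * ‖z‖ ^ (R.natDegree - 1) ≤ (C + |K'|) * ‖z‖ ^ (R.natDegree - 1) := by
      have := mul_le_mul_of_nonneg_left hpow1 (abs_nonneg K')
      nlinarith
    have h3 : η * c * ‖z‖ ≤ C + |K'| := by
      have h4 : (η * c * ‖z‖) * ‖z‖ ^ (R.natDegree - 1) ≤ (C + |K'|) * ‖z‖ ^ (R.natDegree - 1) := by
        calc (η * c * ‖z‖) * ‖z‖ ^ (R.natDegree - 1)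
            = η * (c * (‖z‖ * ‖z‖ ^ (R.natDegree - 1))) := by ring
          _ ≤ _ := h1.trans h2
      exact le_of_mul_le_mul_right h4 hpos
    have h5 : 2 * (C + |K'|) / (c * η) < ‖z‖ := by linarith
    rw [div_lt_iff₀ (by positivity)] at h5
    have h6 : 0 ≤ C + |K'| := by positivity
    have h7 : 0 < ‖z‖ * (c * η) := by positivity
    nlinarith
  have hweq : w1 = w ^ R.natDegree := hsep w1 (w ^ R.natDegree) hw1' (by
    rw [← pow_mul, mul_comm, pow_mul, hw, one_pow]) hlt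
  rw [← hweq]
  exact hw1d

theorem common_germs {p1 p2 R M1 M2 : ℂ[X]} (h1 : 1 ≤ p1.natDegree) (h2 : 1 ≤ p2.natDegree)
    (hR : 2 ≤ R.natDegree) (e1 : p1.comp R = M1.comp p1) (e2 : p2.comp R = M2.comp p2)
    {m : ℕ} (hm1 : m ∣ p1.natDegree) (hm2 : m ∣ p2.natDegree) (hm : 1 ≤ m) :
    ∃ K R0 : ℝ, ∀ z : ℂ, R0 ≤ ‖z‖ → ∀ w : ℂ, w ^ m = 1 →
      ∃ y : ℂ, p1.eval y = p1.eval z ∧ p2.eval y = p2.eval z ∧ ‖y - w * z‖ ≤ K := by
  have hR1 : 1 ≤ R.natDegree := by omega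
  obtain ⟨Ka, Aa, ha⟩ := germ_ex h1
  obtain ⟨Kb, Ab, hb⟩ := germ_ex h2
  obtain ⟨Kc, hc⟩ := cgm_step h1 hR1 e1
  obtain ⟨Kd, hd⟩ := cgm_step h2 hR1 e2
  set K : ℝ := max (max Ka Kb) (max (max Kc Kd) 0) with hKdef
  have hKa : Ka ≤ K := (le_max_left _ _).trans (le_max_left _ _)
  have hKb : Kb ≤ K := (le_max_right _ _).trans (le_max_left _ _)
  have hKc : Kc ≤ K := ((le_max_left _ _).trans (le_max_left _ _)).trans (le_max_right _ _)
  have hKd : Kd ≤ K := ((le_max_right _ _).trans (le_max_left _ _)).trans (le_max_right _ _)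
  have hK0 : 0 ≤ K := (le_max_right _ _).trans (le_max_right _ _)
  obtain ⟨Ac, hAc1, hc⟩ := hc K
  obtain ⟨Ad, hAd1, hd⟩ := hd K
  obtain ⟨c, Ae, hcpos, he⟩ := germ_expand hR1 K
  obtain ⟨c', Af, hc'pos, hAf1, hf⟩ := cgm_low hR1
  -- a common radius
  obtain ⟨R0, hR0⟩ : ∃ R0 : ℝ, Aa ≤ R0 ∧ Ab ≤ R0 ∧ Ac ≤ R0 ∧ Ad ≤ R0 ∧ Ae ≤ R0 ∧ Af ≤ R0 ∧
      2 / c ≤ R0 ∧ 1 / c' ≤ R0 := by
    refine ⟨max (max (max Aa Ab) (max Ac Ad)) (max (max Ae Af) (max (2 / c) (1 / c'))), ?_⟩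
    refine ⟨?_, ?_, ?_, ?_, ?_, ?_, ?_, ?_⟩ <;> simp
  obtain ⟨r1, r2, r3, r4, r5, r6, r7, r8⟩ := hR0
  have hR01 : 1 ≤ R0 := hAf1.trans r6
  have hwd1 : ∀ w : ℂ, w ^ m = 1 → w ^ p1.natDegree = 1 := by
    intro w hw
    obtain ⟨k, hk⟩ := hm1
    rw [hk, pow_mul, hw, one_pow]
  have hwd2 : ∀ w : ℂ, w ^ m = 1 → w ^ p2.natDegree = 1 := by
    intro w hw
    obtain ⟨k, hk⟩ := hm2
    rw [hk, pow_mul, hw, one_pow]
  have key : ∀ k : ℕ, ∀ z : ℂ, R0 ≤ ‖z‖ → ∀ w : ℂ, w ^ m = 1 → ∀ y1 y2 : ℂ,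
      p1.eval y1 = p1.eval z → p2.eval y2 = p2.eval z → ‖y1 - w * z‖ ≤ K → ‖y2 - w * z‖ ≤ K →
      ‖y1 - y2‖ * 2 ^ k ≤ 2 * K := by
    intro k
    induction k with
    | zero =>
      intro z hz w hw y1 y2 _ _ b1 b2
      have : y1 - y2 = (y1 - w * z) - (y2 - w * z) := by ring
      rw [pow_zero, mul_one, this]
      exact (norm_sub_le _ _).trans (by linarith)
    | succ k ih =>
      intro z hz w hw y1 y2 a1 a2 b1 b2
      have hz1 : 1 ≤ ‖z‖ := hR01.trans hz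
      obtain ⟨f1, g1⟩ := hc z (r3.trans hz) w (hwd1 w hw) y1 a1 b1
      obtain ⟨f2, g2⟩ := hd z (r4.trans hz) w (hwd2 w hw) y2 a2 b2
      have hRz : R0 ≤ ‖R.eval z‖ := by
        refine hz.trans (le_trans ?_ (hf z (r6.trans hz)))
        have hpow : ‖z‖ ^ R.natDegree = ‖z‖ * ‖z‖ ^ (R.natDegree - 1) := by
          rw [← pow_succ', Nat.sub_add_cancel hR1]
        have h3 : ‖z‖ ≤ ‖z‖ ^ (R.natDegree - 1) := le_self_pow₀ hz1 (by omega)
        have h4 : 1 ≤ c' * ‖z‖ := by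
          have := r8.trans hz
          rw [div_le_iff₀ hc'pos] at this
          linarith
        have h5 : 1 ≤ c' * ‖z‖ ^ (R.natDegree - 1) :=
          h4.trans (mul_le_mul_of_nonneg_left h3 hc'pos.le)
        rw [hpow]
        calc ‖z‖ = ‖z‖ * 1 := (mul_one _).symm
          _ ≤ ‖z‖ * (c' * ‖z‖ ^ (R.natDegree - 1)) :=
            mul_le_mul_of_nonneg_left h5 (norm_nonneg _)
          _ = c' * (‖z‖ * ‖z‖ ^ (R.natDegree - 1)) := by ring
      have h6 := ih (R.eval z) hRz (w ^ R.natDegree) (by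
        rw [← pow_mul, mul_comm, pow_mul, hw, one_pow]) (R.eval y1) (R.eval y2) f1 f2
        (g1.trans hKc) (g2.trans hKd)
      have hw1 : ‖w‖ = 1 := cgm_norm_one hm hw
      have h7 := he z (r5.trans hz) w hw1 y1 y2 b1 b2
      have h8 : 2 ≤ c * ‖z‖ ^ (R.natDegree - 1) := by
        have h3 : ‖z‖ ≤ ‖z‖ ^ (R.natDegree - 1) := le_self_pow₀ hz1 (by omega)
        have h4 : 2 ≤ c * ‖z‖ := by
          have := r7.trans hz
          rw [div_le_iff₀ hcpos] at this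
          linarith
        exact h4.trans (mul_le_mul_of_nonneg_left h3 hcpos.le)
      have h9 : 2 * ‖y1 - y2‖ ≤ ‖R.eval y1 - R.eval y2‖ :=
        (mul_le_mul_of_nonneg_right h8 (norm_nonneg _)).trans h7
      calc ‖y1 - y2‖ * 2 ^ (k + 1) = (2 * ‖y1 - y2‖) * 2 ^ k := by ring
        _ ≤ ‖R.eval y1 - R.eval y2‖ * 2 ^ k :=
          mul_le_mul_of_nonneg_right h9 (by positivity)
        _ ≤ 2 * K := h6
  refine ⟨K, R0, fun z hz w hw => ?_⟩
  obtain ⟨y1, a1, b1⟩ := ha z (r1.trans hz) w (hwd1 w hw)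
  obtain ⟨y2, a2, b2⟩ := hb z (r2.trans hz) w (hwd2 w hw)
  have b1' := b1.trans hKa
  have b2' := b2.trans hKb
  have heq : y1 = y2 := by
    by_contra hne
    have hpos : 0 < ‖y1 - y2‖ := norm_pos_iff.mpr (sub_ne_zero.mpr hne)
    obtain ⟨k, hk⟩ := pow_unbounded_of_one_lt (2 * K / ‖y1 - y2‖) (one_lt_two : (1 : ℝ) < 2)
    have := key k z hz w hw y1 y2 a1 a2 b1' b2'
    rw [div_lt_iff₀ hpos] at hk
    linarith
  refine ⟨y1, a1, ?_, b1'⟩
  rw [heq]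
  exact a2

end H12IT
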