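import Pool.Agent.H12.IT.Mur
import Pool.Agent.H12.IT.Bas

set_option autoImplicit false

/-! PROJECT IT, module Chb: polynomials of Chebyshev type are conjugate to `± C_d`
(`Polynomial.Chebyshev.C` of Mathlib, `C_d(x+1/x) = x^d+1/x^d`). -/

open Polynomial

namespace H12IT

/-- `P` is conjugate to `Q` -/
def Conj (P Q : ℂ[X]) : Prop := ∃ L : ℂ[X], L.natDegree = 1 ∧ L.comp P = Q.comp L

theorem Conj.refl (P : ℂ[X]) : Conj P P := ⟨X, natDegree_X, by simp⟩

theorem Conj.symm {P Q : ℂ[X]} (h : Conj P Q) : Conj Q P := by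
  obtain ⟨L, hL, h1⟩ := h
  obtain ⟨L', hL', e1, e2⟩ := lin_inv hL
  refine ⟨L', hL', ?_⟩
  have h2 : L'.comp (L.comp P) = L'.comp (Q.comp L) := by rw [h1]
  rw [← comp_assoc, e2, X_comp] at h2
  rw [h2, comp_assoc, comp_assoc, e1, comp_X]

theorem Conj.trans {P Q R : ℂ[X]} (h : Conj P Q) (h' : Conj Q R) : Conj P R := by
  obtain ⟨L, hL, h1⟩ := h
  obtain ⟨M, hM, h2⟩ := h'
  refine ⟨M.comp L, ?_, ?_⟩
  · rw [natDegree_comp, hL, hM]
  · rw [comp_assoc, h1, ← comp_assoc, h2, comp_assoc]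

theorem Conj.iter {P Q : ℂ[X]} (h : Conj P Q) (n : ℕ) : Conj (it P n) (it Q n) := by
  obtain ⟨L, hL, h1⟩ := h
  exact ⟨L, hL, semi_it h1 n⟩

/-- the Chebyshev polynomial, normalised to be monic -/
noncomputable def Ch (d : ℕ) : ℂ[X] := Polynomial.Chebyshev.C ℂ (d : ℤ)

theorem chb_two : (2 : ℂ[X]) = Polynomial.C (2 : ℂ) := (map_ofNat Polynomial.C 2).symm

theorem chb_two_X_natDegree : (2 * X : ℂ[X]).natDegree = 1 := by
  have e : (2 * X : ℂ[X]) = Polynomial.C (2 : ℂ) * X := by rw [← chb_two]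
  rw [e]
  exact natDegree_C_mul_X 2 two_ne_zero

theorem Ch_deg {d : ℕ} (hd : 1 ≤ d) : (Ch d).natDegree = d := by
  have h := Polynomial.Chebyshev.C_comp_two_mul_X ℂ (d : ℤ)
  have h1 : ((Polynomial.Chebyshev.C ℂ (d : ℤ)).comp (2 * X)).natDegree
      = (Polynomial.Chebyshev.C ℂ (d : ℤ)).natDegree := by
    rw [natDegree_comp, chb_two_X_natDegree, mul_one]
  have e : (2 * Polynomial.Chebyshev.T ℂ (d : ℤ) : ℂ[X])
      = Polynomial.C (2 : ℂ) * Polynomial.Chebyshev.T ℂ (d : ℤ) := by rw [← chb_two]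
  have h2 : (2 * Polynomial.Chebyshev.T ℂ (d : ℤ) : ℂ[X]).natDegree = d := by
    rw [e, natDegree_C_mul two_ne_zero, Polynomial.Chebyshev.natDegree_T]
    simp
  unfold Ch
  rw [← h1, h, h2]

theorem Ch_comp (m n : ℕ) : (Ch m).comp (Ch n) = Ch (m * n) := by
  unfold Ch
  rw [← Polynomial.Chebyshev.C_mul]
  push_cast
  rfl

theorem chb_rec (d : ℕ) : Ch (d + 2) = X * Ch (d + 1) - Ch d := by
  unfold Ch
  have h := Polynomial.Chebyshev.C_add_two ℂ (d : ℤ)
  push_cast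
  exact h

/-- parity -/
theorem Ch_neg (d : ℕ) : (Ch d).comp (-X) = C ((-1) ^ d) * Ch d := by
  induction d using Nat.strong_induction_on with
  | _ d ih =>
    match d, ih with
    | 0, _ => simp [Ch]
    | 1, _ => simp [Ch]
    | (k + 2), ih =>
      have h1 := ih (k + 1) (by omega)
      have h0 := ih k (by omega)
      rw [chb_rec, sub_comp, mul_comp, h1, h0, X_comp]
      simp only [C_pow, C_neg, C_1]
      ring

theorem chb_der (d : ℕ) : derivative (Ch d)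
    = C (d : ℂ) * Polynomial.Chebyshev.S ℂ ((d : ℤ) - 1) := by
  have h := Polynomial.Chebyshev.C_comp_two_mul_X ℂ (d : ℤ)
  have h1 : derivative ((Polynomial.Chebyshev.C ℂ (d : ℤ)).comp (2 * X))
      = derivative (2 * Polynomial.Chebyshev.T ℂ (d : ℤ)) := by rw [h]
  have e2 : (2 : ℂ[X]) = Polynomial.C (2 : ℂ) := chb_two
  rw [derivative_comp, e2, derivative_C_mul, derivative_C_mul, derivative_X, mul_one,
    Polynomial.Chebyshev.T_derivative_eq_U, ← Polynomial.Chebyshev.S_comp_two_mul_X] at h1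
  have h2 : (derivative (Polynomial.Chebyshev.C ℂ (d : ℤ))).comp (Polynomial.C 2 * X)
      = (Polynomial.C (d : ℂ) * Polynomial.Chebyshev.S ℂ ((d : ℤ) - 1)).comp
        (Polynomial.C 2 * X) := by
    have h3 := mul_left_cancel₀ (C_ne_zero.mpr (two_ne_zero (α := ℂ))) h1
    rw [h3, mul_comp, C_comp, ← e2]
    simp
  unfold Ch
  refine comp_cancel (V := Polynomial.C 2 * X) ?_ h2
  rw [natDegree_C_mul_X 2 two_ne_zero]

/-- the ODE -/
theorem Ch_ode {d : ℕ} (hd : 1 ≤ d) :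
    C ((d : ℂ) ^ 2) * ((Ch d) ^ 2 - 4) = (X ^ 2 - 4) * (derivative (Ch d)) ^ 2 := by
  rw [chb_der]
  have h1 := Polynomial.Chebyshev.S_sq_add_S_sq ℂ ((d : ℤ) - 1)
  have h2 := Polynomial.Chebyshev.C_eq_S_sub_X_mul_S ℂ (d : ℤ)
  have e : (d : ℤ) - 1 + 1 = d := by ring
  rw [e] at h1
  unfold Ch
  rw [h2, C_pow]
  linear_combination (4 * C (d : ℂ) ^ 2) * h1

end H12IT
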