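import Pool.Agent.H12.IT.Chb

set_option autoImplicit false

/-! PROJECT IT, module Chc: polynomials of Chebyshev type are conjugate to plus or minus C_d. -/

open Polynomial

namespace H12IT

theorem chc_ne {F : ℂ[X]} (hF : 1 ≤ F.natDegree) (c : ℂ) : F - C c ≠ 0 := by
  intro h
  have h1 : F = C c := sub_eq_zero.mp h
  rw [h1, natDegree_C] at hF
  omega

/-- multiplicity of `F ^ 2 - 4` at a point where it vanishes -/
theorem chc_sq {F : ℂ[X]} (hF : 1 ≤ F.natDegree) {w : ℂ} (h : F.eval w = 2 ∨ F.eval w = -2) :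
    (F ^ 2 - 4).rootMultiplicity w = mu F w := by
  have h4 : (F ^ 2 - 4 : ℂ[X]) = (F - C (F.eval w)) * (F - C (-(F.eval w))) := by
    have : (C (F.eval w) : ℂ[X]) * C (F.eval w) = 4 := by
      rw [← C_mul]
      have h5 : F.eval w * F.eval w = 4 := by
        rcases h with h | h <;> rw [h] <;> norm_num
      rw [h5]
      rfl
    rw [C_neg]
    linear_combination this
  have hne : (F - C (F.eval w)) * (F - C (-(F.eval w))) ≠ 0 :=
    mul_ne_zero (chc_ne hF _) (chc_ne hF _)
  have h0 : (F - C (-(F.eval w))).rootMultiplicity w = 0 := by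
    apply rootMultiplicity_eq_zero
    intro hr
    have h6 : F.eval w - -(F.eval w) = 0 := by
      have := hr
      rw [IsRoot.def, eval_sub, eval_C] at this
      exact this
    rcases h with h | h <;> rw [h] at h6 <;> norm_num at h6
  rw [h4, rootMultiplicity_mul hne, h0, add_zero]
  rfl

theorem chc_sq0 {F : ℂ[X]} {w : ℂ} (h : ¬ (F.eval w = 2 ∨ F.eval w = -2)) :
    (F ^ 2 - 4).rootMultiplicity w = 0 := by
  apply rootMultiplicity_eq_zero
  intro hr
  apply h
  have h6 : (F.eval w) ^ 2 - 4 = 0 := by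
    have := hr
    rw [IsRoot.def, eval_sub, eval_pow] at this
    simpa using this
  have h7 : (F.eval w - 2) * (F.eval w + 2) = 0 := by linear_combination h6
  rcases mul_eq_zero.mp h7 with h8 | h8
  · left; linear_combination h8
  · right; linear_combination h8

/-- multiplicity of the derivative -/
theorem chc_der {F : ℂ[X]} (w : ℂ) :
    (derivative F).rootMultiplicity w = mu F w - 1 := by
  have h1 : (F - C (F.eval w)).IsRoot w := by simp
  have h2 := derivative_rootMultiplicity_of_root h1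
  rw [derivative_sub, derivative_C, sub_zero] at h2
  exact h2

theorem chc_der_ne {F : ℂ[X]} (hF : 1 ≤ F.natDegree) : derivative F ≠ 0 := by
  intro h
  have := derivative_eq_zero.mp h
  omega

theorem chc_X2 : (X ^ 2 - 4 : ℂ[X]) = (X - C 2) * (X - C (-2)) := by
  have : (C 2 : ℂ[X]) * C 2 = 4 := by
    rw [← C_mul]
    have h5 : (2 : ℂ) * 2 = 4 := by norm_num
    rw [h5]
    rfl
  rw [C_neg]
  linear_combination this

theorem chc_X2_ne : (X ^ 2 - 4 : ℂ[X]) ≠ 0 := by
  rw [chc_X2]
  exact mul_ne_zero (X_sub_C_ne_zero _) (X_sub_C_ne_zero _)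

theorem chc_X2_rm (w : ℂ) :
    (X ^ 2 - 4 : ℂ[X]).rootMultiplicity w = if w ∈ ({2, -2} : Finset ℂ) then 1 else 0 := by
  have hne : (X - C 2 : ℂ[X]) * (X - C (-2)) ≠ 0 :=
    mul_ne_zero (X_sub_C_ne_zero _) (X_sub_C_ne_zero _)
  rw [chc_X2, rootMultiplicity_mul hne, rootMultiplicity_X_sub_C, rootMultiplicity_X_sub_C]
  by_cases h1 : w = 2
  · subst h1
    have : ¬ ((2 : ℂ) = -2) := by norm_num
    simp [this]
  · by_cases h2 : w = -2
    · subst h2
      simp [h1]
    · simp [h1, h2]

theorem chc_ode_rm {F : ℂ[X]} (hF : 1 ≤ F.natDegree) (w : ℂ) :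
    ((X ^ 2 - 4) * (derivative F) ^ 2 : ℂ[X]).rootMultiplicity w =
      (if w ∈ ({2, -2} : Finset ℂ) then 1 else 0) + 2 * (mu F w - 1) := by
  have hne : ((X ^ 2 - 4) * (derivative F) ^ 2 : ℂ[X]) ≠ 0 :=
    mul_ne_zero chc_X2_ne (pow_ne_zero _ (chc_der_ne hF))
  rw [rootMultiplicity_mul hne, chc_X2_rm, sq, rootMultiplicity_mul
    (mul_ne_zero (chc_der_ne hF) (chc_der_ne hF)), chc_der]
  ring

theorem chc_of_ode {F : ℂ[X]} (hF : 1 ≤ F.natDegree) {c : ℂ} (hc : c ≠ 0)
    (h : C c * (F ^ 2 - 4) = (X ^ 2 - 4) * (derivative F) ^ 2) : ChebSet F {2, -2} := by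
  have hne4 : (F ^ 2 - 4 : ℂ[X]) ≠ 0 := by
    intro h0
    rw [h0, mul_zero] at h
    exact mul_ne_zero chc_X2_ne (pow_ne_zero _ (chc_der_ne hF)) h.symm
  have key : ∀ w : ℂ, (F.eval w = 2 ∨ F.eval w = -2) →
      mu F w = (if w ∈ ({2, -2} : Finset ℂ) then 1 else 0) + 2 * (mu F w - 1) := by
    intro w hw
    have h1 : (C c * (F ^ 2 - 4)).rootMultiplicity w = mu F w := by
      rw [rootMultiplicity_mul (mul_ne_zero (C_ne_zero.mpr hc) hne4), rootMultiplicity_C,
        zero_add, chc_sq hF hw]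
    rw [← chc_ode_rm hF w, ← h, h1]
  have hev : ∀ w : ℂ, w ∈ ({2, -2} : Finset ℂ) → (F.eval w = 2 ∨ F.eval w = -2) := by
    intro w hw
    by_contra hcon
    have h1 := congrArg (fun p => p.eval w) h
    simp only [eval_mul, eval_C, eval_sub, eval_pow, eval_X] at h1
    have h4 : (4 : ℂ[X]).eval w = 4 := by
      have : (4 : ℂ[X]) = C 4 := rfl
      rw [this, eval_C]
    rw [h4] at h1
    have h2 : w ^ 2 - 4 = 0 := by
      rw [Finset.mem_insert, Finset.mem_singleton] at hw
      rcases hw with hw | hw <;> rw [hw] <;> norm_num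
    rw [h2, zero_mul] at h1
    rcases mul_eq_zero.mp h1 with h3 | h3
    · exact hc h3
    · apply hcon
      have h7 : (F.eval w - 2) * (F.eval w + 2) = 0 := by linear_combination h3
      rcases mul_eq_zero.mp h7 with h8 | h8
      · left; linear_combination h8
      · right; linear_combination h8
  refine ⟨?_, ?_, ?_⟩
  · rw [Finset.card_pair]
    norm_num
  · intro w hw
    have h1 := hev w hw
    refine ⟨?_, ?_⟩
    · rw [Finset.mem_insert, Finset.mem_singleton]
      exact h1
    · have h2 := key w h1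
      have h3 := one_le_mu hF w
      rw [if_pos hw] at h2
      omega
  · intro w hw hw'
    rw [Finset.mem_insert, Finset.mem_singleton] at hw
    have h2 := key w hw
    have h3 := one_le_mu hF w
    rw [if_neg hw'] at h2
    omega

theorem Ch_cheb {d : ℕ} (hd : 2 ≤ d) : ChebSet (Ch d) {2, -2} := by
  have h1 : 1 ≤ (Ch d).natDegree := by rw [Ch_deg (by omega)]; omega
  refine chc_of_ode h1 (c := (d : ℂ) ^ 2) ?_ (Ch_ode (by omega))
  apply pow_ne_zero
  exact_mod_cast (by omega : d ≠ 0)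

/-- the converse: the differential equation of a polynomial with Chebyshev set `{2,-2}` -/
theorem chc_ode_of {P : ℂ[X]} (hd : 1 ≤ P.natDegree) (h : ChebSet P {2, -2}) :
    C ((P.natDegree : ℂ) ^ 2) * (P ^ 2 - 4) = (X ^ 2 - 4) * (derivative P) ^ 2 := by
  obtain ⟨_, h1, h2⟩ := h
  have hdeg2 : (P ^ 2 - 4 : ℂ[X]).natDegree = 2 * P.natDegree := by
    have : (P ^ 2 - 4 : ℂ[X]) = P ^ 2 - C 4 := rfl
    rw [this, natDegree_sub_C, natDegree_pow]
  have hne4 : (P ^ 2 - 4 : ℂ[X]) ≠ 0 := by
    intro h0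
    rw [h0, natDegree_zero] at hdeg2
    omega
  have hne : ((X ^ 2 - 4) * (derivative P) ^ 2 : ℂ[X]) ≠ 0 :=
    mul_ne_zero chc_X2_ne (pow_ne_zero _ (chc_der_ne hd))
  have hdvd : (P ^ 2 - 4 : ℂ[X]) ∣ (X ^ 2 - 4) * (derivative P) ^ 2 := by
    apply (IsAlgClosed.splits (P ^ 2 - 4 : ℂ[X])).dvd_of_roots_le_roots hne4
    rw [Multiset.le_iff_count]
    intro w
    rw [count_roots, count_roots, chc_ode_rm hd w]
    by_cases hw : P.eval w = 2 ∨ P.eval w = -2
    · rw [chc_sq hd hw]
      have hw' : P.eval w ∈ ({2, -2} : Finset ℂ) := by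
        rw [Finset.mem_insert, Finset.mem_singleton]; exact hw
      by_cases hs : w ∈ ({2, -2} : Finset ℂ)
      · rw [if_pos hs, (h1 w hs).2]
      · rw [if_neg hs, h2 w hw' hs]
    · rw [chc_sq0 hw]
      exact Nat.zero_le _
  obtain ⟨q, hq⟩ := hdvd
  have hXdeg : (X ^ 2 - 4 : ℂ[X]).natDegree = 2 := by
    have : (X ^ 2 - 4 : ℂ[X]) = X ^ 2 - C 4 := rfl
    rw [this, natDegree_sub_C, natDegree_pow, natDegree_X]
  have hXlc : (X ^ 2 - 4 : ℂ[X]).leadingCoeff = 1 := by
    have : (X ^ 2 - 4 : ℂ[X]) = X ^ 2 - C 4 := rfl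
    rw [this]
    exact monic_X_pow_sub_C 4 (by norm_num)
  have hlc2 : (P ^ 2 - 4 : ℂ[X]).leadingCoeff = P.leadingCoeff ^ 2 := by
    have e1 : (P ^ 2 - 4 : ℂ[X]) = P ^ 2 - C 4 := rfl
    rw [e1, leadingCoeff_sub_of_degree_lt, leadingCoeff_pow]
    have hP2 : P ^ 2 ≠ 0 := by
      intro h0
      have h3 : P = 0 := pow_eq_zero_iff (by norm_num) |>.mp h0
      rw [h3, natDegree_zero] at hd
      omega
    apply degree_lt_degree
    rw [natDegree_C, natDegree_pow]
    omega
  have hq0 : q ≠ 0 := by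
    intro h0
    rw [h0, mul_zero] at hq
    exact hne hq
  have hqd : q.natDegree = 0 := by
    have h3 := congrArg natDegree hq
    rw [natDegree_mul chc_X2_ne (pow_ne_zero _ (chc_der_ne hd)), natDegree_mul hne4 hq0,
      natDegree_pow, hXdeg, hdeg2, natDegree_derivative] at h3
    omega
  have hqC : q = C (q.coeff 0) := eq_C_of_natDegree_eq_zero hqd
  have hl : (derivative P).leadingCoeff = P.natDegree * P.leadingCoeff := by
    rw [leadingCoeff, natDegree_derivative, coeff_derivative, leadingCoeff]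
    have e1 : P.natDegree - 1 + 1 = P.natDegree := by omega
    rw [e1]
    have e2 : ((P.natDegree - 1 : ℕ) : ℂ) + 1 = P.natDegree := by
      exact_mod_cast e1
    rw [e2, mul_comm]
  have hlc : P.leadingCoeff ≠ 0 := by
    rw [Ne, leadingCoeff_eq_zero]
    intro h0
    rw [h0, natDegree_zero] at hd
    omega
  have hqv : q.coeff 0 = (P.natDegree : ℂ) ^ 2 := by
    have h3 := congrArg leadingCoeff hq
    rw [leadingCoeff_mul, leadingCoeff_mul, leadingCoeff_pow, hXlc, hlc2, hl, hqC,
      leadingCoeff_C, one_mul] at h3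
    have h4 : P.leadingCoeff ^ 2 ≠ 0 := pow_ne_zero _ hlc
    apply mul_left_cancel₀ h4
    rw [← h3]
    ring
  rw [hq, hqC, hqv]
  ring

/-- the linear differential equation -/
theorem chc_lin {P : ℂ[X]} (hd : 1 ≤ P.natDegree) {c : ℂ}
    (h : C c * (P ^ 2 - 4) = (X ^ 2 - 4) * (derivative P) ^ 2) :
    C c * P = X * derivative P + (X ^ 2 - 4) * derivative (derivative P) := by
  have h1 := congrArg derivative h
  have e4 : derivative (4 : ℂ[X]) = 0 := by
    have : (4 : ℂ[X]) = C 4 := rfl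
    rw [this, derivative_C]
  rw [derivative_mul, derivative_C, derivative_sub, e4, derivative_mul, derivative_sub, e4,
    derivative_pow, derivative_pow, derivative_pow, derivative_X] at h1
  simp only [Nat.cast_ofNat, Nat.add_one_sub_one, pow_one, zero_mul, zero_add, sub_zero,
    mul_one] at h1
  have e2 : (C (2 : ℂ) : ℂ[X]) = 2 := rfl
  rw [e2] at h1
  have h2 : (2 * derivative P) ≠ 0 := mul_ne_zero (by norm_num) (chc_der_ne hd)
  apply mul_left_cancel₀ h2
  linear_combination h1

theorem chc_pm1 {a : ℂ} (h : a ^ 2 = 1) : a = 1 ∨ a = -1 := by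
  have h7 : (a - 1) * (a + 1) = 0 := by linear_combination h
  rcases mul_eq_zero.mp h7 with h8 | h8
  · left; linear_combination h8
  · right; linear_combination h8

theorem chc_uniq {Q : ℂ[X]} {d : ℕ} (hQ : Q.natDegree < d)
    (h : C ((d : ℂ) ^ 2) * Q = X * derivative Q + (X ^ 2 - 4) * derivative (derivative Q)) :
    Q = 0 := by
  by_contra hne
  set j := Q.natDegree with hj
  have h1 := congrArg (fun p => p.coeff j) h
  simp only [coeff_add, coeff_C_mul] at h1
  have e4 : (4 : ℂ[X]) = C 4 := rfl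
  have h0 : Q.coeff (j + 2) = 0 := coeff_eq_zero_of_natDegree_lt (by omega)
  have e1 : (X * derivative Q).coeff j = j * Q.coeff j := by
    rcases Nat.eq_zero_or_pos j with h3 | h3
    · rw [h3]
      simp
    · obtain ⟨i, hi⟩ : ∃ i, j = i + 1 := ⟨j - 1, by omega⟩
      rw [hi, coeff_X_mul, coeff_derivative]
      push_cast
      ring
  have e2 : (X ^ 2 * derivative (derivative Q)).coeff j = j * (j - 1) * Q.coeff j := by
    rcases Nat.lt_or_ge j 2 with h3 | h3
    · rw [coeff_X_pow_mul']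
      rw [if_neg (by omega)]
      interval_cases j <;> simp
    · obtain ⟨i, hi⟩ : ∃ i, j = i + 2 := ⟨j - 2, by omega⟩
      rw [hi, coeff_X_pow_mul, coeff_derivative, coeff_derivative]
      push_cast
      ring
  have e3 : ((4 : ℂ[X]) * derivative (derivative Q)).coeff j = 0 := by
    rw [e4, coeff_C_mul, coeff_derivative, coeff_derivative, h0]
    ring
  rw [sub_mul, coeff_sub, e1, e2, e3] at h1
  have hlc : Q.coeff j ≠ 0 := by
    rw [hj]
    exact leadingCoeff_ne_zero.mpr hne
  have h5 : ((d : ℂ) ^ 2 - (j : ℂ) ^ 2) * Q.coeff j = 0 := by linear_combination h1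
  rcases mul_eq_zero.mp h5 with h6 | h6
  · have h7 : (d : ℂ) ^ 2 = (j : ℂ) ^ 2 := by linear_combination h6
    have h8 : d ^ 2 = j ^ 2 := by exact_mod_cast h7
    have h9 : d = j := Nat.pow_left_injective (n := 2) (by norm_num) h8
    omega
  · exact hlc h6

/-- a polynomial with Chebyshev set `{2,-2}` is `± C_d` -/
theorem cheb_pm {P : ℂ[X]} (hd : 2 ≤ P.natDegree) (h : ChebSet P {2, -2}) :
    P = Ch P.natDegree ∨ P = - Ch P.natDegree := by
  have hd1 : 1 ≤ P.natDegree := by omega
  set d := P.natDegree with hdd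
  have hCd : (Ch d).natDegree = d := Ch_deg hd1
  have hC1 : 1 ≤ (Ch d).natDegree := by omega
  have hP0 : P ≠ 0 := by
    intro h0
    rw [h0, natDegree_zero] at hdd
    omega
  have hC0 : Ch d ≠ 0 := by
    intro h0
    rw [h0, natDegree_zero] at hCd
    omega
  have hode := chc_ode_of (by omega : 1 ≤ P.natDegree) h
  rw [← hdd] at hode
  have hl := chc_lin (by omega : 1 ≤ P.natDegree) hode
  have hlC := chc_lin hC1 (Ch_ode hd1)
  have hlcC : (Ch d).leadingCoeff ≠ 0 := leadingCoeff_ne_zero.mpr hC0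
  obtain ⟨a, ha⟩ : ∃ a : ℂ, a * (Ch d).leadingCoeff = P.leadingCoeff :=
    ⟨P.leadingCoeff / (Ch d).leadingCoeff, by field_simp⟩
  have hdegQ : (P - C a * Ch d).natDegree < d := by
    have h1 : (P - C a * Ch d).natDegree ≤ d := by
      refine (natDegree_sub_le _ _).trans ?_
      refine max_le (by omega) ?_
      refine (natDegree_C_mul_le _ _).trans (by omega)
    rcases Nat.lt_or_ge (P - C a * Ch d).natDegree d with h2 | h2
    · exact h2
    · exfalso
      have h3 : (P - C a * Ch d).natDegree = d := le_antisymm h1 h2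
      have h4 : (P - C a * Ch d).coeff d = 0 := by
        rw [coeff_sub, coeff_C_mul]
        have e1 : P.coeff d = P.leadingCoeff := by rw [leadingCoeff, ← hdd]
        have e2 : (Ch d).coeff d = (Ch d).leadingCoeff := by rw [leadingCoeff, hCd]
        rw [e1, e2, ha, sub_self]
      have h5 : (P - C a * Ch d).leadingCoeff = 0 := by
        rw [leadingCoeff, h3, h4]
      rw [leadingCoeff_eq_zero] at h5
      rw [h5, natDegree_zero] at h3
      omega
  have hQ0 : P - C a * Ch d = 0 := by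
    apply chc_uniq hdegQ
    rw [derivative_sub, derivative_C_mul, derivative_sub, derivative_C_mul]
    linear_combination hl - C a * hlC
  have hPa : P = C a * Ch d := sub_eq_zero.mp hQ0
  have hv : ∀ F : ℂ[X], C ((d : ℂ) ^ 2) * (F ^ 2 - 4) = (X ^ 2 - 4) * (derivative F) ^ 2 →
      (F.eval 2) ^ 2 = 4 := by
    intro F hF
    have h1 := congrArg (fun p => p.eval 2) hF
    simp only [eval_mul, eval_C, eval_sub, eval_pow, eval_X] at h1
    have h4 : (4 : ℂ[X]).eval 2 = 4 := by
      have : (4 : ℂ[X]) = C 4 := rfl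
      rw [this, eval_C]
    rw [h4] at h1
    have h2 : ((2 : ℂ) ^ 2 - 4) = 0 := by norm_num
    rw [h2, zero_mul] at h1
    have h3 : (d : ℂ) ^ 2 ≠ 0 := by
      apply pow_ne_zero
      exact_mod_cast (by omega : d ≠ 0)
    rcases mul_eq_zero.mp h1 with h5 | h5
    · exact absurd h5 h3
    · linear_combination h5
  have hv1 := hv P hode
  have hv2 := hv (Ch d) (Ch_ode hd1)
  have ha2 : a ^ 2 = 1 := by
    have h1 : P.eval 2 = a * (Ch d).eval 2 := by
      conv_lhs => rw [hPa]
      rw [eval_mul, eval_C]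
    rw [h1, mul_pow, hv2] at hv1
    have h4 : (4 : ℂ) ≠ 0 := by norm_num
    apply mul_right_cancel₀ h4
    rw [hv1, one_mul]
  rcases chc_pm1 ha2 with h1 | h1
  · left
    rw [hPa, h1]
    simp
  · right
    rw [hPa, h1]
    simp

/-- transport of a Chebyshev set by a conjugacy -/
theorem chc_transport {P Q L : ℂ[X]} (hP : 1 ≤ P.natDegree) (hL : L.natDegree = 1)
    (hc : L.comp P = Q.comp L) {S : Finset ℂ} (h : ChebSet P S) :
    ChebSet Q (S.image (fun z => L.eval z)) := by
  obtain ⟨L', hL', h1, h2⟩ := lin_inv hL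
  obtain ⟨hS, h3, h4⟩ := h
  have hinv : ∀ z, L'.eval (L.eval z) = z := by
    intro z
    rw [← eval_comp, h2, eval_X]
  have hinv' : ∀ z, L.eval (L'.eval z) = z := by
    intro z
    rw [← eval_comp, h1, eval_X]
  have hinj : Function.Injective (fun z => L.eval z) := fun x y hxy => by
    have := congrArg (fun z => L'.eval z) hxy
    simpa [hinv] using this
  have hQ : Q.natDegree = P.natDegree := by
    have h5 := congrArg natDegree hc
    rw [natDegree_comp, natDegree_comp, hL, one_mul, mul_one] at h5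
    exact h5.symm
  have hQ1 : 1 ≤ Q.natDegree := by omega
  have hL1 : 1 ≤ L.natDegree := by omega
  have hmu : ∀ z, mu Q (L.eval z) = mu P z := by
    intro z
    have h5 : mu (L.comp P) z = mu (Q.comp L) z := by rw [hc]
    rw [mu_comp hL1 hP, mu_comp hQ1 hL1, mu_lin hL, mu_lin hL, one_mul, mul_one] at h5
    exact h5.symm
  have hev : ∀ z, Q.eval (L.eval z) = L.eval (P.eval z) := by
    intro z
    rw [← eval_comp, ← hc, eval_comp]
  have hmem : ∀ z, L.eval z ∈ S.image (fun z => L.eval z) ↔ z ∈ S := by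
    intro z
    constructor
    · intro h5
      obtain ⟨y, hy, hyz⟩ := Finset.mem_image.mp h5
      have := hinj hyz
      rwa [← this]
    · intro h5
      exact Finset.mem_image_of_mem _ h5
  refine ⟨?_, ?_, ?_⟩
  · rw [Finset.card_image_of_injective _ hinj, hS]
  · intro w hw
    rw [← hinv' w] at hw ⊢
    rw [hmem] at hw
    rw [hev, hmem, hmu]
    exact h3 _ hw
  · intro w hw hw'
    rw [← hinv' w] at hw hw' ⊢
    rw [hmem] at hw'
    rw [hev, hmem] at hw
    rw [hmu]
    exact h4 _ hw hw'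

theorem chc_pm_conj {P : ℂ[X]} (hd : 2 ≤ P.natDegree) (h : ChebType P) :
    ∃ Q : ℂ[X], Conj P Q ∧ (Q = Ch P.natDegree ∨ Q = - Ch P.natDegree) := by
  obtain ⟨S, hS⟩ := h
  obtain ⟨u, v, huv, hSuv⟩ := Finset.card_eq_two.mp hS.1
  have huv' : u - v ≠ 0 := sub_ne_zero.mpr huv
  set α : ℂ := 4 / (u - v) with hα
  have hα0 : α ≠ 0 := by
    rw [hα]
    exact div_ne_zero (by norm_num) huv'
  set L : ℂ[X] := C α * X + C (2 - α * u) with hLdef
  have hL : L.natDegree = 1 := natDegree_linear hα0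
  obtain ⟨L', hL', h1, h2⟩ := lin_inv hL
  have hc : L.comp P = ((L.comp P).comp L').comp L := by
    rw [comp_assoc, h2, comp_X]
  have hQd : ((L.comp P).comp L').natDegree = P.natDegree := by
    rw [natDegree_comp, natDegree_comp, hL, hL']
    ring
  have hP1 : 1 ≤ P.natDegree := by omega
  have hcheb := chc_transport hP1 hL hc hS
  have himg : S.image (fun z => L.eval z) = {2, -2} := by
    rw [hSuv, Finset.image_insert, Finset.image_singleton]
    have e1 : L.eval u = 2 := by
      rw [hLdef]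
      simp
    have e2 : L.eval v = -2 := by
      rw [hLdef]
      simp only [eval_add, eval_mul, eval_C, eval_X]
      rw [hα]
      field_simp
      ring
    rw [e1, e2]
  rw [himg] at hcheb
  refine ⟨(L.comp P).comp L', ⟨L, hL, hc⟩, ?_⟩
  have := cheb_pm (by rw [hQd]; exact hd) hcheb
  rwa [hQd] at this

theorem cheb_conj {P : ℂ[X]} (hd : 2 ≤ P.natDegree) (h : ChebType P) :
    Conj P (Ch P.natDegree) ∨ Conj P (- Ch P.natDegree) := by
  obtain ⟨Q, hQ, h1 | h1⟩ := chc_pm_conj hd h
  · left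
    rwa [h1] at hQ
  · right
    rwa [h1] at hQ

theorem conj_cheb {P Q : ℂ[X]} (hd : 2 ≤ P.natDegree) (h : ChebType P) (hc : Conj P Q) :
    ChebType Q := by
  obtain ⟨S, hS⟩ := h
  obtain ⟨L, hL, hLc⟩ := hc
  exact ⟨_, chc_transport (by omega) hL hLc hS⟩

theorem chc_it2 (Q : ℂ[X]) : it Q 2 = Q.comp Q := by
  rw [it_succ, it_one]

/-- the second iterate is conjugate to `C_{d²}` -/
theorem cheb_sq {P : ℂ[X]} (hd : 2 ≤ P.natDegree) (h : ChebType P) :
    Conj (it P 2) (Ch (P.natDegree ^ 2)) := by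
  rcases cheb_conj hd h with h1 | h1
  · have h2 := h1.iter 2
    rw [chc_it2 (Ch P.natDegree), Ch_comp] at h2
    rw [sq]
    exact h2
  · have h2 := h1.iter 2
    have e : (-Ch P.natDegree).comp (-Ch P.natDegree) =
        -(C ((-1) ^ P.natDegree) * Ch (P.natDegree * P.natDegree)) := by
      have e1 : (-Ch P.natDegree : ℂ[X]) = (-X : ℂ[X]).comp (Ch P.natDegree) := by simp
      have e2 : (Ch P.natDegree).comp (-Ch P.natDegree) =
          ((Ch P.natDegree).comp (-X)).comp (Ch P.natDegree) := by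
        rw [comp_assoc, ← e1]
      rw [neg_comp, e2, Ch_neg, mul_comp, C_comp, Ch_comp]
    rw [chc_it2 (-Ch P.natDegree), e] at h2
    rw [sq]
    rcases Nat.even_or_odd P.natDegree with he | ho
    · rw [he.neg_one_pow, C_1, one_mul] at h2
      refine h2.trans ⟨-X, ?_, ?_⟩
      · rw [natDegree_neg, natDegree_X]
      · rw [Ch_neg]
        have he2 : Even (P.natDegree * P.natDegree) := he.mul_left _
        rw [he2.neg_one_pow, C_1, one_mul]
        simp
    · rw [ho.neg_one_pow, C_neg, C_1, neg_mul, one_mul, neg_neg] at h2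
      exact h2

end H12IT
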