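import Pool.Agent.H12.IT.Hom

set_option autoImplicit false

/-! PROJECT IT, module Iso: numerical isolation of roots. -/

open Polynomial

namespace H12IT

theorem iso_prod_lt (s : Multiset ℂ) {q : ℂ} {e : ℝ} (he : 0 < e) (h : ∀ z ∈ s, e < ‖z - q‖) :
    e ^ Multiset.card s ≤ ‖(s.map (fun a => q - a)).prod‖ ∧
      (s ≠ 0 → e ^ Multiset.card s < ‖(s.map (fun a => q - a)).prod‖) := by
  induction s using Multiset.induction_on with
  | empty => simp
  | cons a s ih =>
    have h1 := ih (fun z hz => h z (Multiset.mem_cons_of_mem hz))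
    have h2 : e < ‖q - a‖ := by
      rw [norm_sub_rev]
      exact h a (Multiset.mem_cons_self a s)
    have h3 : e ^ Multiset.card (a ::ₘ s) < ‖((a ::ₘ s).map (fun a => q - a)).prod‖ := by
      rw [Multiset.map_cons, Multiset.prod_cons, norm_mul, Multiset.card_cons, pow_succ']
      exact mul_lt_mul h2 h1.1 (by positivity) (norm_nonneg _)
    exact ⟨h3.le, fun _ => h3⟩

/-- a monic polynomial small at `q` has a root near `q` -/
theorem root_near {M : ℂ[X]} (hM : M.Monic) (hs : 1 ≤ M.natDegree) {q : ℂ} {e : ℝ} (he : 0 < e)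
    (h : ‖M.eval q‖ ≤ e ^ M.natDegree) : ∃ z, M.eval z = 0 ∧ ‖z - q‖ ≤ e := by
  by_contra hcon
  push Not at hcon
  have hsp : M.Splits := IsAlgClosed.splits M
  have hc : Multiset.card M.roots = M.natDegree := hsp.natDegree_eq_card_roots.symm
  have h1 := iso_prod_lt M.roots (q := q) he (fun z hz => hcon z ((mem_roots hM.ne_zero).mp hz))
  have h2 : M.roots ≠ 0 := by
    intro h0
    rw [h0, Multiset.card_zero] at hc
    omega
  have h3 := h1.2 h2
  rw [hc, ← hsp.eval_eq_prod_roots_of_monic hM q] at h3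
  linarith

/-- the polynomial of the code over the complex numbers -/
noncomputable def isoM (ml : List Q3) : ℂ[X] := (pq (ml ++ [o3])).map (algebraMap ℚ ℂ)

theorem isoM_monic (ml : List Q3) : (isoM ml).Monic := (pq_snoc ml).1.map _

theorem isoM_deg (ml : List Q3) : (isoM ml).natDegree = ml.length := by
  rw [isoM, (pq_snoc ml).1.natDegree_map, (pq_snoc ml).2]

theorem isoM_eval (ml : List Q3) (x : ℂ) : (isoM ml).eval x = evalL (ml ++ [o3]) x := by
  rw [evalL_pq, isoM, eval_map_algebraMap]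

theorem iso_gau (l : List Q3) (q : G2) : gau (horQ l q) = evalL l (gau q) := by
  rw [gau_isHom.horQ, evalL_eq]

theorem chkIso_sound {ml : List Q3} {pts : List G2} {ep : Q3} (h : ChkIso ml pts ep) :
    ∃ β : ℂ, Isolates (ml ++ [o3], pts.getD 0 (z3, z3), mul3 (n3 2) ep) β ∧
      ‖β - gau (pts.getD 0 (z3, z3))‖ ≤ ((rat ep : ℚ) : ℝ) := by
  obtain ⟨hs, hlen, hep, hval, hsep⟩ := h
  rw [lt3_iff, rat_z3] at hep
  set e : ℝ := ((rat ep : ℚ) : ℝ) with hedef
  have he : 0 < e := by rw [hedef]; exact_mod_cast hep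
  have hM := isoM_monic ml
  have hdeg := isoM_deg ml
  -- roots near the points
  have hnear : ∀ i, i < pts.length →
      ∃ z, (isoM ml).eval z = 0 ∧ ‖z - gau (pts.getD i (z3, z3))‖ ≤ e := by
    intro i hi
    have hmem : pts.getD i (z3, z3) ∈ pts := by
      rw [List.getD_eq_getElem _ _ hi]
      exact List.getElem_mem hi
    have h1 := hval _ hmem
    rw [lt3_iff, not_lt, rat_pow3] at h1
    have h2 : ((rat (nsq (horQ (ml ++ [o3]) (pts.getD i (z3, z3)))) : ℚ) : ℝ) ≤
        e ^ (2 * ml.length) := by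
      rw [hedef]; exact_mod_cast h1
    rw [nsq_eq, iso_gau, ← isoM_eval] at h2
    refine root_near hM (by rw [hdeg]; exact hs) he ?_
    rw [hdeg]
    have h3 : ‖(isoM ml).eval (gau (pts.getD i (z3, z3)))‖ ^ 2 ≤ (e ^ ml.length) ^ 2 := by
      rw [← pow_mul, mul_comm ml.length 2]
      exact h2
    exact (pow_le_pow_iff_left₀ (norm_nonneg _) (by positivity) two_ne_zero).mp h3
  have hsep' : ∀ i, i < pts.length → ∀ j, j < i →
      4 * e < ‖gau (pts.getD i (z3, z3)) - gau (pts.getD j (z3, z3))‖ := by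
    intro i hi j hj
    have h1 := hsep i hi j hj
    rw [lt3_iff, rat_mul3, rat_mul3, rat_n3] at h1
    have h2 : (16 : ℝ) * (e * e) <
        ((rat (nsq (subG (pts.getD i (z3, z3)) (pts.getD j (z3, z3)))) : ℚ) : ℝ) := by
      rw [hedef]; exact_mod_cast h1
    rw [nsq_eq, gau_sub] at h2
    have h3 : (4 * e) ^ 2 < ‖gau (pts.getD i (z3, z3)) - gau (pts.getD j (z3, z3))‖ ^ 2 := by
      nlinarith [h2]
    exact lt_of_pow_lt_pow_left₀ 2 (norm_nonneg _) h3
  have hsep2 : ∀ i, i < pts.length → ∀ j, j < pts.length → i ≠ j →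
      4 * e < ‖gau (pts.getD i (z3, z3)) - gau (pts.getD j (z3, z3))‖ := by
    intro i hi j hj hij
    rcases lt_or_gt_of_ne hij with h | h
    · rw [norm_sub_rev]
      exact hsep' j hj i h
    · exact hsep' i hi j h
  choose f hf0 hf1 using hnear
  let F : Fin pts.length → ℂ := fun i => f i.1 i.2
  have hinj : Function.Injective F := by
    intro i j hij
    by_contra hne
    have hne' : i.1 ≠ j.1 := fun h => hne (Fin.ext h)
    have h1 := hsep2 i.1 i.2 j.1 j.2 hne'
    have h2 := hf1 i.1 i.2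
    have h3 := hf1 j.1 j.2
    have h4 : f i.1 i.2 = f j.1 j.2 := hij
    rw [h4] at h2
    have h5 : ‖gau (pts.getD i.1 (z3, z3)) - gau (pts.getD j.1 (z3, z3))‖ ≤
        ‖f j.1 j.2 - gau (pts.getD j.1 (z3, z3))‖ + ‖f j.1 j.2 - gau (pts.getD i.1 (z3, z3))‖ := by
      have : gau (pts.getD i.1 (z3, z3)) - gau (pts.getD j.1 (z3, z3)) =
          (f j.1 j.2 - gau (pts.getD j.1 (z3, z3))) - (f j.1 j.2 - gau (pts.getD i.1 (z3, z3))) := by
        ring
      rw [this]
      exact norm_sub_le _ _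
    linarith
  have hall : ∀ z, (isoM ml).eval z = 0 → ∃ i, ∃ hi : i < pts.length, f i hi = z := by
    intro z hz
    have hsub : (Finset.univ.image F) ⊆ (isoM ml).roots.toFinset := by
      intro w hw
      obtain ⟨i, _, rfl⟩ := Finset.mem_image.mp hw
      rw [Multiset.mem_toFinset, mem_roots hM.ne_zero]
      exact hf0 i.1 i.2
    have hcard : (isoM ml).roots.toFinset.card ≤ (Finset.univ.image F).card := by
      rw [Finset.card_image_of_injective _ hinj, Finset.card_univ, Fintype.card_fin, hlen, ← hdeg]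
      exact (Multiset.toFinset_card_le _).trans (card_roots' _)
    have heq := Finset.eq_of_subset_of_card_le hsub hcard
    have hz' : z ∈ Finset.univ.image F := by
      rw [heq, Multiset.mem_toFinset, mem_roots hM.ne_zero]
      exact hz
    obtain ⟨i, _, hi⟩ := Finset.mem_image.mp hz'
    exact ⟨i.1, i.2, hi⟩
  have h0 : 0 < pts.length := by omega
  refine ⟨f 0 h0, ⟨?_, ?_, ?_⟩, hf1 0 h0⟩
  · show evalL (ml ++ [o3]) (f 0 h0) = 0
    rw [← isoM_eval]
    exact hf0 0 h0
  · show ‖f 0 h0 - gau (pts.getD 0 (z3, z3))‖ < ((rat (mul3 (n3 2) ep) : ℚ) : ℝ)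
    rw [rat_mul3, rat_n3]
    have := hf1 0 h0
    push_cast
    rw [← hedef]
    linarith
  · intro z hz hzr
    have hz' : evalL (ml ++ [o3]) z = 0 := hz
    have hzr' : ‖z - gau (pts.getD 0 (z3, z3))‖ < ((rat (mul3 (n3 2) ep) : ℚ) : ℝ) := hzr
    rw [rat_mul3, rat_n3] at hzr'
    push_cast at hzr'
    rw [← hedef] at hzr'
    rw [← isoM_eval] at hz'
    obtain ⟨i, hi, rfl⟩ := hall z hz'
    by_cases hi0 : i = 0
    · subst hi0
      rfl
    · exfalso
      have h1 := hsep2 i hi 0 h0 hi0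
      have h2 := hf1 i hi
      have h5 : ‖gau (pts.getD i (z3, z3)) - gau (pts.getD 0 (z3, z3))‖ ≤
          ‖f i hi - gau (pts.getD 0 (z3, z3))‖ + ‖f i hi - gau (pts.getD i (z3, z3))‖ := by
        have : gau (pts.getD i (z3, z3)) - gau (pts.getD 0 (z3, z3)) =
            (f i hi - gau (pts.getD 0 (z3, z3))) - (f i hi - gau (pts.getD i (z3, z3))) := by
          ring
        rw [this]
        exact norm_sub_le _ _
      linarith

theorem iso_gap (S : Finset ℂ) : ∃ η : ℝ, 0 < η ∧ ∀ x ∈ S, ∀ y ∈ S, x ≠ y → η ≤ ‖x - y‖ := by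
  classical
  rcases S.offDiag.eq_empty_or_nonempty with h | h
  · refine ⟨1, one_pos, fun x hx y hy hxy => ?_⟩
    have : (x, y) ∈ S.offDiag := Finset.mem_offDiag.mpr ⟨hx, hy, hxy⟩
    rw [h] at this
    simp at this
  · obtain ⟨p, hp, hmin⟩ := Finset.exists_min_image S.offDiag (fun p => ‖p.1 - p.2‖) h
    refine ⟨‖p.1 - p.2‖, ?_, fun x hx y hy hxy => hmin (x, y) (Finset.mem_offDiag.mpr ⟨hx, hy, hxy⟩)⟩
    rw [norm_pos_iff, sub_ne_zero]
    exact (Finset.mem_offDiag.mp hp).2.2

theorem chkIso_exists {ml : List Q3} (hs : (pq (ml ++ [o3])).Separable) {β : ℂ}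
    (hβ : evalL (ml ++ [o3]) β = 0) {δ : ℝ} (hδ : 0 < δ) :
    ∃ (pts : List G2) (ep : Q3), ChkIso ml pts ep ∧ ((rat ep : ℚ) : ℝ) < δ ∧
      ‖β - gau (pts.getD 0 (z3, z3))‖ < δ := by
  classical
  have hM := isoM_monic ml
  have hdeg := isoM_deg ml
  have hsepM : (isoM ml).Separable := hs.map
  have hnd : (isoM ml).roots.Nodup := nodup_roots hsepM
  have hcard : (isoM ml).roots.toFinset.card = ml.length := by
    rw [Multiset.toFinset_card_of_nodup hnd, ← hdeg]
    exact (IsAlgClosed.splits (isoM ml)).natDegree_eq_card_roots.symm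
  have hβM : (isoM ml).eval β = 0 := by rw [isoM_eval]; exact hβ
  have hβr : β ∈ (isoM ml).roots.toFinset := by
    rw [Multiset.mem_toFinset, mem_roots hM.ne_zero]
    exact hβM
  set R := (isoM ml).roots.toFinset with hR
  let l : List ℂ := β :: (R.erase β).toList
  have hlnd : l.Nodup := by
    refine List.nodup_cons.mpr ⟨?_, Finset.nodup_toList _⟩
    rw [Finset.mem_toList]
    exact Finset.notMem_erase β R
  have hllen : l.length = ml.length := by
    have h1 : l.length = (R.erase β).card + 1 := by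
      rw [List.length_cons, Finset.length_toList]
    have h2 := Finset.card_erase_add_one hβr
    rw [h1, h2, hcard]
  have hlmem : ∀ z ∈ l, z ∈ R := by
    intro z hz
    rcases List.mem_cons.mp hz with h | h
    · rw [h]
      exact hβr
    · rw [Finset.mem_toList] at h
      exact Finset.mem_of_mem_erase h
  obtain ⟨η, hη, hgap⟩ := iso_gap R
  obtain ⟨qe, hqe0, hqe1⟩ := exists_rat_btwn (show (0 : ℝ) < min (η / 8) δ by positivity)
  obtain ⟨ep, hep⟩ := rat_surj qe
  have he0 : (0 : ℝ) < ((rat ep : ℚ) : ℝ) := by rw [hep]; exact hqe0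
  have he1 : ((rat ep : ℚ) : ℝ) < η / 8 := by
    rw [hep]; exact lt_of_lt_of_le hqe1 (min_le_left _ _)
  have he2 : ((rat ep : ℚ) : ℝ) < δ := by
    rw [hep]; exact lt_of_lt_of_le hqe1 (min_le_right _ _)
  set e : ℝ := ((rat ep : ℚ) : ℝ) with hedef
  have hG : ∀ z : ℂ, (isoM ml).eval z = 0 →
      ∃ g : G2, ‖z - gau g‖ < e ∧ ‖(isoM ml).eval (gau g)‖ ≤ e ^ ml.length := by
    intro z hz
    have hcont : ContinuousAt (fun w => (isoM ml).eval w) z := (isoM ml).continuous.continuousAt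
    have hpos : 0 < e ^ ml.length := by positivity
    obtain ⟨ρ, hρ, hρ2⟩ := Metric.continuousAt_iff.mp hcont _ hpos
    obtain ⟨g, hg⟩ := gau_dense z (show 0 < min e ρ from lt_min he0 hρ)
    refine ⟨g, lt_of_lt_of_le hg (min_le_left _ _), ?_⟩
    have h1 := hρ2 (x := gau g) (by
      rw [dist_eq_norm, norm_sub_rev]
      exact lt_of_lt_of_le hg (min_le_right _ _))
    rw [hz, dist_zero_right] at h1
    exact h1.le
  have hG' : ∀ z : ℂ, ∃ g : G2, (isoM ml).eval z = 0 →
      ‖z - gau g‖ < e ∧ ‖(isoM ml).eval (gau g)‖ ≤ e ^ ml.length := by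
    intro z
    by_cases hz : (isoM ml).eval z = 0
    · obtain ⟨g, hg⟩ := hG z hz
      exact ⟨g, fun _ => hg⟩
    · exact ⟨(z3, z3), fun h => absurd h hz⟩
  choose G hGs using hG'
  have hroot : ∀ z ∈ l, (isoM ml).eval z = 0 := by
    intro z hz
    have := hlmem z hz
    rw [hR, Multiset.mem_toFinset, mem_roots hM.ne_zero] at this
    exact this
  have hgetD : ∀ i, ∀ hi : i < l.length, (l.map G).getD i (z3, z3) = G (l[i]'hi) := by
    intro i hi
    rw [List.getD_eq_getElem _ _ (by rw [List.length_map]; exact hi), List.getElem_map]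
  refine ⟨l.map G, ep, ⟨?_, ?_, ?_, ?_, ?_⟩, he2, ?_⟩
  · rw [← hllen, List.length_cons]
    omega
  · rw [List.length_map, hllen]
  · rw [lt3_iff, rat_z3]
    have h1 := he0
    rw [hedef] at h1
    exact_mod_cast h1
  · intro q hq
    obtain ⟨z, hz, rfl⟩ := List.mem_map.mp hq
    have h1 := (hGs z (hroot z hz)).2
    rw [lt3_iff, not_lt, rat_pow3]
    have h2 : ((rat (nsq (horQ (ml ++ [o3]) (G z))) : ℚ) : ℝ) ≤ e ^ (2 * ml.length) := by
      rw [nsq_eq, iso_gau, ← isoM_eval, mul_comm, pow_mul]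
      exact pow_le_pow_left₀ (norm_nonneg _) h1 2
    rw [hedef] at h2
    exact_mod_cast h2
  · intro i hi j hj
    rw [List.length_map] at hi
    have hj' : j < l.length := by omega
    rw [hgetD i hi, hgetD j hj']
    have hne : l[i] ≠ l[j] := by
      intro h
      have := (List.Nodup.getElem_inj_iff hlnd).mp h
      omega
    have h1 := (hGs _ (hroot _ (List.getElem_mem hi))).1
    have h2 := (hGs _ (hroot _ (List.getElem_mem hj'))).1
    have h3 := hgap _ (hlmem _ (List.getElem_mem hi)) _ (hlmem _ (List.getElem_mem hj')) hne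
    have h4 : ‖l[i] - l[j]‖ ≤ ‖l[i] - gau (G l[i])‖ + ‖gau (G l[i]) - gau (G l[j])‖ +
        ‖l[j] - gau (G l[j])‖ := by
      have : l[i] - l[j] = ((l[i] - gau (G l[i])) + (gau (G l[i]) - gau (G l[j]))) -
          (l[j] - gau (G l[j])) := by ring
      rw [this]
      refine (norm_sub_le _ _).trans ?_
      gcongr
      exact norm_add_le _ _
    have h5 : 4 * e < ‖gau (G l[i]) - gau (G l[j])‖ := by linarith
    rw [lt3_iff, rat_mul3, rat_mul3, rat_n3]
    have h6 : (16 : ℝ) * (e * e) < ((rat (nsq (subG (G l[i]) (G l[j]))) : ℚ) : ℝ) := by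
      rw [nsq_eq, gau_sub]
      have h7 : (4 * e) ^ 2 < ‖gau (G l[i]) - gau (G l[j])‖ ^ 2 :=
        pow_lt_pow_left₀ h5 (by positivity) two_ne_zero
      nlinarith [h7]
    rw [hedef] at h6
    exact_mod_cast h6
  · have h0 : 0 < l.length := by rw [List.length_cons]; omega
    rw [hgetD 0 h0]
    have h1 := (hGs β hβM).1
    have h2 : l[0] = β := rfl
    rw [h2]
    exact lt_trans h1 he2

end H12IT
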