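import Pool.Agent.H12.IT.Mur
import Pool.Agent.H12.IT.Gcd

set_option autoImplicit false

/-! PROJECT IT, module Thm2: the class is finite. -/

open Polynomial

namespace H12IT

theorem thm2_rest {d : ℕ} (hd : 2 ≤ d) {Q : ℂ[X]} (h : MC d Q) :
    ∃ r : ℂ[X], Q = X ^ d + r ∧ r.natDegree ≤ d - 2 := by
  obtain ⟨hm, hn, hc⟩ := h
  refine ⟨Q - X ^ d, by ring, ?_⟩
  rw [natDegree_le_iff_coeff_eq_zero]
  intro N hN
  rw [coeff_sub, coeff_X_pow]
  rcases Nat.lt_or_ge d N with h1 | h1
  · rw [coeff_eq_zero_of_natDegree_lt (by omega), if_neg (by omega), sub_zero]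
  · rcases Nat.lt_or_ge N d with h2 | h2
    · have : N = d - 1 := by omega
      subst this
      rw [hc, if_neg (by omega), sub_zero]
    · have : N = d := by omega
      subst this
      have h3 : Q.coeff Q.natDegree = 1 := hm
      rw [hn] at h3
      rw [h3, if_pos rfl, sub_self]

theorem thm2_comp {d D : ℕ} (hd : 2 ≤ d) (hD : 1 ≤ D) {Q F : ℂ[X]} (h : MC d Q) (hF : MC D F) :
    MC (d * D) (Q.comp F) := by
  obtain ⟨r, hr, hrd⟩ := thm2_rest hd h
  obtain ⟨hm, hn, hc⟩ := h
  obtain ⟨hm', hn', hc'⟩ := hF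
  refine ⟨?_, ?_, ?_⟩
  · exact hm.comp hm' (by omega)
  · rw [natDegree_comp, hn, hn']
  · rw [hr, add_comp, pow_comp, X_comp, coeff_add]
    have h1 : (r.comp F).coeff (d * D - 1) = 0 := by
      apply coeff_eq_zero_of_natDegree_lt
      have h2 : (r.comp F).natDegree ≤ (d - 2) * D := by
        rw [natDegree_comp, hn']
        exact Nat.mul_le_mul_right _ hrd
      have h3 : (d - 2) * D + 2 * D = d * D := by
        rw [← Nat.add_mul]
        congr 1
        omega
      omega
    have h4 : (F ^ d).coeff (d * D - 1) = 0 := by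
      have h5 := hm'.nextCoeff_pow d
      have h6 : (F ^ d).natDegree = d * D := by rw [natDegree_pow, hn']
      have h7 : d * D ≠ 0 := by positivity
      rw [nextCoeff_of_natDegree_pos (by rw [h6]; omega), h6,
        nextCoeff_of_natDegree_pos (by omega), hn', hc', smul_zero] at h5
      exact h5
    rw [h1, h4, add_zero]

theorem mc_it {d : ℕ} (hd : 2 ≤ d) {Q : ℂ[X]} (h : MC d Q) {n : ℕ} (hn : 1 ≤ n) :
    MC (d ^ n) (it Q n) := by
  induction n, hn using Nat.le_induction with
  | base => rw [it_one, pow_one]; exact h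
  | succ k hk ih =>
    rw [it_succ, pow_succ']
    exact thm2_comp hd (Nat.one_le_pow _ _ (by omega)) h ih

theorem thm2_lin {D : ℕ} (hD : 2 ≤ D) {G : ℂ[X]} (hG : MC D G) {a b : ℂ} (ha : a ≠ 0) :
    (G.comp (C a * X + C b)).coeff (D - 1) = D * a ^ (D - 1) * b := by
  obtain ⟨r, hr, hrd⟩ := thm2_rest hD hG
  have e : (C a * X + C b : ℂ[X]) = C a * (X + C (b / a)) := by
    rw [mul_add, ← C_mul, mul_div_cancel₀ _ ha]
  rw [hr, add_comp, pow_comp, X_comp, coeff_add]
  have h1 : (r.comp (C a * X + C b)).coeff (D - 1) = 0 := by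
    apply coeff_eq_zero_of_natDegree_lt
    have h2 : (C a * X + C b : ℂ[X]).natDegree ≤ 1 := natDegree_linear_le
    have h3 : (r.comp (C a * X + C b)).natDegree ≤ (D - 2) * 1 := by
      rw [natDegree_comp]
      exact Nat.mul_le_mul hrd h2
    omega
  rw [h1, add_zero, e, mul_pow, ← C_pow, coeff_C_mul, coeff_X_add_C_pow]
  have h4 : D - (D - 1) = 1 := by omega
  rw [h4, pow_one]
  have h5 : D.choose (D - 1) = D := by
    obtain ⟨k, rfl⟩ : ∃ k, D = k + 1 := ⟨D - 1, by omega⟩
    simp
  rw [h5]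
  obtain ⟨k, rfl⟩ : ∃ k, D = k + 1 := ⟨D - 1, by omega⟩
  rw [Nat.add_sub_cancel, pow_succ]
  field_simp

theorem thm2_lead {D : ℕ} {G : ℂ[X]} (hG : MC D G) {a b : ℂ} (ha : a ≠ 0) :
    (G.comp (C a * X + C b)).leadingCoeff = a ^ D := by
  obtain ⟨hm, hn, hc⟩ := hG
  have h1 : (C a * X + C b : ℂ[X]).natDegree = 1 := natDegree_linear ha
  rw [leadingCoeff_comp (by rw [h1]; norm_num), hm.leadingCoeff, one_mul, hn,
    leadingCoeff_linear ha]

/-- monic centered roots are unique -/
theorem mc_root {d : ℕ} (hd : 2 ≤ d) {Q Q' : ℂ[X]} (h : MC d Q) (h' : MC d Q') {n : ℕ}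
    (hn : 1 ≤ n) (e : it Q n = it Q' n) : Q = Q' := by
  rcases Nat.lt_or_ge n 2 with h1 | h1
  · have : n = 1 := by omega
    subst this
    rwa [it_one, it_one] at e
  · obtain ⟨k, rfl⟩ : ∃ k, n = k + 1 := ⟨n - 1, by omega⟩
    have hk : 1 ≤ k := by omega
    rw [it_succ', it_succ'] at e
    have hF := mc_it hd h hk
    have hF' := mc_it hd h' hk
    have hD : 2 ≤ d ^ k := le_trans hd (Nat.le_self_pow (by omega) d)
    obtain ⟨L, hL, hQ, hA⟩ := same_right (A := it Q k) (B := it Q' k) (f := Q) (g := Q')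
      (by rw [hF.2.1]; omega) (by rw [h.2.1]; omega) e (by rw [h.2.1, h'.2.1])
    obtain ⟨a, b, ha, rfl⟩ := lin_form hL
    have e1 : Q = C a * Q' + C b := by
      rw [hQ]; simp
    have h2 : a = 1 := by
      have h3 := congrArg (fun p => p.coeff d) e1
      simp only [coeff_add, coeff_C_mul, coeff_C] at h3
      rw [if_neg (by omega), add_zero] at h3
      have h4 : Q.coeff d = 1 := by
        have := h.1
        rw [Monic, leadingCoeff, h.2.1] at this
        exact this
      have h5 : Q'.coeff d = 1 := by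
        have := h'.1
        rw [Monic, leadingCoeff, h'.2.1] at this
        exact this
      rw [h4, h5, mul_one] at h3
      exact h3.symm
    subst h2
    have h6 := thm2_lin hD hF ha (b := b)
    rw [hA, hF'.2.2] at h6
    have h7 : b = 0 := by
      rw [one_pow, mul_one] at h6
      have h8 : ((d ^ k : ℕ) : ℂ) ≠ 0 := by
        exact_mod_cast (by omega : d ^ k ≠ 0)
      rcases mul_eq_zero.mp h6.symm with h9 | h9
      · exact absurd h9 h8
      · exact h9
    rw [e1, h7]
    simp

/-- conjugacies of monic centered polynomials are rotations -/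
theorem mc_conj {D : ℕ} (hD : 2 ≤ D) {F G L : ℂ[X]} (hF : MC D F) (hG : MC D G)
    (hL : L.natDegree = 1) (e : L.comp F = G.comp L) :
    ∃ a : ℂ, a ^ (D - 1) = 1 ∧ L = C a * X := by
  obtain ⟨a, b, ha, rfl⟩ := lin_form hL
  have e1 : C a * F + C b = G.comp (C a * X + C b) := by
    rw [← e]; simp
  have h6 := thm2_lin hD hG ha (b := b)
  rw [← e1, coeff_add, coeff_C_mul, hF.2.2, mul_zero, coeff_C, if_neg (by omega), add_zero] at h6
  have h7 : b = 0 := by
    have h8 : (D : ℂ) ≠ 0 := by
      exact_mod_cast (by omega : D ≠ 0)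
    rcases mul_eq_zero.mp h6.symm with h9 | h9
    · exact absurd h9 (mul_ne_zero h8 (pow_ne_zero _ ha))
    · exact h9
  have h10 : a = a ^ D := by
    have h11 := congrArg (fun p => p.coeff D) e1
    simp only [coeff_add, coeff_C_mul, coeff_C] at h11
    rw [if_neg (by omega), add_zero] at h11
    have h4 : F.coeff D = 1 := by
      have := hF.1
      rw [Monic, leadingCoeff, hF.2.1] at this
      exact this
    have h12 : (G.comp (C a * X + C b)).coeff D = a ^ D := by
      have h13 := thm2_lead hG ha (b := b)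
      rw [leadingCoeff, natDegree_comp, hG.2.1, natDegree_linear ha, mul_one] at h13
      exact h13
    rw [h4, mul_one, h12] at h11
    exact h11
  refine ⟨a, ?_, by rw [h7]; simp⟩
  obtain ⟨k, rfl⟩ : ∃ k, D = k + 1 := ⟨D - 1, by omega⟩
  rw [Nat.add_sub_cancel]
  rw [pow_succ] at h10
  have h14 : (a ^ k - 1) * a = 0 := by
    rw [sub_mul, one_mul, ← h10, sub_self]
  rcases mul_eq_zero.mp h14 with h15 | h15
  · exact sub_eq_zero.mp h15
  · exact absurd h15 ha

/-- finitely many `R` above a given polynomial -/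
theorem sol_fin {p G : ℂ[X]} (hp : 1 ≤ p.natDegree) (hG : 1 ≤ G.natDegree) :
    {R : ℂ[X] | p.comp R = G}.Finite := by
  set m := G.natDegree with hm
  have hdeg : ∀ R ∈ {R : ℂ[X] | p.comp R = G}, R.natDegree ≤ m := by
    intro R hR
    have h1 : p.natDegree * R.natDegree = m := by
      rw [hm, ← (show p.comp R = G from hR), natDegree_comp]
    calc R.natDegree = 1 * R.natDegree := (one_mul _).symm
      _ ≤ p.natDegree * R.natDegree := Nat.mul_le_mul_right _ hp
      _ = m := h1
  have hinj : Function.Injective (fun i : Fin (m + 1) => ((i : ℕ) : ℂ)) := by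
    intro i j hij
    have : ((i : ℕ) : ℂ) = ((j : ℕ) : ℂ) := hij
    exact Fin.ext (by exact_mod_cast this)
  let Φ : ℂ[X] → (Fin (m + 1) → ℂ) := fun R i => R.eval ((i : ℕ) : ℂ)
  have hfin : (Set.pi Set.univ
      (fun i : Fin (m + 1) => ((fib p (G.eval ((i : ℕ) : ℂ)) : Finset ℂ) : Set ℂ))).Finite :=
    Set.Finite.pi' (fun i => Finset.finite_toSet _) |>.subset (by
      intro f hf i
      exact hf i (Set.mem_univ i))
  refine Set.Finite.of_finite_image (f := Φ) (hfin.subset ?_) ?_
  · rintro f ⟨R, hR, rfl⟩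
    intro i _
    have hne : p - C (G.eval ((i : ℕ) : ℂ)) ≠ 0 := by
      intro h0
      have h2 : p = C (G.eval ((i : ℕ) : ℂ)) := sub_eq_zero.mp h0
      rw [h2, natDegree_C] at hp
      omega
    have hR' : p.comp R = G := hR
    show R.eval ((i : ℕ) : ℂ) ∈ ((fib p (G.eval ((i : ℕ) : ℂ)) : Finset ℂ) : Set ℂ)
    simp only [fib, Finset.mem_coe, Multiset.mem_toFinset]
    rw [mem_roots hne, IsRoot.def, eval_sub, eval_C, ← hR', eval_comp, sub_self]
  · intro R hR R' hR' hΦ
    apply eq_of_natDegree_lt_card_of_eval_eq R R' hinj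
    · intro i
      exact congrFun hΦ i
    · rw [Fintype.card_fin]
      have h1 := hdeg R hR
      have h2 := hdeg R' hR'
      have := max_le h1 h2
      omega

end H12IT
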