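import Pool.Agent.H12.IT.Thm1
import Pool.Agent.H12.IT.Thm2

set_option autoImplicit false

/-! PROJECT IT, module Thm3: the class is finite. -/

open Polynomial

namespace H12IT

/-- for fixed `n, R` and degree of `p2` there are finitely many `Q` -/
theorem down_fin {R : ℂ[X]} {d n k : ℕ} (hd : 2 ≤ d) (hn : 1 ≤ n) (hk : 1 ≤ k)
    (hR : R.natDegree = d ^ n) :
    {Q : ℂ[X] | MC d Q ∧ ∃ p2 : ℂ[X], p2.natDegree = k ∧ p2.comp R = (it Q n).comp p2}.Finite := by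
  rcases Set.eq_empty_or_nonempty
    {Q : ℂ[X] | MC d Q ∧ ∃ p2 : ℂ[X], p2.natDegree = k ∧ p2.comp R = (it Q n).comp p2} with h0 | h0
  · rw [h0]
    exact Set.finite_empty
  obtain ⟨Q0, hQ0, p0, hp0, e0⟩ := h0
  have hD : 2 ≤ d ^ n := le_trans hd (Nat.le_self_pow (by omega) d)
  have hfin : {a : ℂ | a ^ (d ^ n - 1) = 1}.Finite := by
    have h1 : ((X ^ (d ^ n - 1) - 1 : ℂ[X])) ≠ 0 := by
      have := X_pow_sub_C_ne_zero (R := ℂ) (n := d ^ n - 1) (by omega) 1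
      simpa using this
    refine Set.Finite.subset (X ^ (d ^ n - 1) - 1 : ℂ[X]).roots.toFinset.finite_toSet ?_
    intro a ha
    have ha' : a ^ (d ^ n - 1) = 1 := ha
    simp [h1, ha', IsRoot.def]
  refine Set.Finite.subset (Set.Finite.biUnion hfin
    (t := fun a => {Q : ℂ[X] | MC d Q ∧ a ≠ 0 ∧
      (it Q n).comp (C a * X) = (C a * X).comp (it Q0 n)}) ?_) ?_
  · intro a _
    apply Set.Subsingleton.finite
    rintro Q ⟨hQ, ha, e⟩ Q' ⟨hQ', _, e'⟩
    have h2 : (C a * X : ℂ[X]).natDegree = 1 := natDegree_C_mul_X a ha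
    exact mc_root hd hQ hQ' hn (comp_cancel (V := C a * X) (by omega) (e.trans e'.symm))
  · rintro Q ⟨hQ, p2, hp2, e2⟩
    obtain ⟨L, hL, _, e⟩ := down_unique (p1 := p0) (p2 := p2) (R := R) (M1 := it Q0 n)
      (M2 := it Q n) (by omega) (by omega) e0 e2 (by omega)
    obtain ⟨a, ha, rfl⟩ := mc_conj hD (mc_it hd hQ0 hn) (mc_it hd hQ hn) hL e.symm
    have ha0 : a ≠ 0 := by
      rintro rfl
      rw [zero_pow (by omega)] at ha
      exact zero_ne_one ha
    exact Set.mem_biUnion (show a ∈ {a : ℂ | a ^ (d ^ n - 1) = 1} from ha) ⟨hQ, ha0, e⟩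

/-- for fixed `n, k1, k2` -/
theorem class_fin_aux {P : ℂ[X]} (hd : 2 ≤ P.natDegree) (hP : NonSpecial P) {n k1 k2 : ℕ}
    (hn : 1 ≤ n) (hk1 : 1 ≤ k1) (hk2 : 1 ≤ k2) :
    {Q : ℂ[X] | MC P.natDegree Q ∧ ∃ R p1 p2 : ℂ[X], Trip P Q n R p1 p2 ∧ p1.natDegree = k1 ∧
      p2.natDegree = k2}.Finite := by
  rcases Set.eq_empty_or_nonempty
    {Q : ℂ[X] | MC P.natDegree Q ∧ ∃ R p1 p2 : ℂ[X], Trip P Q n R p1 p2 ∧ p1.natDegree = k1 ∧
      p2.natDegree = k2} with h0 | h0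
  · rw [h0]
    exact Set.finite_empty
  obtain ⟨Q0, hQ0, R0, q1, q2, ⟨_, hq1, _, f1, _⟩, hk1', _⟩ := h0
  have hdeg : (it P n).natDegree = P.natDegree ^ n := natDegree_it P n
  have hpos : 1 ≤ (it P n).natDegree := by
    rw [hdeg]
    exact Nat.one_le_pow _ _ (by omega)
  have hG : 1 ≤ ((it P n).comp q1).natDegree := by
    rw [natDegree_comp]
    exact Nat.mul_pos hpos hq1
  refine Set.Finite.subset (Set.Finite.biUnion (sol_fin (p := q1) (G := (it P n).comp q1) hq1 hG)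
    (t := fun R' => {Q : ℂ[X] | R'.natDegree = P.natDegree ^ n ∧ MC P.natDegree Q ∧
      ∃ p2 : ℂ[X], p2.natDegree = k2 ∧ p2.comp R' = (it Q n).comp p2}) ?_) ?_
  · intro R' _
    by_cases hR' : R'.natDegree = P.natDegree ^ n
    · refine (down_fin (R := R') hd hn hk2 hR').subset ?_
      rintro Q ⟨_, hQ, hp⟩
      exact ⟨hQ, hp⟩
    · refine Set.Finite.subset Set.finite_empty ?_
      rintro Q ⟨h, _⟩
      exact (hR' h).elim
  · rintro Q ⟨hQ, R, p1, p2, ⟨_, hp1, hp2, e1, e2⟩, hk, hk'⟩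
    obtain ⟨L, hL, rfl⟩ := semi_unique hd hP hn hn hq1 f1 (show p1.natDegree = q1.natDegree by omega)
      e1
    obtain ⟨L', hL', hLL', hL'L⟩ := lin_inv hL
    have hS : q1.comp ((L.comp R).comp L') = (it P n).comp q1 := by
      calc q1.comp ((L.comp R).comp L') = ((q1.comp L).comp R).comp L' := by
            simp only [comp_assoc]
        _ = ((it P n).comp (q1.comp L)).comp L' := by rw [e1]
        _ = ((it P n).comp q1).comp (L.comp L') := by simp only [comp_assoc]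
        _ = (it P n).comp q1 := by rw [hLL', comp_X]
    refine Set.mem_biUnion (show (L.comp R).comp L' ∈ {R | q1.comp R = (it P n).comp q1} from hS) ?_
    refine ⟨?_, hQ, p2.comp L', ?_, ?_⟩
    · rw [semi_deg hq1 hpos hS, hdeg]
    · rw [natDegree_comp, hL', mul_one, hk']
    · calc (p2.comp L').comp ((L.comp R).comp L') = (p2.comp (L'.comp L)).comp (R.comp L') := by
            simp only [comp_assoc]
        _ = (p2.comp R).comp L' := by rw [hL'L, comp_X, comp_assoc]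
        _ = ((it Q n).comp p2).comp L' := by rw [e2]
        _ = (it Q n).comp (p2.comp L') := by rw [comp_assoc]

theorem thm2 {P : ℂ[X]} (hd : 2 ≤ P.natDegree) :
    {Q : ℂ[X] | MC P.natDegree Q ∧ Inter P Q}.Finite := by
  by_cases hP : NonSpecial P
  · set N := P.natDegree * K2 P.natDegree with hN
    refine Set.Finite.subset (Set.Finite.biUnion (Finset.finite_toSet
      (Finset.Icc 1 (P.natDegree + 1) ×ˢ Finset.Icc 1 N ×ˢ Finset.Icc 1 N))
      (t := fun x => {Q : ℂ[X] | MC P.natDegree Q ∧ ∃ R p1 p2 : ℂ[X], Trip P Q x.1 R p1 p2 ∧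
        p1.natDegree = x.2.1 ∧ p2.natDegree = x.2.2}) ?_) ?_
    · rintro ⟨n, k1, k2⟩ hx
      simp only [Finset.coe_product, Set.mem_prod, Finset.coe_Icc, Set.mem_Icc] at hx
      exact class_fin_aux hd hP hx.1.1 hx.2.1.1 hx.2.2.1
    · rintro Q ⟨hQ, h⟩
      obtain ⟨n, R, p1, p2, ht, hn, h1, h2⟩ := thm1 hd h
      refine Set.mem_biUnion (show ((n, p1.natDegree, p2.natDegree) : ℕ × ℕ × ℕ) ∈ _ from ?_)
        ⟨hQ, R, p1, p2, ht, rfl, rfl⟩
      simp only [Finset.coe_product, Set.mem_prod, Finset.coe_Icc, Set.mem_Icc]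
      exact ⟨⟨ht.1, hn⟩, ⟨ht.2.1, h1⟩, ht.2.2.1, h2⟩
  · refine (spec_fin hd).subset ?_
    rintro Q ⟨hQ, h⟩
    refine ⟨hQ, fun hQn => hP ?_⟩
    have hdQ : 2 ≤ Q.natDegree := by rw [hQ.2.1]; exact hd
    obtain ⟨n, R, p1, p2, ht⟩ := inter_iff.1 h
    exact inter_nonspecial hdQ (inter_iff.2 ⟨n, R, p2, p1, ht.symm⟩) hQn

end H12IT
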