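import Pool.Agent.H12.IT.Hom
import Pool.Agent.H12.IT.Thm3

set_option autoImplicit false

/-! PROJECT IT, module Sem: meaning of the system of equations over `ℂ`. -/

open Polynomial

namespace H12IT

/-- polynomial with given list of coefficients -/
noncomputable def pol (l : List ℂ) : ℂ[X] := ∑ i ∈ Finset.range l.length, C (l.getD i 0) * X ^ i

/-- list of coefficients -/
noncomputable def cl (P : ℂ[X]) (n : ℕ) : List ℂ := (List.range n).map P.coeff

theorem sem_pol_nil : pol [] = 0 := by simp [pol]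

theorem sem_pol_cons (a : ℂ) (l : List ℂ) : pol (a :: l) = C a + X * pol l := by
  unfold pol
  rw [List.length_cons, Finset.sum_range_succ', Finset.mul_sum, add_comm]
  congr 1
  · simp
  · refine Finset.sum_congr rfl fun i _ => ?_
    rw [List.getD_cons_succ, pow_succ]
    ring

theorem pol_eval (l : List ℂ) (x : ℂ) : (pol l).eval x = hor l x := by
  induction l with
  | nil =>
    rw [sem_pol_nil, eval_zero]
    exact (zer_alg (A := ℂ)).symm
  | cons a l ih =>
    rw [sem_pol_cons, eval_add, eval_C, eval_mul, eval_X, ih]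
    rfl

theorem pol_coeff (l : List ℂ) (i : ℕ) : (pol l).coeff i = l.getD i 0 := by
  induction l generalizing i with
  | nil => simp [sem_pol_nil]
  | cons a l ih =>
    rw [sem_pol_cons]
    cases i with
    | zero => simp
    | succ i => simp [ih]

theorem sem_getD_map (f : ℕ → ℂ) (n i : ℕ) :
    ((List.range n).map f).getD i 0 = if i < n then f i else 0 := by
  by_cases h : i < n
  · simp [List.getD_eq_getElem?_getD, h]
  · simp [List.getD_eq_getElem?_getD, h]

theorem sem_cl_getD (P : ℂ[X]) (n i : ℕ) :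
    (cl P n).getD i 0 = if i < n then P.coeff i else 0 := sem_getD_map _ _ _

theorem pol_cl {P : ℂ[X]} {n : ℕ} (h : P.natDegree < n) : pol (cl P n) = P := by
  ext i
  rw [pol_coeff, sem_cl_getD]
  split_ifs with h1
  · rfl
  · exact (coeff_eq_zero_of_natDegree_lt (by omega)).symm

theorem cl_length (P : ℂ[X]) (n : ℕ) : (cl P n).length = n := by simp [cl]

theorem sem_getD_app {d : ℕ} (hd : 2 ≤ d) {q : List ℂ} (hq : q.length = d - 1) (i : ℕ) :
    (q ++ [0, 1]).getD i 0 = if i < d - 1 then q.getD i 0 else if i = d then 1 else 0 := by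
  by_cases h : i < d - 1
  · rw [if_pos h, List.getD_append _ _ _ _ (by omega)]
  · rw [if_neg h, List.getD_append_right _ _ _ _ (by omega), hq]
    obtain ⟨j, rfl⟩ : ∃ j, i = d - 1 + j := ⟨i - (d - 1), by omega⟩
    rw [Nat.add_sub_cancel_left]
    rcases j with _ | _ | j
    · rw [if_neg (by omega)]
      rfl
    · rw [if_pos (by omega)]
      rfl
    · rw [if_neg (by omega)]
      rfl

/-- the polynomial with coefficients `q, 0, 1` is monic and centered -/
theorem pol_mc {d : ℕ} (hd : 2 ≤ d) {q : List ℂ} (hq : q.length = d - 1) :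
    MC d (pol (q ++ [0, 1])) := by
  have h1 : (pol (q ++ [0, 1])).coeff d = 1 := by
    rw [pol_coeff, sem_getD_app hd hq, if_neg (by omega), if_pos rfl]
  have h2 : (pol (q ++ [0, 1])).natDegree = d := by
    refine natDegree_eq_of_le_of_coeff_ne_zero ?_ (by rw [h1]; exact one_ne_zero)
    refine natDegree_le_iff_coeff_eq_zero.2 fun i hi => ?_
    rw [pol_coeff, sem_getD_app hd hq, if_neg (by omega), if_neg (by omega)]
  refine ⟨?_, h2, ?_⟩
  · rw [Monic, leadingCoeff, h2, h1]
  · rw [pol_coeff, sem_getD_app hd hq, if_neg (by omega), if_neg (by omega)]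

theorem mc_pol {d : ℕ} (hd : 2 ≤ d) {Q : ℂ[X]} (hQ : MC d Q) :
    pol (cl Q (d - 1) ++ [0, 1]) = Q := by
  obtain ⟨h1, h2, h3⟩ := hQ
  ext i
  rw [pol_coeff, sem_getD_app hd (cl_length _ _), sem_cl_getD]
  split_ifs with h4 h5
  · rfl
  · rw [h5]
    rw [Monic, leadingCoeff, h2] at h1
    exact h1.symm
  · by_cases h6 : i = d - 1
    · rw [h6, h3]
    · exact (coeff_eq_zero_of_natDegree_lt (by omega)).symm

theorem sem_natDegree_pol (l : List ℂ) (n : ℕ) (h : l.length ≤ n + 1) : (pol l).natDegree ≤ n := by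
  refine natDegree_le_iff_coeff_eq_zero.2 fun i hi => ?_
  rw [pol_coeff]
  exact List.getD_eq_default _ _ (by omega)

theorem sem_nst {P : ℂ[X]} {L : List ℂ} (hL : pol L = P) (n : ℕ) (x : ℂ) :
    nst L n x = (it P n).eval x := by
  induction n with
  | zero =>
    rw [it_zero, eval_X]
    rfl
  | succ n ih =>
    rw [it_succ, eval_comp, ← ih, ← hL, pol_eval]
    rfl

theorem sem_eqn {P R p : ℂ[X]} {LP LR Lp : List ℂ} (hP : pol LP = P) (hR : pol LR = R)
    (hp : pol Lp = p) (n z : ℕ) :
    eqn n LP LR Lp z = (p.comp R - (it P n).comp p).eval (z : ℂ) := by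
  unfold eqn
  rw [sub_alg, cst_nat, ← pol_eval, ← pol_eval, ← pol_eval, sem_nst hP, hR, hp, eval_sub,
    eval_comp, eval_comp]

theorem sem_eq {P R p : ℂ[X]} {n N : ℕ} (h1 : (p.comp R - (it P n).comp p).natDegree < N)
    (h : ∀ z < N, (p.comp R - (it P n).comp p).eval (z : ℂ) = 0) :
    p.comp R = (it P n).comp p := by
  have h2 : p.comp R - (it P n).comp p = 0 := by
    refine eq_zero_of_natDegree_lt_card_of_eval_eq_zero' _
      ((Finset.range N).image fun z : ℕ => (z : ℂ)) ?_ ?_
    · intro x hx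
      obtain ⟨z, hz, rfl⟩ := Finset.mem_image.1 hx
      exact h z (Finset.mem_range.1 hz)
    · rw [Finset.card_image_of_injective _ Nat.cast_injective, Finset.card_range]
      exact h1
  exact sub_eq_zero.1 h2

theorem sem_deg {P R p : ℂ[X]} {d : ℕ} (hP : P.natDegree = d) (hR : R.natDegree ≤ DD d)
    (hp : p.natDegree ≤ KK d) : (p.comp R - (it P (NN d)).comp p).natDegree < TT d := by
  have h1 : (p.comp R).natDegree ≤ KK d * DD d :=
    natDegree_comp_le.trans (Nat.mul_le_mul hp hR)
  have h2 : ((it P (NN d)).comp p).natDegree ≤ KK d * DD d := by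
    refine natDegree_comp_le.trans ?_
    rw [natDegree_it, hP, mul_comm]
    exact Nat.mul_le_mul hp le_rfl
  have h3 := natDegree_sub_le (p.comp R) ((it P (NN d)).comp p)
  have h4 : max (p.comp R).natDegree ((it P (NN d)).comp p).natDegree ≤ KK d * DD d :=
    max_le h1 h2
  unfold TT
  omega

theorem sem_drop (l : List ℂ) (j : ℕ) : (l.drop 1).getD j 0 = l.getD (j + 1) 0 := by
  rw [List.getD_eq_getElem?_getD, List.getD_eq_getElem?_getD, List.getElem?_drop, Nat.add_comm]

theorem sem_dot {n : ℕ} {v l : List ℂ} (h : sub (dot n v (l.drop 1)) one = 0) :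
    1 ≤ (pol l).natDegree := by
  rw [sub_alg, one_alg, dot_alg, sub_eq_zero] at h
  by_contra h1
  have h2 : ∑ j ∈ Finset.range n, v.getD j 0 * (l.drop 1).getD j 0 = 0 := by
    refine Finset.sum_eq_zero fun j _ => ?_
    have h3 : l.getD (j + 1) 0 = 0 := by
      rw [← pol_coeff]
      exact coeff_eq_zero_of_natDegree_lt (by omega)
    rw [sem_drop, h3, mul_zero]
  rw [h2] at h
  exact zero_ne_one h

theorem sem_dot' {n : ℕ} {p : ℂ[X]} (h1 : 1 ≤ p.natDegree) (h2 : p.natDegree ≤ n) :
    ∃ v : List ℂ, v.length = n ∧ sub (dot n v ((cl p (n + 1)).drop 1)) one = 0 := by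
  refine ⟨(List.range n).map fun j => if j = p.natDegree - 1 then (p.leadingCoeff)⁻¹ else 0,
    by simp, ?_⟩
  rw [sub_alg, one_alg, dot_alg, sub_eq_zero, Finset.sum_eq_single (p.natDegree - 1)]
  · rw [sem_drop, sem_getD_map, sem_cl_getD, if_pos (by omega), if_pos rfl, if_pos (by omega),
      Nat.sub_add_cancel h1]
    refine inv_mul_cancel₀ ?_
    rw [Ne, leadingCoeff_eq_zero]
    rintro rfl
    simp at h1
  · intro j hj hj1
    rw [sem_getD_map, if_pos (Finset.mem_range.1 hj), if_neg hj1, zero_mul]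
  · intro h3
    exact absurd (Finset.mem_range.2 (by omega)) h3

theorem sys_sound {d : ℕ} (hd : 2 ≤ d) {P : ℂ[X]} (hP : P.natDegree = d) {B : List (List ℂ)}
    (hB : B.map List.length = lens d) (h : ∀ e ∈ sysE d (cl P (d + 1)) B, e = 0) :
    Inter P (pol (blk B 0 ++ [0, 1])) := by
  have hlen : ∀ k, (blk B k).length = (lens d).getD k 0 := by
    intro k
    rw [← hB, blk]
    exact (List.getD_map (l := B) (n := k) (d := ([] : List ℂ)) (f := List.length)).symm
  have l0 : (blk B 0).length = d - 1 := hlen 0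
  have l1 : (blk B 1).length = DD d + 1 := hlen 1
  have l2 : (blk B 2).length = KK d + 1 := hlen 2
  have l3 : (blk B 3).length = KK d + 1 := hlen 3
  have hQ := pol_mc hd l0
  have e1 : sub (dot (KK d) (blk B 4) ((blk B 2).drop 1)) one = (0 : ℂ) :=
    h _ (by simp [sysE])
  have e2 : sub (dot (KK d) (blk B 5) ((blk B 3).drop 1)) one = (0 : ℂ) :=
    h _ (by simp [sysE])
  have e3 : ∀ z < TT d, eqn (NN d) (cl P (d + 1)) (blk B 1) (blk B 2) z = (0 : ℂ) := by
    intro z hz
    refine h _ ?_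
    unfold sysE
    refine List.mem_append_right _ (List.mem_append_left _ ?_)
    exact List.mem_map.2 ⟨z, List.mem_range.2 hz, rfl⟩
  have e4 : ∀ z < TT d, eqn (NN d) (blk B 0 ++ [0, 1]) (blk B 1) (blk B 3) z = (0 : ℂ) := by
    intro z hz
    refine h _ ?_
    unfold sysE
    rw [zer_alg, one_alg]
    refine List.mem_append_right _ (List.mem_append_right _ ?_)
    exact List.mem_map.2 ⟨z, List.mem_range.2 hz, rfl⟩
  have hR : (pol (blk B 1)).natDegree ≤ DD d := sem_natDegree_pol _ _ (by omega)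
  have hp1 : (pol (blk B 2)).natDegree ≤ KK d := sem_natDegree_pol _ _ (by omega)
  have hp2 : (pol (blk B 3)).natDegree ≤ KK d := sem_natDegree_pol _ _ (by omega)
  have hPc : pol (cl P (d + 1)) = P := pol_cl (by omega)
  refine ⟨pol (blk B 1), NN d, Nat.factorial_pos _, ⟨pol (blk B 2), sem_dot e1, ?_⟩,
    ⟨pol (blk B 3), sem_dot e2, ?_⟩⟩
  · refine sem_eq (sem_deg hP hR hp1) fun z hz => ?_
    rw [← sem_eqn hPc rfl rfl]
    exact e3 z hz
  · refine sem_eq (sem_deg hQ.2.1 hR hp2) fun z hz => ?_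
    rw [← sem_eqn rfl rfl rfl]
    exact e4 z hz

theorem sys_complete {d : ℕ} (hd : 2 ≤ d) {P Q : ℂ[X]} (hP : P.natDegree = d) (hQ : MC d Q)
    (h : Inter P Q) : ∃ B : List (List ℂ), B.map List.length = lens d ∧
      blk B 0 = cl Q (d - 1) ∧ ∀ e ∈ sysE d (cl P (d + 1)) B, e = 0 := by
  subst hP
  obtain ⟨R, p1, p2, ⟨-, hp1, hp2, e1, e2⟩, k1, k2⟩ := thm1_fact hd h
  have hR : R.natDegree = DD P.natDegree := by
    rw [semi_deg hp1 ?_ e1, natDegree_it]
    · rfl
    · rw [natDegree_it]
      exact Nat.one_le_pow _ _ (by omega)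
  obtain ⟨v1, hv1, w1⟩ := sem_dot' hp1 (show p1.natDegree ≤ KK P.natDegree from k1)
  obtain ⟨v2, hv2, w2⟩ := sem_dot' hp2 (show p2.natDegree ≤ KK P.natDegree from k2)
  have hPc : pol (cl P (P.natDegree + 1)) = P := pol_cl (by omega)
  have hRc : pol (cl R (DD P.natDegree + 1)) = R := pol_cl (by omega)
  have hp1c : pol (cl p1 (KK P.natDegree + 1)) = p1 :=
    pol_cl (Nat.lt_succ_of_le (show p1.natDegree ≤ KK P.natDegree from k1))
  have hp2c : pol (cl p2 (KK P.natDegree + 1)) = p2 :=
    pol_cl (Nat.lt_succ_of_le (show p2.natDegree ≤ KK P.natDegree from k2))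
  refine ⟨[cl Q (P.natDegree - 1), cl R (DD P.natDegree + 1), cl p1 (KK P.natDegree + 1),
    cl p2 (KK P.natDegree + 1), v1, v2], ?_, rfl, ?_⟩
  · simp [lens, cl_length, hv1, hv2]
  · intro e he
    unfold sysE at he
    rw [zer_alg, List.mem_append, List.mem_append, List.mem_map, List.mem_map] at he
    rcases he with he | ⟨z, -, rfl⟩ | ⟨z, -, rfl⟩
    · rcases List.mem_cons.1 he with he | he
      · rw [he]
        exact w1
      · rw [List.mem_singleton.1 he]
        exact w2
    · change eqn (NN P.natDegree) (cl P (P.natDegree + 1)) (cl R (DD P.natDegree + 1))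
        (cl p1 (KK P.natDegree + 1)) z = 0
      rw [sem_eqn hPc hRc hp1c]
      unfold NN
      rw [e1, sub_self, eval_zero]
    · change eqn (NN P.natDegree) (cl Q (P.natDegree - 1) ++ [0, one])
        (cl R (DD P.natDegree + 1)) (cl p2 (KK P.natDegree + 1)) z = 0
      rw [one_alg, sem_eqn (mc_pol hd hQ) hRc hp2c]
      unfold NN
      rw [e2, sub_self, eval_zero]

end H12IT
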