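import Pool.Agent.H12.IT.Inp
import Pool.Agent.H12.IT.Iso
import Pool.Agent.H12.IT.Sem

set_option autoImplicit false

/-! PROJECT IT, module Snd: soundness of the certificates. -/

open Polynomial

namespace H12IT

open Ar

theorem snd_getD {α : Type} (l : List α) (d : α) (j : ℕ) (h : j < l.length) :
    l.getD j d = l[j] := by
  simp [List.getD_eq_getElem?_getD, h]

theorem snd_getD_range {α : Type} (n : ℕ) (f : ℕ → α) (z : α) (j : ℕ) (h : j < n) :
    ((List.range n).map f).getD j z = f j := by
  rw [snd_getD _ _ _ (by simpa using h)]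
  simp

/-- the input polynomial -/
theorem PL_eq {d : ℕ} {L : List Num} {P : ℂ[X]} (hP : P.natDegree = d) (hL : RepPoly L P)
    {as : List (List Q3)} {β : ℂ}
    (h : ∀ (j : ℕ), j < d + 1 → ∀ α, Isolates (L.getD j (([], (z3, z3), z3), [])).1 α →
      evalL (as.getD j []) β = α) :
    PL d (L.map Prod.snd) as β = cl P (d + 1) := by
  unfold PL cl
  apply List.map_congr_left
  intro j hj
  have hj' : j < d + 1 := by simpa using hj
  have hjL : j < L.length := by rw [hL.1, hP]; exact hj'
  obtain ⟨α, hα, hα2⟩ := hL.2 j hjL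
  have h1 := h j hj' α (by rw [snd_getD _ _ _ hjL]; exact hα)
  have h2 : (L.map Prod.snd).getD j [] = L[j].2 := by
    rw [snd_getD _ _ _ (by simpa using hjL)]
    simp
  show horQ ((L.map Prod.snd).getD j []) (horQ (as.getD j []) β) = P.coeff j
  rw [h2, ← evalL_eq, ← evalL_eq, h1, hα2]

theorem snd_ZT_hom {e : SP → ℂ} (he : IsHom e) (hz : ∀ s : SP, ZT s → e s = 0) {s t u : SP}
    (h : ZT (sub s (mul t u))) : e s = e t * e u := by
  have h1 := hz _ h
  rw [he.sub, he.mul, sub_alg] at h1
  have h2 : (mul (e t) (e u) : ℂ) = e t * e u := rfl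
  rw [h2] at h1
  exact sub_eq_zero.mp h1

/-- the solutions -/
theorem chkSol_sound {d : ℕ} {cs as : List (List Q3)} {ml : List Q3}
    {S : List (List (List (List Q3)))} {shs : List (List (List Q3))} {g0 : ℕ} (hg : g0.Prime)
    (h : ChkSol d cs as ml S shs g0) {β : ℂ} (hβ : evalL (ml ++ [o3]) β = 0) :
    ∀ s ∈ S, s.map List.length = lens d ∧
      ∀ e ∈ sysE d (PL d cs as β) (evB s β), e = 0 := by
  obtain ⟨e, he, hv, hz⟩ := eval_exists (fun _ => β)
  have hvg : e (var g0) = β := hv g0 hg
  intro s hs
  obtain ⟨i, hi, rfl⟩ := List.getElem_of_mem hs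
  obtain ⟨h1, h2⟩ := h i hi
  rw [snd_getD _ _ _ hi] at h1 h2
  refine ⟨h1, ?_⟩
  intro x hx
  obtain ⟨k, hk, rfl⟩ := List.getElem_of_mem hx
  have hk' : k < 2 * TT d + 2 := by rwa [sysE_length] at hk
  have h3 := snd_ZT_hom he hz (h2 k hk')
  rw [he.getD, he.sysE, he.PL, he.evB, he.horQ, he.horQ, hvg, ← evalL_eq (ml ++ [o3]), hβ,
    mul_zero] at h3
  rw [snd_getD _ _ _ hk] at h3
  exact h3

theorem snd_map_split {g0 : ℕ} {f : ℕ → ℂ} {vb ys : List (List ℕ)} {β : ℂ}
    {B Y : List (List ℂ)} (hl : vb.length = B.length)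
    (h : ([g0] :: (vb ++ ys)).map (fun b => b.map f) = [β] :: (B ++ Y)) :
    f g0 = β ∧ vb.map (fun b => b.map f) = B ∧ ys.map (fun b => b.map f) = Y := by
  rw [List.map_cons, List.map_append] at h
  have h1 := (List.cons.inj h)
  refine ⟨?_, ?_⟩
  · have := h1.1
    simpa using this
  · exact List.append_inj h1.2 (by simpa using hl)

/-- completeness -/
theorem chkNul_sound {d : ℕ} {cs as : List (List Q3)} {ml : List Q3}
    {S : List (List (List (List Q3)))} {g0 : ℕ} {vb ys : List (List ℕ)} {G : List SP}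
    (h : ChkNul d cs as ml S g0 vb ys G) {β : ℂ} (hβ : evalL (ml ++ [o3]) β = 0)
    {B : List (List ℂ)} (hB : B.map List.length = lens d)
    (hs : ∀ e ∈ sysE d (PL d cs as β) B, e = 0) :
    ∃ i < S.length, ∀ j < d - 1, (blk B 0).getD j 0 =
        evalL (((S.getD i []).getD 0 []).getD j []) β := by
  by_contra hcon
  push Not at hcon
  obtain ⟨hv, hyl, hyd, hpr, hnd, hZ⟩ := h
  -- the auxiliary values
  have hch : ∀ i : ℕ, ∃ y : List ℂ, y.length = d - 1 ∧ (i < S.length →
      rab d (blk B 0) y ((S.getD i []).getD 0 []) β = 0) := by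
    intro i
    by_cases hi : i < S.length
    · obtain ⟨j0, hj0, hne⟩ := hcon i hi
      refine ⟨(List.range (d - 1)).map (fun j => if j = j0 then
        ((blk B 0).getD j0 0 - evalL (((S.getD i []).getD 0 []).getD j0 []) β)⁻¹ else 0),
        by simp, fun _ => ?_⟩
      unfold rab
      rw [sub_alg, one_alg, dot_alg, sub_eq_zero]
      rw [Finset.sum_eq_single_of_mem j0 (Finset.mem_range.mpr hj0)]
      · rw [snd_getD_range _ _ _ _ hj0, snd_getD_range _ _ _ _ hj0, if_pos rfl,
          sub_alg, zer_alg, ← evalL_eq]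
        exact inv_mul_cancel₀ (sub_ne_zero.mpr hne)
      · intro j hj hjj
        rw [snd_getD_range _ _ _ _ (Finset.mem_range.mp hj), if_neg hjj, zero_mul]
    · exact ⟨List.replicate (d - 1) 0, by simp, fun h => absurd h hi⟩
  choose yf hyf1 hyf2 using hch
  set Y : List (List ℂ) := (List.range S.length).map yf with hY
  have hYlen : Y.length = S.length := by simp [hY]
  have hYmap : ys.map List.length = Y.map List.length := by
    apply List.ext_getElem
    · simp [hyl, hYlen]
    · intro i h1 h2
      simp only [List.getElem_map, hY, List.getElem_range]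
      rw [hyf1]
      exact hyd _ (List.getElem_mem _)
  have hlen : ([g0] :: (vb ++ ys)).map List.length = ([β] :: (B ++ Y)).map List.length := by
    simp only [List.map_cons, List.map_append, List.length_singleton]
    rw [hv, hB, hYmap]
  have hfl : ([g0] :: (vb ++ ys)).flatten = g0 :: (vb.flatten ++ ys.flatten) := by
    simp
  obtain ⟨f, hf⟩ := assign hlen (by rw [hfl]; exact hnd)
  have hvbB : vb.length = B.length := by
    have := congrArg List.length (hv.trans hB.symm)
    simpa using this
  obtain ⟨hf1, hf2, hf3⟩ := snd_map_split hvbB hf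
  obtain ⟨e, he, hev, hz⟩ := eval_exists f
  have hpv : ∀ v : List (List ℕ), (∀ p ∈ v.flatten, p.Prime) →
      (v.map (fun b => b.map var)).map (fun b => b.map e) = v.map (fun b => b.map f) := by
    intro v hvp
    rw [List.map_map]
    apply List.map_congr_left
    intro b hb
    show (b.map var).map e = b.map f
    rw [List.map_map]
    apply List.map_congr_left
    intro p hp
    exact hev p (hvp p (List.mem_flatten.mpr ⟨b, hb, hp⟩))
  have hp0 : g0.Prime := hpr g0 (by simp)
  have hp1 := hpv vb (fun p hp => hpr p (by simp only [List.mem_cons, List.mem_append]; tauto))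
  have hp2 := hpv ys (fun p hp => hpr p (by simp only [List.mem_cons, List.mem_append]; tauto))
  have h1 := hz _ hZ
  rw [he.sub, he.dot, he.allE, hp1, hp2, hf2, hf3, hev g0 hp0, hf1, he.one, sub_alg, one_alg,
    dot_alg] at h1
  -- all the entries vanish
  have h0 : ∀ x ∈ allE d cs as (ml ++ [o3]) S β B Y, x = 0 := by
    intro x hx
    unfold allE at hx
    rw [List.mem_cons, List.mem_append] at hx
    rcases hx with hx | hx | hx
    · rw [hx, ← evalL_eq, hβ]
    · exact hs x hx
    · obtain ⟨i, hi, rfl⟩ := List.mem_map.mp hx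
      have hi' : i < S.length := by simpa using hi
      have hYi : Y.getD i [] = yf i := by
        rw [snd_getD _ _ _ (by rw [hYlen]; exact hi')]
        simp [hY]
      rw [hYi]
      exact hyf2 i hi'
  have hg0 : ∀ j, (allE d cs as (ml ++ [o3]) S β B Y).getD j 0 = 0 := by
    intro j
    by_cases hj : j < (allE d cs as (ml ++ [o3]) S β B Y).length
    · rw [snd_getD _ _ _ hj]
      exact h0 _ (List.getElem_mem _)
    · simp [List.getD_eq_getElem?_getD, List.getElem?_eq_none (not_lt.mp hj)]
  simp only [hg0, mul_zero, Finset.sum_const_zero] at h1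
  norm_num at h1

theorem snd_blk0 {β : Type} {s : List (List β)} {d : ℕ} (h : s.map List.length = lens d) :
    (s.getD 0 []).length = d - 1 := by
  have h1 : (s.map List.length).getD 0 0 = (lens d).getD 0 0 := by rw [h]
  have h2 : (lens d).getD 0 0 = d - 1 := rfl
  have h3 : 0 < s.length := by
    have := congrArg List.length h
    rw [List.length_map] at this
    rw [this]
    simp [lens]
  rw [h2, snd_getD _ _ _ (by simpa using h3)] at h1
  rw [snd_getD _ _ _ h3]
  simpa using h1

theorem snd_evalL_nil (β : ℂ) : evalL [] β = 0 := rfl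

theorem snd_evalL_one (β : ℂ) : evalL [o3] β = 1 := by
  unfold evalL
  simp [rat_o3]

theorem snd_append {s0 : List (List Q3)} {β : ℂ} :
    s0.map (fun l => evalL l β) ++ [0, 1] = (s0 ++ [[], [o3]]).map (fun l => evalL l β) := by
  rw [List.map_append]
  simp [snd_evalL_nil, snd_evalL_one]

theorem snd_out {d : ℕ} (hd : 2 ≤ d) {a : Alg} {β : ℂ} (ha : Isolates a β)
    {s0 : List (List Q3)} (h0 : s0.length = d - 1) :
    RepPoly ((s0 ++ [[], [o3]]).map (fun l => (a, l)))
      (pol (s0.map (fun l => evalL l β) ++ [0, 1])) := by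
  have hmc := pol_mc hd (q := s0.map (fun l => evalL l β)) (by simpa using h0)
  constructor
  · rw [hmc.2.1]
    simp only [List.length_map, List.length_append, List.length_cons, List.length_nil, h0]
    omega
  · intro j hj
    rw [pol_coeff, snd_append]
    have hj' : j < (s0 ++ [[], [o3]]).length := by simpa using hj
    rw [snd_getD _ _ _ (by simpa using hj)]
    simp only [List.getElem_map]
    exact ⟨β, ha, rfl⟩

theorem chk_sound {d : ℕ} (hd : 2 ≤ d) {L : List Num} {P : ℂ[X]} (hP : P.natDegree = d)
    (hL : RepPoly L P) {c : Cert} (h : Chk (d, L) c) :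
    (∀ l ∈ outp (d, L) c, ∃ Q : ℂ[X], RepPoly l Q) ∧
      {Q : ℂ[X] | MC d Q ∧ Inter P Q} = {Q | ∃ l ∈ outp (d, L) c, RepPoly l Q} := by
  obtain ⟨h1, h2, h3, h4⟩ := h
  obtain ⟨β, hiso, hnear⟩ := chkIso_sound h1
  have hβ : evalL (c.1.1 ++ [o3]) β = 0 := hiso.1
  have hg : (c.2.2.2.1).Prime := h4.2.2.2.1 _ (by simp)
  have hPL : PL d (L.map Prod.snd) c.2.1.1 β = cl P (d + 1) :=
    PL_eq hP hL (fun j hj α hα => chkIn_sound hg h2 hβ hnear hj hα)
  have hsol := chkSol_sound hg h3 hβ
  have hnul := fun B hB hs => chkNul_sound (B := B) h4 hβ hB hs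
  simp only at hsol hnul
  rw [hPL] at hnul
  simp only [hPL] at hsol
  have hout : ∀ s ∈ c.2.2.1.1, RepPoly ((s.getD 0 [] ++ [[], [o3]]).map
      (fun l => ((c.1.1 ++ [o3], c.1.2.1.getD 0 (z3, z3), mul3 (n3 2) c.1.2.2.1), l)))
      (pol ((s.getD 0 []).map (fun l => evalL l β) ++ [0, 1])) := fun s hs =>
    snd_out hd hiso (snd_blk0 (hsol s hs).1)
  refine ⟨?_, ?_⟩
  · intro l hl
    obtain ⟨s, hs, rfl⟩ := List.mem_map.mp hl
    exact ⟨_, hout s hs⟩
  · ext Q
    constructor
    · rintro ⟨hQ, hI⟩
      obtain ⟨B, hB, hB0, hBs⟩ := sys_complete hd hP hQ hI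
      obtain ⟨i, hi, hij⟩ := hnul B hB hBs
      have hmem : (c.2.2.1.1).getD i [] ∈ c.2.2.1.1 := by
        rw [snd_getD _ _ _ hi]
        exact List.getElem_mem _
      refine ⟨_, List.mem_map.mpr ⟨(c.2.2.1.1).getD i [], hmem, rfl⟩, ?_⟩
      have hlen := snd_blk0 (hsol _ hmem).1
      have hl : (((c.2.2.1.1).getD i []).getD 0 []).map (fun l => evalL l β) =
          cl Q (d - 1) := by
        rw [← hB0]
        apply List.ext_getElem
        · rw [List.length_map, hlen, hB0, cl_length]
        · intro j hj1 hj2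
          have hj : j < d - 1 := by rwa [List.length_map, hlen] at hj1
          have := hij j hj
          rw [snd_getD _ _ _ hj2, snd_getD _ _ _ (by rw [hlen]; exact hj)] at this
          rw [this, List.getElem_map]
      have := hout _ hmem
      rw [hl, mc_pol hd hQ] at this
      exact this
    · rintro ⟨l, hl, hlQ⟩
      obtain ⟨s, hs, rfl⟩ := List.mem_map.mp hl
      have h5 := hlQ.unique (hout s hs)
      subst h5
      obtain ⟨h6, h7⟩ := hsol s hs
      have hev : (evB s β).map List.length = lens d := by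
        unfold evB
        rw [List.map_map, ← h6]
        apply List.map_congr_left
        intro b _
        simp
      have h8 := sys_sound hd hP hev h7
      have h9 : blk (evB s β) 0 = (s.getD 0 []).map (fun l => evalL l β) := by
        have hs0 : 0 < s.length := by
          have := congrArg List.length h6
          rw [List.length_map] at this
          rw [this]
          simp [lens]
        unfold blk evB
        rw [snd_getD _ _ _ (by simpa using hs0), snd_getD _ _ _ hs0, List.getElem_map]
        apply List.map_congr_left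
        intro l _
        exact (evalL_eq l β).symm
      rw [h9] at h8
      exact ⟨pol_mc hd (by rw [List.length_map, snd_blk0 h6]), h8⟩

end H12IT
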