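import Pool.Agent.H12.IT.Nst
import Pool.Agent.H12.IT.Iso
import Pool.Agent.H12.IT.Sem
import Pool.Agent.H12.IT.Snd

set_option autoImplicit false

/-! PROJECT IT, module Cmp: existence of certificates. -/

open Polynomial

namespace H12IT

open Ar

theorem isolates_alg {a : Alg} {α : ℂ} (h : Isolates a α) : IsAlgebraic ℚ α := by
  obtain ⟨h1, h2, h3⟩ := h
  refine ⟨pq a.1, fun h0 => ?_, ?_⟩
  · have hev : ∀ z : ℂ, evalL a.1 z = 0 := fun z => by rw [evalL_pq, h0]; simp
    set r : ℝ := ((rat a.2.2 : ℚ) : ℝ) with hr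
    set q : ℂ := gau a.2.1 with hq
    have hr0 : 0 < r := lt_of_le_of_lt (norm_nonneg _) h2
    have hq1 : q = α := h3 q (hev q) (by rw [sub_self, norm_zero]; exact hr0)
    have hq2 : q + ((r / 2 : ℝ) : ℂ) = α := by
      apply h3 _ (hev _)
      rw [add_sub_cancel_left, Complex.norm_real, Real.norm_eq_abs, abs_of_pos (by linarith)]
      linarith
    rw [← hq1] at hq2
    have h5 : ((r / 2 : ℝ) : ℂ) = 0 := by simpa using hq2
    have h6 : r / 2 = 0 := by exact_mod_cast h5
    linarith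
  · rw [← evalL_pq]; exact h1

/-- every algebraic number has isolating data -/
theorem alg_isolates {α : ℂ} (h : IsAlgebraic ℚ α) : ∃ a : Alg, Isolates a α := by
  obtain ⟨p, hp0, hp⟩ := h
  obtain ⟨l, hl⟩ := pq_surj p
  have hfin : {z : ℂ | Polynomial.aeval z p = 0 ∧ z ≠ α}.Finite := by
    refine Set.Finite.subset (Polynomial.rootSet_finite p ℂ) ?_
    intro z hz
    rw [Polynomial.mem_rootSet]
    exact ⟨hp0, hz.1⟩
  obtain ⟨δ, hδ, hδ2⟩ : ∃ δ : ℝ, 0 < δ ∧ ∀ z : ℂ, Polynomial.aeval z p = 0 → z ≠ α →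
      δ ≤ ‖z - α‖ := by
    have hcl : IsClosed {z : ℂ | Polynomial.aeval z p = 0 ∧ z ≠ α} := hfin.isClosed
    have hna : α ∉ {z : ℂ | Polynomial.aeval z p = 0 ∧ z ≠ α} := fun h => h.2 rfl
    obtain ⟨δ, hδ, hb⟩ := Metric.isOpen_iff.mp hcl.isOpen_compl α hna
    refine ⟨δ, hδ, fun z hz hza => ?_⟩
    by_contra hlt
    push Not at hlt
    have : z ∈ Metric.ball α δ := by
      rw [Metric.mem_ball, dist_eq_norm]; exact hlt
    exact hb this ⟨hz, hza⟩
  obtain ⟨r, hr1, hr2⟩ := exists_rat_btwn (half_pos hδ)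
  obtain ⟨r3, hr3⟩ := rat_surj r
  obtain ⟨g, hg⟩ := gau_dense α hr1
  refine ⟨(l, g, r3), ?_, ?_, ?_⟩
  · show evalL l α = 0
    rw [evalL_pq, hl, hp]
  · show ‖α - gau g‖ < ((rat r3 : ℚ) : ℝ)
    rw [hr3]; exact hg
  · intro z hz hz2
    change evalL l z = 0 at hz
    change ‖z - gau g‖ < ((rat r3 : ℚ) : ℝ) at hz2
    rw [hr3] at hz2
    rw [evalL_pq, hl] at hz
    by_contra hne
    have h1 := hδ2 z hz hne
    have h2 : ‖z - α‖ ≤ ‖z - gau g‖ + ‖α - gau g‖ := by
      have : z - α = (z - gau g) - (α - gau g) := by ring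
      rw [this]; exact norm_sub_le _ _
    linarith

theorem cmp_blk0 {d : ℕ} {A : Type} {B : List (List A)} (hB : B.map List.length = lens d) :
    (blk B 0).length = d - 1 := by
  rcases B with _ | ⟨b, B⟩
  · simp [lens] at hB
  · simp only [List.map_cons, lens, List.cons.injEq] at hB
    simp [blk, hB.1]

/-- finitely many algebraic solutions suffice -/
theorem sol_list {d : ℕ} (hd : 2 ≤ d) {P : ℂ[X]} (hP : P.natDegree = d) :
    ∃ T : List (List (List ℂ)),
      (∀ B ∈ T, B.map List.length = lens d ∧ (∀ b ∈ B, ∀ x ∈ b, IsAlgebraic ℚ x) ∧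
        ∀ e ∈ sysE d (cl P (d + 1)) B, e = 0) ∧
      ∀ B : List (List ℂ), B.map List.length = lens d →
        (∀ b ∈ B, ∀ x ∈ b, IsAlgebraic ℚ x) → (∀ e ∈ sysE d (cl P (d + 1)) B, e = 0) →
        ∃ B' ∈ T, blk B' 0 = blk B 0 := by
  classical
  set W : Set (List (List ℂ)) := {B | B.map List.length = lens d ∧
    (∀ b ∈ B, ∀ x ∈ b, IsAlgebraic ℚ x) ∧ ∀ e ∈ sysE d (cl P (d + 1)) B, e = 0} with hW
  set V : Set (List ℂ) := (fun B => blk B 0) '' W with hV
  have hfin : V.Finite := by
    have hf := thm2 (P := P) (by omega)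
    refine Set.Finite.of_finite_image (f := fun b => pol (b ++ [0, 1])) (hf.subset ?_) ?_
    · rintro _ ⟨b, ⟨B, hB, rfl⟩, rfl⟩
      refine ⟨?_, sys_sound hd hP hB.1 hB.2.2⟩
      rw [hP]
      exact pol_mc hd (cmp_blk0 hB.1)
    · rintro _ ⟨B, hB, rfl⟩ _ ⟨B', hB', rfl⟩ he
      have l1 := cmp_blk0 hB.1
      have l2 := cmp_blk0 hB'.1
      change pol (blk B 0 ++ [0, 1]) = pol (blk B' 0 ++ [0, 1]) at he
      have hc : ∀ i : ℕ, (blk B 0 ++ [0, 1]).getD i 0 = (blk B' 0 ++ [0, 1]).getD i 0 := by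
        intro i
        rw [← pol_coeff, ← pol_coeff, he]
      apply List.ext_getElem (by rw [l1, l2])
      intro i h1 h2
      have h3 := hc i
      rw [List.getD_append _ _ _ _ h1, List.getD_append _ _ _ _ h2,
        List.getD_eq_getElem _ _ h1, List.getD_eq_getElem _ _ h2] at h3
      exact h3
  have hch : ∀ b : List ℂ, ∃ B : List (List ℂ), b ∈ V → B ∈ W ∧ blk B 0 = b := by
    intro b
    by_cases hb : b ∈ V
    · obtain ⟨B, hB, hBb⟩ := hb
      exact ⟨B, fun _ => ⟨hB, hBb⟩⟩
    · exact ⟨[], fun h => absurd h hb⟩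
  choose F hF using hch
  refine ⟨hfin.toFinset.toList.map F, ?_, ?_⟩
  · intro B hB
    rw [List.mem_map] at hB
    obtain ⟨b, hb, rfl⟩ := hB
    rw [Finset.mem_toList, Set.Finite.mem_toFinset] at hb
    exact (hF b hb).1
  · intro B h1 h2 h3
    have hb : blk B 0 ∈ V := ⟨B, ⟨h1, h2, h3⟩, rfl⟩
    refine ⟨F (blk B 0), ?_, (hF _ hb).2⟩
    rw [List.mem_map]
    exact ⟨blk B 0, by rw [Finset.mem_toList, Set.Finite.mem_toFinset]; exact hb, rfl⟩

theorem cmp_getD_map {A B : Type} (f : A → B) (l : List A) (i : ℕ) (a : A) (b : B)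
    (h : i < l.length) : (l.map f).getD i b = f (l.getD i a) := by
  rw [List.getD_eq_getElem _ _ (by simpa using h), List.getD_eq_getElem _ _ h, List.getElem_map]

theorem chk_complete {d : ℕ} (hd : 2 ≤ d) {L : List Num} {P : ℂ[X]} (hP : P.natDegree = d)
    (hL : RepPoly L P) : ∃ c : Cert, Chk (d, L) c := by
  classical
  obtain ⟨T, hT1, hT2⟩ := sol_list hd hP
  have hlen : L.length = d + 1 := by rw [hL.1, hP]
  have hα : ∀ j : ℕ, ∃ α : ℂ, IsAlgebraic ℚ α ∧ (j < d + 1 →
      Isolates (L.getD j (([], (z3, z3), z3), [])).1 α) := by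
    intro j
    by_cases hj : j < d + 1
    · obtain ⟨α, hα, -⟩ := hL.2 j (by omega)
      refine ⟨α, isolates_alg hα, fun _ => ?_⟩
      rw [List.getD_eq_getElem _ _ (by omega)]
      exact hα
    · exact ⟨0, isAlgebraic_zero, fun h => absurd h hj⟩
  choose α hα1 hα2 using hα
  set xs : List ℂ := (List.range (d + 1)).map α ++ T.flatten.flatten with hxs
  have hxs1 : ∀ x ∈ xs, IsAlgebraic ℚ x := by
    intro x hx
    rw [hxs, List.mem_append] at hx
    rcases hx with hx | hx
    · rw [List.mem_map] at hx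
      obtain ⟨j, -, rfl⟩ := hx
      exact hα1 j
    · rw [List.mem_flatten] at hx
      obtain ⟨b, hb, hxb⟩ := hx
      rw [List.mem_flatten] at hb
      obtain ⟨B, hB, hbB⟩ := hb
      exact (hT1 B hB).2.1 b hbB x hxb
  obtain ⟨β, ml, hml, hirr, hβ, hcode⟩ := prim_elt xs hxs1
  have hcode' : ∀ x : ℂ, ∃ l : List Q3, x ∈ xs → evalL l β = x := by
    intro x
    by_cases hx : x ∈ xs
    · obtain ⟨l, hl⟩ := hcode x hx
      exact ⟨l, fun _ => hl⟩
    · exact ⟨[], fun h => absurd h hx⟩
  choose code hc using hcode'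
  set as : List (List Q3) := (List.range (d + 1)).map (fun j => code (α j)) with has
  set S : List (List (List (List Q3))) := T.map (fun B => B.map (fun b => b.map code)) with hS
  have hasj : ∀ j, j < d + 1 → evalL (as.getD j []) β = α j := by
    intro j hj
    have h1 : as.getD j [] = code (α j) := by
      rw [has, cmp_getD_map _ _ _ 0 _ (by simpa using hj)]
      rw [List.getD_eq_getElem _ _ (by simpa using hj), List.getElem_range]
    rw [h1]
    apply hc
    rw [hxs, List.mem_append]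
    left
    rw [List.mem_map]
    exact ⟨j, List.mem_range.mpr hj, rfl⟩
  have hPL : PL d (L.map Prod.snd) as β = cl P (d + 1) := by
    apply PL_eq hP hL
    intro j hj a ha
    rw [hasj j hj]
    exact (hα2 j hj).unique ha
  have hent : ∀ B ∈ T, ∀ b ∈ B, ∀ x ∈ b, evalL (code x) β = x := by
    intro B hB b hb x hx
    apply hc
    rw [hxs, List.mem_append]
    right
    rw [List.mem_flatten]
    exact ⟨b, by rw [List.mem_flatten]; exact ⟨B, hB, hb⟩, hx⟩
  have hevB : ∀ B ∈ T, evB (B.map (fun b => b.map code)) β = B := by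
    intro B hB
    unfold evB
    rw [List.map_map]
    conv_rhs => rw [← List.map_id B]
    apply List.map_congr_left
    intro b hb
    simp only [Function.comp, id, List.map_map]
    conv_rhs => rw [← List.map_id b]
    apply List.map_congr_left
    intro x hx
    change horQ (code x) β = x
    rw [← evalL_eq]
    exact hent B hB b hb x hx
  have hSl : ∀ s ∈ S, s.map List.length = lens d ∧
      ∀ e ∈ sysE d (PL d (L.map Prod.snd) as β) (evB s β), e = 0 := by
    intro s hs
    rw [hS, List.mem_map] at hs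
    obtain ⟨B, hB, rfl⟩ := hs
    refine ⟨?_, ?_⟩
    · rw [List.map_map]
      have : (List.length ∘ fun b : List ℂ => b.map code) = List.length := by
        funext b; simp
      rw [this]
      exact (hT1 B hB).1
    · rw [hevB B hB, hPL]
      exact (hT1 B hB).2.2
  obtain ⟨g0, vb, ys, G, hNul⟩ := chkNul_exists hd (cs := L.map Prod.snd) (as := as) (S := S)
    hirr hβ (by
      intro B h1 h2 h3
      rw [hPL] at h3
      obtain ⟨B', hB', hBB⟩ := hT2 B h1 h2 h3
      obtain ⟨i, hi, hiB⟩ := List.getElem_of_mem hB'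
      refine ⟨i, by rw [hS, List.length_map]; exact hi, fun j hj => ?_⟩
      have e1 : S.getD i [] = B'.map (fun b => b.map code) := by
        rw [hS, cmp_getD_map _ _ _ [] _ hi, List.getD_eq_getElem _ _ hi, hiB]
      have hBl := (hT1 B' hB').1
      have hB0 : 0 < B'.length := by
        have := congrArg List.length hBl
        simp [lens] at this
        omega
      have e2 : (S.getD i []).getD 0 [] = (blk B' 0).map code := by
        rw [e1, cmp_getD_map _ _ _ [] _ hB0]
        rfl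
      have hl0 : (blk B' 0).length = d - 1 := cmp_blk0 hBl
      have e3 : ((S.getD i []).getD 0 []).getD j [] = code ((blk B' 0).getD j 0) := by
        rw [e2, cmp_getD_map _ _ _ 0 _ (by omega)]
      rw [e3, hBB]
      rw [← hBB]
      symm
      apply hent B' hB' (blk B' 0)
      · unfold blk
        rw [List.getD_eq_getElem _ _ hB0]
        exact List.getElem_mem _
      · rw [List.getD_eq_getElem _ _ (by omega)]
        exact List.getElem_mem _)
  obtain ⟨shs, hSol⟩ := chkSol_exists hirr hβ g0 hSl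
  obtain ⟨us, hs, rho, δ, hδ, hIn⟩ := chkIn_exists (L := L) (d := d) (as := as) hirr hβ g0 (by
    intro j hj
    rw [hasj j hj]
    exact hα2 j hj)
  obtain ⟨pts, ep, hIso, hep, hpt⟩ := chkIso_exists hirr.separable hβ hδ
  have hep0 : 0 < rat ep := by
    have := hIso.2.2.1
    rwa [lt3_iff, rat_z3] at this
  exact ⟨((ml, pts, ep, rho), (as, us, hs), (S, shs), (g0, vb, ys, G)), hIso,
    hIn _ _ hep0 hep hpt, hSol, hNul⟩

end H12IT
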