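import Pool.Agent.H12.IT.Mur
import Pool.Agent.H12.IT.Bas

set_option autoImplicit false

/-! PROJECT IT, module Cnt: counting preimages. -/

open Polynomial

namespace H12IT

theorem cnt_deg {P : ℂ[X]} (hd : 1 ≤ P.natDegree) (t : ℕ) : 1 ≤ (it P t).natDegree := by
  rw [natDegree_it]
  exact Nat.one_le_pow _ _ hd

theorem cnt_mem_fibt {P : ℂ[X]} (hd : 1 ≤ P.natDegree) {t : ℕ} {x z : ℂ} :
    z ∈ fibt P t x ↔ (it P t).eval z = x := mem_fib (cnt_deg hd t)

theorem cnt_card_succ {P : ℂ[X]} (hd : 1 ≤ P.natDegree) (t : ℕ) (x : ℂ) :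
    (fibt P (t + 1) x).card = ∑ y ∈ fibt P t x, (fib P y).card := by
  classical
  have h : fibt P (t + 1) x = (fibt P t x).biUnion (fun y => fib P y) := by
    ext z
    rw [cnt_mem_fibt hd, it_succ', eval_comp, Finset.mem_biUnion]
    constructor
    · intro h
      exact ⟨P.eval z, (cnt_mem_fibt hd).2 h, (mem_fib hd).2 rfl⟩
    · rintro ⟨y, hy, hz⟩
      rw [mem_fib hd] at hz
      rw [cnt_mem_fibt hd] at hy
      rw [hz]
      exact hy
  rw [h, Finset.card_biUnion]
  intro a _ b _ hab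
  change Disjoint (fib P a) (fib P b)
  rw [Finset.disjoint_left]
  intro z h1 h2
  rw [mem_fib hd] at h1 h2
  exact hab (h1.symm.trans h2)

theorem cnt_step {P : ℂ[X]} (hd : 1 ≤ P.natDegree) (t : ℕ) (x : ℂ) :
    (fibt P t x).card * P.natDegree + 1 ≤ P.natDegree + (fibt P (t + 1) x).card := by
  rw [cnt_card_succ hd]
  exact rh hd _

theorem cnt_two {P : ℂ[X]} (hd : 2 ≤ P.natDegree) (hP : ¬ PowerType P) (x : ℂ) :
    2 ≤ (fibt P 2 x).card := by
  classical
  by_contra hcon
  have hd1 : 1 ≤ P.natDegree := by omega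
  have h1 : (fibt P 1 x).card * P.natDegree + 1 ≤ P.natDegree + (fibt P 2 x).card :=
    cnt_step hd1 1 x
  have hf1 : fibt P 1 x = fib P x := by
    unfold fibt
    rw [it_one]
  have h2 : (fibt P 1 x).card ≤ 1 := by
    by_contra h3
    have h4 : 2 * P.natDegree ≤ (fibt P 1 x).card * P.natDegree :=
      Nat.mul_le_mul_right _ (by omega)
    omega
  have h3 : 1 ≤ (fibt P 1 x).card := by
    rw [hf1]
    exact Finset.card_pos.2 (fib_nonempty hd1 x)
  obtain ⟨w, hw⟩ := Finset.card_eq_one.1 (le_antisymm h2 h3)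
  have h4 := cnt_card_succ hd1 1 x
  rw [hw, Finset.sum_singleton] at h4
  have h5 : (fib P w).card ≤ 1 := by
    have h6 : (fibt P 2 x).card = (fib P w).card := h4
    omega
  have h6 : (fib P x).card = 1 := by
    rw [← hf1, hw, Finset.card_singleton]
  have hxw : w = x := by
    by_contra hne
    have h7 := rh hd1 {w, x}
    rw [Finset.card_pair hne, Finset.sum_pair hne] at h7
    omega
  have h7 : fib P x = {x} := by
    rw [← hf1, hw, hxw]
  apply hP
  refine ⟨x, ?_, ?_⟩
  · have h8 : x ∈ fib P x := by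
      rw [h7]
      exact Finset.mem_singleton_self _
    exact (mem_fib hd1).1 h8
  · have h8 := sum_mu hd1 x
    rw [h7, Finset.sum_singleton] at h8
    exact h8

theorem card_fibt {P : ℂ[X]} (hd : 2 ≤ P.natDegree) (hP : ¬ PowerType P) (x : ℂ) {t : ℕ}
    (ht : 2 ≤ t) : P.natDegree ^ (t - 2) + 1 ≤ (fibt P t x).card := by
  induction t, ht using Nat.le_induction with
  | base =>
    rw [Nat.sub_self, pow_zero]
    exact cnt_two hd hP x
  | succ t ht ih =>
    have h1 := cnt_step (by omega : 1 ≤ P.natDegree) t x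
    have h2 : (P.natDegree ^ (t - 2) + 1) * P.natDegree ≤ (fibt P t x).card * P.natDegree :=
      Nat.mul_le_mul_right _ ih
    have h3 : t + 1 - 2 = (t - 2) + 1 := by omega
    rw [h3, pow_succ]
    rw [add_mul, one_mul] at h2
    omega

theorem cnt_odd_fib {F : ℂ[X]} (hF : 1 ≤ F.natDegree) (x : ℂ) :
    2 * (fib F x).card ≤
      ∑ z ∈ (fib F x).filter (fun z => Odd (mu F z)), mu F z + F.natDegree := by
  have h0 : F.natDegree = ∑ z ∈ fib F x, mu F z := (sum_mu hF x).symm
  rw [Finset.sum_filter]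
  conv_rhs => rw [h0]
  rw [← Finset.sum_add_distrib, Finset.card_eq_sum_ones, Finset.mul_sum]
  refine Finset.sum_le_sum fun z _ => ?_
  have h1 := one_le_mu hF z
  split_ifs with h
  · omega
  · rw [Nat.not_odd_iff_even] at h
    obtain ⟨k, hk⟩ := h
    omega

theorem oddMass_lower {P : ℂ[X]} (hd : 1 ≤ P.natDegree) (t : ℕ) (S : Finset ℂ) :
    S.card * P.natDegree ^ t + 2 ≤ oddMass P t S + 2 * P.natDegree ^ t := by
  have h1 := rh (cnt_deg hd t) S
  rw [natDegree_it] at h1
  have h2 : 2 * ∑ x ∈ S, (fib (it P t) x).card ≤ oddMass P t S + S.card * P.natDegree ^ t := by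
    rw [Finset.mul_sum]
    calc ∑ x ∈ S, 2 * (fib (it P t) x).card
        ≤ ∑ x ∈ S, (∑ z ∈ (fib (it P t) x).filter (fun z => Odd (mu (it P t) z)), mu (it P t) z +
          (it P t).natDegree) := Finset.sum_le_sum fun x _ => cnt_odd_fib (cnt_deg hd t) x
      _ = oddMass P t S + S.card * P.natDegree ^ t := by
        rw [Finset.sum_add_distrib, Finset.sum_const, natDegree_it, smul_eq_mul]
        rfl
  omega

/-! ### Pairs of points -/

open Classical in
/-- the preimages with odd index -/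
noncomputable def cnt_pr (P : ℂ[X]) (S : Finset ℂ) : Finset ℂ :=
  (S.biUnion (fun x => fib P x)).filter (fun w => Odd (mu P w))

theorem cnt_mem_pr {P : ℂ[X]} (hd : 1 ≤ P.natDegree) {S : Finset ℂ} {w : ℂ} :
    w ∈ cnt_pr P S ↔ P.eval w ∈ S ∧ Odd (mu P w) := by
  classical
  unfold cnt_pr
  rw [Finset.mem_filter, Finset.mem_biUnion]
  refine and_congr_left fun _ => ⟨?_, fun h => ⟨_, h, (mem_fib hd).2 rfl⟩⟩
  rintro ⟨x, hx, hw⟩
  rw [mem_fib hd] at hw
  rw [hw]
  exact hx

open Classical in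
theorem cnt_oddMass_eq {P : ℂ[X]} (hd : 1 ≤ P.natDegree) (t : ℕ) (S : Finset ℂ) :
    oddMass P t S = ∑ z ∈ (S.biUnion (fun x => fibt P t x)).filter
      (fun z => Odd (mu (it P t) z)), mu (it P t) z := by
  unfold oddMass
  rw [Finset.sum_filter, Finset.sum_biUnion]
  · refine Finset.sum_congr rfl fun x _ => ?_
    rw [Finset.sum_filter]
  · intro a _ b _ hab
    change Disjoint (fibt P t a) (fibt P t b)
    rw [Finset.disjoint_left]
    intro z h1 h2
    rw [cnt_mem_fibt hd] at h1 h2
    exact hab (h1.symm.trans h2)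

theorem cnt_oddMass_step {P : ℂ[X]} (hd : 1 ≤ P.natDegree) (t : ℕ) (S : Finset ℂ) :
    oddMass P t (cnt_pr P S) ≤ oddMass P (t + 1) S := by
  classical
  rw [cnt_oddMass_eq hd, cnt_oddMass_eq hd]
  have hmu : ∀ z, mu (it P (t + 1)) z = mu P ((it P t).eval z) * mu (it P t) z := by
    intro z
    rw [it_succ]
    exact mu_comp hd (cnt_deg hd t) z
  refine le_trans (Finset.sum_le_sum fun z _ => ?_) (Finset.sum_le_sum_of_subset ?_)
  · rw [hmu]
    exact Nat.le_mul_of_pos_left _ (one_le_mu hd _)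
  · intro z hz
    rw [Finset.mem_filter, Finset.mem_biUnion] at hz ⊢
    obtain ⟨⟨w, hw, hz1⟩, hz2⟩ := hz
    rw [cnt_mem_fibt hd] at hz1
    rw [cnt_mem_pr hd] at hw
    refine ⟨⟨P.eval w, hw.1, ?_⟩, ?_⟩
    · rw [cnt_mem_fibt hd, it_succ, eval_comp, hz1]
    · rw [hmu, hz1]
      exact hw.2.mul hz2

theorem cnt_pair {P : ℂ[X]} (hd : 1 ≤ P.natDegree) {S : Finset ℂ} (hS : S.card = 2)
    (h : (cnt_pr P S).card ≤ 2) :
    (cnt_pr P S).card = 2 ∧ (∀ w ∈ cnt_pr P S, mu P w = 1) ∧
    (∀ w, P.eval w ∈ S → w ∉ cnt_pr P S → mu P w = 2) ∧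
    ∀ y, P.eval y ∉ S → mu P y = 1 := by
  classical
  obtain ⟨B, hB⟩ : ∃ B : Finset ℂ, B = S.biUnion (fun x => fib P x) := ⟨_, rfl⟩
  have hdisj : ∀ a ∈ S, ∀ b ∈ S, a ≠ b → Disjoint (fib P a) (fib P b) := by
    intro a _ b _ hab
    rw [Finset.disjoint_left]
    intro z h1 h2
    rw [mem_fib hd] at h1 h2
    exact hab (h1.symm.trans h2)
  have hmemB : ∀ w, w ∈ B ↔ P.eval w ∈ S := by
    intro w
    rw [hB, Finset.mem_biUnion]
    constructor
    · rintro ⟨x, hx, hw⟩
      rw [mem_fib hd] at hw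
      rw [hw]
      exact hx
    · intro h1
      exact ⟨_, h1, (mem_fib hd).2 rfl⟩
  have hcardB : B.card = ∑ x ∈ S, (fib P x).card := by
    rw [hB, Finset.card_biUnion hdisj]
  have hsumB : ∑ w ∈ B, mu P w = 2 * P.natDegree := by
    rw [hB, Finset.sum_biUnion (fun a ha b hb hab => hdisj a ha b hb hab),
      Finset.sum_congr rfl fun x _ => sum_mu hd x, Finset.sum_const, hS, smul_eq_mul]
  have h1 := rh hd S
  rw [hS, ← hcardB] at h1
  obtain ⟨A, hA⟩ : ∃ A : Finset ℂ, A = cnt_pr P S := ⟨_, rfl⟩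
  obtain ⟨E, hE⟩ : ∃ E : Finset ℂ, E = B.filter (fun w => ¬ Odd (mu P w)) := ⟨_, rfl⟩
  have hA' : A = B.filter (fun w => Odd (mu P w)) := by
    ext w
    rw [hA, cnt_mem_pr hd, Finset.mem_filter, hmemB]
  rw [← hA] at h ⊢
  have hcard : A.card + E.card = B.card := by
    rw [hA', hE]
    exact Finset.card_filter_add_card_filter_not _
  have hsum : ∑ w ∈ A, mu P w + ∑ w ∈ E, mu P w = 2 * P.natDegree := by
    rw [hA', hE, Finset.sum_filter_add_sum_filter_not, hsumB]
  have hgeA : ∀ w ∈ A, 1 ≤ mu P w := fun w _ => one_le_mu hd w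
  have hgeE : ∀ w ∈ E, 2 ≤ mu P w := by
    intro w hw
    rw [hE, Finset.mem_filter, Nat.not_odd_iff_even] at hw
    obtain ⟨k, hk⟩ := hw.2
    have h2 := one_le_mu hd w
    omega
  have hsA : A.card ≤ ∑ w ∈ A, mu P w := by
    rw [Finset.card_eq_sum_ones]
    exact Finset.sum_le_sum hgeA
  have hsE : E.card * 2 ≤ ∑ w ∈ E, mu P w := by
    rw [← smul_eq_mul, ← Finset.sum_const]
    exact Finset.sum_le_sum hgeE
  have hA2 : A.card = 2 := by omega
  have hB2 : B.card = P.natDegree + 1 := by omega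
  refine ⟨hA2, ?_, ?_, ?_⟩
  · have h2 : ∑ w ∈ A, 1 = ∑ w ∈ A, mu P w := by
      rw [← Finset.card_eq_sum_ones]
      omega
    intro w hw
    exact ((Finset.sum_eq_sum_iff_of_le hgeA).1 h2 w hw).symm
  · have h2 : ∑ w ∈ E, 2 = ∑ w ∈ E, mu P w := by
      rw [Finset.sum_const, smul_eq_mul]
      omega
    intro w hw hwA
    refine ((Finset.sum_eq_sum_iff_of_le hgeE).1 h2 w ?_).symm
    rw [hE, Finset.mem_filter]
    refine ⟨(hmemB w).2 hw, fun hodd => hwA ?_⟩
    rw [hA', Finset.mem_filter]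
    exact ⟨(hmemB w).2 hw, hodd⟩
  · intro y hy
    by_contra hne
    have hy2 : 1 < mu P y := by
      have h2 := one_le_mu hd y
      omega
    have h3 := rh hd (insert (P.eval y) S)
    rw [Finset.card_insert_of_notMem hy, Finset.sum_insert hy, hS, ← hcardB, hB2] at h3
    have h4 : (fib P (P.eval y)).card < P.natDegree := by
      rw [← sum_mu hd (P.eval y), Finset.card_eq_sum_ones]
      exact Finset.sum_lt_sum (fun z _ => one_le_mu hd z) ⟨y, (mem_fib hd).2 rfl, hy2⟩
    omega

theorem cnt_card_le {P : ℂ[X]} (hd : 1 ≤ P.natDegree) {S : Finset ℂ} {j k : ℕ} (hjk : k ≤ j)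
    (h : oddMass P j S ≤ P.natDegree ^ k + 1) : S.card ≤ 2 := by
  by_contra hcon
  have h1 := oddMass_lower hd j S
  have h2 : P.natDegree ^ k ≤ P.natDegree ^ j := Nat.pow_le_pow_right hd hjk
  have h3 : 3 * P.natDegree ^ j ≤ S.card * P.natDegree ^ j := Nat.mul_le_mul_right _ (by omega)
  omega

/-- if the odd mass of a pair of points is small then it is a Chebyshev set -/
theorem cheb_detect {P : ℂ[X]} (hd : 2 ≤ P.natDegree) {S : Finset ℂ} (hS : S.card = 2) {t : ℕ}
    (ht : 3 ≤ t) (h : oddMass P t S ≤ P.natDegree ^ (t - 3) + 1) : ChebSet P S := by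
  classical
  have hd1 : 1 ≤ P.natDegree := by omega
  obtain ⟨k, rfl⟩ : ∃ k, t = k + 3 := ⟨t - 3, by omega⟩
  rw [Nat.add_sub_cancel] at h
  have o1 : oddMass P (k + 2) (cnt_pr P S) ≤ P.natDegree ^ k + 1 :=
    le_trans (cnt_oddMass_step hd1 (k + 2) S) h
  have o2 : oddMass P (k + 1) (cnt_pr P (cnt_pr P S)) ≤ P.natDegree ^ k + 1 :=
    le_trans (cnt_oddMass_step hd1 (k + 1) _) o1
  have o3 : oddMass P k (cnt_pr P (cnt_pr P (cnt_pr P S))) ≤ P.natDegree ^ k + 1 :=
    le_trans (cnt_oddMass_step hd1 k _) o2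
  obtain ⟨S1, hS1⟩ : ∃ T, T = cnt_pr P S := ⟨_, rfl⟩
  rw [← hS1] at o1 o2 o3
  obtain ⟨S2, hS2⟩ : ∃ T, T = cnt_pr P S1 := ⟨_, rfl⟩
  rw [← hS2] at o2 o3
  have b0 := cnt_pair hd1 hS (by
    rw [← hS1]
    exact cnt_card_le hd1 (by omega : k ≤ k + 2) o1)
  rw [← hS1] at b0
  obtain ⟨c1, m1, e1, n1⟩ := b0
  have b1 := cnt_pair hd1 c1 (by
    rw [← hS2]
    exact cnt_card_le hd1 (by omega : k ≤ k + 1) o2)
  rw [← hS2] at b1
  obtain ⟨c2, m2, e2, n2⟩ := b1
  obtain ⟨c3, m3, e3, n3⟩ := cnt_pair hd1 c2 (cnt_card_le hd1 le_rfl o3)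
  have hsub : S ⊆ S1 := by
    rcases Nat.lt_or_ge 2 P.natDegree with h3 | h3
    · intro x hx
      by_contra hx1
      have h4 : ∀ y ∈ fib P x, mu P y = 1 := by
        intro y hy
        rw [mem_fib hd1] at hy
        exact n2 y (by rw [hy]; exact hx1)
      have h5 : fib P x ⊆ S1 := by
        intro y hy
        rw [hS1, cnt_mem_pr hd1, h4 y hy]
        rw [mem_fib hd1] at hy
        rw [hy]
        exact ⟨hx, odd_one⟩
      have h6 := sum_mu hd1 x
      rw [Finset.sum_congr rfl h4, ← Finset.card_eq_sum_ones] at h6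
      have h7 := Finset.card_le_card h5
      omega
    · have hd2 : P.natDegree = 2 := by omega
      obtain ⟨y0, hy0, hmu0⟩ : ∃ y0, P.eval y0 ∈ S ∧ mu P y0 = 2 := by
        by_contra hcon
        push Not at hcon
        have h4 : ∀ y, P.eval y ∈ S → y ∈ S1 := by
          intro y hy
          by_contra hy1
          exact hcon y hy (e1 y hy hy1)
        have h5 : ∀ x ∈ S, (fib P x).card = 2 := by
          intro x hx
          have h6 := sum_mu hd1 x
          have h7 : ∀ y ∈ fib P x, mu P y = 1 := by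
            intro y hy
            rw [mem_fib hd1] at hy
            exact m1 y (h4 y (by rw [hy]; exact hx))
          rw [Finset.sum_congr rfl h7, ← Finset.card_eq_sum_ones, hd2] at h6
          exact h6
        obtain ⟨a, b, hab, hSab⟩ := Finset.card_eq_two.1 hS
        have ha : a ∈ S := by
          rw [hSab]
          exact Finset.mem_insert_self _ _
        have hb : b ∈ S := by
          rw [hSab]
          exact Finset.mem_insert_of_mem (Finset.mem_singleton_self _)
        have hdis : Disjoint (fib P a) (fib P b) := by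
          rw [Finset.disjoint_left]
          intro z h6 h7
          rw [mem_fib hd1] at h6 h7
          exact hab (h6.symm.trans h7)
        have h6 : (fib P a ∪ fib P b).card ≤ S1.card := by
          refine Finset.card_le_card ?_
          intro z hz
          rcases Finset.mem_union.1 hz with h7 | h7
          · rw [mem_fib hd1] at h7
            exact h4 z (by rw [h7]; exact ha)
          · rw [mem_fib hd1] at h7
            exact h4 z (by rw [h7]; exact hb)
        rw [Finset.card_union_of_disjoint hdis, h5 a ha, h5 b hb] at h6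
        omega
      have hv1 : P.eval y0 ∈ S1 := by
        by_contra h4
        have h5 := n2 y0 h4
        omega
      have hv2 : P.eval y0 ∈ S2 := by
        by_contra h4
        have h5 := n3 y0 h4
        omega
      have hx0 : P.eval (P.eval y0) ∈ S := by
        rw [hS1, cnt_mem_pr hd1] at hv1
        exact hv1.1
      have hx1 : P.eval (P.eval y0) ∈ S1 := by
        rw [hS2, cnt_mem_pr hd1] at hv2
        exact hv2.1
      have hne : P.eval y0 ≠ P.eval (P.eval y0) := by
        intro h4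
        have h5 : mu P (P.eval y0) = 1 := m1 _ hv1
        have h6 : P.eval y0 ≠ y0 := by
          intro h7
          rw [h7] at h5
          omega
        have h7 := sum_mu hd1 (P.eval y0)
        have h8 : ({P.eval y0, y0} : Finset ℂ) ⊆ fib P (P.eval y0) := by
          intro z hz
          rw [Finset.mem_insert, Finset.mem_singleton] at hz
          rw [mem_fib hd1]
          rcases hz with hz | hz
          · rw [hz]
            exact h4.symm
          · rw [hz]
        have h9 : ∑ z ∈ ({P.eval y0, y0} : Finset ℂ), mu P z ≤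
            ∑ z ∈ fib P (P.eval y0), mu P z := Finset.sum_le_sum_of_subset h8
        rw [Finset.sum_pair h6] at h9
        omega
      have hSe : ({P.eval y0, P.eval (P.eval y0)} : Finset ℂ) = S := by
        refine Finset.eq_of_subset_of_card_le ?_ ?_
        · intro z hz
          rw [Finset.mem_insert, Finset.mem_singleton] at hz
          rcases hz with hz | hz
          · rw [hz]
            exact hy0
          · rw [hz]
            exact hx0
        · rw [hS, Finset.card_pair hne]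
      rw [← hSe]
      intro z hz
      rw [Finset.mem_insert, Finset.mem_singleton] at hz
      rcases hz with hz | hz
      · rw [hz]
        exact hv1
      · rw [hz]
        exact hx1
  have hEq : S = S1 := Finset.eq_of_subset_of_card_le hsub (by omega)
  refine ⟨hS, fun w hw => ?_, fun w hw hw' => ?_⟩
  · have hw1 : w ∈ S1 := hsub hw
    refine ⟨?_, m1 w hw1⟩
    rw [hS1, cnt_mem_pr hd1] at hw1
    exact hw1.1
  · exact e1 w hw (by rw [← hEq]; exact hw')

end H12IT
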