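import Mathlib

set_option autoImplicit false

/-! PROJECT IT (MP_d9b15a_an, helper12): definitions. -/

open Polynomial

namespace H12IT

/-- multiplicity of `F - F(z)` at `z` (local degree) -/
noncomputable def mu (F : ℂ[X]) (z : ℂ) : ℕ := (F - C (F.eval z)).rootMultiplicity z

/-- the fibre `F⁻¹(x)` -/
noncomputable def fib (F : ℂ[X]) (x : ℂ) : Finset ℂ := (F - C x).roots.toFinset

/-- iterates -/
noncomputable def it (P : ℂ[X]) : ℕ → ℂ[X]
  | 0 => X
  | n + 1 => P.comp (it P n)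

/-- the fibre of the `t`-th iterate -/
noncomputable def fibt (P : ℂ[X]) (t : ℕ) (x : ℂ) : Finset ℂ := fib (it P t) x

/-- `A ≥ B` in the notation of the problem: some nonconstant `p` satisfies `p ∘ A = B ∘ p` -/
def Geq (A B : ℂ[X]) : Prop := ∃ p : ℂ[X], 1 ≤ p.natDegree ∧ p.comp A = B.comp p

/-- intertwined -/
def Inter (P Q : ℂ[X]) : Prop := ∃ R : ℂ[X], ∃ n : ℕ, 1 ≤ n ∧ Geq R (it P n) ∧ Geq R (it Q n)

/-- power type: some point is its own full preimage -/
def PowerType (P : ℂ[X]) : Prop := ∃ o : ℂ, P.eval o = o ∧ mu P o = P.natDegree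

/-- `S` is a Chebyshev set of `P` : two points, simple, mapped into `S`, and every other preimage of
a point of `S` is double -/
def ChebSet (P : ℂ[X]) (S : Finset ℂ) : Prop :=
  S.card = 2 ∧ (∀ w ∈ S, P.eval w ∈ S ∧ mu P w = 1) ∧ ∀ w, P.eval w ∈ S → w ∉ S → mu P w = 2

def ChebType (P : ℂ[X]) : Prop := ∃ S : Finset ℂ, ChebSet P S

/-- neither power type nor Chebyshev type -/
def NonSpecial (P : ℂ[X]) : Prop := ¬ PowerType P ∧ ¬ ChebType P

/-- linear symmetry of `p` -/
def Sym (p L : ℂ[X]) : Prop := L.natDegree = 1 ∧ p.comp L = p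

/-- number (with multiplicity) of the points of `P^{-t}(S)` with odd index -/
noncomputable def oddMass (P : ℂ[X]) (t : ℕ) (S : Finset ℂ) : ℕ :=
  ∑ x ∈ S, ∑ z ∈ (fibt P t x).filter (fun z => Odd (mu (it P t) z)), mu (it P t) z

/-- the bound for degrees of right factors -/
def K2 (d : ℕ) : ℕ := 4 * d ^ (3 * d + 1)

/-- monic and centered of degree `d` -/
def MC (d : ℕ) (Q : ℂ[X]) : Prop := Q.Monic ∧ Q.natDegree = d ∧ Q.coeff (d - 1) = 0

end H12IT
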