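import Mathlib
import Pool.Agent.H12.IT.Defs

set_option autoImplicit false

/-! PROJECT IT, module Cod: codes of algebraic numbers and the polymorphic programs.
(Definitions only, and short lemmas.) -/

open Polynomial

namespace H12IT

/-- code of a rational number: `(a,b,c)` stands for `(a-b)/(c+1)` -/
abbrev Q3 := ℕ × ℕ × ℕ

/-- the rational number with code `a` -/
def rat (a : Q3) : ℚ := ((a.1 : ℚ) - (a.2.1 : ℚ)) / ((a.2.2 : ℚ) + 1)

/-- code of a Gaussian rational -/
abbrev G2 := Q3 × Q3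

/-- the Gaussian rational with code `g` -/
noncomputable def gau (g : G2) : ℂ := ((rat g.1 : ℚ) : ℂ) + ((rat g.2 : ℚ) : ℂ) * Complex.I

/-- the value at `x` of the polynomial with coefficients `l` (constant coefficient first) -/
noncomputable def evalL (l : List Q3) (x : ℂ) : ℂ :=
  l.foldr (fun a y => ((rat a : ℚ) : ℂ) + x * y) 0

/-- isolating data `(m, q, r)`: a polynomial over `ℚ`, the centre and the radius of a disc -/
abbrev Alg := List Q3 × G2 × Q3

/-- `α` is the only root of `m` in the open disc with centre `q` and radius `r` -/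
def Isolates (a : Alg) (α : ℂ) : Prop :=
  evalL a.1 α = 0 ∧ ‖α - gau a.2.1‖ < ((rat a.2.2 : ℚ) : ℝ) ∧
    ∀ z : ℂ, evalL a.1 z = 0 → ‖z - gau a.2.1‖ < ((rat a.2.2 : ℚ) : ℝ) → z = α

/-- code of an algebraic number: isolating data of `α` and a polynomial `c`, for `c(α)` -/
abbrev Num := Alg × List Q3

/-- `c` is a code of the number `x` -/
def Rep (c : Num) (x : ℂ) : Prop := ∃ α : ℂ, Isolates c.1 α ∧ x = evalL c.2 α

/-- the list `L` codes the polynomial `P` (its coefficients, constant coefficient first) -/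
def RepPoly (L : List Num) (P : ℂ[X]) : Prop :=
  L.length = P.natDegree + 1 ∧ ∀ (j : ℕ) (h : j < L.length), Rep L[j] (P.coeff j)

theorem Isolates.unique {a : Alg} {x y : ℂ} (h : Isolates a x) (h' : Isolates a y) : x = y :=
  h'.2.2 x h.1 h.2.1

theorem Rep.unique {c : Num} {x y : ℂ} (h : Rep c x) (h' : Rep c y) : x = y := by
  obtain ⟨a, ha, rfl⟩ := h
  obtain ⟨b, hb, rfl⟩ := h'
  rw [ha.unique hb]

theorem RepPoly.unique {L : List Num} {P Q : ℂ[X]} (h : RepPoly L P) (h' : RepPoly L Q) :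
    P = Q := by
  ext j
  by_cases hj : j < L.length
  · exact (h.2 j hj).unique (h'.2 j hj)
  · rw [Polynomial.coeff_eq_zero_of_natDegree_lt (by have := h.1; omega),
      Polynomial.coeff_eq_zero_of_natDegree_lt (by have := h'.1; omega)]

/-! ### arithmetic of codes -/

def z3 : Q3 := (0, 0, 0)
def o3 : Q3 := (1, 0, 0)
def m3 : Q3 := (0, 1, 0)
def n3 (n : ℕ) : Q3 := (n, 0, 0)
def add3 (a b : Q3) : Q3 :=
  (a.1 * (b.2.2 + 1) + b.1 * (a.2.2 + 1), a.2.1 * (b.2.2 + 1) + b.2.1 * (a.2.2 + 1),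
    a.2.2 * b.2.2 + a.2.2 + b.2.2)
def mul3 (a b : Q3) : Q3 :=
  (a.1 * b.1 + a.2.1 * b.2.1, a.1 * b.2.1 + a.2.1 * b.1, a.2.2 * b.2.2 + a.2.2 + b.2.2)
def neg3 (a : Q3) : Q3 := (a.2.1, a.1, a.2.2)
def abs3 (a : Q3) : Q3 := ((a.1 - a.2.1) + (a.2.1 - a.1), 0, a.2.2)
/-- `rat a < rat b` -/
def lt3 (a b : Q3) : Prop :=
  a.1 * (b.2.2 + 1) + b.2.1 * (a.2.2 + 1) < b.1 * (a.2.2 + 1) + a.2.1 * (b.2.2 + 1)

/-! ### polymorphic arithmetic -/

/-- a type with an addition, a multiplication and constants -/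
class Ar (A : Type) where
  add : A → A → A
  mul : A → A → A
  cst : Q3 → A

open Ar

/-- `ℚ`-algebras -/
noncomputable instance (priority := 100) arAlg (A : Type) [CommRing A] [Algebra ℚ A] : Ar A where
  add := fun x y => x + y
  mul := fun x y => x * y
  cst := fun q => algebraMap ℚ A (rat q)

/-- Gaussian rationals -/
instance : Ar G2 where
  add := fun x y => (add3 x.1 y.1, add3 x.2 y.2)
  mul := fun x y => (add3 (mul3 x.1 y.1) (neg3 (mul3 x.2 y.2)),
    add3 (mul3 x.1 y.2) (mul3 x.2 y.1))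
  cst := fun q => (q, z3)

/-- codes of polynomials in variables indexed by prime numbers: `(m, q)` is `q` times the monomial
given by the factorisation of `m` -/
abbrev SP := List (ℕ × Q3)

instance : Ar SP where
  add := fun s t => s ++ t
  mul := fun s t => s.flatMap (fun a => t.map (fun b => (a.1 * b.1, mul3 a.2 b.2)))
  cst := fun q => [(1, q)]

/-- a variable -/
def var (m : ℕ) : SP := [(m, o3)]

/-- coefficient -/
def coefS (s : SP) (m : ℕ) : Q3 := s.foldr (fun b acc => if b.1 = m then add3 b.2 acc else acc) z3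

/-- zero test -/
def ZT (s : SP) : Prop := ∀ a ∈ s, (coefS s a.1).1 = (coefS s a.1).2.1

section prog

variable {A : Type} [Ar A]

def zer : A := cst z3
def one : A := cst o3
def sub (x y : A) : A := add x (mul (cst m3) y)
/-- Horner evaluation -/
def hor (l : List A) (x : A) : A := l.foldr (fun a y => add a (mul x y)) zer
def horQ (l : List Q3) (x : A) : A := l.foldr (fun a y => add (cst a) (mul x y)) zer
/-- `n`-fold iteration -/
def nst (l : List A) (n : ℕ) (x : A) : A := n.rec x (fun _ y => hor l y)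
/-- `∑_{j<n} v_j p_j` -/
def dot (n : ℕ) (v p : List A) : A :=
  (List.range n).foldr (fun j y => add (mul (v.getD j zer) (p.getD j zer)) y) zer

end prog

/-! ### sizes -/

/-- number of iterates -/
def NN (d : ℕ) : ℕ := (d + 1).factorial
/-- bound for the degrees of the semiconjugacies -/
def KK (d : ℕ) : ℕ := d * K2 d
/-- degree of `R` -/
def DD (d : ℕ) : ℕ := d ^ NN d
/-- number of points of evaluation -/
def TT (d : ℕ) : ℕ := KK d * DD d + 1
/-- lengths of the blocks `q, R, p1, p2, v1, v2` -/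
def lens (d : ℕ) : List ℕ := [d - 1, DD d + 1, KK d + 1, KK d + 1, KK d, KK d]

/-! ### the system of equations -/

section sys

variable {A : Type} [Ar A]

/-- block -/
def blk (B : List (List A)) (k : ℕ) : List A := B.getD k []

/-- equation `p(R(z)) = P^n(p(z))` -/
def eqn (n : ℕ) (P R p : List A) (z : ℕ) : A :=
  sub (hor p (hor R (cst (n3 z)))) (nst P n (hor p (cst (n3 z))))

/-- the equations, for `P` (list of coefficients) and the blocks `B = [q, R, p1, p2, v1, v2]` -/
def sysE (d : ℕ) (P : List A) (B : List (List A)) : List A :=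
  [sub (dot (KK d) (blk B 4) ((blk B 2).drop 1)) one,
    sub (dot (KK d) (blk B 5) ((blk B 3).drop 1)) one] ++
  ((List.range (TT d)).map (eqn (NN d) P (blk B 1) (blk B 2)) ++
    (List.range (TT d)).map (eqn (NN d) (blk B 0 ++ [zer, one]) (blk B 1) (blk B 3)))

/-- coefficients of `P`, from the polynomials `a_j` (with `a_j(β) = α_j`) and `c_j` -/
def PL (d : ℕ) (cs as : List (List Q3)) (t : A) : List A :=
  (List.range (d + 1)).map (fun j => horQ (cs.getD j []) (horQ (as.getD j []) t))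

/-- evaluation of blocks of polynomials -/
def evB (S : List (List (List Q3))) (t : A) : List (List A) :=
  S.map (fun b => b.map (fun l => horQ l t))

/-- the equation `Q ≠ Q_i` with the auxiliary variables `y` -/
def rab (d : ℕ) (q : List A) (y : List A) (o : List (List Q3)) (t : A) : A :=
  sub (dot (d - 1) y ((List.range (d - 1)).map
    (fun j => sub (q.getD j zer) (horQ (o.getD j []) t)))) one

/-- all equations of the inconsistent system -/
def allE (d : ℕ) (cs as : List (List Q3)) (M : List Q3) (S : List (List (List (List Q3))))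
    (t : A) (B : List (List A)) (Y : List (List A)) : List A :=
  horQ M t :: (sysE d (PL d cs as t) B ++
    (List.range S.length).map (fun i => rab d (blk B 0) (Y.getD i []) ((S.getD i []).getD 0 []) t))

end sys

/-! ### the certificate -/

/-- `(ml, pts, ep, rho)`, `(as, us, hs)`, `(S, shs)`, `(g0, vb, ys, G)` -/
abbrev Cert := (List Q3 × List G2 × Q3 × Q3) × (List (List Q3) × List Q3 × List (List Q3)) ×
  (List (List (List (List Q3))) × List (List (List Q3))) ×
  (ℕ × List (List ℕ) × List (List ℕ) × List SP)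

/-- square of the absolute value -/
def nsq (g : G2) : Q3 := add3 (mul3 g.1 g.1) (mul3 g.2 g.2)
def subG (g h : G2) : G2 := (add3 g.1 (neg3 h.1), add3 g.2 (neg3 h.2))
def pow3 (a : Q3) (n : ℕ) : Q3 := n.rec o3 (fun _ y => mul3 a y)
/-- bound for the values, and for the difference quotients, on the disc of radius `rho` -/
def bnd (l : List Q3) (rho : Q3) : Q3 × Q3 :=
  l.foldr (fun a y => (add3 (abs3 a) (mul3 rho y.1), add3 y.1 (mul3 rho y.2))) (z3, z3)

/-- isolation of the roots of `M` -/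
def ChkIso (ml : List Q3) (pts : List G2) (ep : Q3) : Prop :=
  1 ≤ ml.length ∧ pts.length = ml.length ∧ lt3 z3 ep ∧
    (∀ q ∈ pts, ¬ lt3 (pow3 ep (2 * ml.length)) (nsq (horQ (ml ++ [o3]) q))) ∧
    ∀ i < pts.length, ∀ j < i,
      lt3 (mul3 (n3 16) (mul3 ep ep)) (nsq (subG (pts.getD i (z3, z3)) (pts.getD j (z3, z3))))

/-- `a_j(β) = α_j` -/
def ChkIn (d : ℕ) (L : List Num) (ml : List Q3) (q0 : G2) (ep rho : Q3)
    (as : List (List Q3)) (us : List Q3) (hs : List (List Q3)) (g0 : ℕ) : Prop :=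
  ¬ lt3 rho (add3 (add3 (abs3 q0.1) (abs3 q0.2)) ep) ∧
    ∀ j < d + 1,
      ZT (sub (horQ (L.getD j (([], (z3, z3), z3), [])).1.1 (horQ (as.getD j []) (var g0)))
        (mul (horQ (hs.getD j []) (var g0)) (horQ (ml ++ [o3]) (var g0)))) ∧
      ¬ lt3 (us.getD j z3) z3 ∧
      ¬ lt3 (mul3 (us.getD j z3) (us.getD j z3)) (nsq (subG (horQ (as.getD j []) q0)
        (L.getD j (([], (z3, z3), z3), [])).1.2.1)) ∧
      lt3 (add3 (us.getD j z3) (mul3 ep (bnd (as.getD j []) rho).2))
        (L.getD j (([], (z3, z3), z3), [])).1.2.2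

/-- the solutions -/
def ChkSol (d : ℕ) (cs as : List (List Q3)) (ml : List Q3)
    (S : List (List (List (List Q3)))) (shs : List (List (List Q3))) (g0 : ℕ) : Prop :=
  ∀ i < S.length, (S.getD i []).map List.length = lens d ∧
    ∀ k < 2 * TT d + 2,
      ZT (sub ((sysE d (PL d cs as (var g0)) (evB (S.getD i []) (var g0))).getD k zer)
        (mul (horQ ((shs.getD i []).getD k []) (var g0)) (horQ (ml ++ [o3]) (var g0))))

/-- completeness -/
def ChkNul (d : ℕ) (cs as : List (List Q3)) (ml : List Q3)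
    (S : List (List (List (List Q3)))) (g0 : ℕ) (vb ys : List (List ℕ)) (G : List SP) : Prop :=
  vb.map List.length = lens d ∧ ys.length = S.length ∧ (∀ y ∈ ys, y.length = d - 1) ∧
    (∀ p ∈ g0 :: (vb.flatten ++ ys.flatten), p.Prime) ∧
    (g0 :: (vb.flatten ++ ys.flatten)).Nodup ∧
    ZT (sub (dot (2 * TT d + 3 + S.length) G (allE d cs as (ml ++ [o3]) S (var g0)
      (vb.map (fun b => b.map var)) (ys.map (fun b => b.map var)))) one)

/-- the certificate is correct -/
def Chk (x : ℕ × List Num) (c : Cert) : Prop :=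
  ChkIso c.1.1 c.1.2.1 c.1.2.2.1 ∧
    ChkIn x.1 x.2 c.1.1 (c.1.2.1.getD 0 (z3, z3)) c.1.2.2.1 c.1.2.2.2 c.2.1.1 c.2.1.2.1 c.2.1.2.2
      c.2.2.2.1 ∧
    ChkSol x.1 (x.2.map Prod.snd) c.2.1.1 c.1.1 c.2.2.1.1 c.2.2.1.2 c.2.2.2.1 ∧
    ChkNul x.1 (x.2.map Prod.snd) c.2.1.1 c.1.1 c.2.2.1.1 c.2.2.2.1 c.2.2.2.2.1 c.2.2.2.2.2.1
      c.2.2.2.2.2.2

/-- the output -/
def outp (_x : ℕ × List Num) (c : Cert) : List (List Num) :=
  c.2.2.1.1.map (fun s => (s.getD 0 [] ++ [[], [o3]]).map
    (fun l => ((c.1.1 ++ [o3], c.1.2.1.getD 0 (z3, z3), mul3 (n3 2) c.1.2.2.1), l)))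

end H12IT
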