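import Pool.Agent.H12.IT.Inv

set_option autoImplicit false

/-! PROJECT IT, module Com (Lemma C): common germs give a common right factor. -/

open Polynomial Filter Topology

namespace H12IT

/-- different points of a finite set are separated -/
theorem com_sep (S : Finset ℂ) :
    ∃ δ : ℝ, 0 < δ ∧ ∀ w ∈ S, ∀ w' ∈ S, w ≠ w' → δ ≤ ‖w - w'‖ := by
  have h : ∀ᶠ δ in 𝓝[>] (0 : ℝ), ∀ p ∈ S ×ˢ S, p.1 ≠ p.2 → δ ≤ ‖p.1 - p.2‖ := by
    rw [Filter.eventually_all_finset]
    intro p _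
    by_cases hp : p.1 = p.2
    · exact Filter.Eventually.of_forall fun δ h => absurd hp h
    · have h0 : (0 : ℝ) < ‖p.1 - p.2‖ := norm_pos_iff.2 (sub_ne_zero.2 hp)
      filter_upwards [Ioc_mem_nhdsGT h0] with δ hδ _ using hδ.2
  obtain ⟨δ, hδ, hδ0⟩ := (h.and self_mem_nhdsWithin).exists
  exact ⟨δ, hδ0, fun w hw w' hw' hne => hδ (w, w') (Finset.mem_product.2 ⟨hw, hw'⟩) hne⟩

/-- a nonzero polynomial has no large roots -/
theorem com_large {c : ℂ[X]} (hc : c ≠ 0) : ∃ R : ℝ, ∀ z : ℂ, R ≤ ‖z‖ → c.eval z ≠ 0 := by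
  classical
  refine ⟨(∑ y ∈ c.roots.toFinset, ‖y‖) + 1, fun z hz h => ?_⟩
  have hmem : z ∈ c.roots.toFinset := by
    rw [Multiset.mem_toFinset, mem_roots hc]
    exact h
  have := Finset.single_le_sum (f := fun y : ℂ => ‖y‖) (fun y _ => norm_nonneg y) hmem
  linarith

/-- the polynomial `f(T) - f(z)` with the outer variable `T` -/
noncomputable def comF (f : ℂ[X]) : ℂ[X][X] := f.map C - C f

theorem com_map (f : ℂ[X]) (z : ℂ) : (comF f).map (evalRingHom z) = f - C (f.eval z) := by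
  unfold comF
  rw [Polynomial.map_sub, map_C, coe_evalRingHom, Polynomial.map_map]
  congr 1
  have h : (evalRingHom z).comp (C : ℂ →+* ℂ[X]) = RingHom.id ℂ := by
    ext x
    simp
  rw [h, Polynomial.map_id]

theorem com_monic {f : ℂ[X]} (hf : 1 ≤ f.natDegree) :
    (C (C (f.leadingCoeff)⁻¹) * comF f : ℂ[X][X]).Monic := by
  have hf0 : f ≠ 0 := by
    rintro rfl
    simp at hf
  have hl : f.leadingCoeff ≠ 0 := leadingCoeff_ne_zero.2 hf0
  have hinj : Function.Injective (C : ℂ →+* ℂ[X]) := C_injective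
  have h1 : (comF f).leadingCoeff = C f.leadingCoeff := by
    unfold comF
    rw [leadingCoeff_sub_of_degree_lt, leadingCoeff_map_of_injective hinj]
    refine lt_of_le_of_lt degree_C_le ?_
    rw [degree_map_eq_of_injective hinj, degree_eq_natDegree hf0]
    exact_mod_cast hf
  rw [Monic, leadingCoeff_mul, leadingCoeff_C, h1, ← C_mul, inv_mul_cancel₀ hl, C_1]

theorem com_gcdK (K : Type) [Field K] [Algebra ℂ[X] K] [IsFractionRing ℂ[X] K] {f : ℂ[X]}
    (g : ℂ[X]) (hf : 1 ≤ f.natDegree) :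
    ∃ D : ℂ[X][X], D.Monic ∧ D ∣ comF f ∧ D ∣ comF g ∧ ∃ c : ℂ[X], c ≠ 0 ∧
      ∃ A B : ℂ[X][X], C c * D = A * comF f + B * comF g := by
  classical
  have hφ : Function.Injective (algebraMap ℂ[X] K) := IsFractionRing.injective ℂ[X] K
  set F' : K[X] := (comF f).map (algebraMap ℂ[X] K) with hF'
  set G' : K[X] := (comF g).map (algebraMap ℂ[X] K) with hG'
  obtain ⟨D0, hI⟩ : ∃ D0 : K[X], Ideal.span {F', G'} = Ideal.span {D0} :=
    (IsPrincipalIdealRing.principal (Ideal.span {F', G'})).principal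
  have hF : D0 ∣ F' := by
    rw [← Ideal.mem_span_singleton, ← hI]
    exact Ideal.subset_span (by simp)
  have hG : D0 ∣ G' := by
    rw [← Ideal.mem_span_singleton, ← hI]
    exact Ideal.subset_span (by simp)
  obtain ⟨A0, B0, hAB⟩ : ∃ A0 B0 : K[X], A0 * F' + B0 * G' = D0 := by
    have h : D0 ∈ Ideal.span {F', G'} := by
      rw [hI]
      exact Ideal.subset_span rfl
    exact Ideal.mem_span_pair.1 h
  have hmon := com_monic hf
  have hdvd : D0 ∣ (C (C (f.leadingCoeff)⁻¹) * comF f : ℂ[X][X]).map (algebraMap ℂ[X] K) := by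
    rw [Polynomial.map_mul]
    exact Dvd.dvd.mul_left hF _
  have hD0 : D0 ≠ 0 := by
    intro h
    rw [h, zero_dvd_iff] at hdvd
    exact (hmon.map (algebraMap ℂ[X] K)).ne_zero hdvd
  obtain ⟨D, hD⟩ := IsIntegrallyClosed.eq_map_mul_C_of_dvd K hmon hdvd
  have hl : D0.leadingCoeff ≠ 0 := leadingCoeff_ne_zero.2 hD0
  have hDm : (D.map (algebraMap ℂ[X] K)).Monic := by
    have h := congrArg leadingCoeff hD
    rw [leadingCoeff_mul, leadingCoeff_C] at h
    exact mul_right_cancel₀ hl (by rw [h, one_mul])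
  generalize D0.leadingCoeff = l at hD hl
  have hD1 : D.map (algebraMap ℂ[X] K) = C l⁻¹ * D0 := by
    rw [← hD, mul_comm (C l⁻¹), mul_assoc, ← C_mul, mul_inv_cancel₀ hl, C_1, mul_one]
  have hDm' : D.Monic := monic_of_injective hφ hDm
  have hDD0 : D.map (algebraMap ℂ[X] K) ∣ D0 := by
    rw [← hD]
    exact dvd_mul_right _ _
  refine ⟨D, hDm', ?_, ?_, ?_⟩
  · exact (map_dvd_map _ hφ hDm').1 (hDD0.trans hF)
  · exact (map_dvd_map _ hφ hDm').1 (hDD0.trans hG)
  · obtain ⟨b1, hb1', hb1⟩ := IsLocalization.integerNormalization_spec (nonZeroDivisors ℂ[X])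
      (C l⁻¹ * A0)
    obtain ⟨b2, hb2', hb2⟩ := IsLocalization.integerNormalization_spec (nonZeroDivisors ℂ[X])
      (C l⁻¹ * B0)
    set A := IsLocalization.integerNormalization (nonZeroDivisors ℂ[X]) (C l⁻¹ * A0) with hA
    set B := IsLocalization.integerNormalization (nonZeroDivisors ℂ[X]) (C l⁻¹ * B0) with hB
    refine ⟨b1 * b2, mul_ne_zero (nonZeroDivisors.ne_zero hb1')
      (nonZeroDivisors.ne_zero hb2'), C b2 * A, C b1 * B, ?_⟩
    apply map_injective _ hφ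
    rw [Polynomial.map_mul, Polynomial.map_add, Polynomial.map_mul, Polynomial.map_mul,
      Polynomial.map_mul, Polynomial.map_mul, map_C, map_C, map_C, hb1, hb2, hD1]
    have hs1 : (b1 • (C l⁻¹ * A0) : K[X]) = C (algebraMap ℂ[X] K b1) * (C l⁻¹ * A0) := by
      rw [← algebraMap_smul K, smul_eq_C_mul]
    have hs2 : (b2 • (C l⁻¹ * B0) : K[X]) = C (algebraMap ℂ[X] K b2) * (C l⁻¹ * B0) := by
      rw [← algebraMap_smul K, smul_eq_C_mul]
    rw [hs1, hs2, map_mul, C_mul, ← hAB]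
    ring

/-- the greatest common divisor of `f(T) - f(z)` and `g(T) - g(z)` -/
theorem com_gcd {f : ℂ[X]} (g : ℂ[X]) (hf : 1 ≤ f.natDegree) :
    ∃ D : ℂ[X][X], D.Monic ∧ D ∣ comF f ∧ D ∣ comF g ∧ ∃ c : ℂ[X], c ≠ 0 ∧
      ∃ A B : ℂ[X][X], C c * D = A * comF f + B * comF g :=
  com_gcdK (FractionRing ℂ[X]) g hf

/-- roots of unity which occur for `f` and for `g` at the same point are equal -/
theorem com_near {a b : ℕ} (ha : 1 ≤ a) (hb : 1 ≤ b) (K1 K2 : ℝ) :
    ∃ R : ℝ, ∀ z : ℂ, R ≤ ‖z‖ → ∀ w w' y : ℂ, w ^ a = 1 → w' ^ b = 1 → ‖y - w * z‖ ≤ K1 →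
      ‖y - w' * z‖ ≤ K2 → w = w' := by
  classical
  obtain ⟨δ, hδ, hsep⟩ := com_sep (nthRootsFinset a (1 : ℂ) ∪ nthRootsFinset b (1 : ℂ))
  refine ⟨(K1 + K2 + 1) / δ, fun z hz w w' y hw hw' h1 h2 => ?_⟩
  by_contra hne
  have hm1 : w ∈ nthRootsFinset a (1 : ℂ) ∪ nthRootsFinset b (1 : ℂ) :=
    Finset.mem_union_left _ ((mem_nthRootsFinset (by omega) 1).2 hw)
  have hm2 : w' ∈ nthRootsFinset a (1 : ℂ) ∪ nthRootsFinset b (1 : ℂ) :=
    Finset.mem_union_right _ ((mem_nthRootsFinset (by omega) 1).2 hw')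
  have h3 := hsep w hm1 w' hm2 hne
  have h4 : ‖(w - w') * z‖ ≤ K1 + K2 := by
    have : (w - w') * z = (y - w' * z) - (y - w * z) := by ring
    rw [this]
    exact (norm_sub_le _ _).trans (by linarith)
  rw [norm_mul] at h4
  rw [div_le_iff₀ hδ] at hz
  have h5 : δ * ‖z‖ ≤ ‖w - w'‖ * ‖z‖ := mul_le_mul_of_nonneg_right h3 (norm_nonneg z)
  linarith

/-- the number of points of a large common fibre -/
theorem com_card {f g : ℂ[X]} (hf : 1 ≤ f.natDegree) (hg : 1 ≤ g.natDegree) {m : ℕ}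
    (hm : m = Nat.gcd f.natDegree g.natDegree) (K R0 : ℝ)
    (H : ∀ z : ℂ, R0 ≤ ‖z‖ → ∀ w : ℂ, w ^ m = 1 →
      ∃ y : ℂ, f.eval y = f.eval z ∧ g.eval y = g.eval z ∧ ‖y - w * z‖ ≤ K) :
    ∃ R : ℝ, ∀ z : ℂ, R ≤ ‖z‖ → ∀ S : Finset ℂ,
      (∀ y, y ∈ S ↔ f.eval y = f.eval z ∧ g.eval y = g.eval z) → S.card = m := by
  classical
  have hm1 : 1 ≤ m := by
    rw [hm]
    exact Nat.gcd_pos_of_pos_left _ (by omega)
  obtain ⟨K1, R1, hn1⟩ := germ_near hf
  obtain ⟨K2, R2, hn2⟩ := germ_near hg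
  obtain ⟨R3, hR3⟩ := com_near (a := f.natDegree) (b := g.natDegree) hf hg K1 K2
  obtain ⟨R4, hR4⟩ := com_near (a := m) (b := m) hm1 hm1 K K
  obtain ⟨R5, hR5⟩ := germ_uniq hf K1
  have hcard : (nthRootsFinset m (1 : ℂ)).card = m :=
    (Complex.isPrimitiveRoot_exp m (by omega)).card_nthRootsFinset
  refine ⟨max R0 (max R1 (max R2 (max R3 (max R4 R5)))), fun z hz S hS => ?_⟩
  simp only [max_le_iff] at hz
  obtain ⟨hz0, hz1, hz2, hz3, hz4, hz5⟩ := hz
  refine le_antisymm ?_ ?_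
  · -- at most `m`
    have hex : ∀ y ∈ S, ∃ w : ℂ, w ^ m = 1 ∧ ‖y - w * z‖ ≤ K1 := by
      intro y hy
      obtain ⟨h1, h2⟩ := (hS y).1 hy
      obtain ⟨w, hw, hwy⟩ := hn1 z hz1 y h1
      obtain ⟨w', hw', hwy'⟩ := hn2 z hz2 y h2
      have hww := hR3 z hz3 w w' y hw hw' hwy hwy'
      subst hww
      refine ⟨w, ?_, hwy⟩
      rw [hm]
      exact pow_gcd_eq_one.2 ⟨hw, hw'⟩
    choose! w hw using hex
    conv_rhs => rw [← hcard]
    refine Finset.card_le_card_of_injOn w (fun y hy => ?_) ?_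
    · exact (mem_nthRootsFinset (by omega) 1).2 (hw y hy).1
    · intro y hy y' hy' heq
      have hy0 := hw y hy
      have hy1 := hw y' hy'
      rw [← heq] at hy1
      have hnorm : ‖w y‖ = 1 := Complex.norm_eq_one_of_pow_eq_one hy0.1 (by omega)
      exact hR5 z hz5 (w y) hnorm y y' hy0.2 hy1.2
        (((hS y).1 hy).1.trans ((hS y').1 hy').1.symm)
  · -- at least `m`
    have hex : ∀ w : ℂ, w ^ m = 1 → ∃ y : ℂ, y ∈ S ∧ ‖y - w * z‖ ≤ K := by
      intro w hw
      obtain ⟨y, h1, h2, h3⟩ := H z hz0 w hw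
      exact ⟨y, (hS y).2 ⟨h1, h2⟩, h3⟩
    choose! y hy using hex
    conv_lhs => rw [← hcard]
    refine Finset.card_le_card_of_injOn y (fun w hw => ?_) ?_
    · exact (hy w ((mem_nthRootsFinset (by omega) 1).1 hw)).1
    · intro w hw w' hw' heq
      have hw1 := (mem_nthRootsFinset (by omega) 1).1 (Finset.mem_coe.1 hw)
      have hw2 := (mem_nthRootsFinset (by omega) 1).1 (Finset.mem_coe.1 hw')
      refine hR4 z hz4 w w' (y w) hw1 hw2 (hy w hw1).2 ?_
      rw [heq]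
      exact (hy w' hw2).2

/-- the points of a large fibre of `f` are not much larger than `z` -/
theorem com_bound {f : ℂ[X]} (hf : 1 ≤ f.natDegree) :
    ∃ R : ℝ, ∀ z : ℂ, R ≤ ‖z‖ → ∀ y : ℂ, f.eval y = f.eval z → ‖y‖ ≤ 2 * ‖z‖ := by
  obtain ⟨K1, R1, hn1⟩ := germ_near hf
  refine ⟨max R1 K1, fun z hz y hy => ?_⟩
  rw [max_le_iff] at hz
  obtain ⟨w, hw, hwy⟩ := hn1 z hz.1 y hy
  have hnorm : ‖w‖ = 1 := Complex.norm_eq_one_of_pow_eq_one hw (by omega)
  have h1 : ‖y‖ ≤ ‖y - w * z‖ + ‖w * z‖ := by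
    have : y = (y - w * z) + w * z := by ring
    conv_lhs => rw [this]
    exact norm_add_le _ _
  rw [norm_mul, hnorm, one_mul] at h1
  linarith [hz.2]

theorem common_factor {f g : ℂ[X]} (hf : 1 ≤ f.natDegree) (hg : 1 ≤ g.natDegree) {m : ℕ}
    (hm : m = Nat.gcd f.natDegree g.natDegree) (K R0 : ℝ)
    (H : ∀ z : ℂ, R0 ≤ ‖z‖ → ∀ w : ℂ, w ^ m = 1 →
      ∃ y : ℂ, f.eval y = f.eval z ∧ g.eval y = g.eval z ∧ ‖y - w * z‖ ≤ K) :
    ∃ u p q : ℂ[X], u.natDegree = m ∧ f = p.comp u ∧ g = q.comp u ∧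
      ∃ R1 : ℝ, ∀ z : ℂ, R1 ≤ ‖z‖ → ∀ y : ℂ, f.eval y = f.eval z → g.eval y = g.eval z →
        u.eval y = u.eval z := by
  classical
  have hm1 : 1 ≤ m := by
    rw [hm]
    exact Nat.gcd_pos_of_pos_left _ (by omega)
  obtain ⟨D, hDm, hDf, hDg, c, hc, A, B, hAB⟩ := com_gcd g hf
  obtain ⟨Rc, hRc⟩ := com_large hc
  obtain ⟨Rs, hRs⟩ := germ_simple hf
  obtain ⟨Rk, hRk⟩ := com_card hf hg hm K R0 H
  obtain ⟨Rb, hRb⟩ := com_bound hf
  -- notation for the specialisation
  have hev : ∀ z y : ℂ, (comF f).map (evalRingHom z) = f - C (f.eval z) ∧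
      (comF g).map (evalRingHom z) = g - C (g.eval z) := fun z _ => ⟨com_map f z, com_map g z⟩
  have hroot : ∀ z : ℂ, Rc ≤ ‖z‖ → ∀ y : ℂ, (D.map (evalRingHom z)).eval y = 0 ↔
      f.eval y = f.eval z ∧ g.eval y = g.eval z := by
    intro z hz y
    constructor
    · intro h
      have h1 := Polynomial.map_dvd (evalRingHom z) hDf
      have h2 := Polynomial.map_dvd (evalRingHom z) hDg
      rw [com_map] at h1 h2
      obtain ⟨q1, hq1⟩ := h1
      obtain ⟨q2, hq2⟩ := h2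
      have h3 := congrArg (eval y) hq1
      have h4 := congrArg (eval y) hq2
      rw [eval_mul, h, zero_mul, eval_sub, eval_C, sub_eq_zero] at h3 h4
      exact ⟨h3, h4⟩
    · rintro ⟨h1, h2⟩
      have h3 := congrArg (fun P : ℂ[X][X] => (P.map (evalRingHom z)).eval y) hAB
      simp only [Polynomial.map_mul, Polynomial.map_add, com_map, map_C, eval_mul, eval_add,
        eval_sub, eval_C, h1, h2, sub_self, mul_zero, add_zero, coe_evalRingHom] at h3
      exact (mul_eq_zero.1 h3).resolve_left (hRc z hz)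
  have hDz : ∀ z : ℂ, (D.map (evalRingHom z)).Monic := fun z => hDm.map _
  have hdeg : ∀ z : ℂ, (D.map (evalRingHom z)).natDegree = D.natDegree := fun z =>
    hDm.natDegree_map _
  -- the roots of the specialisation are simple
  have hnodup : ∀ z : ℂ, Rs ≤ ‖z‖ → (D.map (evalRingHom z)).roots.Nodup := by
    intro z hz
    have h1 := Polynomial.map_dvd (evalRingHom z) hDf
    rw [com_map] at h1
    have hne : f - C (f.eval z) ≠ 0 := by
      intro h
      rw [sub_eq_zero] at h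
      rw [h, natDegree_C] at hf
      omega
    refine Multiset.nodup_of_le (roots.le_of_dvd hne h1) ?_
    rw [Multiset.nodup_iff_count_le_one]
    intro y
    rw [count_roots]
    by_cases hy : f.eval y = f.eval z
    · have h2 := hRs z hz y hy
      unfold mu at h2
      rw [hy] at h2
      exact h2.le
    · rw [rootMultiplicity_eq_zero]
      · exact Nat.zero_le _
      · intro h
        rw [IsRoot, eval_sub, eval_C, sub_eq_zero] at h
        exact hy h
  have hmem : ∀ z : ℂ, Rc ≤ ‖z‖ → ∀ y : ℂ, y ∈ (D.map (evalRingHom z)).roots ↔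
      f.eval y = f.eval z ∧ g.eval y = g.eval z := by
    intro z hz y
    rw [mem_roots (hDz z).ne_zero]
    exact hroot z hz y
  have hcardroots : ∀ z : ℂ, Rc ≤ ‖z‖ → Rs ≤ ‖z‖ → Rk ≤ ‖z‖ → D.natDegree = m := by
    intro z h1 h2 h3
    have h4 := hRk z h3 (D.map (evalRingHom z)).roots.toFinset (fun y => by
      rw [Multiset.mem_toFinset]
      exact hmem z h1 y)
    rw [Multiset.toFinset_card_of_nodup (hnodup z h2),
      ← (IsAlgClosed.splits (D.map (evalRingHom z))).natDegree_eq_card_roots, hdeg] at h4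
    exact h4
  obtain ⟨Rl, hRl⟩ := germ_large hf (max Rc Rs)
  -- a large point
  obtain ⟨z0, hz0⟩ : ∃ z0 : ℂ, max Rc (max Rs (max Rk Rl)) ≤ ‖z0‖ := by
    refine ⟨((|max Rc (max Rs (max Rk Rl))| : ℝ) : ℂ), ?_⟩
    rw [Complex.norm_real, Real.norm_eq_abs, abs_abs]
    exact le_abs_self _
  simp only [max_le_iff] at hz0
  obtain ⟨hz0c, hz0s, hz0k, hz0l⟩ := hz0
  have hDdeg : D.natDegree = m := hcardroots z0 hz0c hz0s hz0k
  -- the specialisation at a point of the common fibre is the same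
  have hsame : ∀ z1 : ℂ, f.eval z1 = f.eval z0 → g.eval z1 = g.eval z0 →
      D.map (evalRingHom z1) = D.map (evalRingHom z0) := by
    intro z1 h1 h2
    have h3 := hRl z0 hz0l z1 h1
    rw [max_le_iff] at h3
    rw [(IsAlgClosed.splits (D.map (evalRingHom z1))).eq_prod_roots_of_monic (hDz z1),
      (IsAlgClosed.splits (D.map (evalRingHom z0))).eq_prod_roots_of_monic (hDz z0)]
    have h4 : (D.map (evalRingHom z1)).roots = (D.map (evalRingHom z0)).roots := by
      refine (Multiset.Nodup.ext (hnodup z1 h3.2) (hnodup z0 hz0s)).2 fun y => ?_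
      rw [hmem z1 h3.1, hmem z0 hz0c, h1, h2]
    rw [h4]
  -- the degrees of the coefficients
  have hcoeff : ∀ j, (D.coeff j).natDegree ≤ m - j := by
    intro j
    refine deg_le_of_bound (K := 2 ^ (m - j) * m.choose j) (R0 := max Rc Rb) fun z hz => ?_
    rw [max_le_iff] at hz
    have h1 := coeff_le_of_roots_le (p := D) (f := evalRingHom z) (B := 2 * ‖z‖) j hDm
      (IsAlgClosed.splits _) (fun y hy => hRb z hz.2 y ((hmem z hz.1 y).1 hy).1)
    rw [coeff_map, coe_evalRingHom, hDdeg] at h1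
    refine h1.trans (le_of_eq ?_)
    ring
  -- all coefficients but the last one are constant
  have hconst : ∀ j, 1 ≤ j → D.coeff j = C ((D.coeff j).eval z0) := by
    intro j hj
    by_cases hjm : m < j
    · rw [coeff_eq_zero_of_natDegree_lt (by rw [hDdeg]; exact hjm), eval_zero, C_0]
    have hz : D.coeff j - C ((D.coeff j).eval z0) = 0 := by
      refine eq_zero_of_natDegree_lt_card_of_eval_eq_zero' _
        (D.map (evalRingHom z0)).roots.toFinset (fun z1 hz1 => ?_) ?_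
      · rw [Multiset.mem_toFinset, hmem z0 hz0c] at hz1
        have h := congrArg (fun P => coeff P j) (hsame z1 hz1.1 hz1.2)
        simp only [coeff_map, coe_evalRingHom] at h
        rw [eval_sub, eval_C, h, sub_self]
      · rw [Multiset.toFinset_card_of_nodup (hnodup z0 hz0s),
          ← (IsAlgClosed.splits (D.map (evalRingHom z0))).natDegree_eq_card_roots, hdeg, hDdeg]
        have h1 := natDegree_sub_le (D.coeff j) (C ((D.coeff j).eval z0))
        rw [natDegree_C] at h1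
        have h2 := hcoeff j
        omega
    exact sub_eq_zero.1 hz
  set u : ℂ[X] := D.map (evalRingHom z0) with hu
  have hform : ∀ z : ℂ, D.map (evalRingHom z) =
      u + C ((D.coeff 0).eval z - (D.coeff 0).eval z0) := by
    intro z
    ext j
    rw [coeff_add, hu, coeff_map, coeff_map, coe_evalRingHom, coe_evalRingHom, coeff_C]
    by_cases hj : j = 0
    · rw [if_pos hj, hj]
      ring
    · rw [if_neg hj, add_zero, hconst j (by omega), eval_C, eval_C]
  have hfin : ∀ z : ℂ, Rc ≤ ‖z‖ → ∀ y : ℂ, u.eval y = u.eval z ↔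
      f.eval y = f.eval z ∧ g.eval y = g.eval z := by
    intro z hz y
    have h1 := (hroot z hz z).2 ⟨rfl, rfl⟩
    rw [← hroot z hz y]
    rw [hform z, eval_add, eval_C] at h1 ⊢
    constructor
    · intro h
      rw [h]
      exact h1
    · intro h
      have h2 := h.trans h1.symm
      exact add_right_cancel h2
  have hudeg : u.natDegree = m := by rw [hu, hdeg, hDdeg]
  obtain ⟨p, hp⟩ := inv_comp (F := f) (h := u) (by omega) Rc
    (fun z hz y hy => ((hfin z hz y).1 hy).1)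
  obtain ⟨q, hq⟩ := inv_comp (F := g) (h := u) (by omega) Rc
    (fun z hz y hy => ((hfin z hz y).1 hy).2)
  exact ⟨u, p, q, hudeg, hp, hq, Rc, fun z hz y h1 h2 => (hfin z hz y).2 ⟨h1, h2⟩⟩

end H12IT
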