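import Pool.Agent.H12.IT.Pri

set_option autoImplicit false

/-! PROJECT IT, module Prc: the checker is primitive recursive. -/

namespace H12IT

open Ar

instance primQ3 : Primcodable Q3 := Primcodable.prod
instance primG2 : Primcodable G2 := Primcodable.prod
instance primNum : Primcodable Num := Primcodable.prod
instance primC1 : Primcodable (List Q3 × List G2 × Q3 × Q3) := Primcodable.prod
instance primC2 : Primcodable (List (List Q3) × List Q3 × List (List Q3)) := Primcodable.prod
instance primC3 : Primcodable (List (List (List (List Q3))) × List (List (List Q3))) :=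
  Primcodable.prod
instance primC4 : Primcodable (ℕ × List (List ℕ) × List (List ℕ) × List SP) :=
  Primcodable.prod
instance primCert : Primcodable Cert := Primcodable.prod

section prc1

variable {α β : Type} [Primcodable α] [Primcodable β]

theorem prc_getD {f : α → List β} {g : α → ℕ} (d : β) (hf : Primrec f) (hg : Primrec g) :
    Primrec fun a => (f a).getD (g a) d := (Primrec.list_getD d).comp hf hg

theorem prc_all_mem {l : α → List β} {R : α → β → Prop} (hl : Primrec l)
    (hR : PrimrecPred fun y : α × β => R y.1 y.2) : PrimrecPred fun a => ∀ b ∈ l a, R a b := by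
  have h : PrimrecRel fun (b : β) (a : α) => R a b := hR.comp (Primrec.snd.pair Primrec.fst)
  have h2 : PrimrecRel fun (L : List β) (a : α) => ∀ x ∈ L, R a x :=
    PrimrecRel.forall_mem_list (R := fun (i : β) (a : α) => R a i) h
  exact PrimrecRel.comp (R := fun (L : List β) (a : α) => ∀ x ∈ L, R a x) h2 hl Primrec.id

theorem prc_all_lt {n : α → ℕ} {R : α → ℕ → Prop} (hn : Primrec n)
    (hR : PrimrecPred fun y : α × ℕ => R y.1 y.2) : PrimrecPred fun a => ∀ i < n a, R a i :=
  (prc_all_mem (Primrec.list_range.comp hn) hR).of_eq fun a => by simp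

theorem prc_add {f g : α → ℕ} (hf : Primrec f) (hg : Primrec g) :
    Primrec fun a => f a + g a := Primrec.nat_add.comp hf hg

theorem prc_mul {f g : α → ℕ} (hf : Primrec f) (hg : Primrec g) :
    Primrec fun a => f a * g a := Primrec.nat_mul.comp hf hg

theorem prc_pow {f g : α → ℕ} (hf : Primrec f) (hg : Primrec g) :
    Primrec fun a => f a ^ g a := (Primrec₂.unpaired'.1 Nat.Primrec.pow).comp hf hg

theorem prc_subn {f g : α → ℕ} (hf : Primrec f) (hg : Primrec g) :
    Primrec fun a => f a - g a := Primrec.nat_sub.comp hf hg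

theorem prc_lt {f g : α → ℕ} (hf : Primrec f) (hg : Primrec g) :
    PrimrecPred fun a => f a < g a := Primrec.nat_lt.comp hf hg

theorem prc_le {f g : α → ℕ} (hf : Primrec f) (hg : Primrec g) :
    PrimrecPred fun a => f a ≤ g a := Primrec.nat_le.comp hf hg

theorem prc_eq {f g : α → β} (hf : Primrec f) (hg : Primrec g) :
    PrimrecPred fun a => f a = g a := Primrec.eq.comp hf hg

theorem prc_len {f : α → List β} (hf : Primrec f) : Primrec fun a => (f a).length :=
  Primrec.list_length.comp hf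

theorem prc_c1 {f : α → Q3} (hf : Primrec f) : Primrec fun a => (f a).1 := Primrec.fst.comp hf
theorem prc_c2 {f : α → Q3} (hf : Primrec f) : Primrec fun a => (f a).2.1 :=
  Primrec.fst.comp (Primrec.snd.comp hf)
theorem prc_c3 {f : α → Q3} (hf : Primrec f) : Primrec fun a => (f a).2.2 :=
  Primrec.snd.comp (Primrec.snd.comp hf)

theorem prc_mk3 {f g h : α → ℕ} (hf : Primrec f) (hg : Primrec g) (hh : Primrec h) :
    Primrec fun a => ((f a, g a, h a) : Q3) := hf.pair (hg.pair hh)

theorem prc_n3 {f : α → ℕ} (hf : Primrec f) : Primrec fun a => n3 (f a) :=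
  prc_mk3 hf (Primrec.const 0) (Primrec.const 0)

theorem prc_add3 {f g : α → Q3} (hf : Primrec f) (hg : Primrec g) :
    Primrec fun a => add3 (f a) (g a) := by
  have f1 := prc_c1 hf
  have f2 := prc_c2 hf
  have f3 := prc_c3 hf
  have g1 := prc_c1 hg
  have g2 := prc_c2 hg
  have g3 := prc_c3 hg
  have c1 : Primrec fun _ : α => 1 := Primrec.const 1
  exact prc_mk3 (prc_add (prc_mul f1 (prc_add g3 c1)) (prc_mul g1 (prc_add f3 c1)))
    (prc_add (prc_mul f2 (prc_add g3 c1)) (prc_mul g2 (prc_add f3 c1)))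
    (prc_add (prc_add (prc_mul f3 g3) f3) g3)

theorem prc_mul3 {f g : α → Q3} (hf : Primrec f) (hg : Primrec g) :
    Primrec fun a => mul3 (f a) (g a) := by
  have f1 := prc_c1 hf
  have f2 := prc_c2 hf
  have f3 := prc_c3 hf
  have g1 := prc_c1 hg
  have g2 := prc_c2 hg
  have g3 := prc_c3 hg
  exact prc_mk3 (prc_add (prc_mul f1 g1) (prc_mul f2 g2))
    (prc_add (prc_mul f1 g2) (prc_mul f2 g1))
    (prc_add (prc_add (prc_mul f3 g3) f3) g3)

theorem prc_neg3 {f : α → Q3} (hf : Primrec f) : Primrec fun a => neg3 (f a) :=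
  prc_mk3 (prc_c2 hf) (prc_c1 hf) (prc_c3 hf)

theorem prc_abs3 {f : α → Q3} (hf : Primrec f) : Primrec fun a => abs3 (f a) :=
  prc_mk3 (prc_add (prc_subn (prc_c1 hf) (prc_c2 hf)) (prc_subn (prc_c2 hf) (prc_c1 hf)))
    (Primrec.const 0) (prc_c3 hf)

theorem prc_lt3 {f g : α → Q3} (hf : Primrec f) (hg : Primrec g) :
    PrimrecPred fun a => lt3 (f a) (g a) := by
  have f1 := prc_c1 hf
  have f2 := prc_c2 hf
  have f3 := prc_c3 hf
  have g1 := prc_c1 hg
  have g2 := prc_c2 hg
  have g3 := prc_c3 hg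
  have c1 : Primrec fun _ : α => 1 := Primrec.const 1
  exact prc_lt (prc_add (prc_mul f1 (prc_add g3 c1)) (prc_mul g2 (prc_add f3 c1)))
    (prc_add (prc_mul g1 (prc_add f3 c1)) (prc_mul f2 (prc_add g3 c1)))

theorem prc_pow3 {f : α → Q3} {n : α → ℕ} (hf : Primrec f) (hn : Primrec n) :
    Primrec fun a => pow3 (f a) (n a) := by
  have h : Primrec₂ fun (a : α) (p : ℕ × Q3) => mul3 (f a) p.2 :=
    prc_mul3 (hf.comp Primrec.fst) (Primrec.snd.comp Primrec.snd)
  exact (Primrec.nat_rec' hn (Primrec.const o3) h)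

theorem prc_fst {f : α → G2} (hf : Primrec f) : Primrec fun a => (f a).1 := Primrec.fst.comp hf
theorem prc_snd {f : α → G2} (hf : Primrec f) : Primrec fun a => (f a).2 := Primrec.snd.comp hf

theorem prc_nsq {f : α → G2} (hf : Primrec f) : Primrec fun a => nsq (f a) :=
  prc_add3 (prc_mul3 (prc_fst hf) (prc_fst hf)) (prc_mul3 (prc_snd hf) (prc_snd hf))

theorem prc_subG {f g : α → G2} (hf : Primrec f) (hg : Primrec g) :
    Primrec fun a => subG (f a) (g a) :=
  Primrec.pair (prc_add3 (prc_fst hf) (prc_neg3 (prc_fst hg)))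
    (prc_add3 (prc_snd hf) (prc_neg3 (prc_snd hg)))

theorem prc_app {f g : α → List β} (hf : Primrec f) (hg : Primrec g) :
    Primrec fun a => f a ++ g a := Primrec.list_append.comp hf hg

end prc1

theorem bnd_prim : Primrec₂ bnd := by
  have h : Primrec₂ fun (p : List Q3 × Q3) (q : Q3 × (Q3 × Q3)) =>
      (add3 (abs3 q.1) (mul3 p.2 q.2.1), add3 q.2.1 (mul3 p.2 q.2.2)) := by
    have a1 : Primrec fun x : (List Q3 × Q3) × (Q3 × (Q3 × Q3)) => x.1.2 :=
      Primrec.snd.comp Primrec.fst
    have a2 : Primrec fun x : (List Q3 × Q3) × (Q3 × (Q3 × Q3)) => x.2.1 :=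
      Primrec.fst.comp Primrec.snd
    have a3 : Primrec fun x : (List Q3 × Q3) × (Q3 × (Q3 × Q3)) => x.2.2.1 :=
      Primrec.fst.comp (Primrec.snd.comp Primrec.snd)
    have a4 : Primrec fun x : (List Q3 × Q3) × (Q3 × (Q3 × Q3)) => x.2.2.2 :=
      Primrec.snd.comp (Primrec.snd.comp Primrec.snd)
    exact Primrec.pair (prc_add3 (prc_abs3 a2) (prc_mul3 a1 a3)) (prc_add3 a3 (prc_mul3 a1 a4))
  exact Primrec.list_foldr Primrec.fst (Primrec.const (z3, z3)) h

section prc2

variable {α : Type} [Primcodable α]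

theorem prc_bnd {f : α → List Q3} {g : α → Q3} (hf : Primrec f) (hg : Primrec g) :
    Primrec fun a => bnd (f a) (g a) := bnd_prim.comp hf hg

theorem prc_hG {f : α → List Q3} {g : α → G2} (hf : Primrec f) (hg : Primrec g) :
    Primrec fun a => horQ (f a) (g a) := (horQ_prim (A := G2)).comp hf hg

theorem prc_hS {f : α → List Q3} {g : α → SP} (hf : Primrec f) (hg : Primrec g) :
    Primrec fun a => horQ (f a) (g a) := (horQ_prim (A := SP)).comp hf hg

theorem prc_sS {f g : α → SP} (hf : Primrec f) (hg : Primrec g) :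
    Primrec fun a => sub (f a) (g a) := (sub_prim (A := SP)).comp hf hg

theorem prc_mS {f g : α → SP} (hf : Primrec f) (hg : Primrec g) :
    Primrec fun a => mul (f a) (g a) := (PrA.mul (A := SP)).comp hf hg

theorem prc_vS {f : α → ℕ} (hf : Primrec f) : Primrec fun a => var (f a) := var_prim.comp hf

theorem prc_iso {ml : α → List Q3} {pts : α → List G2} {ep : α → Q3} (h1 : Primrec ml)
    (h2 : Primrec pts) (h3 : Primrec ep) :
    PrimrecPred fun a => ChkIso (ml a) (pts a) (ep a) := by
  have c1 : PrimrecPred fun a => 1 ≤ (ml a).length := prc_le (Primrec.const 1) (prc_len h1)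
  have c2 : PrimrecPred fun a => (pts a).length = (ml a).length :=
    prc_eq (prc_len h2) (prc_len h1)
  have c3 : PrimrecPred fun a => lt3 z3 (ep a) := prc_lt3 (Primrec.const z3) h3
  have c4 : PrimrecPred fun a => ∀ q ∈ pts a,
      ¬ lt3 (pow3 (ep a) (2 * (ml a).length)) (nsq (horQ (ml a ++ [o3]) q)) := by
    refine prc_all_mem h2 (PrimrecPred.not (prc_lt3 (prc_pow3 (h3.comp Primrec.fst)
      (prc_mul (Primrec.const 2) (prc_len (h1.comp Primrec.fst)))) ?_))
    exact prc_nsq (prc_hG (prc_app (h1.comp Primrec.fst) (Primrec.const [o3])) Primrec.snd)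
  have c5 : PrimrecPred fun a => ∀ i < (pts a).length, ∀ j < i,
      lt3 (mul3 (n3 16) (mul3 (ep a) (ep a)))
        (nsq (subG ((pts a).getD i (z3, z3)) ((pts a).getD j (z3, z3)))) := by
    refine prc_all_lt (prc_len h2) (prc_all_lt Primrec.snd (prc_lt3 ?_ (prc_nsq (prc_subG ?_ ?_))))
    · exact prc_mul3 (Primrec.const (n3 16)) (prc_mul3 (h3.comp (Primrec.fst.comp Primrec.fst))
        (h3.comp (Primrec.fst.comp Primrec.fst)))
    · exact prc_getD _ (h2.comp (Primrec.fst.comp Primrec.fst)) (Primrec.snd.comp Primrec.fst)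
    · exact prc_getD _ (h2.comp (Primrec.fst.comp Primrec.fst)) Primrec.snd
  exact c1.and (c2.and (c3.and (c4.and c5)))

end prc2

theorem chkIso_prim : PrimrecPred (fun y : List Q3 × List G2 × Q3 =>
    ChkIso y.1 y.2.1 y.2.2) :=
  prc_iso Primrec.fst (Primrec.fst.comp Primrec.snd) (Primrec.snd.comp Primrec.snd)


section prc3

variable {α : Type} [Primcodable α]

theorem prc_fact {d : α → ℕ} (h : Primrec d) : Primrec fun a => (d a).factorial := by
  have h1 : Primrec Nat.factorial := by
    have h2 : Primrec₂ fun (n : ℕ) (p : ℕ × ℕ) => (p.1 + 1) * p.2 :=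
      prc_mul (prc_add (Primrec.fst.comp Primrec.snd) (Primrec.const 1))
        (Primrec.snd.comp Primrec.snd)
    refine (Primrec.nat_rec' Primrec.id (Primrec.const 1) h2).of_eq fun n => ?_
    induction n with
    | zero => rfl
    | succ n ih => simp only [id] at ih ⊢; rw [Nat.factorial_succ, ← ih]
  exact h1.comp h

theorem prc_NN {d : α → ℕ} (h : Primrec d) : Primrec fun a => NN (d a) :=
  prc_fact (prc_add h (Primrec.const 1))

theorem prc_K2 {d : α → ℕ} (h : Primrec d) : Primrec fun a => K2 (d a) :=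
  prc_mul (Primrec.const 4) (prc_pow h (prc_add (prc_mul (Primrec.const 3) h) (Primrec.const 1)))

theorem prc_KK {d : α → ℕ} (h : Primrec d) : Primrec fun a => KK (d a) :=
  prc_mul h (prc_K2 h)

theorem prc_DD {d : α → ℕ} (h : Primrec d) : Primrec fun a => DD (d a) :=
  prc_pow h (prc_NN h)

theorem prc_TT {d : α → ℕ} (h : Primrec d) : Primrec fun a => TT (d a) :=
  prc_add (prc_mul (prc_KK h) (prc_DD h)) (Primrec.const 1)

theorem prc_cons {β : Type} [Primcodable β] {f : α → β} {g : α → List β} (hf : Primrec f)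
    (hg : Primrec g) : Primrec fun a => f a :: g a := Primrec.list_cons.comp hf hg

theorem prc_lens {d : α → ℕ} (h : Primrec d) : Primrec fun a => lens (d a) :=
  prc_cons (prc_subn h (Primrec.const 1)) (prc_cons (prc_add (prc_DD h) (Primrec.const 1))
    (prc_cons (prc_add (prc_KK h) (Primrec.const 1))
      (prc_cons (prc_add (prc_KK h) (Primrec.const 1))
        (prc_cons (prc_KK h) (prc_cons (prc_KK h) (Primrec.const []))))))

theorem prc_in {d : α → ℕ} {L : α → List Num} {ml : α → List Q3} {q0 : α → G2}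
    {ep rho : α → Q3} {as : α → List (List Q3)} {us : α → List Q3} {hs : α → List (List Q3)}
    {g0 : α → ℕ} (h1 : Primrec d) (h2 : Primrec L) (h3 : Primrec ml) (h4 : Primrec q0)
    (h5 : Primrec ep) (h6 : Primrec rho) (h7 : Primrec as) (h8 : Primrec us)
    (h9 : Primrec hs) (h10 : Primrec g0) :
    PrimrecPred fun a => ChkIn (d a) (L a) (ml a) (q0 a) (ep a) (rho a) (as a) (us a) (hs a)
      (g0 a) := by
  have hL : Primrec fun y : α × ℕ => (L y.1).getD y.2 (([], (z3, z3), z3), []) :=
    prc_getD _ (h2.comp Primrec.fst) Primrec.snd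
  have hA : Primrec fun y : α × ℕ => (as y.1).getD y.2 [] :=
    prc_getD _ (h7.comp Primrec.fst) Primrec.snd
  have hU : Primrec fun y : α × ℕ => (us y.1).getD y.2 z3 :=
    prc_getD _ (h8.comp Primrec.fst) Primrec.snd
  have hH : Primrec fun y : α × ℕ => (hs y.1).getD y.2 [] :=
    prc_getD _ (h9.comp Primrec.fst) Primrec.snd
  have hv : Primrec fun y : α × ℕ => var (g0 y.1) := prc_vS (h10.comp Primrec.fst)
  have hm : Primrec fun y : α × ℕ => ml y.1 ++ [o3] :=
    prc_app (h3.comp Primrec.fst) (Primrec.const [o3])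
  have hLa : Primrec fun y : α × ℕ => ((L y.1).getD y.2 (([], (z3, z3), z3), [])).1 :=
    Primrec.fst.comp hL
  have hL1 : Primrec fun y : α × ℕ => ((L y.1).getD y.2 (([], (z3, z3), z3), [])).1.1 :=
    Primrec.fst.comp hLa
  have hL2 : Primrec fun y : α × ℕ => ((L y.1).getD y.2 (([], (z3, z3), z3), [])).1.2.1 :=
    Primrec.fst.comp (Primrec.snd.comp hLa)
  have hL3 : Primrec fun y : α × ℕ => ((L y.1).getD y.2 (([], (z3, z3), z3), [])).1.2.2 :=
    Primrec.snd.comp (Primrec.snd.comp hLa)
  have c0 : PrimrecPred fun a => ¬ lt3 (rho a) (add3 (add3 (abs3 (q0 a).1) (abs3 (q0 a).2))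
      (ep a)) :=
    PrimrecPred.not (prc_lt3 h6 (prc_add3 (prc_add3 (prc_abs3 (prc_fst h4))
      (prc_abs3 (prc_snd h4))) h5))
  refine c0.and (prc_all_lt (prc_add h1 (Primrec.const 1)) ?_)
  have c1 : PrimrecPred fun y : α × ℕ =>
      ZT (sub (horQ ((L y.1).getD y.2 (([], (z3, z3), z3), [])).1.1
        (horQ ((as y.1).getD y.2 []) (var (g0 y.1))))
        (mul (horQ ((hs y.1).getD y.2 []) (var (g0 y.1))) (horQ (ml y.1 ++ [o3])
          (var (g0 y.1))))) :=
    ZT_prim.comp (prc_sS (prc_hS hL1 (prc_hS hA hv)) (prc_mS (prc_hS hH hv) (prc_hS hm hv)))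
  have c2 : PrimrecPred fun y : α × ℕ => ¬ lt3 ((us y.1).getD y.2 z3) z3 :=
    PrimrecPred.not (prc_lt3 hU (Primrec.const z3))
  have c3 : PrimrecPred fun y : α × ℕ =>
      ¬ lt3 (mul3 ((us y.1).getD y.2 z3) ((us y.1).getD y.2 z3))
        (nsq (subG (horQ ((as y.1).getD y.2 []) (q0 y.1))
        ((L y.1).getD y.2 (([], (z3, z3), z3), [])).1.2.1)) :=
    PrimrecPred.not (prc_lt3 (prc_mul3 hU hU) (prc_nsq (prc_subG
      (prc_hG hA (h4.comp Primrec.fst)) hL2)))
  have c4 : PrimrecPred fun y : α × ℕ =>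
      lt3 (add3 ((us y.1).getD y.2 z3) (mul3 (ep y.1) (bnd ((as y.1).getD y.2 []) (rho y.1)).2))
        ((L y.1).getD y.2 (([], (z3, z3), z3), [])).1.2.2 :=
    prc_lt3 (prc_add3 hU (prc_mul3 (h5.comp Primrec.fst)
      (Primrec.snd.comp (prc_bnd hA (h6.comp Primrec.fst))))) hL3
  exact c1.and (c2.and (c3.and c4))


theorem prc_PL {d : α → ℕ} {cs as : α → List (List Q3)} {t : α → SP} (h1 : Primrec d)
    (h2 : Primrec cs) (h3 : Primrec as) (h4 : Primrec t) :
    Primrec fun a => PL (d a) (cs a) (as a) (t a) := by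
  have h5 := h1.pair (h2.pair (h3.pair h4))
  have h6 := Primrec.comp (PL_prim (A := SP)) h5
  exact h6

theorem prc_evB {S : α → List (List (List Q3))} {t : α → SP} (h1 : Primrec S)
    (h2 : Primrec t) : Primrec fun a => evB (S a) (t a) :=
  (evB_prim (A := SP)).comp h1 h2

theorem prc_sysE {d : α → ℕ} {P : α → List SP} {B : α → List (List SP)} (h1 : Primrec d)
    (h2 : Primrec P) (h3 : Primrec B) : Primrec fun a => sysE (d a) (P a) (B a) := by
  have h4 := h1.pair (h2.pair h3)
  have h5 := Primrec.comp (sysE_prim (A := SP)) h4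
  exact h5

theorem prc_sol {d : α → ℕ} {cs as : α → List (List Q3)} {ml : α → List Q3}
    {S : α → List (List (List (List Q3)))} {shs : α → List (List (List Q3))} {g0 : α → ℕ}
    (h1 : Primrec d) (h2 : Primrec cs) (h3 : Primrec as) (h4 : Primrec ml) (h5 : Primrec S)
    (h6 : Primrec shs) (h7 : Primrec g0) :
    PrimrecPred fun a => ChkSol (d a) (cs a) (as a) (ml a) (S a) (shs a) (g0 a) := by
  refine prc_all_lt (prc_len h5) ?_
  have hS : Primrec fun y : α × ℕ => (S y.1).getD y.2 [] :=
    prc_getD _ (h5.comp Primrec.fst) Primrec.snd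
  have hT : Primrec fun y : α × ℕ => (shs y.1).getD y.2 [] :=
    prc_getD _ (h6.comp Primrec.fst) Primrec.snd
  have c1 : PrimrecPred fun y : α × ℕ =>
      ((S y.1).getD y.2 []).map List.length = lens (d y.1) :=
    prc_eq (Primrec.list_map hS (Primrec.list_length.comp Primrec.snd))
      (prc_lens (h1.comp Primrec.fst))
  refine c1.and (prc_all_lt (prc_add (prc_mul (Primrec.const 2)
    (prc_TT (h1.comp Primrec.fst))) (Primrec.const 2)) (ZT_prim.comp (prc_sS ?_ (prc_mS ?_ ?_))))
  · have hF : Primrec fun y : (α × ℕ) × ℕ => y.1.1 := Primrec.fst.comp Primrec.fst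
    exact prc_getD _ (prc_sysE (h1.comp hF) (prc_PL (h1.comp hF) (h2.comp hF) (h3.comp hF)
      (prc_vS (h7.comp hF))) (prc_evB (hS.comp Primrec.fst) (prc_vS (h7.comp hF)))) Primrec.snd
  · have hF : Primrec fun y : (α × ℕ) × ℕ => y.1.1 := Primrec.fst.comp Primrec.fst
    exact prc_hS (prc_getD _ (hT.comp Primrec.fst) Primrec.snd) (prc_vS (h7.comp hF))
  · have hF : Primrec fun y : (α × ℕ) × ℕ => y.1.1 := Primrec.fst.comp Primrec.fst
    exact prc_hS (prc_app (h4.comp hF) (Primrec.const [o3])) (prc_vS (h7.comp hF))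

theorem prc_dotS {n : α → ℕ} {v p : α → List SP} (h1 : Primrec n) (h2 : Primrec v)
    (h3 : Primrec p) : Primrec fun a => dot (n a) (v a) (p a) := by
  have h4 := h1.pair (h2.pair h3)
  have h5 := Primrec.comp (dot_prim (A := SP)) h4
  exact h5

theorem prc_allE {d : α → ℕ} {cs as : α → List (List Q3)} {M : α → List Q3}
    {S : α → List (List (List (List Q3)))} {t : α → SP} {B Y : α → List (List SP)}
    (h1 : Primrec d) (h2 : Primrec cs) (h3 : Primrec as) (h4 : Primrec M) (h5 : Primrec S)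
    (h6 : Primrec t) (h7 : Primrec B) (h8 : Primrec Y) :
    Primrec fun a => allE (d a) (cs a) (as a) (M a) (S a) (t a) (B a) (Y a) := by
  have h9 := h1.pair (h2.pair (h3.pair (h4.pair (h5.pair (h6.pair (h7.pair h8))))))
  have h10 := Primrec.comp (allE_prim (A := SP)) h9
  exact h10

theorem prc_dvd {f g : α → ℕ} (hf : Primrec f) (hg : Primrec g) :
    PrimrecPred fun a => g a % f a = 0 :=
  prc_eq (Primrec.nat_mod.comp hg hf) (Primrec.const 0)

theorem prc_prime {f : α → ℕ} (hf : Primrec f) : PrimrecPred fun a => (f a).Prime := by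
  have h : PrimrecPred fun a => 2 ≤ f a ∧ ∀ m < f a, 2 ≤ m → ¬ f a % m = 0 := by
    refine (prc_le (Primrec.const 2) hf).and (prc_all_lt hf ?_)
    have h1 : PrimrecPred fun y : α × ℕ => ¬ 2 ≤ y.2 ∨ ¬ f y.1 % y.2 = 0 :=
      (PrimrecPred.not (prc_le (Primrec.const 2) Primrec.snd)).or
        (PrimrecPred.not (prc_dvd Primrec.snd (hf.comp Primrec.fst)))
    exact h1.of_eq fun y => by tauto
  refine h.of_eq fun a => ?_
  rw [Nat.prime_def_lt']
  refine and_congr_right fun _ => ?_
  constructor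
  · intro h m hm hm' hd
    exact h m hm' hm (Nat.mod_eq_zero_of_dvd hd)
  · intro h m hm hm' hd
    exact h m hm' hm (Nat.dvd_of_mod_eq_zero hd)

theorem prc_nodup {f : α → List ℕ} (hf : Primrec f) : PrimrecPred fun a => (f a).Nodup := by
  have h : PrimrecPred fun a => ∀ i < (f a).length, ∀ j < i, ¬ (f a).getD i 0 = (f a).getD j 0 := by
    refine prc_all_lt (prc_len hf) (prc_all_lt Primrec.snd (PrimrecPred.not (prc_eq ?_ ?_)))
    · exact prc_getD _ (hf.comp (Primrec.fst.comp Primrec.fst)) (Primrec.snd.comp Primrec.fst)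
    · exact prc_getD _ (hf.comp (Primrec.fst.comp Primrec.fst)) Primrec.snd
  refine h.of_eq fun a => ?_
  rw [List.nodup_iff_pairwise_ne, List.pairwise_iff_getElem]
  constructor
  · intro h i j hi hj hij he
    have := h j hj i hij
    rw [List.getD_eq_getElem _ _ hi, List.getD_eq_getElem _ _ hj] at this
    exact this he.symm
  · intro h i hi j hj he
    rw [List.getD_eq_getElem _ _ hi, List.getD_eq_getElem _ _ (hj.trans hi)] at he
    exact h j i (hj.trans hi) hi hj he.symm

theorem prc_nul {d : α → ℕ} {cs as : α → List (List Q3)} {ml : α → List Q3}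
    {S : α → List (List (List (List Q3)))} {g0 : α → ℕ} {vb ys : α → List (List ℕ)}
    {G : α → List SP} (h1 : Primrec d) (h2 : Primrec cs) (h3 : Primrec as) (h4 : Primrec ml)
    (h5 : Primrec S) (h6 : Primrec g0) (h7 : Primrec vb) (h8 : Primrec ys) (h9 : Primrec G) :
    PrimrecPred fun a => ChkNul (d a) (cs a) (as a) (ml a) (S a) (g0 a) (vb a) (ys a) (G a) := by
  have hW : Primrec fun a => g0 a :: ((vb a).flatten ++ (ys a).flatten) :=
    prc_cons h6 (prc_app (Primrec.list_flatten.comp h7) (Primrec.list_flatten.comp h8))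
  have hM : ∀ {f : α → List (List ℕ)}, Primrec f →
      Primrec fun a => (f a).map (fun b => b.map var) := by
    intro f hf
    refine Primrec.list_map hf ?_
    exact Primrec.list_map (Primrec.snd) (var_prim.comp Primrec.snd)
  have c1 : PrimrecPred fun a => (vb a).map List.length = lens (d a) :=
    prc_eq (Primrec.list_map h7 (Primrec.list_length.comp Primrec.snd)) (prc_lens h1)
  have c2 : PrimrecPred fun a => (ys a).length = (S a).length := prc_eq (prc_len h8) (prc_len h5)
  have c3 : PrimrecPred fun a => ∀ y ∈ ys a, y.length = d a - 1 :=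
    prc_all_mem h8 (prc_eq (prc_len Primrec.snd) (prc_subn (h1.comp Primrec.fst)
      (Primrec.const 1)))
  have c4 : PrimrecPred fun a => ∀ p ∈ g0 a :: ((vb a).flatten ++ (ys a).flatten), p.Prime :=
    prc_all_mem hW (prc_prime Primrec.snd)
  have c5 : PrimrecPred fun a => (g0 a :: ((vb a).flatten ++ (ys a).flatten)).Nodup :=
    prc_nodup hW
  have hv : Primrec fun a => var (g0 a) := prc_vS h6
  have c6 : PrimrecPred fun a => ZT (sub (dot (2 * TT (d a) + 3 + (S a).length) (G a)
      (allE (d a) (cs a) (as a) (ml a ++ [o3]) (S a) (var (g0 a))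
      ((vb a).map (fun b => b.map var)) ((ys a).map (fun b => b.map var)))) one) := by
    refine ZT_prim.comp (prc_sS (prc_dotS ?_ h9 (prc_allE h1 h2 h3 (prc_app h4
      (Primrec.const [o3])) h5 hv (hM h7) (hM h8))) (Primrec.const one))
    exact prc_add (prc_add (prc_mul (Primrec.const 2) (prc_TT h1)) (Primrec.const 3)) (prc_len h5)
  exact c1.and (c2.and (c3.and (c4.and (c5.and c6))))

end prc3

theorem chkIn_prim : PrimrecPred (fun y : ℕ × List Num × List Q3 × G2 × Q3 × Q3 ×
    List (List Q3) × List Q3 × List (List Q3) × ℕ =>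
    ChkIn y.1 y.2.1 y.2.2.1 y.2.2.2.1 y.2.2.2.2.1 y.2.2.2.2.2.1 y.2.2.2.2.2.2.1
      y.2.2.2.2.2.2.2.1 y.2.2.2.2.2.2.2.2.1 y.2.2.2.2.2.2.2.2.2) := by
  exact prc_in Primrec.fst (Primrec.fst.comp Primrec.snd)
    (Primrec.fst.comp (Primrec.snd.comp Primrec.snd))
    (Primrec.fst.comp (Primrec.snd.comp (Primrec.snd.comp Primrec.snd)))
    (Primrec.fst.comp (Primrec.snd.comp (Primrec.snd.comp (Primrec.snd.comp Primrec.snd))))
    (Primrec.fst.comp (Primrec.snd.comp (Primrec.snd.comp (Primrec.snd.comp (Primrec.snd.comp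
      Primrec.snd)))))
    (Primrec.fst.comp (Primrec.snd.comp (Primrec.snd.comp (Primrec.snd.comp (Primrec.snd.comp
      (Primrec.snd.comp Primrec.snd))))))
    (Primrec.fst.comp (Primrec.snd.comp (Primrec.snd.comp (Primrec.snd.comp (Primrec.snd.comp
      (Primrec.snd.comp (Primrec.snd.comp Primrec.snd)))))))
    (Primrec.fst.comp (Primrec.snd.comp (Primrec.snd.comp (Primrec.snd.comp (Primrec.snd.comp
      (Primrec.snd.comp (Primrec.snd.comp (Primrec.snd.comp Primrec.snd))))))))
    (Primrec.snd.comp (Primrec.snd.comp (Primrec.snd.comp (Primrec.snd.comp (Primrec.snd.comp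
      (Primrec.snd.comp (Primrec.snd.comp (Primrec.snd.comp Primrec.snd))))))))

theorem chkSol_prim : PrimrecPred (fun y : ℕ × List (List Q3) × List (List Q3) × List Q3 ×
    List (List (List (List Q3))) × List (List (List Q3)) × ℕ =>
    ChkSol y.1 y.2.1 y.2.2.1 y.2.2.2.1 y.2.2.2.2.1 y.2.2.2.2.2.1 y.2.2.2.2.2.2) := by
  exact prc_sol Primrec.fst (Primrec.fst.comp Primrec.snd)
    (Primrec.fst.comp (Primrec.snd.comp Primrec.snd))
    (Primrec.fst.comp (Primrec.snd.comp (Primrec.snd.comp Primrec.snd)))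
    (Primrec.fst.comp (Primrec.snd.comp (Primrec.snd.comp (Primrec.snd.comp Primrec.snd))))
    (Primrec.fst.comp (Primrec.snd.comp (Primrec.snd.comp (Primrec.snd.comp (Primrec.snd.comp
      Primrec.snd)))))
    (Primrec.snd.comp (Primrec.snd.comp (Primrec.snd.comp (Primrec.snd.comp (Primrec.snd.comp
      Primrec.snd)))))

theorem chkNul_prim : PrimrecPred (fun y : ℕ × List (List Q3) × List (List Q3) × List Q3 ×
    List (List (List (List Q3))) × ℕ × List (List ℕ) × List (List ℕ) × List SP =>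
    ChkNul y.1 y.2.1 y.2.2.1 y.2.2.2.1 y.2.2.2.2.1 y.2.2.2.2.2.1 y.2.2.2.2.2.2.1
      y.2.2.2.2.2.2.2.1 y.2.2.2.2.2.2.2.2) := by
  exact prc_nul Primrec.fst (Primrec.fst.comp Primrec.snd)
    (Primrec.fst.comp (Primrec.snd.comp Primrec.snd))
    (Primrec.fst.comp (Primrec.snd.comp (Primrec.snd.comp Primrec.snd)))
    (Primrec.fst.comp (Primrec.snd.comp (Primrec.snd.comp (Primrec.snd.comp Primrec.snd))))
    (Primrec.fst.comp (Primrec.snd.comp (Primrec.snd.comp (Primrec.snd.comp (Primrec.snd.comp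
      Primrec.snd)))))
    (Primrec.fst.comp (Primrec.snd.comp (Primrec.snd.comp (Primrec.snd.comp (Primrec.snd.comp
      (Primrec.snd.comp Primrec.snd))))))
    (Primrec.fst.comp (Primrec.snd.comp (Primrec.snd.comp (Primrec.snd.comp (Primrec.snd.comp
      (Primrec.snd.comp (Primrec.snd.comp Primrec.snd)))))))
    (Primrec.snd.comp (Primrec.snd.comp (Primrec.snd.comp (Primrec.snd.comp (Primrec.snd.comp
      (Primrec.snd.comp (Primrec.snd.comp Primrec.snd)))))))

section prc4

variable {α : Type} [Primcodable α]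

theorem prc_chk {x : α → ℕ × List Num} {c : α → Cert} (hx : Primrec x) (hc : Primrec c) :
    PrimrecPred fun a => Chk (x a) (c a) := by
  have x1 : Primrec fun a => (x a).1 := Primrec.fst.comp hx
  have x2 : Primrec fun a => (x a).2 := Primrec.snd.comp hx
  have x3 : Primrec fun a => (x a).2.map Prod.snd :=
    Primrec.list_map x2 (Primrec.snd.comp Primrec.snd)
  have c1 : Primrec fun a => (c a).1 := Primrec.fst.comp hc
  have c2' : Primrec fun a => (c a).2 := Primrec.snd.comp hc
  have c2 : Primrec fun a => (c a).2.1 := Primrec.fst.comp c2'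
  have c3' : Primrec fun a => (c a).2.2 := Primrec.snd.comp c2'
  have c3 : Primrec fun a => (c a).2.2.1 := Primrec.fst.comp c3'
  have c4 : Primrec fun a => (c a).2.2.2 := Primrec.snd.comp c3'
  have c11 : Primrec fun a => (c a).1.1 := Primrec.fst.comp c1
  have c1b : Primrec fun a => (c a).1.2 := Primrec.snd.comp c1
  have c12 : Primrec fun a => (c a).1.2.1 := Primrec.fst.comp c1b
  have c1c : Primrec fun a => (c a).1.2.2 := Primrec.snd.comp c1b
  have c13 : Primrec fun a => (c a).1.2.2.1 := Primrec.fst.comp c1c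
  have c14 : Primrec fun a => (c a).1.2.2.2 := Primrec.snd.comp c1c
  have c21 : Primrec fun a => (c a).2.1.1 := Primrec.fst.comp c2
  have c2b : Primrec fun a => (c a).2.1.2 := Primrec.snd.comp c2
  have c22 : Primrec fun a => (c a).2.1.2.1 := Primrec.fst.comp c2b
  have c23 : Primrec fun a => (c a).2.1.2.2 := Primrec.snd.comp c2b
  have c31 : Primrec fun a => (c a).2.2.1.1 := Primrec.fst.comp c3
  have c32 : Primrec fun a => (c a).2.2.1.2 := Primrec.snd.comp c3
  have c41 : Primrec fun a => (c a).2.2.2.1 := Primrec.fst.comp c4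
  have c4b : Primrec fun a => (c a).2.2.2.2 := Primrec.snd.comp c4
  have c42 : Primrec fun a => (c a).2.2.2.2.1 := Primrec.fst.comp c4b
  have c4c : Primrec fun a => (c a).2.2.2.2.2 := Primrec.snd.comp c4b
  have c43 : Primrec fun a => (c a).2.2.2.2.2.1 := Primrec.fst.comp c4c
  have c44 : Primrec fun a => (c a).2.2.2.2.2.2 := Primrec.snd.comp c4c
  have q1 := prc_iso c11 c12 c13
  have q2 := prc_in x1 x2 c11 (prc_getD (z3, z3) c12 (Primrec.const 0)) c13 c14 c21 c22 c23 c41
  have q3 := prc_sol x1 x3 c21 c11 c31 c32 c41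
  have q4 := prc_nul x1 x3 c21 c11 c31 c41 c42 c43 c44
  exact q1.and (q2.and (q3.and q4))

end prc4

theorem chk_prim : PrimrecPred (fun y : (ℕ × List Num) × Cert => Chk y.1 y.2) :=
  prc_chk Primrec.fst Primrec.snd

theorem outp_prim : Primrec₂ outp := by
  have hc : Primrec fun y : (ℕ × List Num) × Cert => y.2 := Primrec.snd
  have c1 : Primrec fun y : (ℕ × List Num) × Cert => y.2.1 := Primrec.fst.comp hc
  have c2' : Primrec fun y : (ℕ × List Num) × Cert => y.2.2 := Primrec.snd.comp hc
  have c3' : Primrec fun y : (ℕ × List Num) × Cert => y.2.2.2 := Primrec.snd.comp c2'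
  have c3 : Primrec fun y : (ℕ × List Num) × Cert => y.2.2.2.1 := Primrec.fst.comp c3'
  have c31 : Primrec fun y : (ℕ × List Num) × Cert => y.2.2.2.1.1 := Primrec.fst.comp c3
  have c11 : Primrec fun y : (ℕ × List Num) × Cert => y.2.1.1 := Primrec.fst.comp c1
  have c1b : Primrec fun y : (ℕ × List Num) × Cert => y.2.1.2 := Primrec.snd.comp c1
  have c12 : Primrec fun y : (ℕ × List Num) × Cert => y.2.1.2.1 := Primrec.fst.comp c1b
  have c1c : Primrec fun y : (ℕ × List Num) × Cert => y.2.1.2.2 := Primrec.snd.comp c1b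
  have c13 : Primrec fun y : (ℕ × List Num) × Cert => y.2.1.2.2.1 := Primrec.fst.comp c1c
  have hA : Primrec fun y : (ℕ × List Num) × Cert =>
      ((y.2.1.1 ++ [o3], y.2.1.2.1.getD 0 (z3, z3), mul3 (n3 2) y.2.1.2.2.1) : Alg) :=
    Primrec.pair (prc_app c11 (Primrec.const [o3])) (Primrec.pair
      (prc_getD (z3, z3) c12 (Primrec.const 0)) (prc_mul3 (Primrec.const (n3 2)) c13))
  have h : Primrec fun y : (ℕ × List Num) × Cert =>
      y.2.2.2.1.1.map (fun s => (s.getD 0 [] ++ [[], [o3]]).map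
        (fun l => ((y.2.1.1 ++ [o3], y.2.1.2.1.getD 0 (z3, z3), mul3 (n3 2) y.2.1.2.2.1), l))) := by
    refine Primrec.list_map c31 ?_
    refine Primrec.list_map (prc_app (prc_getD [] Primrec.snd (Primrec.const 0))
      (Primrec.const [[], [o3]])) ?_
    exact Primrec.pair (hA.comp (Primrec.fst.comp Primrec.fst)) Primrec.snd
  exact h

/-- the search -/
theorem search : ∃ f : ℕ × List Num →. List (List Num), Partrec f ∧
    ∀ x, (∃ c, Chk x c) → ∃ c, Chk x c ∧ outp x c ∈ f x := by
  classical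
  have hF : Primrec₂ fun (x : ℕ × List Num) (n : ℕ) =>
      (Encodable.decode n : Option Cert).bind
        (fun c => if Chk x c then some (outp x c) else none) := by
    refine Primrec.option_bind (Primrec.decode.comp Primrec.snd) ?_
    refine Primrec.ite (prc_chk (Primrec.fst.comp Primrec.fst) Primrec.snd) ?_
      (Primrec.const none)
    exact Primrec.option_some.comp (outp_prim.comp (Primrec.fst.comp Primrec.fst) Primrec.snd)
  refine ⟨_, Partrec.rfindOpt (Primrec₂.to_comp hF), fun x hx => ?_⟩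
  obtain ⟨c, hc⟩ := hx
  have hd : (Nat.rfindOpt fun n => (Encodable.decode n : Option Cert).bind
        (fun c => if Chk x c then some (outp x c) else none)).Dom := by
    refine Nat.rfindOpt_dom.2 ⟨Encodable.encode c, outp x c, ?_⟩
    rw [Encodable.encodek, Option.bind_some, if_pos hc]
    exact rfl
  obtain ⟨n, hn⟩ := Nat.rfindOpt_spec (Part.get_mem hd)
  simp only [Option.mem_def, Option.bind_eq_some_iff] at hn
  obtain ⟨c', hc', h2⟩ := hn
  split_ifs at h2 with h3
  refine ⟨c', h3, ?_⟩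
  rw [Option.some_inj.1 h2]
  exact Part.get_mem hd

end H12IT
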