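import Pool.Agent.H12.IT.Cmp
import Pool.Agent.H12.IT.Prc

set_option autoImplicit false

/-! PROJECT IT, module Fin: the final theorem. -/

open Polynomial

namespace H12IT

/-- the algorithm -/
theorem algorithm : ∃ f : ℕ × List Num →. List (List Num), Partrec f ∧
    ∀ (d : ℕ) (L : List Num) (P : ℂ[X]), 2 ≤ d → P.natDegree = d → RepPoly L P →
      ∃ out ∈ f (d, L), (∀ l ∈ out, ∃ Q : ℂ[X], RepPoly l Q) ∧
        {Q : ℂ[X] | MC d Q ∧ Inter P Q} = {Q | ∃ l ∈ out, RepPoly l Q} := by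
  obtain ⟨f, hf, h⟩ := search
  refine ⟨f, hf, fun d L P hd hP hL => ?_⟩
  obtain ⟨c, hc, ho⟩ := h (d, L) (chk_complete hd hP hL)
  exact ⟨outp (d, L) c, ho, chk_sound hd hP hL hc⟩

/-- every polynomial with algebraic coefficients has a code -/
theorem codes_exist {P : ℂ[X]} (h : ∀ j, IsAlgebraic ℚ (P.coeff j)) : ∃ L : List Num, RepPoly L P := by
  choose a ha using fun j => alg_isolates (h j)
  refine ⟨(List.range (P.natDegree + 1)).map (fun j => (a j, [z3, o3])), by simp, fun j hj => ?_⟩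
  refine ⟨P.coeff j, ?_, ?_⟩
  · simpa using ha j
  · simp [evalL, rat, z3, o3]

end H12IT
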