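import Pool.Agent.H12.IT.Defs

set_option autoImplicit false

/-! PROJECT IT, module Mul: local degrees, fibres, Riemann-Hurwitz for polynomials. -/

open Polynomial

namespace H12IT

theorem mul_aux1 {F : ℂ[X]} (hF : 1 ≤ F.natDegree) (x : ℂ) : F - C x ≠ 0 := by
  intro h
  have h2 : F = C x := sub_eq_zero.mp h
  rw [h2, natDegree_C] at hF
  omega

theorem mem_fib {F : ℂ[X]} (hF : 1 ≤ F.natDegree) {x z : ℂ} : z ∈ fib F x ↔ F.eval z = x := by
  unfold fib
  rw [Multiset.mem_toFinset, mem_roots (mul_aux1 hF x)]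
  simp [IsRoot, sub_eq_zero]

theorem one_le_mu {F : ℂ[X]} (hF : 1 ≤ F.natDegree) (z : ℂ) : 1 ≤ mu F z := by
  unfold mu
  have h : 0 < (F - C (F.eval z)).rootMultiplicity z := by
    rw [rootMultiplicity_pos (mul_aux1 hF _)]
    simp [IsRoot]
  exact h

theorem sum_mu {F : ℂ[X]} (hF : 1 ≤ F.natDegree) (x : ℂ) :
    ∑ z ∈ fib F x, mu F z = F.natDegree := by
  have h1 : ∑ z ∈ fib F x, mu F z = ∑ z ∈ fib F x, (F - C x).roots.count z := by
    refine Finset.sum_congr rfl fun z hz => ?_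
    rw [count_roots, mu, (mem_fib hF).mp hz]
  rw [h1]
  unfold fib
  rw [Multiset.toFinset_sum_count_eq]
  have h2 := splits_iff_card_roots.mp (IsAlgClosed.splits (F - C x))
  rw [h2, natDegree_sub_C]

theorem mu_le {F : ℂ[X]} (hF : 1 ≤ F.natDegree) (z : ℂ) : mu F z ≤ F.natDegree := by
  rw [← sum_mu hF (F.eval z)]
  exact Finset.single_le_sum (f := fun z => mu F z) (fun _ _ => Nat.zero_le _) ((mem_fib hF).mpr rfl)

theorem fib_nonempty {F : ℂ[X]} (hF : 1 ≤ F.natDegree) (x : ℂ) : (fib F x).Nonempty := by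
  by_contra h
  rw [Finset.not_nonempty_iff_eq_empty] at h
  have h1 := sum_mu hF x
  rw [h, Finset.sum_empty] at h1
  omega

theorem mul_aux2 {F : ℂ[X]} {a : ℂ} {n : ℕ} (U : ℂ[X]) (hU : U.eval a ≠ 0)
    (h : F = (X - C a) ^ n * U) : F.rootMultiplicity a = n := by
  have hU0 : U ≠ 0 := by
    rintro rfl
    simp at hU
  rw [h, mul_comm, rootMultiplicity_mul_X_sub_C_pow hU0, rootMultiplicity_eq_zero hU, zero_add]

theorem mul_aux3 {F : ℂ[X]} (hF : 1 ≤ F.natDegree) (z : ℂ) :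
    ∃ U : ℂ[X], U.eval z ≠ 0 ∧ F - C (F.eval z) = (X - C z) ^ (mu F z) * U := by
  obtain ⟨U, hU, hd⟩ := exists_eq_pow_rootMultiplicity_mul_and_not_dvd _ (mul_aux1 hF (F.eval z)) z
  refine ⟨U, ?_, hU⟩
  rwa [dvd_iff_isRoot] at hd

/-- chain rule for local degrees -/
theorem mu_comp {F G : ℂ[X]} (hF : 1 ≤ F.natDegree) (hG : 1 ≤ G.natDegree) (z : ℂ) :
    mu (F.comp G) z = mu F (G.eval z) * mu G z := by
  obtain ⟨U, hU, hFU⟩ := mul_aux3 hF (G.eval z)
  obtain ⟨V, hV, hGV⟩ := mul_aux3 hG z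
  have key : F.comp G - C ((F.comp G).eval z)
      = (X - C z) ^ (mu F (G.eval z) * mu G z) * (V ^ (mu F (G.eval z)) * U.comp G) := by
    have h1 : F.comp G - C ((F.comp G).eval z) = (F - C (F.eval (G.eval z))).comp G := by
      rw [sub_comp, C_comp, eval_comp]
    rw [h1, hFU, mul_comp, pow_comp, sub_comp, X_comp, C_comp]
    conv_lhs => rw [hGV]
    rw [mul_pow, ← pow_mul, mul_comm (mu G z)]
    ring
  have h2 : (V ^ (mu F (G.eval z)) * U.comp G).eval z ≠ 0 := by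
    rw [eval_mul, eval_pow, eval_comp]
    exact mul_ne_zero (pow_ne_zero _ hV) hU
  exact mul_aux2 _ h2 key

theorem mu_lin {L : ℂ[X]} (hL : L.natDegree = 1) (z : ℂ) : mu L z = 1 := by
  have h1 := one_le_mu (F := L) (by omega) z
  have h2 := mu_le (F := L) (by omega) z
  omega

end H12IT
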