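import Pool.Agent.H12.IT.Lcm
import Pool.Agent.H12.IT.Mul

set_option autoImplicit false

/-! PROJECT IT, module Fip: points of the fibre product. -/

open Polynomial

namespace H12IT

/-- counting the image of a multiset by the points of its support -/
theorem fip_count (s : Multiset ℂ) (f : ℂ → ℂ) (y : ℂ) :
    ∑ z ∈ s.toFinset.filter (fun z => f z = y), s.count z = (s.map f).count y := by
  classical
  rw [Multiset.count_map, ← Multiset.toFinset_sum_count_eq, Multiset.toFinset_filter]
  have e : s.toFinset.filter (fun z => f z = y) = s.toFinset.filter (fun a => y = f a) :=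
    Finset.filter_congr fun z _ => eq_comm
  rw [e]
  refine Finset.sum_congr rfl fun z hz => ?_
  exact (Multiset.count_filter_of_pos (p := fun a => y = f a) (Finset.mem_filter.mp hz).2).symm

/-- (E1) -/
theorem fip_sum {G V Z P : ℂ[X]} (hG : 1 ≤ G.natDegree) (hV : 1 ≤ V.natDegree)
    (hP : P.natDegree = G.natDegree) (hZ : Z.natDegree = V.natDegree)
    (hc : Nat.Coprime G.natDegree V.natDegree) (h : G.comp V = Z.comp P)
    {x y : ℂ} (hxy : Z.eval x = G.eval y) :
    ∑ z ∈ (fib P x).filter (fun z => V.eval z = y), mu P z = mu G y := by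
  classical
  have hP1 : 1 ≤ P.natDegree := by rw [hP]; exact hG
  obtain ⟨A1, B1, Y, hGY, hZY, -, hA1, -, hn⟩ := lcm_right hG hV hP1
    (by rw [hP]; exact hc.symm) h
  have hA11 : 1 ≤ A1.natDegree := by rw [hA1]; exact hP1
  have hY1 : Y.natDegree = 1 := by
    have h1 : G.natDegree = Y.natDegree * A1.natDegree := by
      conv_lhs => rw [hGY]
      exact natDegree_comp
    rw [hA1, hP] at h1
    exact Nat.eq_of_mul_eq_mul_right (lt_of_lt_of_le Nat.one_pos hG) (by rw [one_mul]; exact h1.symm)
  obtain ⟨L, -, -, hL⟩ := lin_inv hY1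
  have hBA : B1.eval x = A1.eval y := by
    have h1 : Y.eval (B1.eval x) = Y.eval (A1.eval y) := by
      rw [← eval_comp, ← eval_comp, ← hZY, ← hGY]
      exact hxy
    have h2 : ∀ w : ℂ, L.eval (Y.eval w) = w := by
      intro w
      rw [← eval_comp, hL, eval_X]
    rw [← h2 (B1.eval x), h1, h2]
  have hpoly : ((P - C x).roots.map (fun t => X - C (V.eval t))).prod = A1 - C (A1.eval y) := by
    apply Polynomial.funext
    intro w
    rw [eval_sub, eval_C, ← hBA, ← hn w x, nrm, eval_multiset_prod, Multiset.map_map]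
    congr 1
    refine Multiset.map_congr rfl fun t _ => ?_
    simp
  have hmu : mu G y = mu A1 y := by
    conv_lhs => rw [hGY]
    rw [mu_comp (by rw [hY1]) hA11, mu_lin hY1, one_mul]
  have hroots : (A1 - C (A1.eval y)).roots = (P - C x).roots.map (fun t => V.eval t) := by
    rw [← hpoly]
    have e : (P - C x).roots.map (fun t => X - C (V.eval t)) =
        ((P - C x).roots.map (fun t => V.eval t)).map (fun a => X - C a) := by
      rw [Multiset.map_map]
      rfl
    rw [e, roots_multiset_prod_X_sub_C]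
  rw [hmu, mu, ← count_roots, hroots, ← fip_count, fib]
  refine Finset.sum_congr rfl fun z hz => ?_
  have hz1 : P.eval z = x := (mem_fib hP1).mp (Finset.mem_filter.mp hz).1
  rw [mu, hz1, count_roots]

/-- the chain rule at a point over `(x,y)` -/
theorem fip_chain {G V Z P : ℂ[X]} (hG : 1 ≤ G.natDegree) (hV : 1 ≤ V.natDegree)
    (hP : P.natDegree = G.natDegree) (hZ : Z.natDegree = V.natDegree)
    (h : G.comp V = Z.comp P) {x y z : ℂ} (hx : P.eval z = x) (hy : V.eval z = y) :
    mu G y ∣ mu P z * Nat.gcd (mu G y) (mu Z x) := by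
  have hP1 : 1 ≤ P.natDegree := by rw [hP]; exact hG
  have hZ1 : 1 ≤ Z.natDegree := by rw [hZ]; exact hV
  have h1 := mu_comp hG hV z
  have h2 := mu_comp hZ1 hP1 z
  rw [h, h2, hx, hy] at h1
  have h3 : mu G y ∣ mu P z * mu Z x := ⟨mu V z, by rw [mul_comm, h1]⟩
  rw [← Nat.gcd_mul_left]
  exact Nat.dvd_gcd (Dvd.intro_left _ rfl) h3

/-- at most `gcd` points over `(x,y)`, and the local degrees are multiples of `mu G y / gcd` -/
theorem fip_card {G V Z P : ℂ[X]} (hG : 1 ≤ G.natDegree) (hV : 1 ≤ V.natDegree)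
    (hP : P.natDegree = G.natDegree) (hZ : Z.natDegree = V.natDegree)
    (hc : Nat.Coprime G.natDegree V.natDegree) (h : G.comp V = Z.comp P)
    {x y : ℂ} (hxy : Z.eval x = G.eval y) :
    ((fib P x).filter (fun z => V.eval z = y)).card ≤ Nat.gcd (mu G y) (mu Z x) ∧
      ∀ z, P.eval z = x → V.eval z = y → mu G y ∣ mu P z * Nat.gcd (mu G y) (mu Z x) := by
  have hP1 : 1 ≤ P.natDegree := by rw [hP]; exact hG
  have hmuG : 1 ≤ mu G y := one_le_mu hG y
  refine ⟨?_, fun z hx hy => fip_chain hG hV hP hZ h hx hy⟩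
  have h1 := fip_sum hG hV hP hZ hc h hxy
  have h2 : ((fib P x).filter (fun z => V.eval z = y)).card * mu G y ≤
      Nat.gcd (mu G y) (mu Z x) * mu G y := by
    calc ((fib P x).filter (fun z => V.eval z = y)).card * mu G y
        = ∑ _z ∈ (fib P x).filter (fun z => V.eval z = y), mu G y := by
          rw [Finset.sum_const, smul_eq_mul]
      _ ≤ ∑ z ∈ (fib P x).filter (fun z => V.eval z = y),
          mu P z * Nat.gcd (mu G y) (mu Z x) := by
          refine Finset.sum_le_sum fun z hz => ?_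
          obtain ⟨hz1, hz2⟩ := Finset.mem_filter.mp hz
          have hz3 : P.eval z = x := (mem_fib hP1).mp hz1
          refine Nat.le_of_dvd (Nat.mul_pos (one_le_mu hP1 z) ?_)
            (fip_chain hG hV hP hZ h hz3 hz2)
          exact Nat.gcd_pos_of_pos_left _ hmuG
      _ = Nat.gcd (mu G y) (mu Z x) * mu G y := by
          rw [← Finset.sum_mul, h1, mul_comm]
  exact Nat.le_of_mul_le_mul_right h2 hmuG

/-- sum over the fibre: `t_x ≤ deg - #P⁻¹(x)` -/
theorem fip_fib {G V Z P : ℂ[X]} (hG : 1 ≤ G.natDegree) (hV : 1 ≤ V.natDegree)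
    (hP : P.natDegree = G.natDegree) (hZ : Z.natDegree = V.natDegree)
    (hc : Nat.Coprime G.natDegree V.natDegree) (h : G.comp V = Z.comp P) (x : ℂ) :
    (fib P x).card ≤ ∑ y ∈ fib G (Z.eval x), Nat.gcd (mu G y) (mu Z x) := by
  have hP1 : 1 ≤ P.natDegree := by rw [hP]; exact hG
  have hmaps : ∀ z ∈ fib P x, V.eval z ∈ fib G (Z.eval x) := by
    intro z hz
    have hz1 : P.eval z = x := (mem_fib hP1).mp hz
    rw [mem_fib hG, ← eval_comp, h, eval_comp, hz1]
  rw [Finset.card_eq_sum_card_fiberwise hmaps]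
  refine Finset.sum_le_sum fun y hy => ?_
  exact (fip_card hG hV hP hZ hc h ((mem_fib hG).mp hy).symm).1

end H12IT
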