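import Pool.Agent.H12.IT.Defs

set_option autoImplicit false

/-! PROJECT IT, module Ger: fibres of polynomials near infinity (elementary estimates). -/

open Polynomial

namespace H12IT

theorem ger_bound_max (p : ℂ[X]) (m : ℕ) (h : p.natDegree ≤ m) :
    ∃ B : ℝ, 0 ≤ B ∧ ∀ (z : ℂ) (M : ℝ), 1 ≤ M → ‖z‖ ≤ M → ‖p.eval z‖ ≤ B * M ^ m := by
  refine ⟨∑ i ∈ Finset.range (m + 1), ‖p.coeff i‖, by positivity, fun z M hM hz => ?_⟩
  rw [Polynomial.eval_eq_sum_range' (Nat.lt_succ_of_le h), Finset.sum_mul]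
  refine (norm_sum_le _ _).trans (Finset.sum_le_sum fun i hi => ?_)
  rw [norm_mul, norm_pow]
  refine mul_le_mul_of_nonneg_left ?_ (norm_nonneg _)
  exact (pow_le_pow_left₀ (norm_nonneg _) hz _).trans
    (pow_le_pow_right₀ hM (Nat.lt_succ_iff.1 (Finset.mem_range.1 hi)))

theorem ger_bound (p : ℂ[X]) (m : ℕ) (h : p.natDegree ≤ m) :
    ∃ B : ℝ, 0 ≤ B ∧ ∀ z : ℂ, 1 ≤ ‖z‖ → ‖p.eval z‖ ≤ B * ‖z‖ ^ m := by
  obtain ⟨B, hB0, hB⟩ := ger_bound_max p m h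
  exact ⟨B, hB0, fun z hz => hB z ‖z‖ hz le_rfl⟩

theorem ger_pow_sub {u v : ℂ} {M : ℝ} (hu : ‖u‖ ≤ M) (hv : ‖v‖ ≤ M) (m : ℕ) :
    ‖u ^ (m + 1) - v ^ (m + 1)‖ ≤ (m + 1) * M ^ m * ‖u - v‖ := by
  have hM : 0 ≤ M := (norm_nonneg _).trans hu
  induction m with
  | zero => simp
  | succ m ih =>
    have h1 : u ^ (m + 1 + 1) - v ^ (m + 1 + 1)
        = u * (u ^ (m + 1) - v ^ (m + 1)) + (u - v) * v ^ (m + 1) := by ring
    rw [h1]
    refine (norm_add_le _ _).trans ?_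
    rw [norm_mul, norm_mul, norm_pow]
    have h2 : ‖u‖ * ‖u ^ (m + 1) - v ^ (m + 1)‖ ≤ M * ((m + 1) * M ^ m * ‖u - v‖) :=
      mul_le_mul hu ih (norm_nonneg _) hM
    have h3 : ‖u - v‖ * ‖v‖ ^ (m + 1) ≤ ‖u - v‖ * M ^ (m + 1) :=
      mul_le_mul_of_nonneg_left (pow_le_pow_left₀ (norm_nonneg _) hv _) (norm_nonneg _)
    calc ‖u‖ * ‖u ^ (m + 1) - v ^ (m + 1)‖ + ‖u - v‖ * ‖v‖ ^ (m + 1)
        ≤ M * ((m + 1) * M ^ m * ‖u - v‖) + ‖u - v‖ * M ^ (m + 1) := add_le_add h2 h3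
      _ = ((m + 1 : ℕ) + 1 : ℝ) * M ^ (m + 1) * ‖u - v‖ := by push_cast; ring

theorem ger_near_lead (g : ℂ[X]) (m : ℕ) (hg : g.natDegree ≤ m) (K e : ℝ) (he : 0 < e) :
    ∃ R0 : ℝ, 1 ≤ R0 ∧ ∀ v : ℂ, R0 ≤ ‖v‖ → ∀ u : ℂ, ‖u - v‖ ≤ K →
      ‖g.eval u - g.coeff m * v ^ m‖ ≤ e * ‖v‖ ^ m := by
  cases m with
  | zero =>
    refine ⟨1, le_rfl, fun v _ u _ => ?_⟩
    have h0 : g = C (g.coeff 0) := Polynomial.eq_C_of_natDegree_le_zero hg
    have h1 : g.eval u = g.coeff 0 := by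
      conv_lhs => rw [h0]
      exact Polynomial.eval_C
    rw [h1]
    simp [he.le]
  | succ m =>
    have hr : (g - C (g.coeff (m + 1)) * X ^ (m + 1)).natDegree ≤ m := by
      rw [Polynomial.natDegree_le_iff_coeff_eq_zero]
      intro N hN
      rw [Polynomial.coeff_sub, Polynomial.coeff_C_mul, Polynomial.coeff_X_pow]
      rcases Nat.eq_or_lt_of_le (Nat.succ_le_of_lt hN) with h | h
      · rw [if_pos h.symm, ← h]
        simp
      · rw [if_neg (by omega), Polynomial.coeff_eq_zero_of_natDegree_lt (by omega)]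
        simp
    obtain ⟨B, hB0, hB⟩ := ger_bound _ m hr
    set b := g.coeff (m + 1) with hb
    set A : ℝ := B * 2 ^ m + ‖b‖ * ((m + 1) * 2 ^ m * |K|) with hA
    have hA0 : 0 ≤ A := by positivity
    refine ⟨2 + |K| + A / e, by have : 0 ≤ A / e := by positivity
                                have := abs_nonneg K
                                linarith, fun v hv u hu => ?_⟩
    have hK := abs_nonneg K
    have hAe : 0 ≤ A / e := by positivity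
    have hv1 : 1 ≤ ‖v‖ := by linarith
    have hv0 : 0 ≤ ‖v‖ := norm_nonneg _
    have hKv : |K| ≤ ‖v‖ := by linarith
    have hKa : K ≤ |K| := le_abs_self K
    have hu2 : ‖u‖ ≤ 2 * ‖v‖ := by
      have : ‖u‖ ≤ ‖u - v‖ + ‖v‖ := by
        have := norm_add_le (u - v) v
        rwa [sub_add_cancel] at this
      linarith
    have hu1 : 1 ≤ ‖u‖ := by
      have : ‖v‖ ≤ ‖u - v‖ + ‖u‖ := by
        have := norm_sub_le u (u - v)
        rw [sub_sub_cancel] at this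
        linarith
      linarith
    have e1 : g.eval u - b * v ^ (m + 1)
        = (g - C b * X ^ (m + 1)).eval u + b * (u ^ (m + 1) - v ^ (m + 1)) := by
      simp only [Polynomial.eval_sub, Polynomial.eval_mul, Polynomial.eval_C, Polynomial.eval_pow,
        Polynomial.eval_X]
      ring
    rw [e1]
    have h1 : ‖(g - C b * X ^ (m + 1)).eval u‖ ≤ B * (2 * ‖v‖) ^ m :=
      (hB u hu1).trans (mul_le_mul_of_nonneg_left (pow_le_pow_left₀ (norm_nonneg _) hu2 _) hB0)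
    have h2 : ‖u ^ (m + 1) - v ^ (m + 1)‖ ≤ (m + 1) * (2 * ‖v‖) ^ m * |K| := by
      refine (ger_pow_sub hu2 (by linarith) m).trans ?_
      exact mul_le_mul_of_nonneg_left (hu.trans hKa) (by positivity)
    calc ‖(g - C b * X ^ (m + 1)).eval u + b * (u ^ (m + 1) - v ^ (m + 1))‖
        ≤ ‖(g - C b * X ^ (m + 1)).eval u‖ + ‖b * (u ^ (m + 1) - v ^ (m + 1))‖ := norm_add_le _ _
      _ ≤ B * (2 * ‖v‖) ^ m + ‖b‖ * ((m + 1) * (2 * ‖v‖) ^ m * |K|) := by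
          rw [norm_mul]
          exact add_le_add h1 (mul_le_mul_of_nonneg_left h2 (norm_nonneg _))
      _ = A * ‖v‖ ^ m := by rw [hA, mul_pow]; ring
      _ ≤ (e * ‖v‖) * ‖v‖ ^ m := by
          refine mul_le_mul_of_nonneg_right ?_ (by positivity)
          have : A / e ≤ ‖v‖ := by linarith
          rw [div_le_iff₀ he] at this
          linarith
      _ = e * ‖v‖ ^ (m + 1) := by rw [pow_succ]; ring

theorem ger_lead_sub (f : ℂ[X]) (hf : 1 ≤ f.natDegree) :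
    (f - C f.leadingCoeff * X ^ f.natDegree).natDegree ≤ f.natDegree - 1 := by
  rw [Polynomial.natDegree_le_iff_coeff_eq_zero]
  intro N hN
  rw [Polynomial.coeff_sub, Polynomial.coeff_C_mul, Polynomial.coeff_X_pow]
  rcases Nat.eq_or_lt_of_le (show f.natDegree ≤ N by omega) with h | h
  · rw [if_pos h.symm, ← h]
    simp
  · rw [if_neg (by omega), Polynomial.coeff_eq_zero_of_natDegree_lt h]
    simp

/-- every `y` with `f y = f z`, `z` large, is within `K` of `w z` for a root of unity `w` -/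
theorem germ_near {f : ℂ[X]} (hf : 1 ≤ f.natDegree) :
    ∃ K R0 : ℝ, ∀ z : ℂ, R0 ≤ ‖z‖ → ∀ y : ℂ, f.eval y = f.eval z →
      ∃ w : ℂ, w ^ f.natDegree = 1 ∧ ‖y - w * z‖ ≤ K := by
  classical
  obtain ⟨B, hB0, hB'⟩ := ger_bound_max _ _ (ger_lead_sub f hf)
  have hf0 : f ≠ 0 := by
    rintro rfl
    simp at hf
  set l := f.leadingCoeff with hl
  have hl0 : l ≠ 0 := Polynomial.leadingCoeff_ne_zero.2 hf0
  have hln : 0 < ‖l‖ := norm_pos_iff.2 hl0
  obtain ⟨n, hn⟩ : ∃ n, f.natDegree = n + 1 := ⟨f.natDegree - 1, by omega⟩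
  rw [hn] at hB' ⊢
  simp only [Nat.add_sub_cancel] at hB'
  have hB : ∀ z : ℂ, 1 ≤ ‖z‖ → ‖(f - C l * X ^ (n + 1)).eval z‖ ≤ B * ‖z‖ ^ n :=
    fun z hz => hB' z ‖z‖ hz le_rfl
  -- the roots of unity
  have hprim : IsPrimitiveRoot (Complex.exp (2 * Real.pi * Complex.I / ((n + 1 : ℕ) : ℂ))) (n + 1) :=
    Complex.isPrimitiveRoot_exp (n + 1) (Nat.succ_ne_zero n)
  set S : Finset ℂ := nthRootsFinset (n + 1) (1 : ℂ) with hS
  have hcard : S.card = n + 1 := hprim.card_nthRootsFinset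
  have hmem : ∀ w, w ∈ S ↔ w ^ (n + 1) = 1 := fun w => by
    rw [hS, mem_nthRootsFinset (Nat.succ_pos n)]
  obtain ⟨δ, hδ0, hδ⟩ : ∃ δ : ℝ, 0 < δ ∧ ∀ p ∈ S.offDiag, δ ≤ ‖p.1 - p.2‖ := by
    by_cases hne : S.offDiag.Nonempty
    · obtain ⟨p, hp, hmin⟩ := Finset.exists_min_image S.offDiag (fun p => ‖p.1 - p.2‖) hne
      refine ⟨‖p.1 - p.2‖, ?_, hmin⟩
      rw [Finset.mem_offDiag] at hp
      exact norm_pos_iff.2 (sub_ne_zero.2 hp.2.2)
    · refine ⟨1, one_pos, fun p hp => absurd ⟨p, hp⟩ hne⟩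
  set Q : ℝ := B / ‖l‖ with hQ
  have hQ0 : 0 ≤ Q := by positivity
  refine ⟨Q * (1 + 2 ^ n) * (2 / δ) ^ n, 1 + 8 * Q, fun z hz y hy => ?_⟩
  have hz1 : 1 ≤ ‖z‖ := by linarith
  have hz0 : 0 < ‖z‖ := by linarith
  -- the difference of the leading terms
  have hev : ∀ t : ℂ, f.eval t = l * t ^ (n + 1) + (f - C l * X ^ (n + 1)).eval t := fun t => by
    simp only [Polynomial.eval_sub, Polynomial.eval_mul, Polynomial.eval_C, Polynomial.eval_pow,
      Polynomial.eval_X]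
    ring
  set r : ℂ[X] := f - C l * X ^ (n + 1) with hr
  have hdiff : l * (y ^ (n + 1) - z ^ (n + 1)) = r.eval z - r.eval y := by
    have h1 := hev y
    have h2 := hev z
    rw [hy, h2] at h1
    linear_combination -h1
  have hrz : ‖r.eval z‖ ≤ B * ‖z‖ ^ n := hB z hz1
  -- the size of y
  have hy2 : ‖y‖ ≤ 2 * ‖z‖ := by
    by_contra hcon
    push Not at hcon
    have hy1 : 1 ≤ ‖y‖ := by linarith
    have hry : ‖r.eval y‖ ≤ B * ‖y‖ ^ n := hB y hy1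
    have h3 : ‖l‖ * ‖y ^ (n + 1) - z ^ (n + 1)‖ ≤ B * ‖z‖ ^ n + B * ‖y‖ ^ n := by
      rw [← norm_mul, hdiff]
      exact (norm_sub_le _ _).trans (add_le_add hrz hry)
    have h4 : ‖y‖ ^ (n + 1) - ‖z‖ ^ (n + 1) ≤ ‖y ^ (n + 1) - z ^ (n + 1)‖ := by
      have := norm_sub_norm_le (y ^ (n + 1)) (z ^ (n + 1))
      rwa [norm_pow, norm_pow] at this
    have h5 : ‖z‖ ^ n ≤ ‖y‖ ^ n := pow_le_pow_left₀ hz0.le (by linarith) _
    have h6 : ‖y‖ ^ (n + 1) - ‖z‖ ^ (n + 1) ≤ 2 * Q * ‖y‖ ^ n := by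
      have h7 : ‖y ^ (n + 1) - z ^ (n + 1)‖ ≤ (B * ‖z‖ ^ n + B * ‖y‖ ^ n) / ‖l‖ := by
        rw [le_div_iff₀ hln]
        linarith
      have h8 : (B * ‖z‖ ^ n + B * ‖y‖ ^ n) / ‖l‖ ≤ 2 * Q * ‖y‖ ^ n := by
        rw [hQ, div_le_iff₀ hln]
        have : 2 * (B / ‖l‖) * ‖y‖ ^ n * ‖l‖ = 2 * B * ‖y‖ ^ n := by
          field_simp
        rw [this]
        have := mul_le_mul_of_nonneg_left h5 hB0
        linarith
      linarith
    have h9 : ‖z‖ ^ (n + 1) ≤ ‖z‖ * ‖y‖ ^ n := by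
      rw [pow_succ, mul_comm]
      exact mul_le_mul_of_nonneg_left h5 hz0.le
    have h10 : 0 < ‖y‖ ^ n := by positivity
    have h11 : ‖y‖ * ‖y‖ ^ n ≤ (‖z‖ + 2 * Q) * ‖y‖ ^ n := by
      have : ‖y‖ ^ (n + 1) = ‖y‖ * ‖y‖ ^ n := by rw [pow_succ]; ring
      rw [this] at h6
      linarith
    have h12 : ‖y‖ ≤ ‖z‖ + 2 * Q := le_of_mul_le_mul_right h11 h10
    linarith
  -- the difference again
  have hmain : ‖y ^ (n + 1) - z ^ (n + 1)‖ ≤ Q * (1 + 2 ^ n) * ‖z‖ ^ n := by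
    have hry : ‖r.eval y‖ ≤ B * (2 ^ n * ‖z‖ ^ n) := by
      rw [← mul_pow]
      exact hB' y (2 * ‖z‖) (by linarith) hy2
    have h3 : ‖l‖ * ‖y ^ (n + 1) - z ^ (n + 1)‖ ≤ B * ‖z‖ ^ n + B * (2 ^ n * ‖z‖ ^ n) := by
      rw [← norm_mul, hdiff]
      exact (norm_sub_le _ _).trans (add_le_add hrz hry)
    have h4 : ‖y ^ (n + 1) - z ^ (n + 1)‖ ≤ (B * ‖z‖ ^ n + B * (2 ^ n * ‖z‖ ^ n)) / ‖l‖ := by
      rw [le_div_iff₀ hln]
      linarith
    refine h4.trans (le_of_eq ?_)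
    rw [hQ]
    field_simp
  -- the nearest root of unity
  have hSne : S.Nonempty := by
    rw [← Finset.card_pos, hcard]
    exact Nat.succ_pos n
  obtain ⟨w, hwS, hw⟩ := Finset.exists_min_image S (fun w => ‖y - w * z‖) hSne
  refine ⟨w, (hmem w).1 hwS, ?_⟩
  have hprod : y ^ (n + 1) - z ^ (n + 1) = ∏ ζ ∈ S, (y - ζ * z) :=
    hprim.pow_sub_pow_eq_prod_sub_mul y z (Nat.succ_pos n)
  have hnorm : ‖y ^ (n + 1) - z ^ (n + 1)‖ = ‖y - w * z‖ * ∏ ζ ∈ S.erase w, ‖y - ζ * z‖ := by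
    rw [hprod, norm_prod, Finset.mul_prod_erase S (fun ζ => ‖y - ζ * z‖) hwS]
  have hlow : (δ / 2 * ‖z‖) ^ n ≤ ∏ ζ ∈ S.erase w, ‖y - ζ * z‖ := by
    have hc : (S.erase w).card = n := by
      rw [Finset.card_erase_of_mem hwS, hcard]
      rfl
    calc (δ / 2 * ‖z‖) ^ n = ∏ _ζ ∈ S.erase w, (δ / 2 * ‖z‖) := by
          rw [Finset.prod_const, hc]
      _ ≤ ∏ ζ ∈ S.erase w, ‖y - ζ * z‖ := by
          refine Finset.prod_le_prod (fun _ _ => by positivity) fun ζ hζ => ?_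
          rw [Finset.mem_erase] at hζ
          have h1 := hw ζ hζ.2
          have h2 : δ ≤ ‖ζ - w‖ := hδ (ζ, w) (Finset.mem_offDiag.2 ⟨hζ.2, hwS, hζ.1⟩)
          have h3 : ‖ζ - w‖ * ‖z‖ ≤ ‖y - w * z‖ + ‖y - ζ * z‖ := by
            rw [← norm_mul]
            have := norm_sub_le (y - w * z) (y - ζ * z)
            have e : (y - w * z) - (y - ζ * z) = (ζ - w) * z := by ring
            rwa [e] at this
          have h4 : δ * ‖z‖ ≤ ‖ζ - w‖ * ‖z‖ := mul_le_mul_of_nonneg_right h2 hz0.le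
          have h1' : ‖y - w * z‖ ≤ ‖y - ζ * z‖ := h1
          linarith
  have hpos : 0 < (δ / 2 * ‖z‖) ^ n := by positivity
  have hfin : ‖y - w * z‖ * (δ / 2 * ‖z‖) ^ n ≤ Q * (1 + 2 ^ n) * ‖z‖ ^ n := by
    calc ‖y - w * z‖ * (δ / 2 * ‖z‖) ^ n ≤ ‖y - w * z‖ * ∏ ζ ∈ S.erase w, ‖y - ζ * z‖ :=
          mul_le_mul_of_nonneg_left hlow (norm_nonneg _)
      _ = ‖y ^ (n + 1) - z ^ (n + 1)‖ := hnorm.symm
      _ ≤ _ := hmain
  have hkey : Q * (1 + 2 ^ n) * (2 / δ) ^ n * (δ / 2 * ‖z‖) ^ n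
      = Q * (1 + 2 ^ n) * ‖z‖ ^ n := by
    have : (2 / δ) ^ n * (δ / 2 * ‖z‖) ^ n = ‖z‖ ^ n := by
      rw [← mul_pow]
      congr 1
      field_simp
    rw [mul_assoc, this]
  rw [← hkey] at hfin
  exact le_of_mul_le_mul_right hfin hpos

/-- `f` is expanding near `w z` -/
theorem germ_expand {f : ℂ[X]} (hf : 1 ≤ f.natDegree) (K : ℝ) :
    ∃ c R0 : ℝ, 0 < c ∧ ∀ z : ℂ, R0 ≤ ‖z‖ → ∀ w : ℂ, ‖w‖ = 1 → ∀ y y' : ℂ,
      ‖y - w * z‖ ≤ K → ‖y' - w * z‖ ≤ K →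
      c * ‖z‖ ^ (f.natDegree - 1) * ‖y - y'‖ ≤ ‖f.eval y - f.eval y'‖ := by
  have hf0 : f ≠ 0 := by
    rintro rfl
    simp at hf
  set b : ℂ := (derivative f).coeff (f.natDegree - 1) with hb
  have hb0 : b ≠ 0 := by
    rw [hb, Polynomial.coeff_derivative, Nat.sub_add_cancel hf]
    refine mul_ne_zero (Polynomial.leadingCoeff_ne_zero.2 hf0) ?_
    norm_cast
  have hbn : 0 < ‖b‖ := norm_pos_iff.2 hb0
  obtain ⟨R0, hR1, hR⟩ := ger_near_lead (derivative f) (f.natDegree - 1)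
    (Polynomial.natDegree_derivative_le f) K (‖b‖ / 2) (by positivity)
  refine ⟨‖b‖ / 2, R0, by positivity, fun z hz w hw y y' hy hy' => ?_⟩
  have hwz : ‖w * z‖ = ‖z‖ := by rw [norm_mul, hw, one_mul]
  have hD : ∀ u ∈ Metric.closedBall (w * z) K,
      HasDerivWithinAt (fun u => f.eval u - b * (w * z) ^ (f.natDegree - 1) * u)
        ((derivative f).eval u - b * (w * z) ^ (f.natDegree - 1))
        (Metric.closedBall (w * z) K) u := by
    intro u _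
    have h1 := (f.hasDerivAt u).sub ((hasDerivAt_id u).const_mul (b * (w * z) ^ (f.natDegree - 1)))
    rw [mul_one] at h1
    exact h1.hasDerivWithinAt
  have hbd : ∀ u ∈ Metric.closedBall (w * z) K,
      ‖(derivative f).eval u - b * (w * z) ^ (f.natDegree - 1)‖
        ≤ ‖b‖ / 2 * ‖z‖ ^ (f.natDegree - 1) := by
    intro u hu
    rw [Metric.mem_closedBall, dist_eq_norm] at hu
    have := hR (w * z) (by rwa [hwz]) u hu
    rwa [hwz] at this
  have hmv := Convex.norm_image_sub_le_of_norm_hasDerivWithin_le hD hbd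
    (convex_closedBall (w * z) K)
    (show y' ∈ Metric.closedBall (w * z) K by rwa [Metric.mem_closedBall, dist_eq_norm])
    (show y ∈ Metric.closedBall (w * z) K by rwa [Metric.mem_closedBall, dist_eq_norm])
  have e1 : f.eval y - b * (w * z) ^ (f.natDegree - 1) * y
      - (f.eval y' - b * (w * z) ^ (f.natDegree - 1) * y')
      = (f.eval y - f.eval y') - b * (w * z) ^ (f.natDegree - 1) * (y - y') := by ring
  rw [e1] at hmv
  have h2 : ‖b * (w * z) ^ (f.natDegree - 1) * (y - y')‖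
      = ‖b‖ * ‖z‖ ^ (f.natDegree - 1) * ‖y - y'‖ := by
    rw [norm_mul, norm_mul, norm_pow, hwz]
  have h3 : ‖b * (w * z) ^ (f.natDegree - 1) * (y - y')‖
      ≤ ‖f.eval y - f.eval y'‖ + ‖(f.eval y - f.eval y')
        - b * (w * z) ^ (f.natDegree - 1) * (y - y')‖ := by
    have := norm_sub_le (f.eval y - f.eval y')
      ((f.eval y - f.eval y') - b * (w * z) ^ (f.natDegree - 1) * (y - y'))
    rwa [sub_sub_cancel] at this
  rw [h2] at h3
  linarith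

/-- a polynomial which is `O(|z|^k)` has degree at most `k` -/
theorem deg_le_of_bound {f : ℂ[X]} {k : ℕ} {K R0 : ℝ}
    (h : ∀ z : ℂ, R0 ≤ ‖z‖ → ‖f.eval z‖ ≤ K * ‖z‖ ^ k) : f.natDegree ≤ k := by
  by_contra hcon
  push Not at hcon
  have hm : (X ^ k : ℂ[X]).Monic := monic_X_pow k
  set g : ℂ[X] := f /ₘ X ^ k with hg
  set r : ℂ[X] := f %ₘ X ^ k with hr
  have hfg : r + X ^ k * g = f := modByMonic_add_div f (X ^ k)
  have hgd : 0 < g.natDegree := by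
    rw [hg, natDegree_divByMonic f hm, natDegree_X_pow]
    omega
  have hrd : r.natDegree ≤ k := by
    have := degree_modByMonic_lt f hm
    rw [degree_X_pow] at this
    exact natDegree_le_of_degree_le this.le
  obtain ⟨B, hB0, hB⟩ := ger_bound r k hrd
  have ht : Filter.Tendsto (fun x : ℝ => ‖((x : ℂ))‖) Filter.atTop Filter.atTop := by
    simp only [Complex.norm_real]
    exact tendsto_norm_atTop_atTop
  have ht2 := Polynomial.tendsto_norm_atTop g (natDegree_pos_iff_degree_pos.1 hgd) ht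
  obtain ⟨x, hx1, hx2⟩ := ((ht2.eventually_gt_atTop (K + B)).and
    (ht.eventually_ge_atTop (max 1 R0))).exists
  set z : ℂ := (x : ℂ) with hz
  have hz1 : 1 ≤ ‖z‖ := (le_max_left _ _).trans hx2
  have hzR : R0 ≤ ‖z‖ := (le_max_right _ _).trans hx2
  have h1 := h z hzR
  have h2 := hB z hz1
  have h3 : z ^ k * g.eval z = f.eval z - r.eval z := by
    rw [← hfg]
    simp
  have h4 : ‖z‖ ^ k * ‖g.eval z‖ ≤ ‖f.eval z‖ + ‖r.eval z‖ := by
    rw [← norm_pow, ← norm_mul, h3]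
    exact norm_sub_le _ _
  have h5 : 0 < ‖z‖ ^ k := by positivity
  have h6 : ‖z‖ ^ k * ‖g.eval z‖ ≤ ‖z‖ ^ k * (K + B) := by linarith
  have h7 := le_of_mul_le_mul_left h6 h5
  linarith

end H12IT
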