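import Pool.Agent.H12.IT.Ger
import Pool.Agent.H12.IT.Mul

set_option autoImplicit false

/-! PROJECT IT, module Gex: existence and uniqueness of germs at infinity. -/

open Polynomial

namespace H12IT

/-- the complement of a large disc is a neighbourhood of infinity -/
private theorem gex_ev {p : ℂ → Prop} (h : ∀ᶠ z in Bornology.cobounded ℂ, p z) :
    ∃ R : ℝ, ∀ z : ℂ, R ≤ ‖z‖ → p z := by
  have h1 := (Filter.hasBasis_cobounded_norm (E := ℂ)).eventually_iff.mp h
  obtain ⟨R, -, hR⟩ := h1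
  exact ⟨R, fun z hz => hR hz⟩

/-- the large fibre is large -/
theorem germ_large {f : ℂ[X]} (hf : 1 ≤ f.natDegree) (R1 : ℝ) :
    ∃ R0 : ℝ, ∀ z : ℂ, R0 ≤ ‖z‖ → ∀ y : ℂ, f.eval y = f.eval z → R1 ≤ ‖y‖ := by
  obtain ⟨B, hB⟩ := (isCompact_closedBall (0 : ℂ) R1).exists_bound_of_continuousOn
    (f := fun y : ℂ => f.eval y) f.continuous.continuousOn
  have hdeg : 0 < f.degree := Polynomial.natDegree_pos_iff_degree_pos.mp hf
  have ht : Filter.Tendsto (fun z : ℂ => ‖f.eval z‖) (Bornology.cobounded ℂ) Filter.atTop :=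
    f.tendsto_norm_atTop hdeg tendsto_norm_cobounded_atTop
  obtain ⟨R0, hR0⟩ := gex_ev (ht.eventually_gt_atTop B)
  refine ⟨R0, fun z hz y hy => ?_⟩
  by_contra hcon
  push Not at hcon
  have h1 : ‖f.eval y‖ ≤ B := hB y (by simpa using hcon.le)
  have h2 := hR0 z hz
  rw [← hy] at h2
  linarith

/-- large fibres are unramified -/
theorem germ_simple {f : ℂ[X]} (hf : 1 ≤ f.natDegree) :
    ∃ R0 : ℝ, ∀ z : ℂ, R0 ≤ ‖z‖ → ∀ y : ℂ, f.eval y = f.eval z → mu f y = 1 := by
  have hd0 : derivative f ≠ 0 := by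
    intro h0
    have h1 := Polynomial.derivative_eq_zero.mp h0
    omega
  obtain ⟨R0, hR0⟩ := germ_large hf (1 + ∑ r ∈ (derivative f).roots.toFinset, ‖r‖)
  refine ⟨R0, fun z hz y hy => ?_⟩
  have h1 := hR0 z hz y hy
  have h2 : (derivative f).eval y ≠ 0 := by
    intro h0
    have h3 : y ∈ (derivative f).roots.toFinset := by
      rw [Multiset.mem_toFinset, Polynomial.mem_roots hd0]
      exact h0
    have h4 : ‖y‖ ≤ ∑ r ∈ (derivative f).roots.toFinset, ‖r‖ :=
      Finset.single_le_sum (f := fun r : ℂ => ‖r‖) (fun r _ => norm_nonneg r) h3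
    linarith
  have hg0 : f - C (f.eval y) ≠ 0 := by
    intro h0
    have h3 : f = C (f.eval y) := sub_eq_zero.mp h0
    have h4 : f.natDegree = 0 := by
      rw [h3]
      exact Polynomial.natDegree_C _
    omega
  have h5 : 1 ≤ mu f y := one_le_mu hf y
  have h6 : ¬ 1 < mu f y := by
    intro h7
    rw [mu, Polynomial.one_lt_rootMultiplicity_iff_isRoot hg0] at h7
    apply h2
    have h8 := h7.2
    rw [Polynomial.derivative_sub, Polynomial.derivative_C, sub_zero] at h8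
    exact h8
  omega

/-- uniqueness -/
theorem germ_uniq {f : ℂ[X]} (hf : 1 ≤ f.natDegree) (K : ℝ) :
    ∃ R0 : ℝ, ∀ z : ℂ, R0 ≤ ‖z‖ → ∀ w : ℂ, ‖w‖ = 1 → ∀ y y' : ℂ,
      ‖y - w * z‖ ≤ K → ‖y' - w * z‖ ≤ K → f.eval y = f.eval y' → y = y' := by
  obtain ⟨c, R0, hc, h⟩ := germ_expand hf K
  refine ⟨max R0 1, fun z hz w hw y y' hy hy' hff => ?_⟩
  have h1 := h z (le_trans (le_max_left _ _) hz) w hw y y' hy hy'
  rw [hff, sub_self, norm_zero] at h1
  have hz1 : 0 < ‖z‖ := lt_of_lt_of_le one_pos (le_trans (le_max_right _ _) hz)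
  have hpos : 0 < c * ‖z‖ ^ (f.natDegree - 1) := mul_pos hc (pow_pos hz1 _)
  have h2 : ‖y - y'‖ ≤ 0 := by
    by_contra hcon
    push Not at hcon
    have h3 := mul_pos hpos hcon
    linarith
  have h4 : ‖y - y'‖ = 0 := le_antisymm h2 (norm_nonneg _)
  exact sub_eq_zero.mp (norm_eq_zero.mp h4)

/-- existence: one point of the fibre near each `w z` -/
theorem germ_ex {f : ℂ[X]} (hf : 1 ≤ f.natDegree) :
    ∃ K R0 : ℝ, ∀ z : ℂ, R0 ≤ ‖z‖ → ∀ w : ℂ, w ^ f.natDegree = 1 →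
      ∃ y : ℂ, f.eval y = f.eval z ∧ ‖y - w * z‖ ≤ K := by
  obtain ⟨K, Ra, hRa⟩ := germ_near hf
  obtain ⟨Rb, hRb⟩ := germ_simple hf
  obtain ⟨Rc, hRc⟩ := germ_uniq hf K
  refine ⟨K, max Ra (max Rb Rc), fun z hz w hw => ?_⟩
  have hza : Ra ≤ ‖z‖ := le_trans (le_max_left _ _) hz
  have hzb : Rb ≤ ‖z‖ := le_trans ((le_max_left _ _).trans (le_max_right _ _)) hz
  have hzc : Rc ≤ ‖z‖ := le_trans ((le_max_right _ _).trans (le_max_right _ _)) hz
  classical
  have ha : f.natDegree ≠ 0 := by omega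
  have hcard : (fib f (f.eval z)).card = f.natDegree := by
    rw [← sum_mu hf (f.eval z), Finset.card_eq_sum_ones]
    refine Finset.sum_congr rfl (fun y hy => ?_)
    exact (hRb z hzb y ((mem_fib hf).mp hy)).symm
  have hT : (Polynomial.nthRootsFinset f.natDegree (1 : ℂ)).card = f.natDegree :=
    (Complex.isPrimitiveRoot_exp f.natDegree ha).card_nthRootsFinset
  have hex : ∀ y : ℂ, f.eval y = f.eval z → ∃ v : ℂ, v ^ f.natDegree = 1 ∧ ‖y - v * z‖ ≤ K :=
    fun y hy => hRa z hza y hy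
  choose! φ hφ using hex
  have hinj : Set.InjOn φ (fib f (f.eval z) : Set ℂ) := by
    intro y hy y' hy' hyy
    have h1 : f.eval y = f.eval z := (mem_fib hf).mp (Finset.mem_coe.mp hy)
    have h2 : f.eval y' = f.eval z := (mem_fib hf).mp (Finset.mem_coe.mp hy')
    have h3 := hφ y h1
    have h4 := hφ y' h2
    refine hRc z hzc (φ y) (Complex.norm_eq_one_of_pow_eq_one h3.1 ha) y y' h3.2 ?_
      (h1.trans h2.symm)
    rw [hyy]
    exact h4.2
  have himg : (fib f (f.eval z)).image φ = Polynomial.nthRootsFinset f.natDegree (1 : ℂ) := by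
    apply Finset.eq_of_subset_of_card_le
    · intro v hv
      obtain ⟨y, hy, rfl⟩ := Finset.mem_image.mp hv
      rw [Polynomial.mem_nthRootsFinset (by omega)]
      exact (hφ y ((mem_fib hf).mp hy)).1
    · rw [hT, Finset.card_image_of_injOn hinj, hcard]
  have hw' : w ∈ (fib f (f.eval z)).image φ := by
    rw [himg, Polynomial.mem_nthRootsFinset (by omega)]
    exact hw
  obtain ⟨y, hy, hyw⟩ := Finset.mem_image.mp hw'
  have h1 : f.eval y = f.eval z := (mem_fib hf).mp hy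
  refine ⟨y, h1, ?_⟩
  have h3 := (hφ y h1).2
  rw [hyw] at h3
  exact h3

end H12IT
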