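import Pool.Agent.H12.IT.Num

set_option autoImplicit false

/-! PROJECT IT, module Hom: the programs commute with homomorphisms. -/

open Polynomial

namespace H12IT

open Ar

/-- homomorphisms of polymorphic arithmetic -/
structure IsHom {A B : Type} [Ar A] [Ar B] (f : A → B) : Prop where
  add : ∀ x y, f (Ar.add x y) = Ar.add (f x) (f y)
  mul : ∀ x y, f (Ar.mul x y) = Ar.mul (f x) (f y)
  cst : ∀ q, f (Ar.cst q) = Ar.cst q

section hom

variable {A B : Type} [Ar A] [Ar B] {f : A → B}

theorem IsHom.zer (h : IsHom f) : f zer = zer := h.cst _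

theorem IsHom.one (h : IsHom f) : f one = one := h.cst _

theorem IsHom.sub (h : IsHom f) (x y : A) : f (sub x y) = sub (f x) (f y) := by
  unfold H12IT.sub
  rw [h.add, h.mul, h.cst]

theorem IsHom.getD (h : IsHom f) (l : List A) (n : ℕ) :
    f (l.getD n H12IT.zer) = (l.map f).getD n H12IT.zer := by
  rw [← h.zer, List.getD_map]

theorem IsHom.hor (h : IsHom f) (l : List A) (x : A) :
    f (hor l x) = H12IT.hor (l.map f) (f x) := by
  unfold H12IT.hor
  induction l with
  | nil => exact h.zer
  | cons a l ih =>
    simp only [List.foldr_cons, List.map_cons, h.add, h.mul]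
    rw [ih]

theorem IsHom.horQ (h : IsHom f) (l : List Q3) (x : A) :
    f (horQ l x) = H12IT.horQ l (f x) := by
  unfold H12IT.horQ
  induction l with
  | nil => exact h.zer
  | cons a l ih =>
    simp only [List.foldr_cons, h.add, h.mul, h.cst]
    rw [ih]

theorem IsHom.nst (h : IsHom f) (l : List A) (n : ℕ) (x : A) :
    f (nst l n x) = H12IT.nst (l.map f) n (f x) := by
  induction n with
  | zero => rfl
  | succ n ih =>
    show f (H12IT.hor l (H12IT.nst l n x)) =
      H12IT.hor (l.map f) (H12IT.nst (l.map f) n (f x))
    rw [h.hor, ih]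

theorem IsHom.dot (h : IsHom f) (n : ℕ) (v p : List A) :
    f (dot n v p) = H12IT.dot n (v.map f) (p.map f) := by
  unfold H12IT.dot
  generalize List.range n = r
  induction r with
  | nil => exact h.zer
  | cons j r ih =>
    simp only [List.foldr_cons, h.add, h.mul, h.getD]
    rw [ih]

theorem IsHom.blk (B' : List (List A)) (k : ℕ) :
    (blk B' k).map f = H12IT.blk (B'.map (fun b => b.map f)) k := by
  unfold H12IT.blk
  have h1 := List.getD_map (l := B') (d := ([] : List A)) (f := fun b : List A => b.map f) (n := k)
  simpa using h1.symm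

theorem hom_eqn (h : IsHom f) (n : ℕ) (P R p : List A) (z : ℕ) :
    f (eqn n P R p z) = eqn n (P.map f) (R.map f) (p.map f) z := by
  unfold eqn
  rw [h.sub, h.hor, h.hor, h.cst, h.nst, h.hor, h.cst]

theorem hom_rab (h : IsHom f) (d : ℕ) (q y : List A) (o : List (List Q3)) (t : A) :
    f (rab d q y o t) = rab d (q.map f) (y.map f) o (f t) := by
  unfold rab
  rw [h.sub, h.dot, h.one, List.map_map]
  congr 3
  funext j
  simp only [Function.comp, h.sub, h.getD, h.horQ]

theorem IsHom.sysE (h : IsHom f) (d : ℕ) (P : List A) (B' : List (List A)) :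
    (sysE d P B').map f = H12IT.sysE d (P.map f) (B'.map (fun b => b.map f)) := by
  have e1 : ∀ k, (H12IT.blk B' k).map f = H12IT.blk (B'.map (fun b => b.map f)) k :=
    fun k => IsHom.blk (f := f) B' k
  unfold H12IT.sysE
  simp only [List.map_append, List.map_cons, List.map_nil, h.sub, h.dot, h.one, e1,
    List.map_drop, List.map_map]
  congr 2
  · apply List.map_congr_left
    intro z _
    simp only [Function.comp, hom_eqn h, e1]
  · apply List.map_congr_left
    intro z _
    simp only [Function.comp, hom_eqn h, e1, List.map_append, List.map_cons, List.map_nil,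
      h.zer, h.one]

theorem IsHom.PL (h : IsHom f) (d : ℕ) (cs as : List (List Q3)) (t : A) :
    (PL d cs as t).map f = H12IT.PL d cs as (f t) := by
  unfold H12IT.PL
  rw [List.map_map]
  apply List.map_congr_left
  intro j _
  simp only [Function.comp, h.horQ]

theorem IsHom.evB (h : IsHom f) (S : List (List (List Q3))) (t : A) :
    (evB S t).map (fun b => b.map f) = H12IT.evB S (f t) := by
  unfold H12IT.evB
  rw [List.map_map]
  apply List.map_congr_left
  intro b _
  simp only [Function.comp, List.map_map]
  apply List.map_congr_left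
  intro l _
  simp only [Function.comp, h.horQ]

theorem IsHom.allE (h : IsHom f) (d : ℕ) (cs as : List (List Q3)) (M : List Q3)
    (S : List (List (List (List Q3)))) (t : A) (B' Y : List (List A)) :
    (allE d cs as M S t B' Y).map f = H12IT.allE d cs as M S (f t)
      (B'.map (fun b => b.map f)) (Y.map (fun b => b.map f)) := by
  have e1 : ∀ k, (H12IT.blk B' k).map f = H12IT.blk (B'.map (fun b => b.map f)) k :=
    fun k => IsHom.blk (f := f) B' k
  have e2 : ∀ k, (Y.getD k []).map f = (Y.map (fun b => b.map f)).getD k [] := fun k => by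
    have h1 := List.getD_map (l := Y) (d := ([] : List A)) (f := fun b : List A => b.map f) (n := k)
    simpa using h1.symm
  unfold H12IT.allE
  rw [List.map_cons, List.map_append, h.horQ, h.sysE, h.PL, List.map_map]
  congr 2
  apply List.map_congr_left
  intro i _
  simp only [Function.comp, hom_rab h, e1, e2]

end hom

/-- lengths -/
theorem sysE_length {A : Type} [Ar A] (d : ℕ) (P : List A) (B : List (List A)) :
    (sysE d P B).length = 2 * TT d + 2 := by
  unfold sysE
  simp only [List.length_append, List.length_cons, List.length_nil, List.length_map,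
    List.length_range]
  ring

theorem allE_length {A : Type} [Ar A] (d : ℕ) (cs as : List (List Q3)) (M : List Q3)
    (S : List (List (List (List Q3)))) (t : A) (B Y : List (List A)) :
    (allE d cs as M S t B Y).length = 2 * TT d + 3 + S.length := by
  unfold allE
  simp only [List.length_append, List.length_cons, List.length_map, List.length_range,
    sysE_length]
  ring

theorem algHom_isHom {A B : Type} [CommRing A] [CommRing B] [Algebra ℚ A] [Algebra ℚ B]
    (f : A →ₐ[ℚ] B) : IsHom (f : A → B) where
  add := fun x y => map_add f x y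
  mul := fun x y => map_mul f x y
  cst := fun q => f.commutes (rat q)

theorem gau_isHom : IsHom gau where
  add := fun x y => by
    show gau (add3 x.1 y.1, add3 x.2 y.2) = gau x + gau y
    unfold gau
    simp only [rat_add3]
    push_cast
    ring
  mul := fun x y => by
    show gau (add3 (mul3 x.1 y.1) (neg3 (mul3 x.2 y.2)),
      add3 (mul3 x.1 y.2) (mul3 x.2 y.1)) = gau x * gau y
    unfold gau
    simp only [rat_add3, rat_mul3, rat_neg3]
    push_cast
    linear_combination (-((rat x.2 : ℚ) : ℂ) * ((rat y.2 : ℚ) : ℂ)) * Complex.I_mul_I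
  cst := fun q => by
    show gau (q, z3) = algebraMap ℚ ℂ (rat q)
    unfold gau
    simp only [rat_z3, eq_ratCast]
    push_cast
    ring

section alg

variable {A : Type} [CommRing A] [Algebra ℚ A]

theorem zer_alg : (zer : A) = 0 := by
  show algebraMap ℚ A (rat z3) = 0
  rw [rat_z3, map_zero]

theorem one_alg : (one : A) = 1 := by
  show algebraMap ℚ A (rat o3) = 1
  rw [rat_o3, map_one]

theorem sub_alg (x y : A) : sub x y = x - y := by
  show x + algebraMap ℚ A (rat m3) * y = x - y
  rw [rat_m3, map_neg, map_one]
  ring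

omit [Algebra ℚ A] in
theorem hom_foldr_sum (g : ℕ → A) (l : List ℕ) :
    l.foldr (fun j y => g j + y) 0 = (l.map g).sum := by
  induction l with
  | nil => rfl
  | cons j l ih => rw [List.foldr_cons, List.map_cons, List.sum_cons, ih]

omit [Algebra ℚ A] in
theorem hom_sum_range (g : ℕ → A) (n : ℕ) :
    ((List.range n).map g).sum = ∑ j ∈ Finset.range n, g j := by
  induction n with
  | zero => simp
  | succ n ih =>
    rw [List.range_succ, List.map_append, List.sum_append, ih, Finset.sum_range_succ]
    simp

theorem dot_alg (n : ℕ) (v p : List A) :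
    dot n v p = ∑ j ∈ Finset.range n, v.getD j 0 * p.getD j 0 := by
  rw [← hom_sum_range, ← hom_foldr_sum]
  unfold dot
  rw [zer_alg]
  rfl

theorem cst_nat (n : ℕ) : (cst (n3 n) : A) = (n : A) := by
  show algebraMap ℚ A (rat (n3 n)) = (n : A)
  rw [rat_n3, map_natCast]

/-- the polynomial with code `l` -/
noncomputable def pq (l : List Q3) : ℚ[X] := horQ l (X : ℚ[X])

theorem horQ_pq (l : List Q3) (x : A) : horQ l x = Polynomial.aeval x (pq l) := by
  have h := (algHom_isHom (Polynomial.aeval x : ℚ[X] →ₐ[ℚ] A)).horQ l X
  rw [Polynomial.aeval_X] at h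
  exact h.symm

end alg

theorem evalL_eq (l : List Q3) (x : ℂ) : evalL l x = horQ l x := by
  induction l with
  | nil => exact (zer_alg (A := ℂ)).symm
  | cons a l ih =>
    show ((rat a : ℚ) : ℂ) + x * evalL l x = algebraMap ℚ ℂ (rat a) + x * horQ l x
    rw [ih, eq_ratCast]

theorem evalL_pq (l : List Q3) (x : ℂ) : evalL l x = Polynomial.aeval x (pq l) := by
  rw [evalL_eq, horQ_pq]

theorem hom_pq_nil : pq [] = 0 := zer_alg (A := ℚ[X])

theorem hom_pq_cons (a : Q3) (l : List Q3) : pq (a :: l) = C (rat a) + X * pq l := rfl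

theorem hom_pq_o3 : pq [o3] = 1 := by
  rw [hom_pq_cons, hom_pq_nil, rat_o3]
  simp

theorem pq_surj (p : ℚ[X]) : ∃ l : List Q3, pq l = p := by
  have key : ∀ n : ℕ, ∀ p : ℚ[X], p.natDegree ≤ n → ∃ l : List Q3, pq l = p := by
    intro n
    induction n with
    | zero =>
      intro p hp
      obtain ⟨a, ha⟩ := rat_surj (p.coeff 0)
      refine ⟨[a], ?_⟩
      rw [hom_pq_cons, hom_pq_nil, ha, mul_zero, add_zero]
      exact (Polynomial.eq_C_of_natDegree_le_zero hp).symm
    | succ n ih =>
      intro p hp
      obtain ⟨a, ha⟩ := rat_surj (p.coeff 0)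
      obtain ⟨l, hl⟩ := ih p.divX (by
        rw [Polynomial.natDegree_divX_eq_natDegree_tsub_one]
        omega)
      refine ⟨a :: l, ?_⟩
      rw [hom_pq_cons, ha, hl]
      have h1 := Polynomial.divX_mul_X_add p
      linear_combination h1
  exact key _ p le_rfl

/-- monic polynomials of positive degree have a code `ml ++ [1]` -/
theorem pq_monic {p : ℚ[X]} (hp : p.Monic) :
    ∃ ml : List Q3, ml.length = p.natDegree ∧ pq (ml ++ [o3]) = p := by
  have key : ∀ n : ℕ, ∀ p : ℚ[X], p.Monic → p.natDegree = n →
      ∃ ml : List Q3, ml.length = n ∧ pq (ml ++ [o3]) = p := by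
    intro n
    induction n with
    | zero =>
      intro p hp h0
      refine ⟨[], rfl, ?_⟩
      rw [List.nil_append, hom_pq_o3]
      exact (hp.natDegree_eq_zero.mp h0).symm
    | succ n ih =>
      intro p hp h0
      obtain ⟨a, ha⟩ := rat_surj (p.coeff 0)
      have h1 : p.divX.natDegree = n := by
        rw [Polynomial.natDegree_divX_eq_natDegree_tsub_one]
        omega
      have h2 : p.divX.Monic := by
        unfold Polynomial.Monic Polynomial.leadingCoeff
        rw [h1, Polynomial.coeff_divX]
        have h3 := hp.coeff_natDegree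
        rw [h0] at h3
        exact h3
      obtain ⟨ml, hl, hm⟩ := ih p.divX h2 h1
      refine ⟨a :: ml, by rw [List.length_cons, hl], ?_⟩
      rw [List.cons_append, hom_pq_cons, ha, hm]
      have h1 := Polynomial.divX_mul_X_add p
      linear_combination h1
  exact key _ p hp rfl

theorem pq_snoc (ml : List Q3) :
    (pq (ml ++ [o3])).Monic ∧ (pq (ml ++ [o3])).natDegree = ml.length := by
  induction ml with
  | nil =>
    rw [List.nil_append, hom_pq_o3]
    exact ⟨Polynomial.monic_one, Polynomial.natDegree_one⟩
  | cons a ml ih =>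
    rw [List.cons_append, hom_pq_cons]
    obtain ⟨h1, h2⟩ := ih
    have h3 : (X * pq (ml ++ [o3])).Monic := Polynomial.monic_X.mul h1
    have h4 : (X * pq (ml ++ [o3])).natDegree = ml.length + 1 := by
      rw [Polynomial.monic_X.natDegree_mul h1, Polynomial.natDegree_X, h2, add_comm]
    refine ⟨?_, ?_⟩
    · apply Polynomial.Monic.add_of_right h3
      rw [Polynomial.degree_eq_natDegree h3.ne_zero, h4]
      refine lt_of_le_of_lt Polynomial.degree_C_le ?_
      exact_mod_cast Nat.succ_pos _
    · rw [Polynomial.natDegree_C_add, h4, List.length_cons]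

end H12IT
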