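import Pool.Agent.H12.IT.Sps

set_option autoImplicit false

/-! PROJECT IT, module Inp: the check of the input data. -/

open Polynomial

namespace H12IT

open Ar

theorem inp_bnd_cons (a : Q3) (l : List Q3) (rho : Q3) :
    bnd (a :: l) rho = (add3 (abs3 a) (mul3 rho (bnd l rho).1),
      add3 (bnd l rho).1 (mul3 rho (bnd l rho).2)) := rfl

theorem inp_evalL_cons (a : Q3) (l : List Q3) (x : ℂ) :
    evalL (a :: l) x = ((rat a : ℚ) : ℂ) + x * evalL l x := rfl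

theorem inp_norm_rat (q : ℚ) : ‖((q : ℚ) : ℂ)‖ = |((q : ℚ) : ℝ)| := by
  have h : ((q : ℚ) : ℂ) = (((q : ℚ) : ℝ) : ℂ) := by push_cast; rfl
  rw [h, Complex.norm_real, Real.norm_eq_abs]

theorem inp_nonneg {l : List Q3} {rho : Q3} (h : 0 ≤ ((rat rho : ℚ) : ℝ)) :
    0 ≤ ((rat (bnd l rho).1 : ℚ) : ℝ) ∧ 0 ≤ ((rat (bnd l rho).2 : ℚ) : ℝ) := by
  induction l with
  | nil =>
    show 0 ≤ ((rat z3 : ℚ) : ℝ) ∧ 0 ≤ ((rat z3 : ℚ) : ℝ)
    rw [rat_z3]
    simp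
  | cons a l ih =>
    rw [inp_bnd_cons]
    obtain ⟨h1, h2⟩ := ih
    constructor
    · show 0 ≤ ((rat (add3 (abs3 a) (mul3 rho (bnd l rho).1)) : ℚ) : ℝ)
      rw [rat_add3, rat_abs3, rat_mul3]
      push_cast
      positivity
    · show 0 ≤ ((rat (add3 (bnd l rho).1 (mul3 rho (bnd l rho).2)) : ℚ) : ℝ)
      rw [rat_add3, rat_mul3]
      push_cast
      positivity

/-- the bounds -/
theorem bnd_le {l : List Q3} {rho : Q3} {x y : ℂ} (hx : ‖x‖ ≤ ((rat rho : ℚ) : ℝ))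
    (hy : ‖y‖ ≤ ((rat rho : ℚ) : ℝ)) :
    ‖evalL l x‖ ≤ ((rat (bnd l rho).1 : ℚ) : ℝ) ∧
      ‖evalL l x - evalL l y‖ ≤ ((rat (bnd l rho).2 : ℚ) : ℝ) * ‖x - y‖ := by
  have h0 : 0 ≤ ((rat rho : ℚ) : ℝ) := le_trans (norm_nonneg x) hx
  induction l with
  | nil =>
    constructor
    · show ‖(0 : ℂ)‖ ≤ ((rat z3 : ℚ) : ℝ)
      rw [rat_z3]
      simp
    · show ‖(0 : ℂ) - 0‖ ≤ ((rat z3 : ℚ) : ℝ) * ‖x - y‖
      rw [rat_z3]
      simp
  | cons a l ih =>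
    obtain ⟨h1, h2⟩ := ih
    have hB := (inp_nonneg (l := l) h0).1
    constructor
    · rw [inp_bnd_cons]
      show _ ≤ ((rat (add3 (abs3 a) (mul3 rho (bnd l rho).1)) : ℚ) : ℝ)
      rw [rat_add3, rat_abs3, rat_mul3, inp_evalL_cons]
      push_cast
      refine le_trans (norm_add_le _ _) ?_
      rw [inp_norm_rat, norm_mul]
      have := mul_le_mul hx h1 (norm_nonneg _) h0
      linarith
    · rw [inp_bnd_cons]
      show _ ≤ ((rat (add3 (bnd l rho).1 (mul3 rho (bnd l rho).2)) : ℚ) : ℝ) * _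
      rw [rat_add3, rat_mul3, inp_evalL_cons, inp_evalL_cons]
      push_cast
      have e : ((rat a : ℚ) : ℂ) + x * evalL l x - (((rat a : ℚ) : ℂ) + y * evalL l y)
          = (x - y) * evalL l x + y * (evalL l x - evalL l y) := by ring
      rw [e]
      refine le_trans (norm_add_le _ _) ?_
      rw [norm_mul, norm_mul]
      have k1 := mul_le_mul_of_nonneg_left h1 (norm_nonneg (x - y))
      have k2 := mul_le_mul hy h2 (norm_nonneg _) h0
      nlinarith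

theorem inp_nsq (g : G2) : ((rat (nsq g) : ℚ) : ℝ) = ‖gau g‖ ^ 2 := by
  unfold nsq gau
  rw [rat_add3, rat_mul3, rat_mul3]
  have h : ((rat g.1 : ℚ) : ℂ) + ((rat g.2 : ℚ) : ℂ) * Complex.I
      = (((rat g.1 : ℚ) : ℝ) : ℂ) + (((rat g.2 : ℚ) : ℝ) : ℂ) * Complex.I := by push_cast; rfl
  rw [h, ← Complex.normSq_eq_norm_sq, Complex.normSq_add_mul_I]
  push_cast
  ring

theorem inp_subG (g h : G2) : gau (subG g h) = gau g - gau h := by
  unfold subG gau
  simp only [rat_add3, rat_neg3]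
  push_cast
  ring

theorem inp_re (g : G2) : (gau g).re = ((rat g.1 : ℚ) : ℝ) ∧ (gau g).im = ((rat g.2 : ℚ) : ℝ) := by
  unfold gau
  constructor <;> simp

theorem inp_ball {q0 : G2} {ep rho : Q3}
    (h : ¬ lt3 rho (add3 (add3 (abs3 q0.1) (abs3 q0.2)) ep)) {β : ℂ}
    (hb : ‖β - gau q0‖ ≤ ((rat ep : ℚ) : ℝ)) :
    ‖β‖ ≤ ((rat rho : ℚ) : ℝ) ∧ ‖gau q0‖ ≤ ((rat rho : ℚ) : ℝ) := by
  rw [lt3_iff, not_lt, rat_add3, rat_add3, rat_abs3, rat_abs3] at h
  have h1 : |((rat q0.1 : ℚ) : ℝ)| + |((rat q0.2 : ℚ) : ℝ)| + ((rat ep : ℚ) : ℝ)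
      ≤ ((rat rho : ℚ) : ℝ) := by
    exact_mod_cast h
  have h2 : ‖gau q0‖ ≤ |((rat q0.1 : ℚ) : ℝ)| + |((rat q0.2 : ℚ) : ℝ)| := by
    have := Complex.norm_le_abs_re_add_abs_im (gau q0)
    rwa [(inp_re q0).1, (inp_re q0).2] at this
  have h3 : 0 ≤ ((rat ep : ℚ) : ℝ) := le_trans (norm_nonneg _) hb
  have h4 : ‖β‖ ≤ ‖β - gau q0‖ + ‖gau q0‖ := by
    have := norm_add_le (β - gau q0) (gau q0)
    rwa [sub_add_cancel] at this
  constructor <;> linarith

theorem inp_gau_hor (l : List Q3) (q : G2) : gau (horQ l q) = evalL l (gau q) := by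
  rw [gau_isHom.horQ, evalL_eq]

theorem chkIn_sound {d : ℕ} {L : List Num} {ml : List Q3} {q0 : G2} {ep rho : Q3}
    {as : List (List Q3)} {us : List Q3} {hs : List (List Q3)} {g0 : ℕ} (hg : g0.Prime)
    (h : ChkIn d L ml q0 ep rho as us hs g0) {β : ℂ} (hβ : evalL (ml ++ [o3]) β = 0)
    (hb : ‖β - gau q0‖ ≤ ((rat ep : ℚ) : ℝ)) {j : ℕ} (hj : j < d + 1) {α : ℂ}
    (hα : Isolates (L.getD j (([], (z3, z3), z3), [])).1 α) : evalL (as.getD j []) β = α := by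
  obtain ⟨h0, h1⟩ := h
  obtain ⟨ha, hb1, hc, hd⟩ := h1 j hj
  obtain ⟨hβ1, hq1⟩ := inp_ball h0 hb
  set Lj := L.getD j (([], (z3, z3), z3), []) with hLj
  have hrho : 0 ≤ ((rat rho : ℚ) : ℝ) := le_trans (norm_nonneg _) hβ1
  refine hα.2.2 _ ?_ ?_
  · obtain ⟨e, he, hv, hz⟩ := eval_exists (fun _ => β)
    have h2 := hz _ ha
    rw [he.sub, he.horQ, he.horQ, he.mul, he.horQ, he.horQ, hv g0 hg, sub_alg] at h2
    rw [evalL_eq] at hβ
    have h3 : (Ar.mul (horQ (hs.getD j []) β) (horQ (ml ++ [o3]) β) : ℂ)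
        = horQ (hs.getD j []) β * horQ (ml ++ [o3]) β := rfl
    rw [h3, hβ, mul_zero, sub_zero] at h2
    rw [evalL_eq, evalL_eq]
    exact h2
  · have h2 := (bnd_le (l := as.getD j []) hβ1 hq1).2
    have hB := (inp_nonneg (l := as.getD j []) hrho).2
    have h3 : ‖evalL (as.getD j []) β - evalL (as.getD j []) (gau q0)‖
        ≤ ((rat (bnd (as.getD j []) rho).2 : ℚ) : ℝ) * ((rat ep : ℚ) : ℝ) :=
      le_trans h2 (mul_le_mul_of_nonneg_left hb hB)
    rw [lt3_iff, not_lt, rat_z3] at hb1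
    rw [lt3_iff, not_lt, rat_mul3] at hc
    rw [lt3_iff, rat_add3, rat_mul3] at hd
    have hu : 0 ≤ ((rat (us.getD j z3) : ℚ) : ℝ) := by exact_mod_cast hb1
    have hc' : ((rat (nsq (subG (horQ (as.getD j []) q0) Lj.1.2.1)) : ℚ) : ℝ)
        ≤ ((rat (us.getD j z3) : ℚ) : ℝ) * ((rat (us.getD j z3) : ℚ) : ℝ) := by exact_mod_cast hc
    rw [inp_nsq, inp_subG, inp_gau_hor] at hc'
    have hd' : ((rat (us.getD j z3) : ℚ) : ℝ)
        + ((rat ep : ℚ) : ℝ) * ((rat (bnd (as.getD j []) rho).2 : ℚ) : ℝ)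
        < ((rat Lj.1.2.2 : ℚ) : ℝ) := by exact_mod_cast hd
    have h4 : ‖evalL (as.getD j []) (gau q0) - gau Lj.1.2.1‖ ≤ ((rat (us.getD j z3) : ℚ) : ℝ) := by
      refine abs_le_of_sq_le_sq' ?_ hu |>.2
      rw [sq, sq] at *
      linarith
    have h5 := norm_add_le (evalL (as.getD j []) β - evalL (as.getD j []) (gau q0))
      (evalL (as.getD j []) (gau q0) - gau Lj.1.2.1)
    rw [sub_add_sub_cancel] at h5
    linarith

/-- codes of quotients -/
theorem quot_code {ml : List Q3} (hi : Irreducible (pq (ml ++ [o3]))) {β : ℂ}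
    (hβ : evalL (ml ++ [o3]) β = 0) {g : ℕ} {s : SP} {F : ℚ[X]}
    {φ : ℚ[X] →ₐ[ℚ] MonoidAlgebra ℚ ℕ} (hφ : φ X = sem (var g)) (hs : sem s = φ F)
    (hF : Polynomial.aeval β F = 0) :
    ∃ h : List Q3, ZT (sub s (mul (horQ h (var g)) (horQ (ml ++ [o3]) (var g)))) := by
  rw [evalL_pq] at hβ
  have hdvd : pq (ml ++ [o3]) ∣ F := by
    by_contra hn
    have hco : IsCoprime (pq (ml ++ [o3])) F := (hi.coprime_iff_not_dvd).mpr hn
    obtain ⟨a, b, hab⟩ := hco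
    have := congrArg (Polynomial.aeval β) hab
    simp [hβ, hF] at this
  obtain ⟨H, hH⟩ := hdvd
  obtain ⟨h, hh⟩ := pq_surj H
  refine ⟨h, (ZT_iff _).mpr ?_⟩
  have key : ∀ l : List Q3, sem (horQ l (var g)) = φ (pq l) := by
    intro l
    rw [sem_isHom.horQ, horQ_pq, ← hφ, Polynomial.aeval_algHom_apply, Polynomial.aeval_X_left_apply]
  rw [sem_isHom.sub, sem_isHom.mul, key, key, hh, hs, sub_alg, hH]
  show φ (pq (ml ++ [o3]) * H) - φ H * φ (pq (ml ++ [o3])) = 0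
  rw [map_mul, mul_comm, sub_self]

theorem inp_min (n : ℕ) (p : ℕ → ℝ → Prop)
    (h : ∀ j < n, ∃ δ : ℝ, 0 < δ ∧ ∀ δ', 0 < δ' → δ' ≤ δ → p j δ') :
    ∃ δ : ℝ, 0 < δ ∧ ∀ j < n, p j δ := by
  have key : ∀ m ≤ n, ∃ δ : ℝ, 0 < δ ∧ ∀ j < m, ∀ δ', 0 < δ' → δ' ≤ δ → p j δ' := by
    intro m
    induction m with
    | zero => exact fun _ => ⟨1, one_pos, fun j hj => absurd hj (Nat.not_lt_zero j)⟩
    | succ m ih =>
      intro hm
      obtain ⟨δ1, h1, k1⟩ := ih (by omega)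
      obtain ⟨δ2, h2, k2⟩ := h m (by omega)
      refine ⟨min δ1 δ2, lt_min h1 h2, fun j hj δ' hδ hle => ?_⟩
      rcases Nat.lt_succ_iff_lt_or_eq.mp hj with hj | rfl
      · exact k1 j hj δ' hδ (le_trans hle (min_le_left _ _))
      · exact k2 δ' hδ (le_trans hle (min_le_right _ _))
  obtain ⟨δ, h1, h2⟩ := key n le_rfl
  exact ⟨δ, h1, fun j hj => h2 j hj δ h1 le_rfl⟩

theorem chkIn_exists {d : ℕ} {L : List Num} {ml : List Q3}
    (hi : Irreducible (pq (ml ++ [o3]))) {β : ℂ} (hβ : evalL (ml ++ [o3]) β = 0)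
    {as : List (List Q3)} (g0 : ℕ)
    (h : ∀ j < d + 1, Isolates (L.getD j (([], (z3, z3), z3), [])).1 (evalL (as.getD j []) β)) :
    ∃ (us : List Q3) (hs : List (List Q3)) (rho : Q3) (δ : ℝ), 0 < δ ∧ ∀ (q0 : G2) (ep : Q3),
      0 < rat ep → ((rat ep : ℚ) : ℝ) < δ → ‖β - gau q0‖ < δ →
      ChkIn d L ml q0 ep rho as us hs g0 := by
  classical
  obtain ⟨φ, hφ⟩ := one_var g0
  have key : ∀ l : List Q3, sem (horQ l (var g0)) = φ (pq l) := by
    intro l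
    rw [sem_isHom.horQ, horQ_pq, ← hφ, Polynomial.aeval_algHom_apply, Polynomial.aeval_X_left_apply]
  -- the quotients
  have hq : ∀ j : ℕ, ∃ hh : List Q3, j < d + 1 →
      ZT (sub (horQ (L.getD j (([], (z3, z3), z3), [])).1.1 (horQ (as.getD j []) (var g0)))
        (mul (horQ hh (var g0)) (horQ (ml ++ [o3]) (var g0)))) := by
    intro j
    by_cases hj : j < d + 1
    · obtain ⟨hh, hk⟩ := quot_code (s := horQ (L.getD j (([], (z3, z3), z3), [])).1.1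
        (horQ (as.getD j []) (var g0)))
        (F := (pq (L.getD j (([], (z3, z3), z3), [])).1.1).comp (pq (as.getD j []))) hi hβ hφ
        (by
          rw [sem_isHom.horQ, key, horQ_pq, Polynomial.aeval_algHom_apply]
          congr 1)
        (by
          rw [Polynomial.aeval_comp, ← evalL_pq, ← evalL_pq]
          exact (h j hj).1)
      exact ⟨hh, fun _ => hk⟩
    · exact ⟨[], fun hj' => absurd hj' hj⟩
  choose hh hhk using hq
  -- the bounds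
  have hu : ∀ j : ℕ, ∃ u : Q3, j < d + 1 →
      ‖evalL (as.getD j []) β - gau (L.getD j (([], (z3, z3), z3), [])).1.2.1‖
        < ((rat u : ℚ) : ℝ) ∧ ((rat u : ℚ) : ℝ)
        < ((rat (L.getD j (([], (z3, z3), z3), [])).1.2.2 : ℚ) : ℝ) := by
    intro j
    by_cases hj : j < d + 1
    · obtain ⟨q, h1, h2⟩ := exists_rat_btwn (h j hj).2.1
      obtain ⟨u, rfl⟩ := rat_surj q
      exact ⟨u, fun _ => ⟨h1, h2⟩⟩
    · exact ⟨z3, fun hj' => absurd hj' hj⟩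
  choose u huk using hu
  obtain ⟨N, hN⟩ := exists_nat_gt (|β.re| + |β.im| + 3)
  have hrN : ((rat (n3 N) : ℚ) : ℝ) = N := by rw [rat_n3]; push_cast; rfl
  have hr0 : 0 ≤ ((rat (n3 N) : ℚ) : ℝ) := by rw [hrN]; positivity
  obtain ⟨δ, hδ, hk⟩ := inp_min (d + 2) (fun j δ => if j < d + 1 then
      ‖evalL (as.getD j []) β - gau (L.getD j (([], (z3, z3), z3), [])).1.2.1‖
        + ((rat (bnd (as.getD j []) (n3 N)).2 : ℚ) : ℝ) * δ ≤ ((rat (u j) : ℚ) : ℝ) ∧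
      ((rat (u j) : ℚ) : ℝ) + δ * ((rat (bnd (as.getD j []) (n3 N)).2 : ℚ) : ℝ)
        < ((rat (L.getD j (([], (z3, z3), z3), [])).1.2.2 : ℚ) : ℝ) else δ ≤ 1) (by
    intro j _
    by_cases hj : j < d + 1
    · obtain ⟨k1, k2⟩ := huk j hj
      set a1 := ‖evalL (as.getD j []) β - gau (L.getD j (([], (z3, z3), z3), [])).1.2.1‖
      set a2 := ((rat (u j) : ℚ) : ℝ)
      set a3 := ((rat (L.getD j (([], (z3, z3), z3), [])).1.2.2 : ℚ) : ℝ)
      set B := ((rat (bnd (as.getD j []) (n3 N)).2 : ℚ) : ℝ) with hBd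
      have hB : 0 ≤ B := (inp_nonneg (l := as.getD j []) hr0).2
      refine ⟨min (a2 - a1) (a3 - a2) / (2 * (B + 1)), ?_, ?_⟩
      · have : 0 < min (a2 - a1) (a3 - a2) := lt_min (by linarith) (by linarith)
        positivity
      · intro δ' hδ' hle
        rw [le_div_iff₀ (by positivity)] at hle
        have e1 := min_le_left (a2 - a1) (a3 - a2)
        have e2 := min_le_right (a2 - a1) (a3 - a2)
        rw [if_pos hj]
        constructor
        · nlinarith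
        · nlinarith
    · refine ⟨1, one_pos, fun δ' _ hle => ?_⟩
      rw [if_neg hj]
      exact hle)
  have hδ1 : δ ≤ 1 := by
    have := hk (d + 1) (by omega)
    rwa [if_neg (by omega)] at this
  refine ⟨(List.range (d + 1)).map u, (List.range (d + 1)).map hh, n3 N, δ, hδ,
    fun q0 ep hep hepd hqd => ?_⟩
  have hepR : 0 < ((rat ep : ℚ) : ℝ) := by exact_mod_cast hep
  have hrho : |((rat q0.1 : ℚ) : ℝ)| + |((rat q0.2 : ℚ) : ℝ)| + ((rat ep : ℚ) : ℝ)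
      ≤ ((rat (n3 N) : ℚ) : ℝ) := by
    have e1 := Complex.abs_re_le_norm (β - gau q0)
    have e2 := Complex.abs_im_le_norm (β - gau q0)
    rw [Complex.sub_re, (inp_re q0).1] at e1
    rw [Complex.sub_im, (inp_re q0).2] at e2
    have e3 : |((rat q0.1 : ℚ) : ℝ)| ≤ |β.re| + |β.re - ((rat q0.1 : ℚ) : ℝ)| := by
      have := abs_sub_abs_le_abs_sub ((rat q0.1 : ℚ) : ℝ) β.re
      rw [abs_sub_comm] at this
      linarith
    have e4 : |((rat q0.2 : ℚ) : ℝ)| ≤ |β.im| + |β.im - ((rat q0.2 : ℚ) : ℝ)| := by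
      have := abs_sub_abs_le_abs_sub ((rat q0.2 : ℚ) : ℝ) β.im
      rw [abs_sub_comm] at this
      linarith
    rw [hrN]
    linarith
  have hrho' : ¬ lt3 (n3 N) (add3 (add3 (abs3 q0.1) (abs3 q0.2)) ep) := by
    rw [lt3_iff, not_lt, rat_add3, rat_add3, rat_abs3, rat_abs3]
    exact_mod_cast hrho
  refine ⟨hrho', fun j hj => ?_⟩
  have gu : ((List.range (d + 1)).map u).getD j z3 = u j := by
    simp [List.getD_eq_getElem?_getD, hj]
  have gh : ((List.range (d + 1)).map hh).getD j [] = hh j := by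
    simp [List.getD_eq_getElem?_getD, hj]
  rw [gu, gh]
  have hkj := hk j (by omega)
  rw [if_pos hj] at hkj
  obtain ⟨k1, k2⟩ := hkj
  obtain ⟨m1, m2⟩ := huk j hj
  have hu0 : 0 ≤ ((rat (u j) : ℚ) : ℝ) := le_trans (norm_nonneg _) m1.le
  have hB := (inp_nonneg (l := as.getD j []) hr0).2
  refine ⟨hhk j hj, ?_, ?_, ?_⟩
  · rw [lt3_iff, not_lt, rat_z3]
    exact_mod_cast hu0
  · have hβ1 : ‖β‖ ≤ ((rat (n3 N) : ℚ) : ℝ) := by
      rw [hrN]
      have := Complex.norm_le_abs_re_add_abs_im β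
      linarith
    have hq1 : ‖gau q0‖ ≤ ((rat (n3 N) : ℚ) : ℝ) := by
      have := Complex.norm_le_abs_re_add_abs_im (gau q0)
      rw [(inp_re q0).1, (inp_re q0).2] at this
      linarith
    have h2 := (bnd_le (l := as.getD j []) hβ1 hq1).2
    have h3 := mul_le_mul_of_nonneg_left hqd.le hB
    have h5 := norm_sub_norm_le (evalL (as.getD j []) (gau q0)
      - gau (L.getD j (([], (z3, z3), z3), [])).1.2.1)
      (evalL (as.getD j []) β - gau (L.getD j (([], (z3, z3), z3), [])).1.2.1)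
    rw [sub_sub_sub_cancel_right, norm_sub_rev (evalL (as.getD j []) (gau q0))
      (evalL (as.getD j []) β)] at h5
    have h6 : ‖evalL (as.getD j []) (gau q0)
        - gau (L.getD j (([], (z3, z3), z3), [])).1.2.1‖ ≤ ((rat (u j) : ℚ) : ℝ) := by linarith
    have h7 : ((rat (nsq (subG (horQ (as.getD j []) q0)
        (L.getD j (([], (z3, z3), z3), [])).1.2.1)) : ℚ) : ℝ)
        ≤ ((rat (u j) : ℚ) : ℝ) * ((rat (u j) : ℚ) : ℝ) := by
      rw [inp_nsq, inp_subG, inp_gau_hor, ← sq]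
      exact pow_le_pow_left₀ (norm_nonneg _) h6 2
    rw [lt3_iff, not_lt, rat_mul3]
    exact_mod_cast h7
  · rw [lt3_iff, rat_add3, rat_mul3]
    have : ((rat (u j) : ℚ) : ℝ) + ((rat ep : ℚ) : ℝ) *
        ((rat (bnd (as.getD j []) (n3 N)).2 : ℚ) : ℝ)
        < ((rat (L.getD j (([], (z3, z3), z3), [])).1.2.2 : ℚ) : ℝ) := by
      have := mul_le_mul_of_nonneg_right hepd.le hB
      linarith
    exact_mod_cast this

end H12IT
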