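import Pool.Agent.H12.IT.Mul
import Pool.Agent.H12.IT.Gex

set_option autoImplicit false

/-! PROJECT IT, module Inv: a polynomial constant on the large fibres of `h` is a polynomial in `h`. -/

open Polynomial

namespace H12IT

theorem inv_aux1 {h : ℂ[X]} (hh : 1 ≤ h.natDegree) (n : ℕ) :
    ∀ F : ℂ[X], F.natDegree ≤ n → ∀ R0 : ℝ,
    (∀ z0 : ℂ, R0 ≤ ‖z0‖ → ∀ z1 : ℂ, h.eval z1 = h.eval z0 → F.eval z1 = F.eval z0) →
    ∃ G : ℂ[X], F = G.comp h := by
  induction n using Nat.strong_induction_on with
  | _ n ih =>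
    intro F hFn R0 H
    obtain ⟨Rs, hRs⟩ := germ_simple hh
    -- a large point
    obtain ⟨z0, hz0⟩ : ∃ z0 : ℂ, max R0 Rs ≤ ‖z0‖ :=
      ⟨((|max R0 Rs| : ℝ) : ℂ), by
        rw [Complex.norm_real, Real.norm_eq_abs, abs_abs]
        exact le_abs_self _⟩
    have hz0R : R0 ≤ ‖z0‖ := le_trans (le_max_left _ _) hz0
    have hz0S : Rs ≤ ‖z0‖ := le_trans (le_max_right _ _) hz0
    set c : ℂ := h.eval z0 with hc
    set p : ℂ[X] := h - C c with hp
    have hpdeg : p.natDegree = h.natDegree := by rw [hp, natDegree_sub_C]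
    have hp0 : p ≠ 0 := by
      intro h0
      rw [h0, natDegree_zero] at hpdeg
      omega
    have hroot : ∀ y : ℂ, p.eval y = h.eval y - c := by
      intro y
      rw [hp, eval_sub, eval_C]
    have hnodup : p.roots.Nodup := by
      rw [Multiset.nodup_iff_count_le_one]
      intro y
      rw [count_roots]
      by_cases hy : h.eval y = c
      · have h1 := hRs z0 hz0S y hy
        unfold mu at h1
        rw [hy] at h1
        exact le_of_eq h1
      · have h2 : ¬ p.IsRoot y := by
          rw [IsRoot, hroot]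
          exact sub_ne_zero.mpr hy
        rw [rootMultiplicity_eq_zero h2]
        exact Nat.zero_le _
    -- `p` divides `F - F(z0)`
    have hdvd : p ∣ F - C (F.eval z0) := by
      by_cases hF0 : F - C (F.eval z0) = 0
      · rw [hF0]
        exact dvd_zero _
      have hle : p.roots ≤ (F - C (F.eval z0)).roots := by
        rw [Multiset.le_iff_count]
        intro y
        by_cases hy : y ∈ p.roots
        · have h3 : p.roots.count y ≤ 1 := Multiset.nodup_iff_count_le_one.mp hnodup y
          have h4 : y ∈ (F - C (F.eval z0)).roots := by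
            rw [mem_roots hF0, IsRoot, eval_sub, eval_C, sub_eq_zero]
            rw [mem_roots hp0, IsRoot, hroot, sub_eq_zero] at hy
            exact H z0 hz0R y hy
          exact le_trans h3 (Multiset.one_le_count_iff_mem.mpr h4)
        · rw [Multiset.count_eq_zero_of_notMem hy]
          exact Nat.zero_le _
      exact (Splits.dvd_iff_roots_le_roots (IsAlgClosed.splits p) hp0 hF0).mpr hle
    obtain ⟨F1, hF1⟩ := hdvd
    have hFeq : F = C (F.eval z0) + p * F1 := by
      rw [← hF1]
      ring
    by_cases hF10 : F1 = 0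
    · refine ⟨C (F.eval z0), ?_⟩
      rw [C_comp]
      conv_lhs => rw [hFeq, hF10, mul_zero, add_zero]
    -- the degree drops
    have hdeg : F.natDegree = p.natDegree + F1.natDegree := by
      rw [← natDegree_mul hp0 hF10, ← hF1, natDegree_sub_C]
    have hlt : F1.natDegree < n := by omega
    -- `F1` is constant on the large fibres
    obtain ⟨G1, hG1⟩ := ih F1.natDegree hlt F1 le_rfl
      (max R0 ((∑ y ∈ p.roots.toFinset, ‖y‖) + 1)) (by
        intro z hz z1 hz1
        have hzR : R0 ≤ ‖z‖ := le_trans (le_max_left _ _) hz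
        have hzS : (∑ y ∈ p.roots.toFinset, ‖y‖) + 1 ≤ ‖z‖ := le_trans (le_max_right _ _) hz
        have hpz : p.eval z ≠ 0 := by
          intro h0
          have hmem : z ∈ p.roots.toFinset := by
            rw [Multiset.mem_toFinset, mem_roots hp0]
            exact h0
          have h5 : ‖z‖ ≤ ∑ y ∈ p.roots.toFinset, ‖y‖ :=
            Finset.single_le_sum (f := fun y : ℂ => ‖y‖) (fun y _ => norm_nonneg y) hmem
          linarith
        have h6 : p.eval z1 = p.eval z := by rw [hroot, hroot, hz1]
        have h7 : F.eval z1 = F.eval z := H z hzR z1 hz1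
        have h8 : ∀ y : ℂ, F.eval y - F.eval z0 = p.eval y * F1.eval y := by
          intro y
          rw [← eval_mul, ← hF1, eval_sub, eval_C]
        have h9 := h8 z1
        have h10 := h8 z
        rw [h7, h10, h6] at h9
        exact (mul_left_cancel₀ hpz h9).symm)
    refine ⟨C (F.eval z0) + (X - C c) * G1, ?_⟩
    rw [add_comp, C_comp, mul_comp, sub_comp, X_comp, C_comp, ← hG1]
    exact hFeq

theorem inv_comp {F h : ℂ[X]} (hh : 1 ≤ h.natDegree) (R0 : ℝ)
    (H : ∀ z0 : ℂ, R0 ≤ ‖z0‖ → ∀ z1 : ℂ, h.eval z1 = h.eval z0 → F.eval z1 = F.eval z0) :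
    ∃ G : ℂ[X], F = G.comp h :=
  inv_aux1 hh F.natDegree F le_rfl R0 H

end H12IT
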