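import Pool.Agent.H12.IT.Nrm
import Pool.Agent.H12.IT.Inv
import Pool.Agent.H12.IT.Bas

set_option autoImplicit false

/-! PROJECT IT, module Lcm: right factors of coprime degrees. -/

open Polynomial

namespace H12IT

/-- degree bound for the coefficients of the norm -/
private theorem lcm_deg {f g : ℂ[X]} (hf : 1 ≤ f.natDegree) (hg : 1 ≤ g.natDegree) (c : ℕ → ℂ[X])
    (hc : ∀ x y : ℂ, nrm f g x y = ∑ i ∈ Finset.range (g.natDegree + 1), (c i).eval y * x ^ i)
    {i : ℕ} (hi1 : 1 ≤ i) (hi2 : i ≤ g.natDegree) : (c i).natDegree < f.natDegree := by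
  obtain ⟨k, hk, hs⟩ := nrm_symm hf hg
  have hroots : ∀ x : ℂ, (f - C x).roots.card = f.natDegree := by
    intro x
    rw [← natDegree_sub_C (p := f) (a := x)]
    exact (IsAlgClosed.splits (f - C x)).natDegree_eq_card_roots.symm
  have hpoly : ∀ x : ℂ, ∑ i ∈ Finset.range (g.natDegree + 1), C (x ^ i) * c i =
      C k * ((f - C x).roots.map (fun s => C (g.eval s) - X)).prod := by
    intro x
    apply Polynomial.funext
    intro y
    have h1 := hc x y
    rw [hs x y] at h1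
    rw [eval_finsetSum, eval_mul, eval_C, eval_multiset_prod, Multiset.map_map]
    simp only [eval_mul, eval_C, Function.comp_apply, eval_sub, eval_X]
    rw [h1]
    exact Finset.sum_congr rfl fun i _ => mul_comm _ _
  have hprod : ∀ m : Multiset ℂ, (m.map (fun s => C (g.eval s) - X)).prod.natDegree ≤ m.card ∧
      (m.map (fun s => C (g.eval s) - X)).prod.coeff m.card = (-1) ^ m.card := by
    intro m
    induction m using Multiset.induction_on with
    | empty => simp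
    | cons s m ih =>
      obtain ⟨ih1, ih2⟩ := ih
      have hlin : (C (g.eval s) - X : ℂ[X]).natDegree ≤ 1 := by
        refine (natDegree_sub_le _ _).trans ?_
        rw [natDegree_C, natDegree_X]
        simp
      rw [Multiset.map_cons, Multiset.prod_cons, Multiset.card_cons]
      constructor
      · refine natDegree_mul_le.trans ?_
        omega
      · rw [add_comm m.card 1, coeff_mul_add_eq_of_natDegree_le hlin ih1, ih2]
        rw [coeff_sub, coeff_C_succ, coeff_X_one, zero_sub, pow_add, pow_one]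
  have hco : ∀ j : ℕ, f.natDegree ≤ j → ∃ κ : ℂ, ∀ x : ℂ,
      ∑ i ∈ Finset.range (g.natDegree + 1), x ^ i * (c i).coeff j = κ := by
    intro j hj
    rcases Nat.lt_or_ge f.natDegree j with h | h
    · refine ⟨0, fun x => ?_⟩
      have h1 := congrArg (fun q : ℂ[X] => q.coeff j) (hpoly x)
      simp only [finsetSum_coeff, coeff_C_mul] at h1
      rw [h1, coeff_eq_zero_of_natDegree_lt, mul_zero]
      have h2 := (hprod (f - C x).roots).1
      rw [hroots x] at h2
      omega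
    · have hjf : j = f.natDegree := by omega
      refine ⟨k * (-1) ^ f.natDegree, fun x => ?_⟩
      have h1 := congrArg (fun q : ℂ[X] => q.coeff j) (hpoly x)
      simp only [finsetSum_coeff, coeff_C_mul] at h1
      have h2 := (hprod (f - C x).roots).2
      rw [hroots x] at h2
      rw [h1, hjf, h2]
  have hzero : ∀ j : ℕ, f.natDegree ≤ j → (c i).coeff j = 0 := by
    intro j hj
    obtain ⟨κ, hκ⟩ := hco j hj
    have h1 : (∑ i ∈ Finset.range (g.natDegree + 1), C ((c i).coeff j) * X ^ i : ℂ[X]) = C κ := by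
      apply Polynomial.funext
      intro x
      rw [eval_finsetSum, eval_C, ← hκ x]
      refine Finset.sum_congr rfl fun i _ => ?_
      rw [eval_mul, eval_C, eval_pow, eval_X, mul_comm]
    have h2 := congrArg (fun q : ℂ[X] => q.coeff i) h1
    simp only [finsetSum_coeff, coeff_C_mul, coeff_X_pow, mul_ite, mul_one, mul_zero] at h2
    rw [Finset.sum_ite_eq, if_pos (Finset.mem_range.2 (by omega)), coeff_C, if_neg (by omega)] at h2
    exact h2
  have h1 : (c i).natDegree ≤ f.natDegree - 1 := by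
    rw [natDegree_le_iff_coeff_eq_zero]
    intro N hN
    exact hzero N (by omega)
  omega

/-- germs at infinity -/
private theorem lcm_germs {F : ℂ[X]} (hF : 1 ≤ F.natDegree) :
    ∃ K : ℝ, 0 ≤ K ∧ ∃ Y : ℂ → ℂ → ℂ, ∀ K' : ℝ, K ≤ K' → ∃ R : ℝ, ∀ z : ℂ, R ≤ ‖z‖ →
      (∀ w : ℂ, w ^ F.natDegree = 1 → F.eval (Y z w) = F.eval z ∧ ‖Y z w - w * z‖ ≤ K) ∧
      (∀ w : ℂ, w ^ F.natDegree = 1 → ∀ y : ℂ, F.eval y = F.eval z → ‖y - w * z‖ ≤ K' → y = Y z w) ∧
      (∀ w w' : ℂ, w ^ F.natDegree = 1 → w' ^ F.natDegree = 1 → Y z w = Y z w' → w = w') := by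
  obtain ⟨K, R1, h1⟩ := germ_ex hF
  obtain ⟨Y, hY⟩ : ∃ Y : ℂ → ℂ → ℂ, ∀ z : ℂ, R1 ≤ ‖z‖ → ∀ w : ℂ, w ^ F.natDegree = 1 →
      F.eval (Y z w) = F.eval z ∧ ‖Y z w - w * z‖ ≤ K := by
    classical
    refine ⟨fun z w => if h : R1 ≤ ‖z‖ ∧ w ^ F.natDegree = 1 then (h1 z h.1 w h.2).choose else 0, ?_⟩
    intro z hz w hw
    simp only [dif_pos (show R1 ≤ ‖z‖ ∧ w ^ F.natDegree = 1 from ⟨hz, hw⟩)]
    exact (h1 z hz w hw).choose_spec
  have hK0 : 0 ≤ K := by
    obtain ⟨h2, h3⟩ := hY (R1 : ℂ) (by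
      rw [Complex.norm_real]
      exact le_abs_self R1) 1 (one_pow _)
    exact (norm_nonneg _).trans h3
  obtain ⟨M, hM⟩ : ∃ M : ℝ, ∀ w w' : ℂ, w ^ F.natDegree = 1 → w' ^ F.natDegree = 1 → w ≠ w' →
      (2 * K + 1) / ‖w - w'‖ ≤ M := by
    classical
    obtain ⟨M, hM⟩ := ((nthRootsFinset F.natDegree (1 : ℂ) ×ˢ nthRootsFinset F.natDegree (1 : ℂ)).image
      (fun p => (2 * K + 1) / ‖p.1 - p.2‖)).bddAbove
    refine ⟨M, fun w w' hw hw' _ => hM ?_⟩
    rw [Finset.mem_coe, Finset.mem_image]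
    refine ⟨(w, w'), ?_, rfl⟩
    rw [Finset.mem_product, mem_nthRootsFinset (by omega), mem_nthRootsFinset (by omega)]
    exact ⟨hw, hw'⟩
  refine ⟨K, hK0, Y, fun K' hK' => ?_⟩
  obtain ⟨R2, h2⟩ := germ_uniq hF K'
  refine ⟨max R1 (max R2 M), fun z hz => ?_⟩
  have hz1 : R1 ≤ ‖z‖ := (le_max_left _ _).trans hz
  have hz2 : R2 ≤ ‖z‖ := ((le_max_left _ _).trans (le_max_right _ _)).trans hz
  have hz3 : M ≤ ‖z‖ := ((le_max_right _ _).trans (le_max_right _ _)).trans hz
  refine ⟨fun w hw => hY z hz1 w hw, fun w hw y hy1 hy2 => ?_, fun w w' hw hw' hww => ?_⟩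
  · obtain ⟨h3, h4⟩ := hY z hz1 w hw
    exact h2 z hz2 w (Complex.norm_eq_one_of_pow_eq_one hw (by omega)) y (Y z w) hy2 (h4.trans hK')
      (hy1.trans h3.symm)
  · by_contra hne
    have h3 := (hM w w' hw hw' hne).trans hz3
    have hpos : 0 < ‖w - w'‖ := norm_pos_iff.2 (sub_ne_zero.2 hne)
    rw [div_le_iff₀ hpos] at h3
    have h4 := (hY z hz1 w hw).2
    have h5 := (hY z hz1 w' hw').2
    have h6 : ‖(w - w') * z‖ ≤ 2 * K := by
      have h7 : (w - w') * z = (Y z w' - w' * z) - (Y z w - w * z) := by rw [hww]; ring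
      rw [h7]
      exact (norm_sub_le _ _).trans (by linarith)
    rw [norm_mul] at h6
    linarith [mul_comm ‖z‖ ‖w - w'‖]

/-- roots of unity of order `ab`, `a`, `b` coprime -/
private theorem lcm_unity {a b : ℕ} (hab : Nat.Coprime a b) {w : ℂ} (hw : w ^ (a * b) = 1) :
    ∃ u v : ℂ, u ^ a = 1 ∧ v ^ b = 1 ∧ w = u * v := by
  rcases Nat.eq_zero_or_pos (a * b) with h0 | h0
  · rcases Nat.mul_eq_zero.1 h0 with h | h
    · subst h
      have hb : b = 1 := by simpa using hab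
      exact ⟨w, 1, pow_zero _, one_pow _, (mul_one w).symm⟩
    · subst h
      have ha : a = 1 := by simpa using hab
      exact ⟨1, w, one_pow _, pow_zero _, (one_mul w).symm⟩
  · have hw0 : w ≠ 0 := by
      rintro rfl
      rw [zero_pow (by omega)] at hw
      exact zero_ne_one hw
    have hbez := Nat.gcd_eq_gcd_ab a b
    rw [hab] at hbez
    refine ⟨(w ^ b) ^ (Nat.gcdB a b), (w ^ a) ^ (Nat.gcdA a b), ?_, ?_, ?_⟩
    · rw [← zpow_natCast, ← zpow_mul, mul_comm, zpow_mul, zpow_natCast, ← pow_mul, mul_comm b a, hw, one_zpow]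
    · rw [← zpow_natCast, ← zpow_mul, mul_comm, zpow_mul, zpow_natCast, ← pow_mul, hw, one_zpow]
    · rw [← zpow_natCast w b, ← zpow_natCast w a, ← zpow_mul, ← zpow_mul, ← zpow_add₀ hw0, add_comm]
      have h1 : (a : ℤ) * Nat.gcdA a b + (b : ℤ) * Nat.gcdB a b = 1 := by
        rw [← hbez]
        simp
      rw [h1, zpow_one]

/-- least common left composite and the norm identity -/
theorem lcm_right {A B f g : ℂ[X]} (hA : 1 ≤ A.natDegree) (hf : 1 ≤ f.natDegree)
    (hg : 1 ≤ g.natDegree) (hc : Nat.Coprime f.natDegree g.natDegree)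
    (h : A.comp f = B.comp g) :
    ∃ A1 B1 Y : ℂ[X], A = Y.comp A1 ∧ B = Y.comp B1 ∧ A1.comp f = B1.comp g ∧
      A1.natDegree = g.natDegree ∧ B1.natDegree = f.natDegree ∧
      ∀ x y : ℂ, nrm f g x y = A1.eval x - B1.eval y := by
  obtain ⟨F, hFdef⟩ : ∃ F : ℂ[X], F = A.comp f := ⟨_, rfl⟩
  have hFf : F = A.comp f := hFdef
  have hFg : F = B.comp g := hFdef.trans h
  have hn : F.natDegree = A.natDegree * f.natDegree := by rw [hFf, natDegree_comp]
  have hn' : F.natDegree = B.natDegree * g.natDegree := by rw [hFg, natDegree_comp]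
  have hF : 1 ≤ F.natDegree := by
    rw [hn]
    exact Nat.mul_pos hA hf
  have hda : f.natDegree ∣ F.natDegree := by rw [hn]; exact dvd_mul_left _ _
  have hdb : g.natDegree ∣ F.natDegree := by rw [hn']; exact dvd_mul_left _ _
  have hdab : f.natDegree * g.natDegree ∣ F.natDegree := hc.mul_dvd_of_dvd_of_dvd hda hdb
  have hup : ∀ {m : ℕ} {w : ℂ}, m ∣ F.natDegree → w ^ m = 1 → w ^ F.natDegree = 1 := by
    rintro m w ⟨k, hk⟩ hw
    rw [hk, pow_mul, hw, one_pow]
  have hEvF : ∀ y z : ℂ, f.eval y = f.eval z → F.eval y = F.eval z := by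
    intro y z hyz
    rw [hFf, eval_comp, eval_comp, hyz]
  have hEvG : ∀ y z : ℂ, g.eval y = g.eval z → F.eval y = F.eval z := by
    intro y z hyz
    rw [hFg, eval_comp, eval_comp, hyz]
  obtain ⟨K, hK0, Y, hYY⟩ := lcm_germs hF
  obtain ⟨Kf, Rf, hexf⟩ := germ_ex hf
  obtain ⟨Kg, Rg, hexg⟩ := germ_ex hg
  obtain ⟨K', hK'⟩ : ∃ K' : ℝ, K ≤ K' ∧ 2 * K ≤ K' ∧ Kf ≤ K' ∧ Kg ≤ K' :=
    ⟨max (2 * K) (max Kf Kg), by
      refine ⟨?_, le_max_left _ _, (le_max_left _ _).trans (le_max_right _ _), (le_max_right _ _).trans (le_max_right _ _)⟩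
      exact (by linarith : K ≤ 2 * K).trans (le_max_left _ _)⟩
  obtain ⟨hK1, hK2, hK3, hK4⟩ := hK'
  obtain ⟨R0, hR0⟩ := hYY K' hK1
  obtain ⟨R, hR⟩ : ∃ R : ℝ, R0 ≤ R ∧ Rf ≤ R ∧ Rg ≤ R :=
    ⟨max R0 (max Rf Rg), le_max_left _ _, (le_max_left _ _).trans (le_max_right _ _), (le_max_right _ _).trans (le_max_right _ _)⟩
  obtain ⟨hRa, hRb, hRc⟩ := hR
  -- basic facts
  have hY1 : ∀ z : ℂ, R ≤ ‖z‖ → ∀ w : ℂ, w ^ F.natDegree = 1 → F.eval (Y z w) = F.eval z ∧ ‖Y z w - w * z‖ ≤ K :=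
    fun z hz w hw => (hR0 z (hRa.trans hz)).1 w hw
  have hY2 : ∀ z : ℂ, R ≤ ‖z‖ → ∀ w : ℂ, w ^ F.natDegree = 1 → ∀ y : ℂ, F.eval y = F.eval z → ‖y - w * z‖ ≤ K' → y = Y z w :=
    fun z hz w hw => (hR0 z (hRa.trans hz)).2.1 w hw
  have hY3 : ∀ z : ℂ, R ≤ ‖z‖ → ∀ w w' : ℂ, w ^ F.natDegree = 1 → w' ^ F.natDegree = 1 → Y z w = Y z w' → w = w' :=
    fun z hz => (hR0 z (hRa.trans hz)).2.2
  have hnorm : ∀ w : ℂ, w ^ F.natDegree = 1 → ‖w‖ = 1 := fun w hw =>
    Complex.norm_eq_one_of_pow_eq_one hw (by omega)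
  have hlarge : ∀ z : ℂ, R ≤ ‖z‖ → ∀ w : ℂ, w ^ F.natDegree = 1 → ‖z‖ - K ≤ ‖Y z w‖ := by
    intro z hz w hw
    have h1 := (hY1 z hz w hw).2
    have h2 : ‖w * z‖ = ‖z‖ := by rw [norm_mul, hnorm w hw, one_mul]
    have h3 : ‖w * z‖ - ‖Y z w‖ ≤ ‖w * z - Y z w‖ := norm_sub_norm_le _ _
    rw [norm_sub_rev] at h3
    linarith
  have hYf : ∀ z : ℂ, R ≤ ‖z‖ → ∀ w : ℂ, w ^ f.natDegree = 1 → f.eval (Y z w) = f.eval z := by
    intro z hz w hw
    obtain ⟨y, hy1, hy2⟩ := hexf z (hRb.trans hz) w hw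
    have h1 := hY2 z hz w (hup hda hw) y (hEvF y z hy1) (hy2.trans hK3)
    rw [← h1]
    exact hy1
  have hYg : ∀ z : ℂ, R ≤ ‖z‖ → ∀ w : ℂ, w ^ g.natDegree = 1 → g.eval (Y z w) = g.eval z := by
    intro z hz w hw
    obtain ⟨y, hy1, hy2⟩ := hexg z (hRc.trans hz) w hw
    have h1 := hY2 z hz w (hup hdb hw) y (hEvG y z hy1) (hy2.trans hK4)
    rw [← h1]
    exact hy1
  have hYc : ∀ z : ℂ, R + K ≤ ‖z‖ → ∀ w w' : ℂ, w ^ F.natDegree = 1 → w' ^ F.natDegree = 1 →
      Y (Y z w) w' = Y z (w' * w) := by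
    intro z hz w w' hw hw'
    have hz1 : R ≤ ‖z‖ := by linarith
    have h1 := hlarge z hz1 w hw
    obtain ⟨h2, h3⟩ := hY1 z hz1 w hw
    obtain ⟨h4, h5⟩ := hY1 (Y z w) (by linarith) w' hw'
    refine hY2 z hz1 (w' * w) (by rw [mul_pow, hw, hw', one_mul]) _ (h4.trans h2) ?_
    have h6 : Y (Y z w) w' - w' * w * z = (Y (Y z w) w' - w' * Y z w) + w' * (Y z w - w * z) := by ring
    rw [h6]
    refine (norm_add_le _ _).trans ?_
    rw [norm_mul, hnorm w' hw', one_mul]
    linarith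
  -- the roots of `g - g z`
  have hroots : ∀ z : ℂ, R ≤ ‖z‖ → (g - C (g.eval z)).roots = (nthRootsFinset g.natDegree (1 : ℂ)).val.map (Y z) := by
    intro z hz
    have hne : g - C (g.eval z) ≠ 0 := by
      intro h0
      have h1 : (g - C (g.eval z)).natDegree = g.natDegree := natDegree_sub_C
      rw [h0, natDegree_zero] at h1
      omega
    have hnd : ((nthRootsFinset g.natDegree (1 : ℂ)).val.map (Y z)).Nodup := by
      refine Multiset.Nodup.map_on ?_ (nthRootsFinset g.natDegree (1 : ℂ)).nodup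
      intro w hw w' hw' hww
      rw [Finset.mem_val, mem_nthRootsFinset hg] at hw hw'
      exact hY3 z hz w w' (hup hdb hw) (hup hdb hw') hww
    symm
    refine Multiset.eq_of_le_of_card_le ((Multiset.le_iff_subset hnd).2 ?_) ?_
    · intro t ht
      rw [Multiset.mem_map] at ht
      obtain ⟨w, hw, rfl⟩ := ht
      rw [Finset.mem_val, mem_nthRootsFinset hg] at hw
      rw [mem_roots hne, IsRoot.def, eval_sub, eval_C, hYg z hz w hw, sub_self]
    · rw [Multiset.card_map, Finset.card_val,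
        (Complex.isPrimitiveRoot_exp g.natDegree (by omega)).card_nthRootsFinset]
      refine (card_roots' _).trans (le_of_eq ?_)
      exact natDegree_sub_C
  -- invariance
  obtain ⟨PP, hPP⟩ : ∃ PP : ℂ → ℂ[X], PP = fun y => ((g - C y).roots.map (fun t => X - C (f.eval t))).prod := ⟨_, rfl⟩
  have hPPz : ∀ z : ℂ, R ≤ ‖z‖ → PP (g.eval z) = ∏ ζ ∈ nthRootsFinset g.natDegree (1 : ℂ), (X - C (f.eval (Y z ζ))) := by
    intro z hz
    rw [hPP]
    simp only
    rw [hroots z hz, Multiset.map_map]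
    rfl
  have hinva : ∀ z : ℂ, R + K ≤ ‖z‖ → ∀ w : ℂ, w ^ f.natDegree = 1 → PP (g.eval (Y z w)) = PP (g.eval z) := by
    intro z hz w hw
    have hz1 : R ≤ ‖z‖ := by linarith
    have h1 := hlarge z hz1 w (hup hda hw)
    rw [hPPz (Y z w) (by linarith), hPPz z hz1]
    refine Finset.prod_congr rfl fun ζ hζ => ?_
    rw [mem_nthRootsFinset hg] at hζ
    have h2 := hlarge z hz1 ζ (hup hdb hζ)
    rw [hYc z hz w ζ (hup hda hw) (hup hdb hζ), mul_comm ζ w, ← hYc z hz ζ w (hup hdb hζ) (hup hda hw),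
      hYf (Y z ζ) (by linarith) w hw]
  have hinv : ∀ z : ℂ, R + 2 * K ≤ ‖z‖ → ∀ w : ℂ, w ^ (f.natDegree * g.natDegree) = 1 →
      PP (g.eval (Y z w)) = PP (g.eval z) := by
    intro z hz w hw
    obtain ⟨u, v, hu, hv, rfl⟩ := lcm_unity hc hw
    have hz1 : R ≤ ‖z‖ := by linarith
    have h1 := hlarge z hz1 v (hup hdb hv)
    rw [← hYc z (by linarith) v u (hup hdb hv) (hup hda hu), hinva (Y z v) (by linarith) u hu, hYg z hz1 v hv]
  obtain ⟨c, hc1, hc2, hc3⟩ := nrm_poly hf hg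
  have hcinv : ∀ i ≤ g.natDegree, ∀ z : ℂ, R + 2 * K ≤ ‖z‖ → ∀ w : ℂ, w ^ (f.natDegree * g.natDegree) = 1 →
      (c i).eval (g.eval (Y z w)) = (c i).eval (g.eval z) := by
    intro i hi z hz w hw
    have h1 := hinv z hz w hw
    rw [hPP] at h1
    simp only at h1
    rw [hc3 _ i hi, hc3 _ i hi, h1]
  -- the coefficients of positive index are constant
  obtain ⟨z0, hz0⟩ : ∃ z0 : ℂ, R + 2 * K ≤ ‖z0‖ := ⟨((R + 2 * K : ℝ) : ℂ), by
    rw [Complex.norm_real]
    exact le_abs_self _⟩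
  have hz0R : R ≤ ‖z0‖ := by linarith
  have hconst : ∀ i : ℕ, 1 ≤ i → i ≤ g.natDegree → ∃ γ : ℂ, c i = C γ := by
    intro i hi1 hi2
    have hdeg := lcm_deg hf hg c hc2 hi1 hi2
    obtain ⟨H, hH⟩ : ∃ H : ℂ[X], H = (c i).comp g - C ((c i).eval (g.eval z0)) := ⟨_, rfl⟩
    have hab0 : 0 < f.natDegree * g.natDegree := Nat.mul_pos hf hg
    have hH0 : H = 0 := by
      by_contra hne
      classical
      have hinj : Set.InjOn (Y z0) (nthRootsFinset (f.natDegree * g.natDegree) (1 : ℂ) : Set ℂ) := by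
        intro w hw w' hw' hww
        rw [Finset.mem_coe, mem_nthRootsFinset hab0] at hw hw'
        exact hY3 z0 hz0R w w' (hup hdab hw) (hup hdab hw') hww
      have hcard : ((nthRootsFinset (f.natDegree * g.natDegree) (1 : ℂ)).image (Y z0)).card = f.natDegree * g.natDegree := by
        rw [Finset.card_image_of_injOn hinj,
          (Complex.isPrimitiveRoot_exp (f.natDegree * g.natDegree) (by omega)).card_nthRootsFinset]
      have hsub : ((nthRootsFinset (f.natDegree * g.natDegree) (1 : ℂ)).image (Y z0)) ⊆ H.roots.toFinset := by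
        intro t ht
        rw [Finset.mem_image] at ht
        obtain ⟨w, hw, rfl⟩ := ht
        rw [mem_nthRootsFinset hab0] at hw
        rw [Multiset.mem_toFinset, mem_roots hne, IsRoot.def, hH, eval_sub, eval_C, eval_comp,
          hcinv i hi2 z0 hz0 w hw, sub_self]
      have h1 := Finset.card_le_card hsub
      rw [hcard] at h1
      have h2 : f.natDegree * g.natDegree ≤ H.natDegree :=
        h1.trans ((Multiset.toFinset_card_le _).trans (card_roots' H))
      have h3 : H.natDegree = (c i).natDegree * g.natDegree := by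
        rw [hH, natDegree_sub_C, natDegree_comp]
      rw [h3] at h2
      have h4 : (c i).natDegree * g.natDegree < f.natDegree * g.natDegree :=
        Nat.mul_lt_mul_of_pos_right hdeg hg
      omega
    have h5 : (c i).comp g = C ((c i).eval (g.eval z0)) := by
      rw [hH] at hH0
      exact sub_eq_zero.1 hH0
    have h6 : (c i).natDegree * g.natDegree = 0 := by
      rw [← natDegree_comp, h5, natDegree_C]
    have h7 : (c i).natDegree = 0 := by
      rcases Nat.mul_eq_zero.1 h6 with h | h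
      · exact h
      · omega
    exact ⟨(c i).coeff 0, eq_C_of_natDegree_eq_zero h7⟩
  obtain ⟨A1, hA1⟩ : ∃ A1 : ℂ[X], A1 = ∑ i ∈ Finset.range g.natDegree, C ((c (i + 1)).coeff 0) * X ^ (i + 1) := ⟨_, rfl⟩
  obtain ⟨B1, hB1⟩ : ∃ B1 : ℂ[X], B1 = - c 0 := ⟨_, rfl⟩
  have hid : ∀ x y : ℂ, nrm f g x y = A1.eval x - B1.eval y := by
    intro x y
    rw [hc2 x y, Finset.sum_range_succ', pow_zero, mul_one, hA1, hB1, eval_neg, sub_neg_eq_add, eval_finsetSum]
    congr 1
    refine Finset.sum_congr rfl fun i hi => ?_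
    rw [Finset.mem_range] at hi
    obtain ⟨γ, hγ⟩ := hconst (i + 1) (by omega) (by omega)
    rw [hγ, eval_C, coeff_C_zero, eval_mul, eval_C, eval_pow, eval_X]
  have hA1deg : A1.natDegree = g.natDegree := by
    have h1 : A1.coeff g.natDegree = 1 := by
      rw [hA1, finsetSum_coeff]
      simp only [coeff_C_mul, coeff_X_pow, mul_ite, mul_one, mul_zero]
      rw [Finset.sum_eq_single (g.natDegree - 1)]
      · rw [if_pos (by omega), show g.natDegree - 1 + 1 = g.natDegree by omega, hc1, coeff_one_zero]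
      · intro j _ hj
        rw [if_neg (by omega)]
      · intro hj
        rw [Finset.mem_range] at hj
        omega
    refine le_antisymm ?_ (le_natDegree_of_ne_zero (by rw [h1]; exact one_ne_zero))
    rw [hA1]
    refine natDegree_sum_le_of_forall_le _ _ fun i hi => ?_
    rw [Finset.mem_range] at hi
    exact (natDegree_C_mul_X_pow_le _ _).trans (by omega)
  have hcomp : A1.comp f = B1.comp g := by
    apply Polynomial.funext
    intro z
    rw [eval_comp, eval_comp]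
    have h1 := hid (f.eval z) (g.eval z)
    have h2 : nrm f g (f.eval z) (g.eval z) = 0 := by
      unfold nrm
      rw [Multiset.prod_eq_zero_iff, Multiset.mem_map]
      refine ⟨z, ?_, sub_self _⟩
      have hne : g - C (g.eval z) ≠ 0 := by
        intro h0
        have h1 : (g - C (g.eval z)).natDegree = g.natDegree := natDegree_sub_C
        rw [h0, natDegree_zero] at h1
        omega
      rw [mem_roots hne, IsRoot.def, eval_sub, eval_C, sub_self]
    rw [h2] at h1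
    exact (sub_eq_zero.1 h1.symm)
  have hB1deg : B1.natDegree = f.natDegree := by
    have h1 := congrArg natDegree hcomp
    rw [natDegree_comp, natDegree_comp, hA1deg, mul_comm] at h1
    exact (Nat.eq_of_mul_eq_mul_right hg h1).symm
  obtain ⟨W, hW⟩ : ∃ W : ℂ[X], W = B1.comp g := ⟨_, rfl⟩
  have hWdeg : W.natDegree = f.natDegree * g.natDegree := by rw [hW, natDegree_comp, hB1deg]
  have hW1 : 1 ≤ W.natDegree := by
    rw [hWdeg]
    exact Nat.mul_pos hf hg
  obtain ⟨KW, RW, hnear⟩ := germ_near hW1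
  obtain ⟨RU, huniq⟩ := germ_uniq hW1 (max K KW)
  obtain ⟨Yp, hYp⟩ := inv_comp (F := F) (h := W) hW1 (max (R + 2 * K) (max RW RU)) (by
    intro z hz z1 hz1
    have hz2 : R + 2 * K ≤ ‖z‖ := (le_max_left _ _).trans hz
    have hz3 : RW ≤ ‖z‖ := ((le_max_left _ _).trans (le_max_right _ _)).trans hz
    have hz4 : RU ≤ ‖z‖ := ((le_max_right _ _).trans (le_max_right _ _)).trans hz
    have hzR : R ≤ ‖z‖ := by linarith
    obtain ⟨w, hw, hwn⟩ := hnear z hz3 z1 hz1
    rw [hWdeg] at hw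
    have h1 : W.eval (Y z w) = W.eval z := by
      rw [hW, eval_comp, eval_comp, hB1, eval_neg, eval_neg, hcinv 0 (by omega) z hz2 w hw]
    obtain ⟨h2, h3⟩ := hY1 z hzR w (hup hdab hw)
    have h4 : z1 = Y z w := huniq z hz4 w (hnorm w (hup hdab hw)) z1 (Y z w) (hwn.trans (le_max_right _ _))
      (h3.trans (le_max_left _ _)) (hz1.trans h1.symm)
    rw [h4]
    exact h2)
  refine ⟨A1, B1, Yp, ?_, ?_, hcomp, hA1deg, hB1deg, hid⟩
  · apply comp_cancel hf
    rw [comp_assoc, hcomp, ← hW, ← hYp, hFf]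
  · apply comp_cancel hg
    rw [comp_assoc, ← hW, ← hYp, hFg]

end H12IT
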