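import Pool.Agent.H12.IT.Mur
import Pool.Agent.H12.IT.Bas

set_option autoImplicit false

/-! PROJECT IT, module Nbd: bound for the number of iterates (paper 9(d)). -/

open Polynomial

namespace H12IT

private lemma nbd_lin {r l l' : ℂ[X]} (hr : 2 ≤ r.natDegree) (hl : l.natDegree = 1)
    (h : r.comp l = l'.comp r) : l'.natDegree = 1 := by
  have h1 : (r.comp l).natDegree = (l'.comp r).natDegree := by rw [h]
  rw [natDegree_comp, natDegree_comp, hl, mul_one] at h1
  have h2 : 1 * r.natDegree = l'.natDegree * r.natDegree := by rw [one_mul]; exact h1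
  exact (Nat.eq_of_mul_eq_mul_right (by omega) h2).symm

/-- decomposition off the leading term -/
private lemma nbd_split (R : ℂ[X]) : ∃ S : ℂ[X],
    R = C (R.coeff R.natDegree) * X ^ R.natDegree + S ∧
      (R.natDegree ≠ 0 → S.natDegree < R.natDegree ∧ S.natDegree ≤ R.natDegree - 1) ∧
      ∀ j, j < R.natDegree → S.coeff j = R.coeff j := by
  refine ⟨R - C (R.coeff R.natDegree) * X ^ R.natDegree, by ring, ?_, ?_⟩
  · intro h0
    have h1 : (R - C (R.coeff R.natDegree) * X ^ R.natDegree).natDegree ≤ R.natDegree - 1 := by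
      rw [natDegree_le_iff_coeff_eq_zero]
      intro N hN
      rw [coeff_sub, coeff_C_mul, coeff_X_pow]
      by_cases hNe : N = R.natDegree
      · subst hNe
        simp
      · rw [if_neg hNe, coeff_eq_zero_of_natDegree_lt (by omega)]
        simp
    exact ⟨by omega, h1⟩
  · intro j hj
    rw [coeff_sub, coeff_C_mul, coeff_X_pow, if_neg (by omega)]
    simp

/-- coefficient `D - 1` of `R(aX + β)` -/
private lemma nbd_coeff {R : ℂ[X]} (hR : 2 ≤ R.natDegree) (h0 : R.coeff (R.natDegree - 1) = 0)
    {a β : ℂ} (ha : a ≠ 0) :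
    (R.comp (C a * X + C β)).coeff (R.natDegree - 1) =
      R.coeff R.natDegree * (a ^ R.natDegree * (β / a * R.natDegree)) := by
  obtain ⟨S, hS, hSd, hSc⟩ := nbd_split R
  have hSd' := hSd (by omega)
  have hS1 : S.coeff (R.natDegree - 1) = 0 := by rw [hSc _ (by omega), h0]
  have hSd2 : S.natDegree ≤ R.natDegree - 2 := by
    rw [natDegree_le_iff_coeff_eq_zero]
    intro N hN
    by_cases hN1 : N = R.natDegree - 1
    · rw [hN1, hS1]
    · exact coeff_eq_zero_of_natDegree_lt (by omega)
  have hlin : (C a * X + C β : ℂ[X]) = C a * (X + C (β / a)) := by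
    rw [mul_add, ← C_mul, mul_div_cancel₀ _ ha]
  have hcS : (S.comp (C a * X + C β)).coeff (R.natDegree - 1) = 0 := by
    apply coeff_eq_zero_of_natDegree_lt
    calc (S.comp (C a * X + C β)).natDegree ≤ S.natDegree * (C a * X + C β).natDegree :=
          natDegree_comp_le
      _ ≤ S.natDegree * 1 := Nat.mul_le_mul_left _ natDegree_linear_le
      _ < R.natDegree - 1 := by omega
  have key : R.comp (C a * X + C β) =
      C (R.coeff R.natDegree) * (C a ^ R.natDegree * (X + C (β / a)) ^ R.natDegree)
        + S.comp (C a * X + C β) := by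
    conv_lhs => rw [hS]
    rw [add_comp, mul_comp, C_comp, pow_comp, X_comp, hlin, mul_pow]
  rw [key, coeff_add, hcS, add_zero, coeff_C_mul, ← C_pow, coeff_C_mul, coeff_X_add_C_pow]
  have e1 : R.natDegree - (R.natDegree - 1) = 1 := by omega
  have e2 : (R.natDegree).choose (R.natDegree - 1) = R.natDegree := by
    rw [Nat.choose_symm (show 1 ≤ R.natDegree by omega), Nat.choose_one_right]
  rw [e1, e2, pow_one]

/-- the linear maps `l` with `r ∘ l = l' ∘ r` are rotations about the centre of `r`; either their
factors are roots of unity of bounded order, or `r` is unicritical -/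
theorem sigma_form {r : ℂ[X]} (hr : 2 ≤ r.natDegree) : ∃ o : ℂ,
    (∀ l l' : ℂ[X], l.natDegree = 1 → r.comp l = l'.comp r →
      ∃ e : ℂ, e ≠ 0 ∧ l = C o + C e * (X - C o)) ∧
    ((∃ k : ℕ, 1 ≤ k ∧ k < r.natDegree ∧ ∀ (l' : ℂ[X]) (e : ℂ), e ≠ 0 →
        r.comp (C o + C e * (X - C o)) = l'.comp r → e ^ k = 1) ∨
      ∃ a b : ℂ, a ≠ 0 ∧ r = C a * (X - C o) ^ r.natDegree + C b) := by
  obtain ⟨S, hS, hSd, hSc⟩ := nbd_split r
  have hSd' := hSd (by omega)
  set D := r.natDegree with hD
  have hlc : r.coeff D ≠ 0 := by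
    have : r.leadingCoeff ≠ 0 := by
      rw [Ne, leadingCoeff_eq_zero]
      intro h0
      have h1 : D = 0 := by rw [hD, h0, natDegree_zero]
      omega
    exact this
  have hD0 : (D : ℂ) ≠ 0 := by
    have : D ≠ 0 := by omega
    exact_mod_cast this
  set o : ℂ := - r.coeff (D - 1) / (D * r.coeff D) with ho
  set R : ℂ[X] := r.comp (X + C o) with hRdef
  have hRd : R.natDegree = D := by
    rw [hRdef, natDegree_comp, natDegree_X_add_C, mul_one]
  have hrR : r = R.comp (X - C o) := by
    rw [hRdef, comp_assoc]
    simp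
  have hRlc : R.coeff D = r.coeff D := by
    have h1 : R.leadingCoeff = r.leadingCoeff := by
      rw [hRdef, leadingCoeff_comp (by rw [natDegree_X_add_C]; exact one_ne_zero),
        leadingCoeff_X_add_C, one_pow, mul_one]
    rw [leadingCoeff, leadingCoeff, hRd] at h1
    exact h1
  have hR1 : R.coeff (D - 1) = 0 := by
    have key : R = C (r.coeff D) * (X + C o) ^ D + S.comp (X + C o) := by
      rw [hRdef]
      conv_lhs => rw [hS]
      rw [add_comp, mul_comp, C_comp, pow_comp, X_comp]
    have hSc1 : (S.comp (X + C o)).coeff (D - 1) = r.coeff (D - 1) := by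
      by_cases hSD : S.natDegree = D - 1
      · have h1 : (S.comp (X + C o)).natDegree = D - 1 := by
          rw [natDegree_comp, natDegree_X_add_C, mul_one, hSD]
        have h2 : (S.comp (X + C o)).leadingCoeff = S.leadingCoeff := by
          rw [leadingCoeff_comp (by rw [natDegree_X_add_C]; exact one_ne_zero),
            leadingCoeff_X_add_C, one_pow, mul_one]
        rw [leadingCoeff, leadingCoeff, h1, hSD, hSc (D - 1) (by omega)] at h2
        exact h2
      · have h1 : S.coeff (D - 1) = 0 := coeff_eq_zero_of_natDegree_lt (by omega)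
        rw [← hSc (D - 1) (by omega), h1]
        apply coeff_eq_zero_of_natDegree_lt
        rw [natDegree_comp, natDegree_X_add_C, mul_one]
        omega
    rw [key, coeff_add, coeff_C_mul, coeff_X_add_C_pow, hSc1]
    have e1 : D - (D - 1) = 1 := by omega
    have e2 : D.choose (D - 1) = D := by
      rw [Nat.choose_symm (show 1 ≤ D by omega), Nat.choose_one_right]
    rw [e1, e2, pow_one, ho]
    field_simp
    ring
  have hcomp : ∀ (l l' : ℂ[X]), r.comp l = l'.comp r →
      R.comp (l.comp (X + C o) - C o) = l'.comp R := by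
    intro l l' h
    have h1 : R.comp (l.comp (X + C o) - C o) = (r.comp l).comp (X + C o) := by
      rw [hRdef, comp_assoc, comp_assoc]
      simp
    rw [h1, h, comp_assoc]
  refine ⟨o, ?_, ?_⟩
  · intro l l' hl h
    obtain ⟨a, b, ha, rfl⟩ := lin_form hl
    have hl'1 : l'.natDegree = 1 := nbd_lin (by omega) hl h
    obtain ⟨a', b', ha', rfl⟩ := lin_form hl'1
    have h2 := hcomp _ _ h
    have h3 : (C a * X + C b : ℂ[X]).comp (X + C o) - C o = C a * X + C (a * o + b - o) := by
      simp only [add_comp, mul_comp, C_comp, X_comp, C_add, C_sub, C_mul]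
      ring
    rw [h3] at h2
    have h4 : (R.comp (C a * X + C (a * o + b - o))).coeff (D - 1) = 0 := by
      rw [h2, add_comp, mul_comp, C_comp, C_comp, X_comp, coeff_add, coeff_C_mul, hR1,
        coeff_C_of_ne_zero (by omega)]
      simp
    have h5 := nbd_coeff (R := R) (by omega) (by rw [hRd]; exact hR1) (β := a * o + b - o) ha
    rw [hRd, h4, hRlc] at h5
    have h6 : a * o + b - o = 0 := by
      by_contra hne
      exact (mul_ne_zero hlc (mul_ne_zero (pow_ne_zero _ ha)
        (mul_ne_zero (div_ne_zero hne ha) hD0))) h5.symm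
    refine ⟨a, ha, ?_⟩
    have h7 : b = o - a * o := by linear_combination h6
    rw [h7, C_sub, C_mul]
    ring
  · by_cases hex : ∃ j, 1 ≤ j ∧ j < D ∧ R.coeff j ≠ 0
    · left
      obtain ⟨j, hj1, hjD, hj⟩ := hex
      refine ⟨D - j, by omega, by omega, ?_⟩
      intro l' e he h
      have hl1 : (C o + C e * (X - C o) : ℂ[X]).natDegree = 1 := by
        have : (C o + C e * (X - C o) : ℂ[X]) = C e * X + C (o - e * o) := by
          rw [C_sub, C_mul]; ring
        rw [this, natDegree_linear he]
      have hl'1 : l'.natDegree = 1 := nbd_lin (by omega) hl1 h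
      obtain ⟨a', b', ha', rfl⟩ := lin_form hl'1
      have h2 := hcomp _ _ h
      have h3 : (C o + C e * (X - C o) : ℂ[X]).comp (X + C o) - C o = C e * X := by
        simp only [add_comp, mul_comp, sub_comp, C_comp, X_comp]
        ring
      rw [h3] at h2
      have hco : ∀ i, 1 ≤ i → R.coeff i * e ^ i = a' * R.coeff i := by
        intro i hi
        have h4 : (R.comp (C e * X)).coeff i = R.coeff i * e ^ i := comp_C_mul_X_coeff
        rw [← h4, h2, add_comp, mul_comp, C_comp, C_comp, X_comp, coeff_add, coeff_C_mul,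
          coeff_C_of_ne_zero (by omega), add_zero]
      have hD1 := hco D (by omega)
      have hj2 := hco j hj1
      have hRD : R.coeff D ≠ 0 := by rw [hRlc]; exact hlc
      have e1 : e ^ D = a' := by
        apply mul_left_cancel₀ hRD
        rw [hD1, mul_comm]
      have e2 : e ^ j = a' := by
        apply mul_left_cancel₀ hj
        rw [hj2, mul_comm]
      have e3 : e ^ j * e ^ (D - j) = e ^ j * 1 := by
        rw [← pow_add, Nat.add_sub_cancel' hjD.le, e1, e2, mul_one]
      exact mul_left_cancel₀ (pow_ne_zero _ he) e3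
    · right
      push Not at hex
      have hRform : R = C (r.coeff D) * X ^ D + C (R.coeff 0) := by
        ext i
        rw [coeff_add, coeff_C_mul, coeff_X_pow]
        rcases Nat.eq_zero_or_pos i with hi | hi
        · subst hi
          rw [if_neg (by omega)]
          simp
        · rw [coeff_C_of_ne_zero (by omega), add_zero]
          by_cases hiD : i = D
          · rw [if_pos hiD, hiD, hRlc, mul_one]
          · rw [if_neg hiD, mul_zero]
            rcases lt_or_gt_of_ne hiD with h | h
            · exact hex i hi h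
            · exact coeff_eq_zero_of_natDegree_lt (by omega)
      refine ⟨r.coeff D, R.coeff 0, hlc, ?_⟩
      conv_lhs => rw [hrR, hRform]
      rw [add_comp, mul_comp, C_comp, C_comp, pow_comp, X_comp]

/-- a unicritical `r` semiconjugate to a `P` not of power type -/
theorem unicrit {P p r : ℂ[X]} (hd : 2 ≤ P.natDegree) (hP : ¬ PowerType P) (hp : 1 ≤ p.natDegree)
    (h : p.comp r = P.comp p) {a b o : ℂ} (hr : r = C a * (X - C o) ^ r.natDegree + C b) :
    b ≠ o := by
  intro hbo
  apply hP
  have hdeg : r.natDegree = P.natDegree := semi_deg hp (by omega) h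
  have hro : r.eval o = o := by
    rw [hr]
    simp only [eval_add, eval_mul, eval_C, eval_pow, eval_sub, eval_X, sub_self]
    rw [zero_pow (by omega), mul_zero, zero_add, hbo]
  have ha : a ≠ 0 := by
    rintro rfl
    rw [C_0, zero_mul, zero_add] at hr
    have h1 : r.natDegree = 0 := by rw [hr, natDegree_C]
    omega
  have hmu : mu r o = r.natDegree := by
    unfold mu
    rw [hro]
    have h1 : r - C o = C a * (X - C o) ^ r.natDegree := by
      conv_lhs => rw [hr, hbo]
      ring
    rw [h1, rootMultiplicity_mul (mul_ne_zero (C_ne_zero.mpr ha)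
      (pow_ne_zero _ (X_sub_C_ne_zero o))), rootMultiplicity_C, rootMultiplicity_X_sub_C_pow,
      zero_add]
  have h1 : mu (p.comp r) o = mu p (r.eval o) * mu r o := mu_comp hp (by omega) o
  have h2 : mu (P.comp p) o = mu P (p.eval o) * mu p o := mu_comp (by omega) hp o
  rw [h, h2, hro, hmu, hdeg, mul_comm] at h1
  have h3 : mu P (p.eval o) = P.natDegree :=
    Nat.eq_of_mul_eq_mul_left (one_le_mu hp o) h1
  refine ⟨p.eval o, ?_, h3⟩
  have h4 : (p.comp r).eval o = (P.comp p).eval o := by rw [h]
  rw [eval_comp, eval_comp, hro] at h4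
  exact h4.symm

end H12IT
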