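import Pool.Agent.H12.IT.Rho

set_option autoImplicit false

/-! PROJECT IT, module Rhe: every semiconjugacy to an iterate is a semiconjugacy to P. -/

open Polynomial

namespace H12IT

theorem rho_exists {P p R : ℂ[X]} (hd : 2 ≤ P.natDegree) (hP : NonSpecial P) {n : ℕ} (hn : 1 ≤ n)
    (hp : 1 ≤ p.natDegree) (h : p.comp R = (it P n).comp p) :
    ∃ r L : ℂ[X], p.comp r = P.comp p ∧ Sym p L ∧ R = L.comp (it r n) := by
  obtain ⟨B, V, D, S, E, h1, h2, h3, _, _, _, h7, h8, _⟩ := semi_dec hd hP hn hp h (le_refl _)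
  obtain ⟨E', hE', hEE', hE'E⟩ := h8.inv
  have hpd : B.natDegree * V.natDegree = p.natDegree := by rw [h1, natDegree_comp]
  have hB : 1 ≤ B.natDegree := by
    rcases Nat.eq_zero_or_pos B.natDegree with h0 | h0
    · rw [h0, Nat.zero_mul] at hpd; omega
    · exact h0
  have hV : 1 ≤ V.natDegree := by
    rcases Nat.eq_zero_or_pos V.natDegree with h0 | h0
    · rw [h0, Nat.mul_zero] at hpd; omega
    · exact h0
  have hPn : (it P n).natDegree = P.natDegree ^ n := natDegree_it P n
  have hPn1 : 1 ≤ (it P n).natDegree := by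
    rw [hPn]; exact Nat.one_le_pow _ _ (by omega)
  have hR : R.natDegree = (it P n).natDegree := semi_deg hp hPn1 h
  have hD : 1 ≤ D.natDegree := by
    have h5 : D.natDegree * V.natDegree = R.natDegree ^ (p.natDegree + 3) := by
      rw [← natDegree_it, h2, natDegree_comp]
    have h6 : 1 ≤ R.natDegree ^ (p.natDegree + 3) := Nat.one_le_pow _ _ (by omega)
    rcases Nat.eq_zero_or_pos D.natDegree with h0 | h0
    · rw [h0, Nat.zero_mul] at h5; omega
    · exact h0
  have hS : S.natDegree = P.natDegree := semi_deg hB (by omega) h3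
  -- `S ∘ E' = E1 ∘ S`
  have h9 : B.comp (S.comp E') = B.comp S := by
    rw [← comp_assoc, h3, comp_assoc, hE'.2]
  have hd9 : (S.comp E').natDegree = S.natDegree := by rw [natDegree_comp, hE'.1, Nat.mul_one]
  obtain ⟨E1, hE1, h10⟩ := sym_of_comp hB (by rw [hd9]; omega) h9 hd9.symm
  -- the iterate of `S`
  have h11 : it S (n * (p.natDegree + 3)) = E'.comp (V.comp D) := by
    rw [h7, ← comp_assoc, hE'E, X_comp]
  have h12 : (E'.comp V).comp (D.comp S) = ((E1.comp S).comp V).comp D := by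
    have e1 : it S (n * (p.natDegree + 3) + 1) = (E'.comp V).comp (D.comp S) := by
      rw [it_succ', h11]
      simp only [comp_assoc]
    have e2 : it S (n * (p.natDegree + 3) + 1) = ((E1.comp S).comp V).comp D := by
      rw [it_succ, h11, ← comp_assoc, h10]
      simp only [comp_assoc]
    rw [← e1, e2]
  have hA : 1 ≤ (E'.comp V).natDegree := by rw [natDegree_comp, hE'.1]; omega
  have hDS : (D.comp S).natDegree = D.natDegree * S.natDegree := natDegree_comp
  have hDS1 : 1 ≤ (D.comp S).natDegree := by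
    rw [hDS, hS]; exact Nat.mul_pos hD (by omega)
  obtain ⟨r, hr⟩ := dvd_right hA hDS1 hD h12 (by rw [hDS]; exact Dvd.intro _ rfl)
  have h13 : (E'.comp V).comp r = (E1.comp S).comp V := by
    apply comp_cancel hD
    rw [comp_assoc, ← hr]
    exact h12
  have h14 : V.comp r = E.comp ((E1.comp S).comp V) := by
    rw [← h13, comp_assoc E' V r, ← comp_assoc, hEE', X_comp]
  have h15 : p.comp r = P.comp p := by
    rw [h1, comp_assoc, h14, ← comp_assoc B E, h8.2, comp_assoc E1 S V, ← comp_assoc B E1, hE1.2,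
      ← comp_assoc, h3, comp_assoc]
  have h16 : p.comp R = p.comp (it r n) := by rw [h, semi_it h15 n]
  have hr1 : r.natDegree = P.natDegree := semi_deg hp (by omega) h15
  obtain ⟨L, hL, hRL⟩ := sym_of_comp hp (by omega) h16 (by rw [natDegree_it, hr1, hR, hPn])
  exact ⟨r, L, h15, hL, hRL⟩

theorem rhe_aux1 {P p R p' R' : ℂ[X]} (hd : 2 ≤ P.natDegree) (hP : NonSpecial P) {n : ℕ}
    (hn : 1 ≤ n) (hp : 1 ≤ p.natDegree) (h : p.comp R = (it P n).comp p)
    (hpp : p'.natDegree = p.natDegree) (h' : p'.comp R' = (it P n).comp p') :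
    ∃ L : ℂ[X], L.natDegree = 1 ∧ p' = p.comp L := by
  obtain ⟨B, V, D, S, E, h1, h2, h3, h4, h5, h6, h7, h8, h9⟩ := semi_dec hd hP hn hp h (le_refl _)
  obtain ⟨B', V', D', S', E', h1', h2', h3', h4', h5', h6', h7', h8', h9'⟩ :=
    semi_dec hd hP hn (by omega) h' (j := p.natDegree + 3) (by omega)
  have hpd : B.natDegree * V.natDegree = p.natDegree := by rw [h1, natDegree_comp]
  have hpd' : B'.natDegree * V'.natDegree = p.natDegree := by rw [← hpp, h1', natDegree_comp]
  have hVV : V'.natDegree = V.natDegree := by rw [h6', h6, hpp]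
  have hB : 1 ≤ B.natDegree := by
    rcases Nat.eq_zero_or_pos B.natDegree with h0 | h0
    · rw [h0, Nat.zero_mul] at hpd; omega
    · exact h0
  have hV : 1 ≤ V.natDegree := by
    rcases Nat.eq_zero_or_pos V.natDegree with h0 | h0
    · rw [h0, Nat.mul_zero] at hpd; omega
    · exact h0
  have hBB : B'.natDegree = B.natDegree := by
    rw [hVV, ← hpd] at hpd'
    exact Nat.eq_of_mul_eq_mul_right hV hpd'
  have hPn : (it P n).natDegree = P.natDegree ^ n := natDegree_it P n
  have hPn1 : 1 ≤ (it P n).natDegree := by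
    rw [hPn]; exact Nat.one_le_pow _ _ (by omega)
  have hR : R.natDegree = (it P n).natDegree := semi_deg hp hPn1 h
  have hR' : R'.natDegree = (it P n).natDegree := semi_deg (by omega) hPn1 h'
  have hDV : D.natDegree * V.natDegree = (it P n).natDegree ^ (p.natDegree + 3) := by
    rw [← hR, ← natDegree_it, h2, natDegree_comp]
  have hDV' : D'.natDegree * V'.natDegree = (it P n).natDegree ^ (p.natDegree + 3) := by
    rw [← hR', ← natDegree_it, h2', natDegree_comp]
  have hDD : D'.natDegree = D.natDegree := by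
    rw [hVV, ← hDV] at hDV'
    exact Nat.eq_of_mul_eq_mul_right hV hDV'
  have hD : 1 ≤ D.natDegree := by
    have h10 : 1 ≤ (it P n).natDegree ^ (p.natDegree + 3) := Nat.one_le_pow _ _ (by omega)
    rcases Nat.eq_zero_or_pos D.natDegree with h0 | h0
    · rw [h0, Nat.zero_mul] at hDV; omega
    · exact h0
  have hN : 4 ≤ n * (p.natDegree + 3) := by
    calc 4 ≤ 1 * (p.natDegree + 3) := by omega
      _ ≤ n * (p.natDegree + 3) := Nat.mul_le_mul_right _ hn
  have hb : 4 * B.natDegree ≤ P.natDegree ^ (n * (p.natDegree + 3)) := by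
    have h10 : P.natDegree ^ 4 ≤ P.natDegree ^ (n * (p.natDegree + 3)) :=
      Nat.pow_le_pow_right (by omega) hN
    have h11 : 4 * P.natDegree ≤ P.natDegree ^ 4 := by
      have h12 : 2 ^ 3 ≤ P.natDegree ^ 3 := Nat.pow_le_pow_left hd 3
      calc 4 * P.natDegree ≤ P.natDegree ^ 3 * P.natDegree := Nat.mul_le_mul_right _ (by omega)
        _ = P.natDegree ^ 4 := by ring
    omega
  obtain ⟨L, hL, hBL⟩ := b_unique hd hP (by omega) hB h4 hb h9 hBB h9'
  obtain ⟨Li, hLi, hLLi, _⟩ := lin_inv hL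
  have e1 : B.comp (L.comp (V'.comp (D'.comp Li))) = B.comp (V.comp D) := by
    have e2 : B.comp (L.comp (V'.comp (D'.comp Li))) = (B'.comp (V'.comp D')).comp Li := by
      rw [hBL]; simp only [comp_assoc]
    rw [e2, h9', hBL, comp_assoc, comp_assoc, hLLi, comp_X, h9]
  have hdf : (L.comp (V'.comp (D'.comp Li))).natDegree = (V.comp D).natDegree := by
    simp only [natDegree_comp, hL, hLi, hVV, hDD, Nat.one_mul, Nat.mul_one]
  have hVD : 1 ≤ (V.comp D).natDegree := by rw [natDegree_comp]; exact Nat.mul_pos hV hD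
  obtain ⟨E2, hE2, e3⟩ := sym_of_comp hB (by omega) e1 hdf.symm
  have e4 : (L.comp V').comp (D'.comp Li) = (E2.comp V).comp D := by
    rw [comp_assoc, e3, comp_assoc]
  obtain ⟨l, hl, _, e5⟩ := same_right (A := L.comp V') (B := E2.comp V) (f := D'.comp Li) (g := D)
    (by rw [natDegree_comp, hL, hVV]; omega)
    (by rw [natDegree_comp, hLi, hDD]; omega) e4 (by rw [natDegree_comp, hLi, hDD, Nat.mul_one])
  obtain ⟨l', hl', hll', _⟩ := lin_inv hl
  refine ⟨l', hl', ?_⟩
  have e6 : p'.comp l = p := by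
    rw [h1', hBL, comp_assoc, comp_assoc, ← comp_assoc L V' l, e5, ← comp_assoc, hE2.2, ← h1]
  rw [← e6, comp_assoc, hll', comp_X]

/-- uniqueness of semiconjugacies of given degree -/
theorem semi_unique {P p R p' R' : ℂ[X]} (hd : 2 ≤ P.natDegree) (hP : NonSpecial P) {n n' : ℕ}
    (hn : 1 ≤ n) (hn' : 1 ≤ n') (hp : 1 ≤ p.natDegree) (h : p.comp R = (it P n).comp p)
    (hpp : p'.natDegree = p.natDegree) (h' : p'.comp R' = (it P n').comp p') :
    ∃ L : ℂ[X], L.natDegree = 1 ∧ p' = p.comp L := by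
  have h1 := semi_it h n'
  have h2 := semi_it h' n
  rw [← it_mul] at h1 h2
  rw [Nat.mul_comm n' n] at h2
  exact rhe_aux1 hd hP (Nat.mul_pos hn hn') hp h1 hpp h2

end H12IT
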