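import Pool.Agent.H12.IT.Cgd
import Pool.Agent.H12.IT.Rhe

set_option autoImplicit false

/-! PROJECT IT, module Tri: minimal triples (paper section 9, a-c). -/

open Polynomial

namespace H12IT

/-- a triple for `P, Q` -/
def Trip (P Q : ℂ[X]) (n : ℕ) (R p1 p2 : ℂ[X]) : Prop :=
  1 ≤ n ∧ 1 ≤ p1.natDegree ∧ 1 ≤ p2.natDegree ∧ p1.comp R = (it P n).comp p1 ∧
    p2.comp R = (it Q n).comp p2

theorem inter_iff {P Q : ℂ[X]} : Inter P Q ↔ ∃ n R p1 p2, Trip P Q n R p1 p2 := by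
  constructor
  · rintro ⟨R, n, hn, ⟨p1, h1, e1⟩, ⟨p2, h2, e2⟩⟩
    exact ⟨n, R, p1, p2, hn, h1, h2, e1, e2⟩
  · rintro ⟨n, R, p1, p2, hn, h1, h2, e1, e2⟩
    exact ⟨R, n, hn, ⟨p1, h1, e1⟩, ⟨p2, h2, e2⟩⟩

theorem inter_deg {P Q : ℂ[X]} (hd : 2 ≤ P.natDegree) (h : Inter P Q) :
    Q.natDegree = P.natDegree := by
  obtain ⟨n, R, p1, p2, hn, h1, h2, e1, e2⟩ := inter_iff.1 h
  have hM : 1 ≤ (it P n).natDegree := by
    rw [natDegree_it]; exact Nat.one_le_pow _ _ (by omega)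
  have hR : R.natDegree = P.natDegree ^ n := by
    rw [semi_deg h1 hM e1, natDegree_it]
  have hQ := congrArg natDegree e2
  rw [natDegree_comp, natDegree_comp, natDegree_it, mul_comm] at hQ
  have h3 : R.natDegree = Q.natDegree ^ n := Nat.eq_of_mul_eq_mul_right (by omega) hQ
  exact Nat.pow_left_injective (n := n) (by omega) (by
    show Q.natDegree ^ n = P.natDegree ^ n
    rw [← h3, hR])

theorem Trip.symm {P Q : ℂ[X]} {n : ℕ} {R p1 p2 : ℂ[X]} (h : Trip P Q n R p1 p2) :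
    Trip Q P n R p2 p1 := ⟨h.1, h.2.2.1, h.2.1, h.2.2.2.2, h.2.2.2.1⟩

theorem tri_deg {P Q : ℂ[X]} (hd : 2 ≤ P.natDegree) {n : ℕ} {R p1 p2 : ℂ[X]}
    (h : Trip P Q n R p1 p2) : R.natDegree = P.natDegree ^ n ∧ 2 ≤ R.natDegree := by
  obtain ⟨hn, h1, h2, e1, e2⟩ := h
  have hM : 1 ≤ (it P n).natDegree := by
    rw [natDegree_it]; exact Nat.one_le_pow _ _ (by omega)
  have hR : R.natDegree = P.natDegree ^ n := by
    rw [semi_deg h1 hM e1, natDegree_it]
  refine ⟨hR, ?_⟩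
  rw [hR]
  calc 2 ≤ P.natDegree := hd
    _ = P.natDegree ^ 1 := (pow_one _).symm
    _ ≤ P.natDegree ^ n := Nat.pow_le_pow_right (by omega) hn

/-- paper 9(a): descent to coprime degrees -/
theorem tri_gcd {P Q : ℂ[X]} (hd : 2 ≤ P.natDegree) {n : ℕ} {R p1 p2 : ℂ[X]}
    (h : Trip P Q n R p1 p2) :
    ∃ R' q1 q2 : ℂ[X], Trip P Q n R' q1 q2 ∧
      p1.natDegree = q1.natDegree * Nat.gcd p1.natDegree p2.natDegree ∧
      p2.natDegree = q2.natDegree * Nat.gcd p1.natDegree p2.natDegree := by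
  have hR := (tri_deg hd h).2
  obtain ⟨hn, h1, h2, e1, e2⟩ := h
  obtain ⟨u, q1, q2, R', hu, f1, f2, f3, f4, f5⟩ := descend h1 h2 hR e1 e2
  have g1 : p1.natDegree = q1.natDegree * Nat.gcd p1.natDegree p2.natDegree := by
    conv_lhs => rw [f1, natDegree_comp, hu]
  have g2 : p2.natDegree = q2.natDegree * Nat.gcd p1.natDegree p2.natDegree := by
    conv_lhs => rw [f2, natDegree_comp, hu]
  refine ⟨R', q1, q2, ⟨hn, ?_, ?_, f4, f5⟩, g1, g2⟩
  · by_contra h0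
    have h0' : q1.natDegree = 0 := by omega
    rw [h0', zero_mul] at g1
    omega
  · by_contra h0
    have h0' : q2.natDegree = 0 := by omega
    rw [h0', zero_mul] at g2
    omega

/-- paper 9(b): descent if `d ∣ deg p2` -/
theorem tri_div {P Q : ℂ[X]} (hd : 2 ≤ P.natDegree) (hP : NonSpecial P) {n : ℕ} {R p1 p2 : ℂ[X]}
    (h : Trip P Q n R p1 p2) (hk : P.natDegree ∣ p2.natDegree) :
    ∃ R' q2 : ℂ[X], Trip P Q n R' p1 q2 ∧ p2.natDegree = q2.natDegree * P.natDegree := by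
  have hR := (tri_deg hd h).2
  have hQd : Q.natDegree = P.natDegree := inter_deg hd (inter_iff.2 ⟨n, R, p1, p2, h⟩)
  obtain ⟨hn, h1, h2, e1, e2⟩ := h
  obtain ⟨r, L, hr, hL, hRL⟩ := rho_exists hd hP hn h1 e1
  have hrd : r.natDegree = P.natDegree := semi_deg h1 (by omega) hr
  obtain ⟨n', rfl⟩ : ∃ n', n = n' + 1 := ⟨n - 1, by omega⟩
  have e3 : (it Q (n' + 1)).comp p2 = (p2.comp (L.comp (it r n'))).comp r := by
    rw [← e2, hRL, it_succ' r n', comp_assoc, comp_assoc]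
  obtain ⟨q2, hq2⟩ := dvd_right (A := it Q (n' + 1)) (f := p2) (g := r)
    (by rw [natDegree_it]; exact Nat.one_le_pow _ _ (by omega)) h2 (by omega) e3
    (by rw [hrd]; exact hk)
  have hdeg : p2.natDegree = q2.natDegree * P.natDegree := by
    conv_lhs => rw [hq2, natDegree_comp, hrd]
  have hq2d : 1 ≤ q2.natDegree := by
    by_contra h0
    have h0' : q2.natDegree = 0 := by omega
    rw [h0', zero_mul] at hdeg
    omega
  have e4 : p1.comp (r.comp L) = p1.comp r := by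
    rw [← comp_assoc, hr, comp_assoc, hL.2]
  obtain ⟨L2, hL2, e5⟩ := sym_of_comp (p := p1) (f := r.comp L) (g := r) h1
    (by rw [natDegree_comp, hL.1]; omega) e4 (by rw [natDegree_comp, hL.1]; omega)
  refine ⟨L2.comp (it r (n' + 1)), q2, ⟨hn, h1, hq2d, ?_, ?_⟩, hdeg⟩
  · rw [← comp_assoc, hL2.2]
    exact semi_it hr (n' + 1)
  · apply comp_cancel (V := r) (by omega)
    have e6 : (it r (n' + 1)).comp r = r.comp (it r (n' + 1)) := by
      rw [← it_succ' r (n' + 1), it_succ]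
    rw [comp_assoc, comp_assoc, e6, ← comp_assoc L2 r, ← e5, comp_assoc r L, ← hRL,
      ← comp_assoc q2 r, ← hq2, e2, comp_assoc, ← hq2]

end H12IT
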