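import Pool.Agent.H12.IT.Nbd
import Pool.Agent.H12.IT.Tri

set_option autoImplicit false

/-! PROJECT IT, module Nbs: reduction of the number of iterates. -/

open Polynomial

namespace H12IT

/-- the end of the argument: two equal linear maps give a smaller triple -/
theorem nbs_aux {P Q : ℂ[X]} {n : ℕ} {p1 p2 r1 r2 L1 L2 : ℂ[X]}
    (hp1 : 1 ≤ p1.natDegree) (hp2 : 1 ≤ p2.natDegree)
    (hr1 : 1 ≤ r1.natDegree)
    (e1 : p1.comp r1 = P.comp p1) (s1 : Sym p1 L1)
    (e2 : p2.comp r2 = Q.comp p2) (s2 : Sym p2 L2)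
    (hR : L1.comp (it r1 n) = L2.comp (it r2 n))
    (l : ℕ → ℂ[X]) (hl : ∀ i ≤ n, it r2 i = (l i).comp (it r1 i))
    {i j : ℕ} (hij : i < j) (hj : j < n) (hll : l i = l j) :
    ∃ n' R', n' < n ∧ Trip P Q n' R' p1 p2 := by
  obtain ⟨m, rfl⟩ : ∃ m, j = i + m := ⟨j - i, by omega⟩
  have hm : 1 ≤ m := by omega
  have h1 : it r2 (i + m) = (it r2 i).comp (it r1 m) := by
    rw [hl (i + m) (by omega), ← hll, it_add, ← Polynomial.comp_assoc, ← hl i (by omega)]
  have h2 : (L1.comp (it r1 (n - m))).comp (it r1 m)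
      = (L2.comp (it r2 (n - m))).comp (it r1 m) := by
    have hA : (L1.comp (it r1 (n - m))).comp (it r1 m) = L1.comp (it r1 n) := by
      rw [Polynomial.comp_assoc, ← it_add]
      congr 2; omega
    have hB : (L2.comp (it r2 (n - m))).comp (it r1 m) = L2.comp (it r2 n) := by
      have h3 : it r2 (n - m) = (it r2 (n - (i + m))).comp (it r2 i) := by
        rw [← it_add]; congr 1; omega
      have h4 : it r2 n = (it r2 (n - (i + m))).comp (it r2 (i + m)) := by
        rw [← it_add]; congr 1; omega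
      rw [h3, h4, h1]
      simp only [Polynomial.comp_assoc]
    rw [hA, hB, hR]
  have hdeg : 1 ≤ (it r1 m).natDegree := by
    rw [natDegree_it]
    exact Nat.one_le_pow _ _ (by omega)
  have h5 : L1.comp (it r1 (n - m)) = L2.comp (it r2 (n - m)) := comp_cancel hdeg h2
  refine ⟨n - m, L1.comp (it r1 (n - m)), by omega, by omega, hp1, hp2, ?_, ?_⟩
  · rw [← Polynomial.comp_assoc, s1.2]
    exact semi_it e1 _
  · rw [h5, ← Polynomial.comp_assoc, s2.2]
    exact semi_it e2 _

/-- one step of the reduction of `n` -/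
theorem n_step {P Q : ℂ[X]} (hd : 2 ≤ P.natDegree) (hP : NonSpecial P) (hQ : NonSpecial Q)
    {n : ℕ} {R p1 p2 : ℂ[X]} (h : Trip P Q n R p1 p2) (hn : P.natDegree + 1 < n) :
    ∃ n' R', n' < n ∧ Trip P Q n' R' p1 p2 := by
  have hdQ : Q.natDegree = P.natDegree := inter_deg hd (inter_iff.2 ⟨n, R, p1, p2, h⟩)
  obtain ⟨hn1, hp1, hp2, h1, h2⟩ := h
  obtain ⟨r1, L1, e1, s1, R1⟩ := rho_exists hd hP hn1 hp1 h1
  obtain ⟨r2, L2, e2, s2, R2⟩ := rho_exists (P := Q) (by omega) hQ hn1 hp2 h2
  have d1 : r1.natDegree = P.natDegree := semi_deg hp1 (by omega) e1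
  have d2 : r2.natDegree = P.natDegree := by
    rw [semi_deg hp2 (by omega) e2, hdQ]
  have hR : L1.comp (it r1 n) = L2.comp (it r2 n) := by rw [← R1, ← R2]
  have hposdeg : ∀ i, 1 ≤ P.natDegree ^ i := fun i => Nat.one_le_pow _ _ (by omega)
  have hex : ∀ i : ℕ, ∃ L : ℂ[X], i ≤ n → (L.natDegree = 1 ∧ it r2 i = L.comp (it r1 i)) := by
    intro i
    by_cases hi : i ≤ n
    · have hA : (L2.comp (it r2 (n - i))).comp (it r2 i)
          = (L1.comp (it r1 (n - i))).comp (it r1 i) := by
        rw [Polynomial.comp_assoc, Polynomial.comp_assoc, ← it_add, ← it_add,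
          Nat.sub_add_cancel hi, hR]
      obtain ⟨L, hL, hL2, -⟩ := same_right
        (by rw [natDegree_comp, s2.1, natDegree_it, d2, one_mul]; exact hposdeg _)
        (by rw [natDegree_it, d2]; exact hposdeg _) hA
        (by rw [natDegree_it, natDegree_it, d1, d2])
      exact ⟨L, fun _ => ⟨hL, hL2⟩⟩
    · exact ⟨0, fun h => absurd h hi⟩
  choose l hl using hex
  have hl2 : ∀ i ≤ n, it r2 i = (l i).comp (it r1 i) := fun i hi => (hl i hi).2
  -- the relation `l₁ r₁ lᵢ = lᵢ₊₁ r₁`
  have hr2 : r2 = (l 1).comp r1 := by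
    have := hl2 1 hn1
    rwa [it_one, it_one] at this
  have hrel : ∀ i, i < n → ((l 1).comp r1).comp (l i) = (l (i + 1)).comp r1 := by
    intro i hi
    have hc : (((l 1).comp r1).comp (l i)).comp (it r1 i)
        = ((l (i + 1)).comp r1).comp (it r1 i) := by
      rw [Polynomial.comp_assoc _ (l i), ← hl2 i (by omega), ← hr2, ← it_succ,
        hl2 (i + 1) (by omega), it_succ, Polynomial.comp_assoc]
    exact comp_cancel (by rw [natDegree_it, d1]; exact hposdeg _) hc
  obtain ⟨l1', hl1', -, hl1b⟩ := lin_inv (hl 1 hn1).1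
  have hcomm : ∀ i, i < n → r1.comp (l i) = (l1'.comp (l (i + 1))).comp r1 := by
    intro i hi
    have h3 := hrel i hi
    have h4 : l1'.comp (((l 1).comp r1).comp (l i)) = l1'.comp ((l (i + 1)).comp r1) := by
      rw [h3]
    rw [Polynomial.comp_assoc (l 1), ← Polynomial.comp_assoc l1' (l 1), hl1b,
      Polynomial.X_comp, ← Polynomial.comp_assoc l1'] at h4
    exact h4
  obtain ⟨o, ho1, ho2⟩ := sigma_form (r := r1) (by omega)
  have hee : ∀ i : ℕ, ∃ e : ℂ, i < n → (e ≠ 0 ∧ l i = C o + C e * (X - C o)) := by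
    intro i
    by_cases hi : i < n
    · obtain ⟨e, he, he2⟩ := ho1 (l i) _ (hl i hi.le).1 (hcomm i hi)
      exact ⟨e, fun _ => ⟨he, he2⟩⟩
    · exact ⟨0, fun h => absurd h hi⟩
  choose e he using hee
  rcases ho2 with ⟨k, hk1, hk2, hk⟩ | ⟨a, b, ha, hr⟩
  · -- pigeonhole
    have hroot : ∀ i, i < n → (e i) ^ k = 1 := by
      intro i hi
      refine hk (l1'.comp (l (i + 1))) (e i) (he i hi).1 ?_
      rw [← (he i hi).2]
      exact hcomm i hi
    have hcard : (Polynomial.nthRoots k (1 : ℂ)).toFinset.card < (Finset.range n).card := by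
      rw [Finset.card_range]
      calc (Polynomial.nthRoots k (1 : ℂ)).toFinset.card
          ≤ (Polynomial.nthRoots k (1 : ℂ)).card := Multiset.toFinset_card_le _
        _ ≤ k := Polynomial.card_nthRoots k 1
        _ < n := by omega
    obtain ⟨i, hi, j, hj, hne, heq⟩ := Finset.exists_ne_map_eq_of_card_lt_of_maps_to hcard
      (f := e) (by
        intro i hi
        rw [Finset.mem_coe, Finset.mem_range] at hi
        rw [Finset.mem_coe, Multiset.mem_toFinset, Polynomial.mem_nthRoots (by omega)]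
        exact hroot i hi)
    rw [Finset.mem_range] at hi hj
    have hll : l i = l j := by rw [(he i hi).2, (he j hj).2, heq]
    rcases lt_or_gt_of_ne hne with hlt | hlt
    · exact nbs_aux hp1 hp2 (by omega) e1 s1 e2 s2 hR l hl2 hlt hj hll
    · exact nbs_aux hp1 hp2 (by omega) e1 s1 e2 s2 hR l hl2 hlt hi hll.symm
  · have hbo : b ≠ o := unicrit hd hP.1 hp1 e1 hr
    have hro : r1.eval o = b := by
      rw [hr]
      simp only [eval_add, eval_mul, eval_C, eval_pow, eval_sub, eval_X, sub_self]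
      rw [zero_pow (by omega)]
      ring
    have hev : ∀ i, i < n → ∀ x : ℂ, (l i).eval x = o + e i * (x - o) := by
      intro i hi x
      rw [(he i hi).2]
      simp
    have h12 : ((l 1).comp r1).comp (l 1) = (l 2).comp r1 := hrel 1 (by omega)
    have h13 := congrArg (fun p => p.eval o) h12
    simp only [eval_comp] at h13
    rw [hev 1 (by omega) o, sub_self, mul_zero, add_zero, hro, hev 1 (by omega) b,
      hev 2 (by omega) b] at h13
    have h14 : e 1 = e 2 := by
      have h15 : e 1 * (b - o) = e 2 * (b - o) := by linear_combination h13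
      exact mul_right_cancel₀ (sub_ne_zero.2 hbo) h15
    have hll : l 1 = l 2 := by rw [(he 1 (by omega)).2, (he 2 (by omega)).2, h14]
    exact nbs_aux hp1 hp2 (by omega) e1 s1 e2 s2 hR l hl2 (by norm_num) (by omega) hll

theorem n_bound {P Q : ℂ[X]} (hd : 2 ≤ P.natDegree) (hP : NonSpecial P) (hQ : NonSpecial Q)
    {n : ℕ} {R p1 p2 : ℂ[X]} (h : Trip P Q n R p1 p2) :
    ∃ n' R', n' ≤ P.natDegree + 1 ∧ Trip P Q n' R' p1 p2 := by
  induction n using Nat.strong_induction_on generalizing R with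
  | _ n ih =>
    by_cases hn : n ≤ P.natDegree + 1
    · exact ⟨n, R, hn, h⟩
    · obtain ⟨n', R', hlt, h'⟩ := n_step hd hP hQ h (by omega)
      exact ih n' hlt h'

end H12IT
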