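import Pool.Agent.H12.IT.Defs

set_option autoImplicit false

/-! PROJECT IT, module Nrm: the norm polynomial `Φ(x,y) = ∏_{g t = y} (x - f t)`. -/

open Polynomial

namespace H12IT

/-- value of the norm -/
noncomputable def nrm (f g : ℂ[X]) (x y : ℂ) : ℂ :=
  ((g - C y).roots.map (fun t => x - f.eval t)).prod

theorem nrm_aux_ld {f : ℂ[X]} (hf : 1 ≤ f.natDegree) (x : ℂ) :
    (f - C x).leadingCoeff = f.leadingCoeff := by
  apply leadingCoeff_sub_of_degree_lt
  exact lt_of_le_of_lt degree_C_le (natDegree_pos_iff_degree_pos.mp hf)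

theorem nrm_aux_nd {f : ℂ[X]} (x : ℂ) : (f - C x).natDegree = f.natDegree := by
  simp

theorem nrm_aux_card (f : ℂ[X]) (x : ℂ) : Multiset.card (f - C x).roots = f.natDegree := by
  rw [← (IsAlgClosed.splits (f - C x)).natDegree_eq_card_roots, nrm_aux_nd]

theorem nrm_aux_eval {f : ℂ[X]} (hf : 1 ≤ f.natDegree) (x t : ℂ) :
    f.eval t - x = f.leadingCoeff * ((f - C x).roots.map (fun s => t - s)).prod := by
  have h := (IsAlgClosed.splits (f - C x)).eval_eq_prod_roots t
  rw [nrm_aux_ld hf] at h
  simpa using h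

/-- symmetry of the resultant -/
theorem nrm_symm {f g : ℂ[X]} (hf : 1 ≤ f.natDegree) (hg : 1 ≤ g.natDegree) :
    ∃ k : ℂ, k ≠ 0 ∧ ∀ x y : ℂ,
      nrm f g x y = k * ((f - C x).roots.map (fun s => g.eval s - y)).prod := by
  have hfl : f.leadingCoeff ≠ 0 := by
    intro h; rw [leadingCoeff_eq_zero] at h; rw [h] at hf; simp at hf
  have hgl : g.leadingCoeff ≠ 0 := by
    intro h; rw [leadingCoeff_eq_zero] at h; rw [h] at hg; simp at hg
  refine ⟨(-f.leadingCoeff * (-1) ^ f.natDegree) ^ g.natDegree / g.leadingCoeff ^ f.natDegree,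
    ?_, ?_⟩
  · apply div_ne_zero
    · apply pow_ne_zero
      apply mul_ne_zero (neg_ne_zero.mpr hfl)
      exact pow_ne_zero _ (by norm_num)
    · exact pow_ne_zero _ hgl
  · intro x y
    have h1 : ∀ t : ℂ, x - f.eval t = (-f.leadingCoeff * (-1) ^ f.natDegree) *
        ((f - C x).roots.map (fun s => s - t)).prod := by
      intro t
      have h := nrm_aux_eval hf x t
      have h2 : ((f - C x).roots.map (fun s => t - s)).prod =
          (-1) ^ f.natDegree * ((f - C x).roots.map (fun s => s - t)).prod := by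
        have h3 : (fun s : ℂ => t - s) = fun s => (-1) * (s - t) := by
          funext s; ring
        rw [h3, Multiset.prod_map_mul, Multiset.map_const', Multiset.prod_replicate, nrm_aux_card]
      rw [h2] at h
      have h4 : x - f.eval t = -(f.eval t - x) := by ring
      rw [h4, h]; ring
    have h5 : ∀ s : ℂ, ((g - C y).roots.map (fun t => s - t)).prod =
        (g.leadingCoeff)⁻¹ * (g.eval s - y) := by
      intro s
      rw [nrm_aux_eval hg y s]
      field_simp
    unfold nrm
    rw [Multiset.map_congr rfl (fun t _ => h1 t), Multiset.prod_map_mul, Multiset.map_const',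
      Multiset.prod_replicate, nrm_aux_card, Multiset.prod_map_prod_map,
      Multiset.map_congr rfl (fun s _ => h5 s), Multiset.prod_map_mul, Multiset.map_const',
      Multiset.prod_replicate, nrm_aux_card, inv_pow]
    ring

/-- the monic polynomial in `x` -/
theorem nrm_aux_monic (f g : ℂ[X]) (y : ℂ) :
    (((g - C y).roots.map (fun t => X - C (f.eval t))).prod : ℂ[X]).Monic := by
  apply monic_multiset_prod_of_monic
  intro t _
  exact monic_X_sub_C _

theorem nrm_aux_deg (f g : ℂ[X]) (y : ℂ) :
    (((g - C y).roots.map (fun t => X - C (f.eval t))).prod : ℂ[X]).natDegree =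
      g.natDegree := by
  have h := natDegree_multiset_prod_X_sub_C_eq_card ((g - C y).roots.map (fun t => f.eval t))
  rw [Multiset.map_map, Multiset.card_map, nrm_aux_card] at h
  exact h

theorem nrm_aux_val (f g : ℂ[X]) (x y : ℂ) :
    (((g - C y).roots.map (fun t => X - C (f.eval t))).prod : ℂ[X]).eval x = nrm f g x y := by
  rw [eval_multiset_prod, Multiset.map_map]
  unfold nrm
  congr 1
  apply Multiset.map_congr rfl
  intro t _
  simp

/-- for fixed `x` the norm is a polynomial in `y` -/
theorem nrm_aux_y {f g : ℂ[X]} (hf : 1 ≤ f.natDegree) (hg : 1 ≤ g.natDegree) :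
    ∃ N : ℂ → ℂ[X], ∀ x y : ℂ, nrm f g x y = (N x).eval y := by
  obtain ⟨k, _, hk⟩ := nrm_symm hf hg
  refine ⟨fun x => C k * ((f - C x).roots.map (fun s => C (g.eval s) - X)).prod, ?_⟩
  intro x y
  rw [hk x y, eval_mul, eval_C, eval_multiset_prod, Multiset.map_map]
  congr 2
  apply Multiset.map_congr rfl
  intro t _
  simp

/-- the coefficients of the norm are polynomials in `y` -/
theorem nrm_poly {f g : ℂ[X]} (hf : 1 ≤ f.natDegree) (hg : 1 ≤ g.natDegree) :
    ∃ c : ℕ → ℂ[X], c g.natDegree = 1 ∧ (∀ x y : ℂ,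
      nrm f g x y = ∑ i ∈ Finset.range (g.natDegree + 1), (c i).eval y * x ^ i) ∧
      (∀ y : ℂ, ∀ i ≤ g.natDegree, (c i).eval y =
        (((g - C y).roots.map (fun t => X - C (f.eval t))).prod : ℂ[X]).coeff i) := by
  obtain ⟨N, hN⟩ := nrm_aux_y hf hg
  set b := g.natDegree with hb
  let v : ℕ → ℂ := fun j => (j : ℂ)
  let S : Finset ℕ := Finset.range (b + 1)
  have hv : Set.InjOn v S := by
    intro i _ j _ hij
    have h : (i : ℂ) = (j : ℂ) := hij
    exact_mod_cast h
  let c : ℕ → ℂ[X] := fun i => ∑ j ∈ S, C ((Lagrange.basis S v j).coeff i) * N (v j)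
  have hc : ∀ y : ℂ, ∀ i, (c i).eval y =
      (((g - C y).roots.map (fun t => X - C (f.eval t))).prod : ℂ[X]).coeff i := by
    intro y i
    set Q : ℂ[X] := ((g - C y).roots.map (fun t => X - C (f.eval t))).prod with hQ
    have hQd : Q.degree < S.card := by
      have h1 : Q.natDegree = b := nrm_aux_deg f g y
      have h2 : Q ≠ 0 := (nrm_aux_monic f g y).ne_zero
      rw [degree_eq_natDegree h2, h1, Finset.card_range]
      exact_mod_cast Nat.lt_succ_self b
    have h3 := Lagrange.eq_interpolate (s := S) (v := v) hv hQd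
    have h4 : Q.coeff i = ∑ j ∈ S, Q.eval (v j) * (Lagrange.basis S v j).coeff i := by
      conv_lhs => rw [h3]
      rw [Lagrange.interpolate_apply, finsetSum_coeff]
      apply Finset.sum_congr rfl
      intro j _
      rw [coeff_C_mul]
    rw [h4]
    simp only [c, eval_finsetSum, eval_mul, eval_C]
    apply Finset.sum_congr rfl
    intro j _
    rw [← hN, ← nrm_aux_val]
    ring
  refine ⟨c, ?_, ?_, fun y i _ => hc y i⟩
  · apply Polynomial.funext
    intro y
    rw [hc y b, eval_one]
    have h1 := nrm_aux_monic f g y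
    have h2 := nrm_aux_deg f g y
    have h3 := h1.coeff_natDegree
    rw [h2] at h3
    exact h3
  · intro x y
    rw [← nrm_aux_val, eval_eq_sum_range, nrm_aux_deg]
    apply Finset.sum_congr rfl
    intro i _
    rw [hc y i]

end H12IT
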