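import Pool.Agent.H12.IT.Hom

set_option autoImplicit false

/-! PROJECT IT, module Nsa: primitive element, Nullstellensatz, conjugation. -/

open Polynomial

namespace H12IT

open Ar

/-- primitive element -/
theorem prim_elt (xs : List ℂ) (h : ∀ x ∈ xs, IsAlgebraic ℚ x) :
    ∃ (β : ℂ) (ml : List Q3), 1 ≤ ml.length ∧ Irreducible (pq (ml ++ [o3])) ∧
      evalL (ml ++ [o3]) β = 0 ∧ ∀ x ∈ xs, ∃ l : List Q3, evalL l β = x := by
  classical
  let S : Set ℂ := {x | x ∈ xs}
  have hS : S.Finite := List.finite_toSet xs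
  have : Finite S := hS
  have hfd : FiniteDimensional ℚ (IntermediateField.adjoin ℚ S) :=
    IntermediateField.finiteDimensional_adjoin (fun x hx => (h x hx).isIntegral)
  obtain ⟨a, ha⟩ := Field.exists_primitive_element ℚ (IntermediateField.adjoin ℚ S)
  have haint : IsIntegral ℚ a := Algebra.IsIntegral.isIntegral a
  have hb : IsIntegral ℚ (a : ℂ) := by
    have := haint.map (IntermediateField.val (IntermediateField.adjoin ℚ S))
    exact this
  obtain ⟨ml, hml, hpq⟩ := pq_monic (minpoly.monic hb)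
  refine ⟨(a : ℂ), ml, ?_, ?_, ?_, ?_⟩
  · rw [hml]
    exact minpoly.natDegree_pos hb
  · rw [hpq]
    exact minpoly.irreducible hb
  · rw [evalL_pq, hpq]
    exact minpoly.aeval ℚ _
  · intro x hx
    have hxS : x ∈ IntermediateField.adjoin ℚ S := IntermediateField.subset_adjoin ℚ S hx
    have h1 : (⟨x, hxS⟩ : IntermediateField.adjoin ℚ S) ∈ IntermediateField.adjoin ℚ {a} := by
      rw [ha]
      exact IntermediateField.mem_top
    rw [← IntermediateField.mem_toSubalgebra,
      IntermediateField.adjoin_simple_toSubalgebra_of_isAlgebraic haint.isAlgebraic,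
      Algebra.adjoin_singleton_eq_range_aeval] at h1
    obtain ⟨p, hp⟩ := h1
    obtain ⟨l, hl⟩ := pq_surj p
    refine ⟨l, ?_⟩
    rw [evalL_pq, hl]
    have h2 : (IntermediateField.val (IntermediateField.adjoin ℚ S)) (Polynomial.aeval a p) =
        Polynomial.aeval ((IntermediateField.val (IntermediateField.adjoin ℚ S)) a) p :=
      (Polynomial.aeval_algHom_apply _ a p).symm
    have h3 : (Polynomial.aeval a) p = (⟨x, hxS⟩ : IntermediateField.adjoin ℚ S) := hp
    rw [h3] at h2
    exact h2.symm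

/-- coefficients for a list -/
theorem nsa_list {R : Type} [CommRing R] (E : List R) (x : R)
    (h : x ∈ Ideal.span {e | e ∈ E}) :
    ∃ G : List R, G.length = E.length ∧
      ∑ j ∈ Finset.range E.length, G.getD j 0 * E.getD j 0 = x := by
  have hE : {e | e ∈ E} = Set.range (fun i : Fin E.length => E.get i) := by
    ext e
    rw [Set.mem_range]
    exact List.mem_iff_get
  rw [hE, Ideal.mem_span_range_iff_exists_fun] at h
  obtain ⟨c, hc⟩ := h
  refine ⟨List.ofFn c, List.length_ofFn, ?_⟩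
  rw [← hc, ← Fin.sum_univ_eq_sum_range (fun j => (List.ofFn c).getD j 0 * E.getD j 0)]
  apply Finset.sum_congr rfl
  intro i _
  congr 1
  · rw [List.getD_eq_getElem _ _ (by simp)]
    simp
  · rw [List.getD_eq_getElem _ _ i.2]
    rfl

section gen

variable {F L : Type} [Field F] [Field L] [Algebra F L] [IsAlgClosed L]

/-- Nullstellensatz, with algebraic points -/
theorem nsa_null {N : ℕ} (I : Ideal (MvPolynomial (Fin N) F)) (hI : I ≠ ⊤) :
    ∃ x : Fin N → L, (∀ i, IsAlgebraic F (x i)) ∧ ∀ e ∈ I, MvPolynomial.aeval x e = 0 := by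
  obtain ⟨J, hJ, hIJ⟩ := Ideal.exists_le_maximal _ hI
  have : IsAlgClosed (algebraicClosure F L) := IsAlgClosure.isAlgClosed F
  obtain ⟨x, hx⟩ := MvPolynomial.eq_vanishingIdeal_singleton_of_isMaximal
    (algebraicClosure F L) hJ
  refine ⟨fun i => (x i : L), fun i => mem_algebraicClosure_iff.1 (x i).2, ?_⟩
  intro e he
  have h2 : e ∈ J := hIJ he
  rw [hx, MvPolynomial.mem_vanishingIdeal_singleton_iff] at h2
  have h3 := MvPolynomial.comp_aeval_apply (algebraicClosure F L).val (f := x) e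
  rw [h2, map_zero] at h3
  exact h3.symm

/-- conjugation -/
theorem nsa_conj {β t : L} (hβ : IsAlgebraic F β) (ht : IsAlgebraic F t)
    (hm : minpoly F t = minpoly F β) {N : ℕ} (x : Fin N → L) (hx : ∀ i, IsAlgebraic F (x i)) :
    ∃ y : Fin N → L, (∀ i, IsAlgebraic F (y i)) ∧ (∀ i, x i = t → y i = β) ∧
      ∀ G : MvPolynomial (Fin N) F, MvPolynomial.aeval x G = 0 → MvPolynomial.aeval y G = 0 := by
  have : IsAlgClosed (algebraicClosure F L) := IsAlgClosure.isAlgClosed F
  let K := algebraicClosure F L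
  let b' : K := ⟨β, mem_algebraicClosure_iff.2 hβ⟩
  let t' : K := ⟨t, mem_algebraicClosure_iff.2 ht⟩
  have hmb : minpoly F b' = minpoly F β := (minpoly.algebraMap_eq
    (algebraMap K L).injective b').symm
  have hmt : minpoly F t' = minpoly F t := (minpoly.algebraMap_eq
    (algebraMap K L).injective t').symm
  have hcj : IsConjRoot F t' b' := by
    rw [IsConjRoot, hmb, hmt, hm]
  have : Normal F K := inferInstance
  obtain ⟨σ, hσ⟩ := isConjRoot_iff_exists_algEquiv.1 hcj
  have hσ' : σ.symm t' = b' := by rw [← hσ]; simp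
  let x' : Fin N → K := fun i => ⟨x i, mem_algebraicClosure_iff.2 (hx i)⟩
  refine ⟨fun i => (σ.symm (x' i) : L), fun i => mem_algebraicClosure_iff.1 (σ.symm (x' i)).2,
    ?_, ?_⟩
  · intro i hi
    have h1 : x' i = t' := Subtype.ext hi
    change ((σ.symm (x' i) : K) : L) = β
    rw [h1, hσ']
  · intro G hG
    have h3 := MvPolynomial.comp_aeval_apply K.val (f := x') G
    have h4 : (MvPolynomial.aeval x') G = 0 := by
      have h5 : K.val ((MvPolynomial.aeval x') G) = 0 := by
        rw [h3]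
        exact hG
      exact Subtype.ext h5
    have h6 := MvPolynomial.comp_aeval_apply (K.val.comp (σ.symm : K →ₐ[F] K)) (f := x') G
    rw [h4, map_zero] at h6
    exact h6.symm

end gen

/-- Nullstellensatz for algebraic points -/
theorem null_cert {N : ℕ} (E : List (MvPolynomial (Fin N) ℚ))
    (h : ∀ x : Fin N → ℂ, (∀ i, IsAlgebraic ℚ (x i)) → ∃ e ∈ E, MvPolynomial.aeval x e ≠ 0) :
    ∃ G : List (MvPolynomial (Fin N) ℚ), G.length = E.length ∧ dot E.length G E = 1 := by
  have h1 : (1 : MvPolynomial (Fin N) ℚ) ∈ Ideal.span {e | e ∈ E} := by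
    by_contra hcon
    have hne : Ideal.span {e | e ∈ E} ≠ ⊤ := fun ht => hcon (by rw [ht]; trivial)
    obtain ⟨x, hx, hx0⟩ := nsa_null (L := ℂ) _ hne
    obtain ⟨e, he, hne⟩ := h x hx
    exact hne (hx0 e (Ideal.subset_span he))
  obtain ⟨G, hG, hs⟩ := nsa_list E 1 h1
  exact ⟨G, hG, by rw [dot_alg]; exact hs⟩

/-- conjugation -/
theorem conj_map {M : ℚ[X]} (hM : Irreducible M) {β t : ℂ} (hβ : Polynomial.aeval β M = 0)
    (ht : Polynomial.aeval t M = 0) {N : ℕ} (x : Fin N → ℂ) (hx : ∀ i, IsAlgebraic ℚ (x i)) :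
    ∃ y : Fin N → ℂ, (∀ i, IsAlgebraic ℚ (y i)) ∧ (∀ i, x i = t → y i = β) ∧
      ∀ F : MvPolynomial (Fin N) ℚ, MvPolynomial.aeval x F = 0 → MvPolynomial.aeval y F = 0 :=
  nsa_conj ⟨M, hM.ne_zero, hβ⟩ ⟨M, hM.ne_zero, ht⟩ (by
    rw [← minpoly.eq_of_irreducible hM hβ, ← minpoly.eq_of_irreducible hM ht]) x hx

end H12IT
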