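import Pool.Agent.H12.IT.Inp
import Pool.Agent.H12.IT.Nsa

set_option autoImplicit false

/-! PROJECT IT, module Nst: existence of the algebraic certificates. -/

open Polynomial

namespace H12IT

open Ar

theorem chkSol_exists {d : ℕ} {cs as : List (List Q3)} {ml : List Q3}
    (hi : Irreducible (pq (ml ++ [o3]))) {β : ℂ} (hβ : evalL (ml ++ [o3]) β = 0)
    {S : List (List (List (List Q3)))} (g0 : ℕ)
    (h : ∀ s ∈ S, s.map List.length = lens d ∧ ∀ e ∈ sysE d (PL d cs as β) (evB s β), e = 0) :
    ∃ shs, ChkSol d cs as ml S shs g0 := by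
  obtain ⟨φ, hφ⟩ := one_var g0
  have key : ∀ i k : ℕ, ∃ hh : List Q3, i < S.length →
      ZT (sub ((sysE d (PL d cs as (var g0)) (evB (S.getD i []) (var g0))).getD k zer)
        (mul (horQ hh (var g0)) (horQ (ml ++ [o3]) (var g0)))) := by
    intro i k
    by_cases hiS : i < S.length
    · have hmem : S.getD i [] ∈ S := by
        rw [List.getD_eq_getElem _ _ hiS]
        exact List.getElem_mem hiS
      have hF : Polynomial.aeval β
          ((sysE d (PL d cs as (X : ℚ[X])) (evB (S.getD i []) (X : ℚ[X]))).getD k zer) = 0 := by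
        rw [(algHom_isHom (Polynomial.aeval β : ℚ[X] →ₐ[ℚ] ℂ)).getD,
          (algHom_isHom (Polynomial.aeval β : ℚ[X] →ₐ[ℚ] ℂ)).sysE,
          (algHom_isHom (Polynomial.aeval β : ℚ[X] →ₐ[ℚ] ℂ)).PL,
          (algHom_isHom (Polynomial.aeval β : ℚ[X] →ₐ[ℚ] ℂ)).evB, Polynomial.aeval_X]
        by_cases hk : k < (sysE d (PL d cs as β) (evB (S.getD i []) β)).length
        · rw [List.getD_eq_getElem _ _ hk]
          exact (h _ hmem).2 _ (List.getElem_mem hk)
        · rw [List.getD_eq_default _ _ (not_lt.mp hk), zer_alg]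
      have hs : sem ((sysE d (PL d cs as (var g0)) (evB (S.getD i []) (var g0))).getD k zer) =
          φ ((sysE d (PL d cs as (X : ℚ[X])) (evB (S.getD i []) (X : ℚ[X]))).getD k zer) := by
        rw [(algHom_isHom φ).getD, (algHom_isHom φ).sysE, (algHom_isHom φ).PL,
          (algHom_isHom φ).evB, hφ, sem_isHom.getD, sem_isHom.sysE, sem_isHom.PL, sem_isHom.evB]
      obtain ⟨hh, hhh⟩ := quot_code hi hβ hφ hs hF
      exact ⟨hh, fun _ => hhh⟩
    · exact ⟨[], fun h' => absurd h' hiS⟩
  choose H hH using key
  refine ⟨(List.range S.length).map (fun i => (List.range (2 * TT d + 2)).map (fun k => H i k)),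
    ?_⟩
  intro i hiS
  have hmem : S.getD i [] ∈ S := by
    rw [List.getD_eq_getElem _ _ hiS]
    exact List.getElem_mem hiS
  refine ⟨(h _ hmem).1, ?_⟩
  intro k hk
  have h1 : ((List.range S.length).map
      (fun i => (List.range (2 * TT d + 2)).map (fun k => H i k))).getD i [] =
      (List.range (2 * TT d + 2)).map (fun k => H i k) := by
    rw [List.getD_eq_getElem _ _ (by simpa using hiS)]
    simp
  have h2 : ((List.range (2 * TT d + 2)).map (fun k => H i k)).getD k [] = H i k := by
    rw [List.getD_eq_getElem _ _ (by simpa using hk)]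
    simp
  rw [h1, h2]
  exact hH i k hiS

/-- distinct primes in blocks of given lengths -/
theorem nst_primes (sz sz' : List ℕ) : ∃ (g0 : ℕ) (vb ys : List (List ℕ)),
    vb.map List.length = sz ∧ ys.map List.length = sz' ∧
      (∀ p ∈ g0 :: (vb.flatten ++ ys.flatten), p.Prime) ∧
      (g0 :: (vb.flatten ++ ys.flatten)).Nodup := by
  have hinj : Function.Injective (Nat.nth Nat.Prime) :=
    Nat.nth_injective Nat.infinite_setOfPred_prime
  have hpr : ∀ i, (Nat.nth Nat.Prime i).Prime := fun i => Nat.prime_nth_prime i
  have h1 : (sz.splitLengths ((List.range sz.sum).map (fun i => Nat.nth Nat.Prime (1 + i)))).map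
      List.length = sz := List.map_splitLengths_length _ _ (by simp)
  have h2 : (sz'.splitLengths ((List.range sz'.sum).map
      (fun i => Nat.nth Nat.Prime (1 + sz.sum + i)))).map
      List.length = sz' := List.map_splitLengths_length _ _ (by simp)
  have h3 : (sz.splitLengths ((List.range sz.sum).map
      (fun i => Nat.nth Nat.Prime (1 + i)))).flatten = (List.range sz.sum).map
      (fun i => Nat.nth Nat.Prime (1 + i)) := List.flatten_splitLengths _ _ (by simp)
  have h4 : (sz'.splitLengths ((List.range sz'.sum).map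
      (fun i => Nat.nth Nat.Prime (1 + sz.sum + i)))).flatten = (List.range sz'.sum).map
      (fun i => Nat.nth Nat.Prime (1 + sz.sum + i)) := List.flatten_splitLengths _ _ (by simp)
  refine ⟨Nat.nth Nat.Prime 0, _, _, h1, h2, ?_, ?_⟩
  · rw [h3, h4]
    intro p hp
    simp only [List.mem_cons, List.mem_append, List.mem_map, List.mem_range] at hp
    rcases hp with rfl | ⟨i, -, rfl⟩ | ⟨i, -, rfl⟩
    · exact hpr _
    · exact hpr _
    · exact hpr _
  · rw [h3, h4]
    refine List.nodup_cons.mpr ⟨?_, ?_⟩
    · intro hp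
      simp only [List.mem_append, List.mem_map, List.mem_range] at hp
      rcases hp with ⟨i, -, hi⟩ | ⟨i, -, hi⟩
      · have := hinj hi
        omega
      · have := hinj hi
        omega
    · refine List.nodup_append.mpr ⟨?_, ?_, ?_⟩
      · exact (List.nodup_range).map (fun a b hab => by
          have := hinj hab
          omega)
      · exact (List.nodup_range).map (fun a b hab => by
          have := hinj hab
          omega)
      · intro a ha b hb hab
        simp only [List.mem_map, List.mem_range] at ha hb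
        obtain ⟨i, hi, rfl⟩ := ha
        obtain ⟨j, hj, rfl⟩ := hb
        have := hinj hab
        omega

theorem chkNul_exists {d : ℕ} (hd : 2 ≤ d) {cs as : List (List Q3)} {ml : List Q3}
    (hi : Irreducible (pq (ml ++ [o3]))) {β : ℂ} (hβ : evalL (ml ++ [o3]) β = 0)
    {S : List (List (List (List Q3)))}
    (h : ∀ B : List (List ℂ), B.map List.length = lens d →
      (∀ b ∈ B, ∀ x ∈ b, IsAlgebraic ℚ x) → (∀ e ∈ sysE d (PL d cs as β) B, e = 0) →
      ∃ i < S.length, ∀ j < d - 1, (blk B 0).getD j 0 =
        evalL (((S.getD i []).getD 0 []).getD j []) β) :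
    ∃ g0 vb ys G, ChkNul d cs as ml S g0 vb ys G := by
  obtain ⟨g0, vb, ys, hvb, hys, hpr, hnd⟩ := nst_primes (lens d)
    (List.replicate S.length (d - 1))
  obtain ⟨N, hN⟩ : ∃ N : ℕ, ∀ p ∈ g0 :: (vb.flatten ++ ys.flatten), p < N := by
    refine ⟨(g0 :: (vb.flatten ++ ys.flatten)).sum + 1, fun p hp => ?_⟩
    exact Nat.lt_succ_of_le (List.le_sum_of_mem hp)
  obtain ⟨φ, hφ⟩ := many_var N
  -- the variables
  let V : ℕ → MvPolynomial (Fin N) ℚ := fun p => if hp : p < N then MvPolynomial.X ⟨p, hp⟩ else 0
  have hV : ∀ p (hp : p < N), V p = MvPolynomial.X ⟨p, hp⟩ := fun p hp => by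
    simp only [V, dif_pos hp]
  have hφV : ∀ p, p < N → φ (V p) = sem (var p) := fun p hp => by rw [hV p hp, hφ]
  set E : List (MvPolynomial (Fin N) ℚ) := allE d cs as (ml ++ [o3]) S (V g0)
    (vb.map (fun b => b.map V)) (ys.map (fun b => b.map V)) with hE
  have hcert : ∀ x : Fin N → ℂ, (∀ i, IsAlgebraic ℚ (x i)) →
      ∃ e ∈ E, MvPolynomial.aeval x e ≠ 0 := by
    intro x hx
    by_contra hcon
    push Not at hcon
    have hg0 : g0 < N := hN _ (List.mem_cons_self)
    have hM : Polynomial.aeval (x ⟨g0, hg0⟩) (pq (ml ++ [o3])) = 0 := by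
      have h1 := hcon (horQ (ml ++ [o3]) (V g0)) (by
        rw [hE]
        exact List.mem_cons_self)
      rw [(algHom_isHom (MvPolynomial.aeval x : MvPolynomial (Fin N) ℚ →ₐ[ℚ] ℂ)).horQ, horQ_pq,
        hV g0 hg0, MvPolynomial.aeval_X] at h1
      exact h1
    obtain ⟨y, hy1, hy2, hy3⟩ := conj_map hi (by rw [← evalL_pq]; exact hβ) hM x hx
    set u : ℕ → ℂ := fun p => MvPolynomial.aeval y (V p) with hu
    have hu0 : u g0 = β := by
      simp only [hu, hV g0 hg0, MvPolynomial.aeval_X]
      exact hy2 _ rfl
    have hualg : ∀ p, IsAlgebraic ℚ (u p) := by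
      intro p
      by_cases hp : p < N
      · simp only [hu, hV p hp, MvPolynomial.aeval_X]
        exact hy1 _
      · simp only [hu, V, dif_neg hp, map_zero]
        exact isAlgebraic_zero
    have hEy : E.map (MvPolynomial.aeval y : MvPolynomial (Fin N) ℚ →ₐ[ℚ] ℂ) =
        allE d cs as (ml ++ [o3]) S β (vb.map (fun b => b.map u)) (ys.map (fun b => b.map u)) := by
      have hb : ∀ w : List (List ℕ), (w.map (fun b => b.map V)).map (fun b => b.map
          (MvPolynomial.aeval y : MvPolynomial (Fin N) ℚ →ₐ[ℚ] ℂ)) =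
          w.map (fun b => b.map u) := by
        intro w
        rw [List.map_map]
        refine List.map_congr_left fun b _ => ?_
        simp only [Function.comp_apply, List.map_map]
        rfl
      rw [hE, (algHom_isHom (MvPolynomial.aeval y : MvPolynomial (Fin N) ℚ →ₐ[ℚ] ℂ)).allE,
        hb vb, hb ys, ← hu0]
    have hall : ∀ e ∈ allE d cs as (ml ++ [o3]) S β (vb.map (fun b => b.map u))
        (ys.map (fun b => b.map u)), e = 0 := by
      rw [← hEy]
      intro e he
      obtain ⟨F, hF, rfl⟩ := List.mem_map.mp he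
      exact hy3 F (hcon F hF)
    obtain ⟨i, hiS, hij⟩ := h (vb.map (fun b => b.map u)) (by
        rw [← hvb, List.map_map]
        refine List.map_congr_left fun b _ => ?_
        simp) (by
        intro b hb z hz
        obtain ⟨b', -, rfl⟩ := List.mem_map.mp hb
        obtain ⟨p, -, rfl⟩ := List.mem_map.mp hz
        exact hualg p) (by
        intro e he
        exact hall e (List.mem_cons_of_mem _ (List.mem_append_left _ he)))
    have hrab := hall (rab d (blk (vb.map (fun b => b.map u)) 0)
      ((ys.map (fun b => b.map u)).getD i []) ((S.getD i []).getD 0 []) β) (by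
        refine List.mem_cons_of_mem _ (List.mem_append_right _ ?_)
        exact List.mem_map.mpr ⟨i, List.mem_range.mpr hiS, rfl⟩)
    rw [rab, sub_alg, dot_alg, one_alg] at hrab
    rw [Finset.sum_eq_zero] at hrab
    · simp at hrab
    · intro j hj
      have hj' : j < d - 1 := Finset.mem_range.mp hj
      have h1 : ((List.range (d - 1)).map (fun j => sub ((blk (vb.map (fun b => b.map u)) 0).getD j
          zer) (horQ (((S.getD i []).getD 0 []).getD j []) β))).getD j 0 = 0 := by
        rw [List.getD_eq_getElem _ _ (by simpa using hj')]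
        simp only [List.getElem_map, List.getElem_range]
        rw [sub_alg, zer_alg, hij j hj', evalL_eq, sub_self]
      rw [h1, mul_zero]
  obtain ⟨G, hGl, hG⟩ := null_cert E hcert
  choose cd hcd using sem_surj
  refine ⟨g0, vb, ys, G.map (fun g => cd (φ g)), hvb, ?_, ?_, hpr, hnd, ?_⟩
  · have := congrArg List.length hys
    simpa using this
  · intro y hy
    have h1 : y.length ∈ ys.map List.length := List.mem_map.mpr ⟨y, hy, rfl⟩
    rw [hys] at h1
    exact (List.mem_replicate.mp h1).2
  · rw [ZT_iff, sem_isHom.sub, sem_isHom.dot, sem_isHom.one, sem_isHom.allE, sub_alg, one_alg]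
    have h1 : (G.map (fun g => cd (φ g))).map sem = G.map φ := by
      rw [List.map_map]
      refine List.map_congr_left fun g _ => ?_
      simp [hcd]
    have h2 : allE d cs as (ml ++ [o3]) S (sem (var g0))
        ((vb.map (fun b => b.map var)).map (fun b => b.map sem))
        ((ys.map (fun b => b.map var)).map (fun b => b.map sem)) = E.map φ := by
      have hb : ∀ w : List (List ℕ), (∀ b ∈ w, ∀ p ∈ b, p < N) →
          (w.map (fun b => b.map var)).map (fun b => b.map sem) =
          (w.map (fun b => b.map V)).map (fun b => b.map φ) := by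
        intro w hw
        rw [List.map_map, List.map_map]
        refine List.map_congr_left fun b hb => ?_
        simp only [Function.comp_apply, List.map_map]
        refine List.map_congr_left fun p hp => ?_
        exact (hφV p (hw b hb p hp)).symm
      rw [hE, (algHom_isHom φ).allE, hφV g0 (hN _ List.mem_cons_self), hb vb, hb ys]
      · intro b hb p hp
        exact hN p (List.mem_cons_of_mem _ (List.mem_append_right _
          (List.mem_flatten.mpr ⟨b, hb, hp⟩)))
      · intro b hb p hp
        exact hN p (List.mem_cons_of_mem _ (List.mem_append_left _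
          (List.mem_flatten.mpr ⟨b, hb, hp⟩)))
    have hlen : E.length = 2 * TT d + 3 + S.length := by
      rw [hE]
      exact allE_length _ _ _ _ _ _ _ _
    rw [h1, h2, ← hlen, ← (algHom_isHom φ).dot, hG, map_one, sub_self]

end H12IT
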