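import Pool.Agent.H12.IT.Cod

set_option autoImplicit false

/-! PROJECT IT, module Num: arithmetic of codes of rational numbers. -/

namespace H12IT

private theorem num_pos (n : ℕ) : (0 : ℚ) < (n : ℚ) + 1 := by positivity

private theorem num_ne (n : ℕ) : (n : ℚ) + 1 ≠ 0 := (num_pos n).ne'

theorem rat_add3 (a b : Q3) : rat (add3 a b) = rat a + rat b := by
  have h1 := num_ne a.2.2
  have h2 := num_ne b.2.2
  have h3 : ((a.2.2 * b.2.2 + a.2.2 + b.2.2 : ℕ) : ℚ) + 1 = ((a.2.2 : ℚ) + 1) * ((b.2.2 : ℚ) + 1) := by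
    push_cast
    ring
  simp only [rat, add3]
  rw [h3]
  push_cast
  field_simp
  ring

theorem rat_mul3 (a b : Q3) : rat (mul3 a b) = rat a * rat b := by
  have h1 := num_ne a.2.2
  have h2 := num_ne b.2.2
  have h3 : ((a.2.2 * b.2.2 + a.2.2 + b.2.2 : ℕ) : ℚ) + 1 = ((a.2.2 : ℚ) + 1) * ((b.2.2 : ℚ) + 1) := by
    push_cast
    ring
  simp only [rat, mul3]
  rw [h3]
  push_cast
  field_simp
  ring

theorem rat_neg3 (a : Q3) : rat (neg3 a) = - rat a := by
  simp only [rat, neg3]
  rw [← neg_div, neg_sub]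

theorem rat_abs3 (a : Q3) : rat (abs3 a) = |rat a| := by
  simp only [rat, abs3]
  rw [abs_div, abs_of_pos (num_pos a.2.2)]
  congr 1
  rcases le_total a.1 a.2.1 with h | h
  · rw [Nat.sub_eq_zero_of_le h, abs_of_nonpos (by rw [sub_nonpos]; exact_mod_cast h)]
    push_cast [Nat.cast_sub h]
    ring
  · rw [Nat.sub_eq_zero_of_le h, abs_of_nonneg (by rw [sub_nonneg]; exact_mod_cast h)]
    push_cast [Nat.cast_sub h]
    ring

theorem lt3_iff (a b : Q3) : lt3 a b ↔ rat a < rat b := by
  simp only [rat, lt3]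
  rw [div_lt_div_iff₀ (num_pos _) (num_pos _), ← Nat.cast_lt (α := ℚ)]
  push_cast
  constructor
  · intro h
    nlinarith [h]
  · intro h
    nlinarith [h]

theorem rat_z3 : rat z3 = 0 := by simp [rat, z3]

theorem rat_o3 : rat o3 = 1 := by simp [rat, o3]

theorem rat_m3 : rat m3 = -1 := by simp [rat, m3]

theorem rat_n3 (n : ℕ) : rat (n3 n) = n := by simp [rat, n3]

theorem rat_eq_zero (a : Q3) : rat a = 0 ↔ a.1 = a.2.1 := by
  simp only [rat]
  rw [div_eq_zero_iff, or_iff_left (num_ne _), sub_eq_zero, Nat.cast_inj]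

theorem rat_pow3 (a : Q3) (n : ℕ) : rat (pow3 a n) = rat a ^ n := by
  induction n with
  | zero =>
    rw [pow_zero]
    exact rat_o3
  | succ n ih =>
    have h : pow3 a (n + 1) = mul3 a (pow3 a n) := rfl
    rw [h, rat_mul3, ih, pow_succ, mul_comm]

theorem rat_surj (q : ℚ) : ∃ a : Q3, rat a = q := by
  refine ⟨(q.num.toNat, (-q.num).toNat, q.den - 1), ?_⟩
  simp only [rat]
  have h1 : ((q.den - 1 : ℕ) : ℚ) + 1 = q.den := by
    have := q.den_pos
    have h2 : q.den - 1 + 1 = q.den := by omega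
    exact_mod_cast h2
  have h2 : ((q.num.toNat : ℕ) : ℚ) - (((-q.num).toNat : ℕ) : ℚ) = q.num := by
    have h3 : ((q.num.toNat : ℕ) : ℤ) - (((-q.num).toNat : ℕ) : ℤ) = q.num := by omega
    exact_mod_cast h3
  rw [h1, h2, Rat.num_div_den]

/-- Gaussian rationals are dense -/
theorem gau_dense (z : ℂ) {e : ℝ} (he : 0 < e) : ∃ g : G2, ‖z - gau g‖ < e := by
  obtain ⟨q, hq1, hq2⟩ := exists_rat_btwn (show z.re - e / 2 < z.re by linarith)
  obtain ⟨r, hr1, hr2⟩ := exists_rat_btwn (show z.im - e / 2 < z.im by linarith)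
  obtain ⟨a, rfl⟩ := rat_surj q
  obtain ⟨b, rfl⟩ := rat_surj r
  refine ⟨(a, b), ?_⟩
  have h1 : z - gau (a, b) = ((z.re - (rat a : ℝ) : ℝ) : ℂ) + ((z.im - (rat b : ℝ) : ℝ) : ℂ) * Complex.I := by
    apply Complex.ext
    · simp [gau]
    · simp [gau]
  rw [h1]
  refine lt_of_le_of_lt (norm_add_le _ _) ?_
  rw [norm_mul, Complex.norm_I, mul_one, Complex.norm_real, Complex.norm_real, Real.norm_eq_abs,
    Real.norm_eq_abs, abs_of_pos (by linarith), abs_of_pos (by linarith)]
  linarith

theorem nsq_eq (g : G2) : ((rat (nsq g) : ℚ) : ℝ) = ‖gau g‖ ^ 2 := by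
  have h1 : ‖gau g‖ ^ 2 = (rat g.1 : ℝ) * (rat g.1 : ℝ) + (rat g.2 : ℝ) * (rat g.2 : ℝ) := by
    rw [← Complex.normSq_eq_norm_sq, Complex.normSq_apply]
    simp [gau]
  rw [h1, nsq, rat_add3, rat_mul3, rat_mul3]
  push_cast
  ring

theorem gau_sub (g h : G2) : gau (subG g h) = gau g - gau h := by
  simp only [gau, subG, rat_add3, rat_neg3]
  push_cast
  ring

private theorem num_a1 {α : Type} [Primcodable α] {f : α → Q3} (hf : Primrec f) :
    Primrec fun x => (f x).1 := Primrec.fst.comp hf

private theorem num_a2 {α : Type} [Primcodable α] {f : α → Q3} (hf : Primrec f) :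
    Primrec fun x => (f x).2.1 := Primrec.fst.comp (Primrec.snd.comp hf)

private theorem num_a3 {α : Type} [Primcodable α] {f : α → Q3} (hf : Primrec f) :
    Primrec fun x => (f x).2.2 := Primrec.snd.comp (Primrec.snd.comp hf)

private theorem num_add {α : Type} [Primcodable α] {f g : α → ℕ} (hf : Primrec f)
    (hg : Primrec g) : Primrec fun x => f x + g x := Primrec.nat_add.comp hf hg

private theorem num_mul {α : Type} [Primcodable α] {f g : α → ℕ} (hf : Primrec f)
    (hg : Primrec g) : Primrec fun x => f x * g x := Primrec.nat_mul.comp hf hg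

private theorem num_sub {α : Type} [Primcodable α] {f g : α → ℕ} (hf : Primrec f)
    (hg : Primrec g) : Primrec fun x => f x - g x := Primrec.nat_sub.comp hf hg

private theorem num_suc {α : Type} [Primcodable α] {f : α → ℕ} (hf : Primrec f) :
    Primrec fun x => f x + 1 := Primrec.succ.comp hf

theorem add3_prim : Primrec₂ add3 := by
  have hf : Primrec fun p : Q3 × Q3 => p.1 := Primrec.fst
  have hg : Primrec fun p : Q3 × Q3 => p.2 := Primrec.snd
  exact Primrec.pair (num_add (num_mul (num_a1 hf) (num_suc (num_a3 hg)))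
      (num_mul (num_a1 hg) (num_suc (num_a3 hf))))
    (Primrec.pair (num_add (num_mul (num_a2 hf) (num_suc (num_a3 hg)))
      (num_mul (num_a2 hg) (num_suc (num_a3 hf))))
      (num_add (num_add (num_mul (num_a3 hf) (num_a3 hg)) (num_a3 hf)) (num_a3 hg)))

theorem mul3_prim : Primrec₂ mul3 := by
  have hf : Primrec fun p : Q3 × Q3 => p.1 := Primrec.fst
  have hg : Primrec fun p : Q3 × Q3 => p.2 := Primrec.snd
  exact Primrec.pair (num_add (num_mul (num_a1 hf) (num_a1 hg))
      (num_mul (num_a2 hf) (num_a2 hg)))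
    (Primrec.pair (num_add (num_mul (num_a1 hf) (num_a2 hg))
      (num_mul (num_a2 hf) (num_a1 hg)))
      (num_add (num_add (num_mul (num_a3 hf) (num_a3 hg)) (num_a3 hf)) (num_a3 hg)))

theorem neg3_prim : Primrec neg3 := by
  have hf : Primrec fun p : Q3 => p := Primrec.id
  exact Primrec.pair (num_a2 hf) (Primrec.pair (num_a1 hf) (num_a3 hf))

theorem abs3_prim : Primrec abs3 := by
  have hf : Primrec fun p : Q3 => p := Primrec.id
  exact Primrec.pair (num_add (num_sub (num_a1 hf) (num_a2 hf)) (num_sub (num_a2 hf) (num_a1 hf)))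
    (Primrec.pair (Primrec.const 0) (num_a3 hf))

theorem n3_prim : Primrec n3 := by
  have hf : Primrec fun p : ℕ => p := Primrec.id
  exact Primrec.pair hf (Primrec.const (0, 0))

theorem pow3_prim : Primrec₂ pow3 := by
  have hg : Primrec₂ fun (a : Q3) (p : ℕ × Q3) => mul3 a p.2 :=
    mul3_prim.comp Primrec.fst (Primrec.snd.comp Primrec.snd)
  exact Primrec.nat_rec (Primrec.const o3) hg

theorem lt3_prim : PrimrecRel lt3 := by
  have hf : Primrec fun p : Q3 × Q3 => p.1 := Primrec.fst
  have hg : Primrec fun p : Q3 × Q3 => p.2 := Primrec.snd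
  exact Primrec.nat_lt.comp
    (num_add (num_mul (num_a1 hf) (num_suc (num_a3 hg))) (num_mul (num_a2 hg) (num_suc (num_a3 hf))))
    (num_add (num_mul (num_a1 hg) (num_suc (num_a3 hf))) (num_mul (num_a2 hf) (num_suc (num_a3 hg))))

theorem nsq_prim : Primrec nsq := by
  exact add3_prim.comp (mul3_prim.comp Primrec.fst Primrec.fst)
    (mul3_prim.comp Primrec.snd Primrec.snd)

theorem subG_prim : Primrec₂ subG := by
  have hf : Primrec fun p : G2 × G2 => p.1 := Primrec.fst
  have hg : Primrec fun p : G2 × G2 => p.2 := Primrec.snd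
  exact Primrec.pair
    (add3_prim.comp (Primrec.fst.comp hf) (neg3_prim.comp (Primrec.fst.comp hg)))
    (add3_prim.comp (Primrec.snd.comp hf) (neg3_prim.comp (Primrec.snd.comp hg)))

private theorem num_pow : Primrec₂ fun a n : ℕ => a ^ n := by
  have hg : Primrec₂ fun (a : ℕ) (p : ℕ × ℕ) => p.2 * a :=
    num_mul (Primrec.snd.comp Primrec.snd) Primrec.fst
  have h : Primrec₂ fun (a : ℕ) (n : ℕ) => (n.rec 1 (fun n IH => IH * a) : ℕ) :=
    Primrec.nat_rec (Primrec.const 1) hg
  refine h.of_eq fun a n => ?_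
  induction n with
  | zero => rfl
  | succ n ih => rw [pow_succ, ← ih]

private theorem num_fact : Primrec Nat.factorial := by
  have hg : Primrec₂ fun (n : ℕ) (m : ℕ) => (n + 1) * m :=
    num_mul (num_suc Primrec.fst) Primrec.snd
  have h := Primrec.nat_rec₁ 1 hg
  refine h.of_eq fun n => ?_
  induction n with
  | zero => rfl
  | succ n ih => rw [Nat.factorial_succ, ← ih]

/-- the sizes are primitive recursive functions of `d` -/
theorem NN_prim : Primrec NN := num_fact.comp (num_suc Primrec.id)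

theorem KK_prim : Primrec KK := by
  have hf : Primrec fun d : ℕ => d := Primrec.id
  exact num_mul hf (num_mul (Primrec.const 4)
    (num_pow.comp hf (num_suc (num_mul (Primrec.const 3) hf))))

theorem DD_prim : Primrec DD := num_pow.comp Primrec.id NN_prim

theorem TT_prim : Primrec TT := num_suc (num_mul KK_prim DD_prim)

theorem lens_prim : Primrec lens := by
  have hf : Primrec fun d : ℕ => d := Primrec.id
  exact Primrec.list_cons.comp (num_sub hf (Primrec.const 1))
    (Primrec.list_cons.comp (num_suc DD_prim)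
    (Primrec.list_cons.comp (num_suc KK_prim)
    (Primrec.list_cons.comp (num_suc KK_prim)
    (Primrec.list_cons.comp KK_prim
    (Primrec.list_cons.comp KK_prim (Primrec.const []))))))

end H12IT
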