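import Pool.Agent.H12.IT.Thm1

set_option autoImplicit false

/-! PROJECT IT, module Opa: the optimal upper bound for the number of iterates. -/

open Polynomial

namespace H12IT

/-- comparison of the two families of iterates -/
private theorem opa_lin {r1 r2 L1 L2 R : ℂ[X]} {d n : ℕ} (hd : 1 ≤ d) (h1 : r1.natDegree = d)
    (h2 : r2.natDegree = d) (hL2 : L2.natDegree = 1)
    (e1 : R = L1.comp (it r1 n)) (e2 : R = L2.comp (it r2 n)) {i : ℕ} (hi : i ≤ n) :
    ∃ l : ℂ[X], l.natDegree = 1 ∧ it r2 i = l.comp (it r1 i) := by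
  have hn : n = (n - i) + i := by omega
  have hA : 1 ≤ (L2.comp (it r2 (n - i))).natDegree := by
    rw [natDegree_comp, hL2, natDegree_it, h2, one_mul]
    exact Nat.one_le_pow _ _ (by omega)
  have hf : 1 ≤ (it r2 i).natDegree := by
    rw [natDegree_it, h2]
    exact Nat.one_le_pow _ _ (by omega)
  have h : (L2.comp (it r2 (n - i))).comp (it r2 i) = (L1.comp (it r1 (n - i))).comp (it r1 i) := by
    rw [comp_assoc, comp_assoc, ← it_add, ← it_add, ← hn, ← e1, ← e2]
  obtain ⟨L, hL, hL', _⟩ := same_right hA hf h (by rw [natDegree_it, natDegree_it, h1, h2])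
  exact ⟨L, hL, hL'⟩

/-- the reduction step for two equal comparison maps -/
private theorem opa_step {r1 r2 L1 L2 R : ℂ[X]} {d n : ℕ} (hd : 1 ≤ d) (h1 : r1.natDegree = d)
    (e1 : R = L1.comp (it r1 n)) (e2 : R = L2.comp (it r2 n)) {i j : ℕ} (hij : i < j) (hj : j < n)
    {l : ℂ[X]} (hi : it r2 i = l.comp (it r1 i)) (hj' : it r2 j = l.comp (it r1 j)) :
    L1.comp (it r1 (n - (j - i))) = L2.comp (it r2 (n - (j - i))) := by
  have hV : 1 ≤ (it r1 (j - i)).natDegree := by
    rw [natDegree_it, h1]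
    exact Nat.one_le_pow _ _ (by omega)
  apply comp_cancel hV
  have hn1 : n = (n - (j - i)) + (j - i) := by omega
  have hn2 : n = (n - j) + j := by omega
  have hj2 : j = i + (j - i) := by omega
  have hn3 : n - (j - i) = (n - j) + i := by omega
  have a1 : (L1.comp (it r1 (n - (j - i)))).comp (it r1 (j - i)) = R := by
    rw [comp_assoc, ← it_add, ← hn1, e1]
  have a2 : it r2 j = (it r2 i).comp (it r1 (j - i)) := by
    rw [hj', hi, comp_assoc, ← it_add, ← hj2]
  have a3 : (L2.comp (it r2 (n - (j - i)))).comp (it r1 (j - i)) = R := by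
    rw [hn3, it_add, comp_assoc, comp_assoc, ← a2, ← it_add, ← hn2, e2]
  rw [a1, a3]

theorem n_step3 {P Q : ℂ[X]} (hd : 3 ≤ P.natDegree) (hP : NonSpecial P) (hQ : NonSpecial Q)
    {n : ℕ} {R p1 p2 : ℂ[X]} (h : Trip P Q n R p1 p2) (hn : P.natDegree - 1 < n) :
    ∃ n' R', n' < n ∧ Trip P Q n' R' p1 p2 := by
  have hint : Inter P Q := inter_iff.2 ⟨n, R, p1, p2, h⟩
  have hQd : Q.natDegree = P.natDegree := inter_deg (by omega) hint
  obtain ⟨hn1, hp1, hp2, c1, c2⟩ := h
  obtain ⟨r1, L1, s1, sy1, e1⟩ := rho_exists (by omega) hP hn1 hp1 c1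
  obtain ⟨r2, L2, s2, sy2, e2⟩ := rho_exists (by omega) hQ hn1 hp2 c2
  have d1 : r1.natDegree = P.natDegree := semi_deg hp1 (by omega) s1
  have d2 : r2.natDegree = P.natDegree := by rw [semi_deg hp2 (by omega) s2, hQd]
  -- it suffices to find two equal comparison maps
  have key : ∀ i j : ℕ, i < j → j < n → ∀ l : ℂ[X], it r2 i = l.comp (it r1 i) →
      it r2 j = l.comp (it r1 j) → ∃ n' R', n' < n ∧ Trip P Q n' R' p1 p2 := by
    intro i j hij hj l hi hj'
    have hR := opa_step (L1 := L1) (L2 := L2) (R := R) (d := P.natDegree) (by omega) d1 e1 e2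
      hij hj hi hj'
    refine ⟨n - (j - i), L1.comp (it r1 (n - (j - i))), by omega, by omega, hp1, hp2, ?_, ?_⟩
    · rw [← comp_assoc, sy1.2]
      exact semi_it s1 _
    · rw [hR, ← comp_assoc, sy2.2]
      exact semi_it s2 _
  -- the comparison maps
  have hl : ∀ i : ℕ, ∃ l : ℂ[X], i ≤ n → l.natDegree = 1 ∧ it r2 i = l.comp (it r1 i) := by
    intro i
    by_cases hi : i ≤ n
    · obtain ⟨l, h1, h2⟩ := opa_lin (by omega) d1 d2 sy2.1 e1 e2 hi
      exact ⟨l, fun _ => ⟨h1, h2⟩⟩
    · exact ⟨X, fun h => absurd h hi⟩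
  choose l hl using hl
  have hr2 : r2 = (l 1).comp r1 := by
    have := (hl 1 hn1).2
    rwa [it_one, it_one] at this
  have hrec : ∀ i, i < n → ((l 1).comp r1).comp (l i) = (l (i + 1)).comp r1 := by
    intro i hi
    have hV : 1 ≤ (it r1 i).natDegree := by
      rw [natDegree_it, d1]
      exact Nat.one_le_pow _ _ (by omega)
    apply comp_cancel hV
    rw [← hr2, comp_assoc, comp_assoc, ← (hl i (by omega)).2, ← it_succ, ← it_succ]
    exact (hl (i + 1) (by omega)).2
  obtain ⟨m, hm1, hm2, hm3⟩ := lin_inv (hl 1 hn1).1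
  have hrec' : ∀ i, i < n → r1.comp (l i) = (m.comp (l (i + 1))).comp r1 := by
    intro i hi
    have h1 := congrArg (fun f => m.comp f) (hrec i hi)
    beta_reduce at h1
    rw [comp_assoc, ← comp_assoc, hm3, X_comp, ← comp_assoc] at h1
    exact h1
  obtain ⟨o, ho, hcase⟩ := sigma_form (r := r1) (by omega)
  have he : ∀ i : ℕ, ∃ e : ℂ, i < n → e ≠ 0 ∧ l i = C o + C e * (X - C o) := by
    intro i
    by_cases hi : i < n
    · obtain ⟨e, h1, h2⟩ := ho (l i) _ (hl i (by omega)).1 (hrec' i hi)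
      exact ⟨e, fun _ => ⟨h1, h2⟩⟩
    · exact ⟨0, fun h => absurd h hi⟩
  choose e he using he
  have fin : ∀ i j : ℕ, i < j → j < n → e i = e j →
      ∃ n' R', n' < n ∧ Trip P Q n' R' p1 p2 := by
    intro i j hij hj heq
    have hll : l i = l j := by
      rw [(he i (by omega)).2, (he j hj).2, heq]
    refine key i j hij hj (l j) ?_ (hl j (by omega)).2
    rw [← hll]
    exact (hl i (by omega)).2
  rcases hcase with ⟨k, hk1, hk2, hk⟩ | ⟨a, b, ha, hr⟩
  · -- roots of unity
    have hroot : ∀ i ∈ Finset.range n, e i ∈ (nthRoots k (1 : ℂ)).toFinset := by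
      intro i hi
      have hi' := Finset.mem_range.1 hi
      rw [Multiset.mem_toFinset, mem_nthRoots (by omega)]
      refine hk (m.comp (l (i + 1))) (e i) (he i hi').1 ?_
      rw [← (he i hi').2]
      exact hrec' i hi'
    have hcard : (nthRoots k (1 : ℂ)).toFinset.card < (Finset.range n).card := by
      rw [Finset.card_range]
      have h1 := Multiset.toFinset_card_le (nthRoots k (1 : ℂ))
      have h2 := card_nthRoots k (1 : ℂ)
      omega
    obtain ⟨i, hi, j, hj, hne, heq⟩ := Finset.exists_ne_map_eq_of_card_lt_of_maps_to hcard hroot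
    rw [Finset.mem_range] at hi hj
    rcases lt_or_gt_of_ne hne with hlt | hlt
    · exact fin i j hlt hj heq
    · exact fin j i hlt hi heq.symm
  · -- unicritical
    have hbo : b ≠ o := unicrit (by omega) hP.1 hp1 s1 hr
    have hn3 : 3 ≤ n := by omega
    refine fin 1 2 (by omega) (by omega) ?_
    have h1 := congrArg (fun f => f.eval o) (hrec 1 (by omega))
    simp only [eval_comp] at h1
    have hro : r1.eval o = b := by
      rw [hr]
      simp only [eval_add, eval_mul, eval_pow, eval_sub, eval_X, eval_C, sub_self]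
      rw [zero_pow (by omega)]
      ring
    have hl1 : ∀ x, (l 1).eval x = o + e 1 * (x - o) := by
      intro x
      rw [(he 1 (by omega)).2]
      simp only [eval_add, eval_mul, eval_sub, eval_X, eval_C]
    have hl2 : ∀ x, (l (1 + 1)).eval x = o + e 2 * (x - o) := by
      intro x
      rw [(he (1 + 1) (by omega)).2]
      simp only [eval_add, eval_mul, eval_sub, eval_X, eval_C]
    rw [hl1 o, sub_self, mul_zero, add_zero, hro, hl1 b, hl2 b] at h1
    have h2 : e 1 * (b - o) = e 2 * (b - o) := add_left_cancel h1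
    exact mul_right_cancel₀ (sub_ne_zero.2 hbo) h2

theorem n_bound3 {P Q : ℂ[X]} (hd : 3 ≤ P.natDegree) (hP : NonSpecial P) (hQ : NonSpecial Q)
    {n : ℕ} {R p1 p2 : ℂ[X]} (h : Trip P Q n R p1 p2) :
    ∃ n' R', n' ≤ P.natDegree - 1 ∧ Trip P Q n' R' p1 p2 := by
  induction n using Nat.strong_induction_on generalizing R with
  | _ n ih =>
    by_cases hn : n ≤ P.natDegree - 1
    · exact ⟨n, R, hn, h⟩
    · obtain ⟨n', R', hlt, ht⟩ := n_step3 hd hP hQ h (by omega)
      exact ih n' hlt ht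

theorem opt_upper {P Q : ℂ[X]} (hd : 3 ≤ P.natDegree) (h : Inter P Q) :
    ∃ n R p1 p2, Trip P Q n R p1 p2 ∧ n ≤ P.natDegree - 1 ∧
      p1.natDegree ≤ P.natDegree * K2 P.natDegree ∧
      p2.natDegree ≤ P.natDegree * K2 P.natDegree := by
  by_cases hP : NonSpecial P
  · have hQ := inter_nonspecial (by omega) h hP
    obtain ⟨n, R, p1, p2, ht, h1, h2⟩ := tri_bound (by omega) hP hQ h
    obtain ⟨n', R', hn', ht'⟩ := n_bound3 hd hP hQ ht
    exact ⟨n', R', p1, p2, ht', hn', h1, h2⟩
  · obtain ⟨n, R, p1, p2, ht, hn, h1, h2⟩ := spec_trip (by omega) h hP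
    have hk : 1 ≤ P.natDegree * K2 P.natDegree := by
      have h3 : 0 < P.natDegree := by omega
      have : 0 < P.natDegree * K2 P.natDegree := by
        unfold K2
        positivity
      omega
    exact ⟨n, R, p1, p2, ht, by omega, by omega, by omega⟩

end H12IT
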