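import Pool.Agent.H12.IT.Bst

set_option autoImplicit false

/-! PROJECT IT, module Opb: the polynomials `a (z^d + z)`, `a^(d-1) = 1`. -/

open Polynomial

namespace H12IT

/-- the example -/
noncomputable def Wp (d : ℕ) (a : ℂ) : ℂ[X] := C a * (X ^ d + X)

theorem opb_a0 {d : ℕ} (hd : 3 ≤ d) {a : ℂ} (ha : a ^ (d - 1) = 1) : a ≠ 0 := by
  rintro rfl
  rw [zero_pow (by omega)] at ha
  exact zero_ne_one ha

theorem opb_norm_a {d : ℕ} (hd : 3 ≤ d) {a : ℂ} (ha : a ^ (d - 1) = 1) : ‖a‖ = 1 := by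
  have h : ‖a‖ ^ (d - 1) = 1 := by rw [← norm_pow, ha, norm_one]
  exact (pow_eq_one_iff_of_nonneg (norm_nonneg a) (by omega)).1 h

theorem wp_deg {d : ℕ} (hd : 3 ≤ d) {a : ℂ} (ha : a ^ (d - 1) = 1) : (Wp d a).natDegree = d := by
  unfold Wp
  rw [natDegree_C_mul (opb_a0 hd ha), natDegree_add_eq_left_of_natDegree_lt, natDegree_X_pow]
  rw [natDegree_X_pow, natDegree_X]
  omega

theorem opb_eval (d : ℕ) (a z : ℂ) : (Wp d a).eval z = a * (z ^ d + z) := by
  simp [Wp]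

theorem opb_eval' {d : ℕ} (hd : 3 ≤ d) (a z : ℂ) :
    (Wp d a).eval z = a * z * (z ^ (d - 1) + 1) := by
  rw [opb_eval]
  obtain ⟨e, rfl⟩ : ∃ e, d = e + 1 := ⟨d - 1, by omega⟩
  rw [Nat.add_sub_cancel, pow_succ]
  ring

theorem opb_der (d : ℕ) (a c z : ℂ) :
    (derivative (Wp d a - C c)).eval z = a * (d * z ^ (d - 1) + 1) := by
  simp [Wp, derivative_X_pow]

theorem opb_der2 (d : ℕ) (a c z : ℂ) :
    (derivative (derivative (Wp d a - C c))).eval z =
      a * (d * ((d - 1 : ℕ) * z ^ (d - 1 - 1))) := by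
  simp [Wp, derivative_X_pow]

theorem opb_ne {d : ℕ} (hd : 3 ≤ d) {a : ℂ} (ha : a ^ (d - 1) = 1) (c : ℂ) :
    Wp d a - C c ≠ 0 := by
  intro h
  have h1 := natDegree_sub_C (p := Wp d a) (a := c)
  rw [h, natDegree_zero, wp_deg hd ha] at h1
  omega

/-- the critical points -/
theorem opb_two {d : ℕ} (hd : 3 ≤ d) {a : ℂ} (ha : a ^ (d - 1) = 1) {z : ℂ}
    (h : 2 ≤ mu (Wp d a) z) : (d : ℂ) * z ^ (d - 1) = -1 := by
  have h1 := (lt_rootMultiplicity_iff_isRoot_iterate_derivative (n := 1) (t := z)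
    (opb_ne hd ha ((Wp d a).eval z))).1 (by unfold mu at h; omega) 1 le_rfl
  rw [Function.iterate_one, IsRoot.def, opb_der] at h1
  rcases mul_eq_zero.1 h1 with h2 | h2
  · exact absurd h2 (opb_a0 hd ha)
  · linear_combination h2

/-- all critical points are simple -/
theorem wp_crit {d : ℕ} (hd : 3 ≤ d) {a : ℂ} (ha : a ^ (d - 1) = 1) (z : ℂ) :
    mu (Wp d a) z ≤ 2 := by
  by_contra hc
  have h0 := opb_two hd ha (z := z) (by omega)
  have h1 := (lt_rootMultiplicity_iff_isRoot_iterate_derivative (n := 2) (t := z)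
    (opb_ne hd ha ((Wp d a).eval z))).1 (by unfold mu at hc; omega) 2 le_rfl
  rw [Function.iterate_succ_apply, Function.iterate_one, IsRoot.def, opb_der2] at h1
  have hz : z ^ (d - 1 - 1) = 0 := by
    rcases mul_eq_zero.1 h1 with h2 | h2
    · exact absurd h2 (opb_a0 hd ha)
    rcases mul_eq_zero.1 h2 with h3 | h3
    · exact absurd (Nat.cast_eq_zero.1 h3) (by omega)
    rcases mul_eq_zero.1 h3 with h4 | h4
    · exact absurd (Nat.cast_eq_zero.1 h4) (by omega)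
    exact h4
  have hz0 : z = 0 := pow_eq_zero_iff (by omega) |>.1 hz
  rw [hz0, zero_pow (by omega), mul_zero] at h0
  exact one_ne_zero (neg_eq_zero.1 h0.symm)

theorem opb_d0 {d : ℕ} (hd : 3 ≤ d) : (d : ℂ) ≠ 0 := by
  rw [Nat.cast_ne_zero]; omega

theorem opb_pow {d : ℕ} (hd : 3 ≤ d) {a : ℂ} (ha : a ^ (d - 1) = 1) {z : ℂ}
    (h : mu (Wp d a) z = 2) : z ^ (d - 1) = -(1 / (d : ℂ)) := by
  have h0 := opb_two hd ha (z := z) (by omega)
  have h1 := opb_d0 hd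
  field_simp
  linear_combination h0

theorem opb_value {d : ℕ} (hd : 3 ≤ d) {a : ℂ} (ha : a ^ (d - 1) = 1) {z : ℂ}
    (h : mu (Wp d a) z = 2) : (Wp d a).eval z = a * z * (((1 - 1 / (d : ℝ) : ℝ)) : ℂ) := by
  rw [opb_eval' hd, opb_pow hd ha h]
  push_cast
  ring

theorem opb_r {d : ℕ} (hd : 3 ≤ d) : 0 < 1 - 1 / (d : ℝ) ∧ 1 - 1 / (d : ℝ) < 1 := by
  have h3 : (3 : ℝ) ≤ d := by exact_mod_cast hd
  have h1 : 1 / (d : ℝ) ≤ 1 / 3 := one_div_le_one_div_of_le (by norm_num) h3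
  have h2 : 0 < 1 / (d : ℝ) := by positivity
  constructor <;> linarith

/-- the critical values are different -/
theorem wp_val {d : ℕ} (hd : 3 ≤ d) {a : ℂ} (ha : a ^ (d - 1) = 1) {z z' : ℂ}
    (h : mu (Wp d a) z = 2) (h' : mu (Wp d a) z' = 2) (e : (Wp d a).eval z = (Wp d a).eval z') :
    z = z' := by
  rw [opb_value hd ha h, opb_value hd ha h'] at e
  have hr : (((1 - 1 / (d : ℝ) : ℝ)) : ℂ) ≠ 0 := by
    rw [Complex.ofReal_ne_zero]
    exact (opb_r hd).1.ne'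
  have h1 := mul_right_cancel₀ hr e
  exact mul_left_cancel₀ (opb_a0 hd ha) h1

/-- and have the same absolute value -/
theorem wp_norm {d : ℕ} (hd : 3 ≤ d) {a : ℂ} (ha : a ^ (d - 1) = 1) {z z' : ℂ}
    (h : mu (Wp d a) z = 2) (h' : mu (Wp d a) z' = 2) :
    ‖(Wp d a).eval z‖ = ‖(Wp d a).eval z'‖ := by
  have hz : ‖z‖ = ‖z'‖ := by
    have h1 : ‖z‖ ^ (d - 1) = ‖z'‖ ^ (d - 1) := by
      rw [← norm_pow, ← norm_pow, opb_pow hd ha h, opb_pow hd ha h']
    exact (pow_left_inj₀ (norm_nonneg _) (norm_nonneg _) (by omega)).1 h1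
  rw [opb_value hd ha h, opb_value hd ha h', norm_mul, norm_mul, norm_mul, norm_mul, hz]

/-- their images are smaller -/
theorem wp_lt {d : ℕ} (hd : 3 ≤ d) {a : ℂ} (ha : a ^ (d - 1) = 1) {z : ℂ}
    (h : mu (Wp d a) z = 2) :
    ‖(Wp d a).eval ((Wp d a).eval z)‖ < ‖(Wp d a).eval z‖ := by
  obtain ⟨hr0, hr1⟩ := opb_r hd
  have h3 : (3 : ℝ) ≤ d := by exact_mod_cast hd
  have hp := opb_pow hd ha h
  have hz0 : z ≠ 0 := by
    rintro rfl
    rw [zero_pow (by omega)] at hp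
    have := one_div_ne_zero (opb_d0 hd)
    exact this (neg_eq_zero.1 hp.symm)
  have hv0 : (Wp d a).eval z ≠ 0 := by
    rw [opb_value hd ha h]
    refine mul_ne_zero (mul_ne_zero (opb_a0 hd ha) hz0) ?_
    rw [Complex.ofReal_ne_zero]
    exact hr0.ne'
  have hpow : ((Wp d a).eval z) ^ (d - 1) + 1 =
      ((1 - 1 / (d : ℝ) * (1 - 1 / (d : ℝ)) ^ (d - 1) : ℝ) : ℂ) := by
    rw [opb_value hd ha h, mul_pow, mul_pow, ha, hp]
    push_cast
    ring
  have hs0 : 0 < 1 / (d : ℝ) * (1 - 1 / (d : ℝ)) ^ (d - 1) := by positivity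
  have hs1 : 1 / (d : ℝ) * (1 - 1 / (d : ℝ)) ^ (d - 1) < 1 := by
    have h4 : (1 - 1 / (d : ℝ)) ^ (d - 1) ≤ 1 := pow_le_one₀ hr0.le hr1.le
    have h5 : 1 / (d : ℝ) ≤ 1 / 3 := one_div_le_one_div_of_le (by norm_num) h3
    have h6 : 0 < 1 / (d : ℝ) := by positivity
    nlinarith [pow_pos hr0 (d - 1)]
  rw [opb_eval' hd a ((Wp d a).eval z), hpow, norm_mul, norm_mul, opb_norm_a hd ha, one_mul,
    Complex.norm_real, Real.norm_eq_abs, abs_of_pos (by linarith)]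
  have hv : 0 < ‖(Wp d a).eval z‖ := norm_pos_iff.2 hv0
  calc ‖(Wp d a).eval z‖ * (1 - 1 / (d : ℝ) * (1 - 1 / (d : ℝ)) ^ (d - 1))
      < ‖(Wp d a).eval z‖ * 1 := mul_lt_mul_of_pos_left (by linarith) hv
    _ = ‖(Wp d a).eval z‖ := mul_one _

theorem opb_one_le {d : ℕ} (hd : 3 ≤ d) {a : ℂ} (ha : a ^ (d - 1) = 1) :
    1 ≤ (Wp d a).natDegree := by
  rw [wp_deg hd ha]; omega

theorem wp_nonspecial {d : ℕ} (hd : 3 ≤ d) {a : ℂ} (ha : a ^ (d - 1) = 1) :
    NonSpecial (Wp d a) := by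
  constructor
  · rintro ⟨o, -, ho⟩
    have := wp_crit hd ha o
    rw [ho, wp_deg hd ha] at this
    omega
  · rintro ⟨S, hS, h1, h2⟩
    have hdeg := opb_one_le hd ha
    -- every point of `S` is a critical value
    have key : ∀ x ∈ S, ∃ w, (Wp d a).eval w = x ∧ mu (Wp d a) w = 2 := by
      intro x hx
      by_contra hno
      push Not at hno
      have hsub : fib (Wp d a) x ⊆ S := by
        intro w hw
        rw [mem_fib hdeg] at hw
        by_contra hwS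
        exact hno w hw (h2 w (by rw [hw]; exact hx) hwS)
      have h3 := sum_mu hdeg x
      rw [wp_deg hd ha, Finset.sum_congr rfl (fun w hw => (h1 w (hsub hw)).2),
        Finset.sum_const, smul_eq_mul, mul_one] at h3
      have h4 := Finset.card_le_card hsub
      omega
    obtain ⟨x, hx⟩ : S.Nonempty := by
      rw [← Finset.card_pos]; omega
    obtain ⟨w, hw, hmw⟩ := key x hx
    obtain ⟨w', hw', hmw'⟩ := key _ (h1 x hx).1
    have h3 := wp_norm hd ha hmw' hmw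
    have h4 := wp_lt hd ha hmw
    rw [hw', hw] at h3
    rw [hw, h3] at h4
    exact lt_irrefl _ h4

theorem wp_nospt {d : ℕ} (hd : 3 ≤ d) {a : ℂ} (ha : a ^ (d - 1) = 1) {l : ℕ} (hl : 2 ≤ l)
    {x0 : ℂ} : ¬ SpPt (Wp d a) l x0 := by
  rintro ⟨h0, h1, -⟩
  have hdeg := opb_one_le hd ha
  by_cases hw : ∃ w, (Wp d a).eval w = x0 ∧ w ≠ x0
  · obtain ⟨w, hw, hne⟩ := hw
    have h2 := h1 w hw hne
    have h3 := one_le_mu hdeg w
    have h4 := wp_crit hd ha w
    have h5 := Nat.le_of_dvd (by omega) h2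
    have h6 := wp_lt hd ha (z := w) (by omega)
    rw [hw, h0] at h6
    exact lt_irrefl _ h6
  · push Not at hw
    have h2 : fib (Wp d a) x0 ⊆ {x0} := by
      intro w hw'
      rw [mem_fib hdeg] at hw'
      rw [Finset.mem_singleton]
      exact hw w hw'
    have h3 := sum_mu hdeg x0
    have h4 : ∑ z ∈ fib (Wp d a) x0, mu (Wp d a) z ≤ ∑ z ∈ ({x0} : Finset ℂ), mu (Wp d a) z :=
      Finset.sum_le_sum_of_subset h2
    rw [h3, Finset.sum_singleton, wp_deg hd ha] at h4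
    have := wp_crit hd ha x0
    omega

/-- indecomposable -/
theorem wp_indec {d : ℕ} (hd : 3 ≤ d) {a : ℂ} (ha : a ^ (d - 1) = 1) {A B : ℂ[X]}
    (h : Wp d a = A.comp B) : A.natDegree = 1 ∨ B.natDegree = 1 := by
  by_contra hc
  push Not at hc
  obtain ⟨hA, hB⟩ := hc
  have hdeg : A.natDegree * B.natDegree = d := by
    rw [← natDegree_comp, ← h, wp_deg hd ha]
  have hA0 : A.natDegree ≠ 0 := by
    intro h0; rw [h0, zero_mul] at hdeg; omega
  have hB0 : B.natDegree ≠ 0 := by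
    intro h0; rw [h0, mul_zero] at hdeg; omega
  obtain ⟨CV, -, hcv, hcard⟩ := rh_eq (F := A) (by omega)
  obtain ⟨v, hv⟩ : CV.Nonempty := by
    rw [Finset.nonempty_iff_ne_empty]
    rintro rfl
    rw [Finset.card_empty, zero_mul, Finset.sum_empty] at hcard
    omega
  obtain ⟨y, hy, hmy⟩ := hcv v hv
  have hz : ∀ z ∈ fib B y, mu (Wp d a) z = 2 ∧ mu B z = 1 ∧ (Wp d a).eval z = v := by
    intro z hz
    rw [mem_fib (by omega)] at hz
    have h1 : mu (Wp d a) z = mu A y * mu B z := by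
      rw [h, mu_comp (by omega) (by omega), hz]
    have h2 := one_le_mu (F := B) (by omega) z
    have h3 := wp_crit hd ha z
    have h4 : 2 * mu B z ≤ mu A y * mu B z := Nat.mul_le_mul_right _ hmy
    refine ⟨by omega, by omega, ?_⟩
    rw [h, eval_comp, hz, hy]
  obtain ⟨z0, hz0⟩ := fib_nonempty (F := B) (by omega) y
  have hone : fib B y = {z0} := by
    apply Finset.eq_singleton_iff_unique_mem.2 ⟨hz0, ?_⟩
    intro z hz1
    exact wp_val hd ha (hz z hz1).1 (hz z0 hz0).1 (by rw [(hz z hz1).2.2, (hz z0 hz0).2.2])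
  have h5 := sum_mu (F := B) (by omega) y
  rw [hone, Finset.sum_singleton, (hz z0 hz0).2.1] at h5
  omega

end H12IT
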