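import Pool.Agent.H12.IT.Ram
import Pool.Agent.H12.IT.Cnt
import Pool.Agent.H12.IT.Gcd
import Pool.Agent.H12.IT.Lcm

set_option autoImplicit false

/-! PROJECT IT, module Rf: right factors of iterates have bounded degree. -/

open Polynomial

namespace H12IT

theorem rf_arith {d v t a g : ℕ} (hd : 2 ≤ d) (hv : 1 ≤ v) (ht : t = 3 * d + 1)
    (hdv : ¬ d ∣ v) (hg : g = Nat.gcd v (d ^ t)) (hga : g * a = d ^ t) : 2 * d ^ 3 ≤ a := by
  have hd0 : d ≠ 0 := by omega
  have hv0 : v ≠ 0 := by omega
  have hdt : d ^ t ≠ 0 := pow_ne_zero _ hd0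
  have hg0 : g ≠ 0 := fun h => hdt (by rw [← hga, h, zero_mul])
  have ha0 : a ≠ 0 := fun h => hdt (by rw [← hga, h, mul_zero])
  have h1 : ¬ d.factorization ≤ v.factorization := by
    rw [Nat.factorization_le_iff_dvd hd0 hv0]
    exact hdv
  rw [Finsupp.le_def] at h1
  push Not at h1
  obtain ⟨p, hp⟩ := h1
  have hpp : p.Prime := by
    by_contra hn
    rw [Nat.factorization_eq_zero_of_not_prime d hn] at hp
    omega
  have hgv : g.factorization p ≤ v.factorization p :=
    (Nat.factorization_le_iff_dvd hg0 hv0).2 (hg ▸ Nat.gcd_dvd_left _ _) p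
  have hfac : g.factorization p + a.factorization p = t * d.factorization p := by
    have := congrArg (fun x => x.factorization p) hga
    simpa [Nat.factorization_mul hg0 ha0, Nat.factorization_pow] using this
  have ht1 : 1 ≤ t := by omega
  have hta : t ≤ a.factorization p := by
    generalize g.factorization p = x at *
    generalize a.factorization p = y at *
    generalize v.factorization p = z at *
    generalize d.factorization p = w at *
    have hw : 1 ≤ w := by omega
    obtain ⟨w', rfl⟩ : ∃ w', w = w' + 1 := ⟨w - 1, by omega⟩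
    obtain ⟨t', rfl⟩ : ∃ t', t = t' + 1 := ⟨t - 1, by omega⟩
    have e : (t' + 1) * (w' + 1) = t' * w' + t' + w' + 1 := by ring
    rw [e] at hfac
    have h0 : 0 ≤ t' * w' := Nat.zero_le _
    generalize t' * w' = s at *
    omega
  have hpa : p ^ t ∣ a := (hpp.pow_dvd_iff_le_factorization ha0).2 hta
  have h2 : 2 ^ t ≤ a :=
    (Nat.pow_le_pow_left hpp.two_le t).trans (Nat.le_of_dvd (Nat.pos_of_ne_zero ha0) hpa)
  have h3 : 2 * d ^ 3 ≤ 2 ^ t := by
    have h4 : d ≤ 2 ^ d := Nat.lt_two_pow_self.le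
    calc 2 * d ^ 3 ≤ 2 * (2 ^ d) ^ 3 := Nat.mul_le_mul_left _ (Nat.pow_le_pow_left h4 3)
      _ = 2 ^ t := by rw [ht, ← pow_mul, mul_comm d 3, pow_succ, mul_comm]
  exact h3.trans h2

theorem rf_card {H : ℂ[X]} (hH : 1 ≤ H.natDegree) (x : ℂ) :
    (fib H x).card ≤ H.natDegree := by
  rw [← sum_mu hH x, Finset.card_eq_sum_ones]
  exact Finset.sum_le_sum fun z _ => one_le_mu hH z

/-- total ramification: the fibre is one point -/
theorem rf_total {F : ℂ[X]} (hF : 1 ≤ F.natDegree) {z0 : ℂ} (h : mu F z0 = F.natDegree) {z : ℂ}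
    (hz : F.eval z = F.eval z0) : z = z0 := by
  by_contra hne
  have h1 := sum_mu hF (F.eval z0)
  have hs : ({z, z0} : Finset ℂ) ⊆ fib F (F.eval z0) := by
    intro w hw
    rw [Finset.mem_insert, Finset.mem_singleton] at hw
    rcases hw with rfl | rfl
    · exact (mem_fib hF).2 hz
    · exact (mem_fib hF).2 rfl
  have h2 : ∑ w ∈ ({z, z0} : Finset ℂ), mu F w ≤ ∑ w ∈ fib F (F.eval z0), mu F w :=
    Finset.sum_le_sum_of_subset hs
  rw [Finset.sum_pair hne, h1, h] at h2
  have := one_le_mu hF z
  omega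

theorem right_bound {P : ℂ[X]} (hd : 2 ≤ P.natDegree) (hP : NonSpecial P) {N : ℕ} {A V : ℂ[X]}
    (h : it P N = A.comp V) (hV : ¬ P.natDegree ∣ V.natDegree) :
    V.natDegree < K2 P.natDegree := by
  by_contra hcon
  rw [not_lt, K2] at hcon
  obtain ⟨t, ht⟩ : ∃ t, t = 3 * P.natDegree + 1 := ⟨_, rfl⟩
  rw [← ht] at hcon
  -- enlarge `N`
  obtain ⟨M, A', hA'⟩ : ∃ (M : ℕ) (A' : ℂ[X]), A'.comp V = (it P M).comp (it P t) := by
    refine ⟨N, (it P t).comp A, ?_⟩
    rw [comp_assoc, ← h, ← it_add, ← it_add, add_comm]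
  have hdeg : A'.natDegree * V.natDegree = P.natDegree ^ M * P.natDegree ^ t := by
    have := congrArg natDegree hA'
    rwa [natDegree_comp, natDegree_comp, natDegree_it, natDegree_it] at this
  have hpos : 0 < P.natDegree ^ M * P.natDegree ^ t := by positivity
  have hA1 : 1 ≤ A'.natDegree := by
    rcases Nat.eq_zero_or_pos A'.natDegree with h0 | h0
    · rw [h0, zero_mul] at hdeg; omega
    · exact h0
  have hV1 : 1 ≤ V.natDegree := by
    rcases Nat.eq_zero_or_pos V.natDegree with h0 | h0
    · rw [h0, mul_zero] at hdeg; omega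
    · exact h0
  have hPt : 1 ≤ (it P t).natDegree := by
    rw [natDegree_it]; exact Nat.one_le_pow _ _ (by omega)
  obtain ⟨H, V1, P1, hH, hVV, hPP⟩ := gcd_right hA1 hV1 hPt hA'
  rw [natDegree_it] at hH
  have hVd : V.natDegree = V1.natDegree * H.natDegree := by rw [hVV, natDegree_comp]
  have hPd : P.natDegree ^ t = P1.natDegree * H.natDegree := by
    rw [← natDegree_it, hPP, natDegree_comp]
  have hHpos : 1 ≤ H.natDegree := by
    rw [hH]; exact Nat.gcd_pos_of_pos_left _ hV1
  have hbig : 2 * P.natDegree ^ 3 ≤ P1.natDegree :=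
    rf_arith (g := H.natDegree) hd hV1 ht hV hH (by rw [hPd, mul_comm])
  have hd3 : 1 ≤ P.natDegree ^ 3 := Nat.one_le_pow _ _ (by omega)
  have hP1 : 2 ≤ P1.natDegree := by omega
  have hcop : Nat.Coprime V1.natDegree P1.natDegree := by
    have h1 : Nat.Coprime (V.natDegree / Nat.gcd V.natDegree (P.natDegree ^ t))
        (P.natDegree ^ t / Nat.gcd V.natDegree (P.natDegree ^ t)) :=
      Nat.coprime_div_gcd_div_gcd (Nat.gcd_pos_of_pos_left _ hV1)
    rw [← hH] at h1
    rwa [hVd, hPd, Nat.mul_div_cancel _ hHpos, Nat.mul_div_cancel _ hHpos] at h1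
  have hV1pos : 1 ≤ V1.natDegree := by
    rcases Nat.eq_zero_or_pos V1.natDegree with h0 | h0
    · rw [h0, zero_mul] at hVd; omega
    · exact h0
  have hm : 4 * P1.natDegree ≤ V1.natDegree := by
    rw [hVd, hPd] at hcon
    have : (4 * P1.natDegree) * H.natDegree ≤ V1.natDegree * H.natDegree := by
      rw [mul_assoc]; exact hcon
    exact Nat.le_of_mul_le_mul_right this hHpos
  have hcanc : A'.comp V1 = (it P M).comp P1 := by
    apply comp_cancel hHpos
    rw [comp_assoc, comp_assoc, ← hVV, ← hPP]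
    exact hA'
  obtain ⟨A1, B1, Y, -, -, hAB, hA1d, hB1d, -⟩ :=
    lcm_right hA1 hV1pos (by omega) hcop hcanc
  have hγ : 2 * H.natDegree ≤ P.natDegree ^ (t - 3) := by
    have h3 : P.natDegree ^ t = P.natDegree ^ (t - 3) * P.natDegree ^ 3 := by
      rw [← pow_add]; congr 1; omega
    have h4 : (2 * H.natDegree) * P.natDegree ^ 3 ≤ P.natDegree ^ (t - 3) * P.natDegree ^ 3 := by
      rw [← h3, hPd]
      calc 2 * H.natDegree * P.natDegree ^ 3 = (2 * P.natDegree ^ 3) * H.natDegree := by ring
        _ ≤ P1.natDegree * H.natDegree := Nat.mul_le_mul_right _ hbig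
    exact Nat.le_of_mul_le_mul_right h4 (by omega)
  have hP1' : 1 ≤ P1.natDegree := by omega
  have hfibsub : ∀ x z, z ∈ fibt P t x → P1.eval (H.eval z) = x := by
    intro x z hz
    have h1 := (mem_fib hPt).1 hz
    rwa [hPP, eval_comp] at h1
  rcases ram (G := A1) (V := V1) (Z := B1) (P := P1) (by rw [hA1d]; exact hP1)
    (by rw [hA1d]; exact hm) hA1d.symm hB1d (by rw [hA1d]; exact hcop.symm) hAB with hc | hc
  · -- cyclic alternative
    obtain ⟨y0, x0, z0, -, -, -, -, hz0, hmu⟩ := hc
    have h1 := card_fibt hd hP.1 x0 (t := t) (by omega)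
    have h2 : fibt P t x0 ⊆ fib H z0 := by
      intro z hz
      have h3 := hfibsub x0 z hz
      rw [mem_fib hHpos]
      exact rf_total hP1' hmu (by rw [h3, hz0])
    have h4 := (Finset.card_le_card h2).trans (rf_card hHpos z0)
    have h5 : P.natDegree ^ (t - 3) ≤ P.natDegree ^ (t - 2) :=
      Nat.pow_le_pow_right (by omega) (by omega)
    omega
  · -- Chebyshev alternative
    obtain ⟨-, V', W, Y', -, hW, hY, -, -, -, -, hY1, hY2, -⟩ := hc
    have hmuc : ∀ z, mu (it P t) z = mu P1 (H.eval z) * mu H z := by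
      intro z; rw [hPP]; exact mu_comp hP1' hHpos z
    have hodd : oddMass P t W ≤ 2 * H.natDegree := by
      have key : ∀ x ∈ W, ∀ z ∈ (fibt P t x).filter (fun z => Odd (mu (it P t) z)),
          H.eval z ∈ Y' ∧ mu (it P t) z = mu H z := by
        intro x hx z hz
        rw [Finset.mem_filter] at hz
        have h1 := hfibsub x z hz.1
        have h2 : H.eval z ∈ Y' := by
          by_contra hn
          have h3 := hY2 (H.eval z) (by rw [h1]; exact hx) hn
          rw [hmuc z, h3] at hz
          exact (Nat.not_odd_iff_even.2 (even_two_mul _)) hz.2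
        refine ⟨h2, ?_⟩
        rw [hmuc z, (hY1 _ h2).2, one_mul]
      unfold oddMass
      calc ∑ x ∈ W, ∑ z ∈ (fibt P t x).filter (fun z => Odd (mu (it P t) z)), mu (it P t) z
          = ∑ x ∈ W, ∑ z ∈ (fibt P t x).filter (fun z => Odd (mu (it P t) z)), mu H z :=
            Finset.sum_congr rfl fun x hx => Finset.sum_congr rfl fun z hz => (key x hx z hz).2
        _ = ∑ z ∈ W.biUnion (fun x => (fibt P t x).filter (fun z => Odd (mu (it P t) z))),
              mu H z := by
            rw [Finset.sum_biUnion]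
            intro x _ x' _ hne
            rw [Function.onFun, Finset.disjoint_left]
            intro z hz hz'
            rw [Finset.mem_filter] at hz hz'
            exact hne ((hfibsub x z hz.1).symm.trans (hfibsub x' z hz'.1))
        _ ≤ ∑ z ∈ Y'.biUnion (fun y => fib H y), mu H z := by
            apply Finset.sum_le_sum_of_subset
            intro z hz
            rw [Finset.mem_biUnion] at hz ⊢
            obtain ⟨x, hx, hz⟩ := hz
            exact ⟨H.eval z, (key x hx z hz).1, (mem_fib hHpos).2 rfl⟩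
        _ = ∑ y ∈ Y', ∑ z ∈ fib H y, mu H z := by
            rw [Finset.sum_biUnion]
            intro y _ y' _ hne
            rw [Function.onFun, Finset.disjoint_left]
            intro z hz hz'
            exact hne (((mem_fib hHpos).1 hz).symm.trans ((mem_fib hHpos).1 hz'))
        _ = ∑ y ∈ Y', H.natDegree := Finset.sum_congr rfl fun y _ => sum_mu hHpos y
        _ = 2 * H.natDegree := by rw [Finset.sum_const, hY, smul_eq_mul]
    have hcheb := cheb_detect hd hW (t := t) (by omega) (by omega : oddMass P t W ≤ _ + 1)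
    exact hP.2 ⟨W, hcheb⟩

end H12IT
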