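import Pool.Agent.H12.IT.Tri
import Pool.Agent.H12.IT.Rf
import Pool.Agent.H12.IT.Lcm

set_option autoImplicit false

/-! PROJECT IT, module Trb: the bound for the degrees (paper section 9, c). -/

open Polynomial

namespace H12IT

/-- paper 9(c): the bound -/
theorem tri_le {P Q : ℂ[X]} (hd : 2 ≤ P.natDegree) (hP : NonSpecial P) (hQ : NonSpecial Q)
    {n : ℕ} {R p1 p2 : ℂ[X]} (h : Trip P Q n R p1 p2)
    (hc : Nat.Coprime p1.natDegree p2.natDegree) (hk : ¬ P.natDegree ∣ p2.natDegree) :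
    p2.natDegree ≤ P.natDegree * K2 P.natDegree := by
  have hQd : Q.natDegree = P.natDegree := inter_deg hd (inter_iff.mpr ⟨n, R, p1, p2, h⟩)
  obtain ⟨hn, hp1, hp2, e1, e2⟩ := h
  obtain ⟨B, V, D, S, E, f1, f2, f3, f4, f5, f6, f7, f8, f9⟩ :=
    semi_dec (by omega : 2 ≤ Q.natDegree) hQ hn hp2 e2 (le_refl (p2.natDegree + 3))
  set j := p2.natDegree + 3 with hj
  have hV1 : 1 ≤ V.natDegree := by
    rw [f6]
    exact Nat.gcd_pos_of_pos_left _ (by omega)
  have hVk : V.natDegree ∣ p2.natDegree := by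
    rw [f6]
    exact Nat.gcd_dvd_left _ _
  have hRd : R.natDegree = P.natDegree ^ n := by
    have hM : 1 ≤ (it P n).natDegree := by
      rw [natDegree_it]
      exact Nat.one_le_pow _ _ (by omega)
    rw [semi_deg hp1 hM e1, natDegree_it]
  have hD1 : 1 ≤ D.natDegree := by
    have h1 : (it R j).natDegree = D.natDegree * V.natDegree := by
      rw [f2, natDegree_comp]
    rw [natDegree_it, hRd] at h1
    by_contra hcon
    have h0 : D.natDegree = 0 := by omega
    rw [h0, Nat.zero_mul] at h1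
    have h2 : 0 < (P.natDegree ^ n) ^ j := by positivity
    omega
  have hA : 1 ≤ (p1.comp D).natDegree := by
    rw [natDegree_comp]
    exact Nat.mul_pos hp1 hD1
  have e3 : (p1.comp D).comp V = (it P (n * j)).comp p1 := by
    rw [comp_assoc, ← f2, semi_it e1 j, it_mul]
  have hcV : Nat.Coprime V.natDegree p1.natDegree :=
    Nat.Coprime.coprime_dvd_left hVk hc.symm
  obtain ⟨A1, B1, Y, g1, g2, g3, g4, g5, g6⟩ := lcm_right hA hV1 hp1 hcV e3
  have hB1 : ¬ P.natDegree ∣ B1.natDegree := by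
    rw [g5]
    exact fun h => hk (h.trans hVk)
  have h1 := right_bound hd hP g2 hB1
  rw [g5] at h1
  rw [f1, natDegree_comp]
  exact Nat.mul_le_mul (hQd ▸ f5) h1.le

private theorem trb_aux {P Q : ℂ[X]} (hd : 2 ≤ P.natDegree) (hP : NonSpecial P)
    (hQ : NonSpecial Q) (N : ℕ) : ∀ (n : ℕ) (R p1 p2 : ℂ[X]), Trip P Q n R p1 p2 →
      p1.natDegree + p2.natDegree = N → ∃ n R p1 p2, Trip P Q n R p1 p2 ∧
      p1.natDegree ≤ P.natDegree * K2 P.natDegree ∧
      p2.natDegree ≤ P.natDegree * K2 P.natDegree := by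
  induction N using Nat.strong_induction_on with
  | _ N ih =>
    intro n R p1 p2 h hN
    have hQd : Q.natDegree = P.natDegree := inter_deg hd (inter_iff.mpr ⟨n, R, p1, p2, h⟩)
    have hp1 : 1 ≤ p1.natDegree := h.2.1
    have hp2 : 1 ≤ p2.natDegree := h.2.2.1
    by_cases hc : Nat.Coprime p1.natDegree p2.natDegree
    · by_cases hk2 : P.natDegree ∣ p2.natDegree
      · obtain ⟨R', q2, h', e⟩ := tri_div hd hP h hk2
        have hq2 : 1 ≤ q2.natDegree := h'.2.2.1
        refine ih (p1.natDegree + q2.natDegree) ?_ n R' p1 q2 h' rfl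
        have : q2.natDegree * 2 ≤ q2.natDegree * P.natDegree := Nat.mul_le_mul_left _ hd
        omega
      · by_cases hk1 : P.natDegree ∣ p1.natDegree
        · obtain ⟨R', q1, h', e⟩ := tri_div (by omega : 2 ≤ Q.natDegree) hQ h.symm
            (by rw [hQd]; exact hk1)
          have hq1 : 1 ≤ q1.natDegree := h'.2.2.1
          refine ih (q1.natDegree + p2.natDegree) ?_ n R' q1 p2 h'.symm rfl
          rw [hQd] at e
          have : q1.natDegree * 2 ≤ q1.natDegree * P.natDegree := Nat.mul_le_mul_left _ hd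
          omega
        · refine ⟨n, R, p1, p2, h, ?_, tri_le hd hP hQ h hc hk2⟩
          have := tri_le (by omega : 2 ≤ Q.natDegree) hQ hP h.symm hc.symm
            (by rw [hQd]; exact hk1)
          rwa [hQd] at this
    · obtain ⟨R', q1, q2, h', e1, e2⟩ := tri_gcd hd h
      have hg : 2 ≤ Nat.gcd p1.natDegree p2.natDegree := by
        have h1 : 0 < Nat.gcd p1.natDegree p2.natDegree := Nat.gcd_pos_of_pos_left _ (by omega)
        have h2 : Nat.gcd p1.natDegree p2.natDegree ≠ 1 := hc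
        omega
      have hq1 : 1 ≤ q1.natDegree := h'.2.1
      have hq2 : 1 ≤ q2.natDegree := h'.2.2.1
      refine ih (q1.natDegree + q2.natDegree) ?_ n R' q1 q2 h' rfl
      have h3 : q1.natDegree * 2 ≤ q1.natDegree * Nat.gcd p1.natDegree p2.natDegree :=
        Nat.mul_le_mul_left _ hg
      have h4 : q2.natDegree * 2 ≤ q2.natDegree * Nat.gcd p1.natDegree p2.natDegree :=
        Nat.mul_le_mul_left _ hg
      omega

/-- conclusion of 9(a)-(c) -/
theorem tri_bound {P Q : ℂ[X]} (hd : 2 ≤ P.natDegree) (hP : NonSpecial P) (hQ : NonSpecial Q)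
    (h : Inter P Q) : ∃ n R p1 p2, Trip P Q n R p1 p2 ∧
      p1.natDegree ≤ P.natDegree * K2 P.natDegree ∧
      p2.natDegree ≤ P.natDegree * K2 P.natDegree := by
  obtain ⟨n, R, p1, p2, ht⟩ := inter_iff.mp h
  exact trb_aux hd hP hQ _ n R p1 p2 ht rfl

end H12IT
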