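import Pool.Agent.H12.IT.Opb
import Pool.Agent.H12.IT.Trb

set_option autoImplicit false

/-! PROJECT IT, module Opc: semiconjugacies between the iterates of `a (z^d + z)`. -/

open Polynomial

namespace H12IT

theorem wp_right {d : ℕ} (hd : 3 ≤ d) {a : ℂ} (ha : a ^ (d - 1) = 1) {N M : ℕ} {A V : ℂ[X]}
    (h : it (Wp d a) N = A.comp V) (hV : V.natDegree ∣ d ^ M) (hn : ¬ d ∣ V.natDegree) :
    V.natDegree = 1 := by
  have hV0 : 1 ≤ V.natDegree := by
    rcases Nat.eq_zero_or_pos V.natDegree with h0 | h0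
    · exact absurd (by rw [h0]; exact dvd_zero d) hn
    · exact h0
  rcases N with _ | N
  · rw [it_zero] at h
    have h1 : A.natDegree * V.natDegree = 1 := by
      rw [← natDegree_comp, ← h, natDegree_X]
    exact Nat.eq_one_of_mul_eq_one_left h1
  · rw [it_succ'] at h
    have hW := wp_deg hd ha
    have hA : 1 ≤ (it (Wp d a) N).natDegree := by
      rw [natDegree_it, hW]
      exact Nat.one_le_pow _ _ (by omega)
    obtain ⟨u, p, q, hu, hp, -⟩ := gcd_right hA (by rw [hW]; omega) hV0 h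
    rw [hW] at hu
    rcases wp_indec hd ha hp with h1 | h1
    · have h2 : (Wp d a).natDegree = p.natDegree * u.natDegree := by
        conv_lhs => rw [hp]
        exact natDegree_comp
      rw [hW, h1, one_mul, hu] at h2
      exact absurd (h2 ▸ Nat.gcd_dvd_right d V.natDegree) hn
    · rw [hu] at h1
      have h2 : Nat.Coprime V.natDegree (d ^ M) := (Nat.Coprime.pow_left M h1).symm
      exact Nat.Coprime.eq_one_of_dvd h2 hV

theorem opt_one {d : ℕ} (hd : 3 ≤ d) {a b : ℂ} (ha : a ^ (d - 1) = 1) (hb : b ^ (d - 1) = 1)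
    {n : ℕ} {R p1 p2 : ℂ[X]} (h : Trip (Wp d a) (Wp d b) n R p1 p2)
    (hc : Nat.Coprime p1.natDegree p2.natDegree) (hk : ¬ d ∣ p2.natDegree) :
    p2.natDegree = 1 := by
  obtain ⟨hn, h1, h2, e1, e2⟩ := h
  have hWa := wp_deg hd ha
  have hWb := wp_deg hd hb
  have hd2 : 2 ≤ (Wp d b).natDegree := by rw [hWb]; omega
  have hNS := wp_nonspecial hd hb
  obtain ⟨B, V, D, S, E, hp, hD, hS, hBc, hBd, hVd, -, -, -⟩ :=
    semi_dec (j := p2.natDegree + 3) hd2 hNS hn h2 e2 le_rfl
  set j := p2.natDegree + 3 with hj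
  have hpd : p2.natDegree = B.natDegree * V.natDegree := by
    conv_lhs => rw [hp]
    exact natDegree_comp
  have hB1 : 1 ≤ B.natDegree := by
    rcases Nat.eq_zero_or_pos B.natDegree with h0 | h0
    · rw [h0, zero_mul] at hpd
      omega
    · exact h0
  have hV1 : 1 ≤ V.natDegree := by
    rcases Nat.eq_zero_or_pos V.natDegree with h0 | h0
    · rw [h0, mul_zero] at hpd
      omega
    · exact h0
  have hB : B.natDegree = 1 := by
    by_contra hne
    have hB2 : 2 ≤ B.natDegree := by omega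
    have hb4 : 4 * B.natDegree ≤ (Wp d b).natDegree ^ (3 + B.natDegree) := by
      have k1 : B.natDegree < 2 ^ B.natDegree := Nat.lt_two_pow_self
      have k2 : 2 ^ (3 + B.natDegree) ≤ (Wp d b).natDegree ^ (3 + B.natDegree) :=
        Nat.pow_le_pow_left hd2 _
      have k3 : 2 ^ (3 + B.natDegree) = 8 * 2 ^ B.natDegree := by
        rw [pow_add]
        norm_num
      omega
    obtain ⟨x0, z0, hsp, -, -⟩ := b_struct (R1 := it S (3 + B.natDegree)) (N := 3 + B.natDegree)
      hd2 hNS (by omega) hB2 hBc hb4 (semi_it hS _)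
    exact wp_nospt hd hb hB2 hsp
  have hkap : p2.natDegree = V.natDegree := by rw [hpd, hB, one_mul]
  have hRd : R.natDegree = d ^ n := by
    have hM : (it (Wp d b) n).natDegree = d ^ n := by rw [natDegree_it, hWb]
    rw [semi_deg h2 (by rw [hM]; exact Nat.one_le_pow _ _ (by omega)) e2, hM]
  have hDd : 1 ≤ D.natDegree := by
    rcases Nat.eq_zero_or_pos D.natDegree with h0 | h0
    · exfalso
      have k1 : (it R j).natDegree = D.natDegree * V.natDegree := by
        rw [hD]
        exact natDegree_comp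
      rw [natDegree_it, hRd, h0, zero_mul] at k1
      have k2 : 0 < (d ^ n) ^ j := pow_pos (pow_pos (by omega) _) _
      omega
    · exact h0
  have e3 : (p1.comp D).comp V = (it (Wp d a) (n * j)).comp p1 := by
    rw [comp_assoc, ← hD, semi_it e1 j, ← it_mul]
  obtain ⟨A1, B1, Y, -, hY, -, -, hB1d, -⟩ := lcm_right (A := p1.comp D) (B := it (Wp d a) (n * j))
    (f := V) (g := p1) (by rw [natDegree_comp]; exact Nat.mul_pos h1 hDd) hV1 h1
    (by rw [← hkap]; exact hc.symm) e3
  have k3 := wp_right (M := n * j) hd ha hY (by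
    rw [hB1d, hVd, hWb]
    exact Nat.gcd_dvd_right _ _) (by rw [hB1d, ← hkap]; exact hk)
  rw [hkap, ← hB1d, k3]

theorem opt_lin {d : ℕ} (hd : 3 ≤ d) {a b : ℂ} (ha : a ^ (d - 1) = 1) (hb : b ^ (d - 1) = 1)
    {n : ℕ} {R p1 p2 : ℂ[X]} (h : Trip (Wp d a) (Wp d b) n R p1 p2) :
    ∃ L : ℂ[X], L.natDegree = 1 ∧ L.comp (it (Wp d a) n) = (it (Wp d b) n).comp L := by
  have hWa := wp_deg hd ha
  have hWb := wp_deg hd hb
  have hda : 2 ≤ (Wp d a).natDegree := by rw [hWa]; omega
  have hdb : 2 ≤ (Wp d b).natDegree := by rw [hWb]; omega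
  induction hm : p1.natDegree + p2.natDegree using Nat.strong_induction_on
    generalizing R p1 p2 with
  | _ m ih =>
  subst hm
  have h1 : 1 ≤ p1.natDegree := h.2.1
  have h2 : 1 ≤ p2.natDegree := h.2.2.1
  by_cases hc : Nat.Coprime p1.natDegree p2.natDegree
  · by_cases hk2 : d ∣ p2.natDegree
    · obtain ⟨R', q2, ht, hq⟩ := tri_div hda (wp_nonspecial hd ha) h (by rw [hWa]; exact hk2)
      refine ih (p1.natDegree + q2.natDegree) ?_ ht rfl
      rw [hWa] at hq
      have : 1 ≤ q2.natDegree := ht.2.2.1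
      nlinarith
    · by_cases hk1 : d ∣ p1.natDegree
      · obtain ⟨R', q1, ht, hq⟩ := tri_div hdb (wp_nonspecial hd hb) h.symm (by rw [hWb]; exact hk1)
        refine ih (q1.natDegree + p2.natDegree) ?_ ht.symm rfl
        rw [hWb] at hq
        have : 1 ≤ q1.natDegree := ht.2.2.1
        nlinarith
      · have hp2 := opt_one hd ha hb h hc hk2
        have hp1 := opt_one hd hb ha h.symm hc.symm hk1
        obtain ⟨-, -, -, e1, e2⟩ := h
        obtain ⟨L1, hL1, hL2, hL3⟩ := lin_inv hp1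
        refine ⟨p2.comp L1, by rw [natDegree_comp, hp2, hL1], ?_⟩
        apply comp_cancel h1
        have k1 : (p2.comp L1).comp p1 = p2 := by rw [comp_assoc, hL3, comp_X]
        have k2 : L1.comp ((it (Wp d a) n).comp p1) = R := by
          rw [← e1, ← comp_assoc, hL3, X_comp]
        rw [comp_assoc, comp_assoc, comp_assoc, k1, k2, e2]
  · obtain ⟨R', q1, q2, ht, hq1, hq2⟩ := tri_gcd hda h
    refine ih (q1.natDegree + q2.natDegree) ?_ ht rfl
    have hg : 2 ≤ Nat.gcd p1.natDegree p2.natDegree := by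
      have k1 : 0 < Nat.gcd p1.natDegree p2.natDegree := Nat.gcd_pos_of_pos_left _ h1
      have k2 : Nat.gcd p1.natDegree p2.natDegree ≠ 1 := hc
      omega
    have g1 : 1 ≤ q1.natDegree := ht.2.1
    have g2 : 1 ≤ q2.natDegree := ht.2.2.1
    have g3 : q1.natDegree * 2 ≤ p1.natDegree := by
      rw [hq1]
      exact Nat.mul_le_mul_left _ hg
    have g4 : q2.natDegree * 2 ≤ p2.natDegree := by
      rw [hq2]
      exact Nat.mul_le_mul_left _ hg
    omega

end H12IT
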