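import Pool.Agent.H12.IT.Opa
import Pool.Agent.H12.IT.Opc
import Pool.Agent.H12.IT.Thm2

set_option autoImplicit false

/-! PROJECT IT, module Opd: the optimal number of iterates is `d - 1`. -/

open Polynomial

namespace H12IT

theorem wp_it {d : ℕ} (hd : 3 ≤ d) {a : ℂ} (ha : a ^ (d - 1) = 1) (n : ℕ) :
    it (Wp d a) n = C (a ^ n) * it (Wp d 1) n := by
  have had : a ^ d = a := by
    obtain ⟨e, rfl⟩ : ∃ e, d = e + 1 := ⟨d - 1, by omega⟩
    rw [Nat.add_sub_cancel] at ha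
    rw [pow_succ, ha, one_mul]
  induction n with
  | zero => rw [it_zero, it_zero, pow_zero, C_1, one_mul]
  | succ n ih =>
    rw [it_succ, it_succ, ih]
    have h1 : (a ^ n) ^ d = a ^ n := by rw [← pow_mul, mul_comm, pow_mul, had]
    simp only [Wp, mul_comp, add_comp, pow_comp, X_comp, C_comp, C_1, one_mul]
    rw [mul_pow, ← C_pow, h1, pow_succ, C_mul]
    ring

private theorem opd_coeff {d : ℕ} (hd : 3 ≤ d) (n : ℕ) :
    (it (Wp d 1) n).coeff 0 = 0 ∧ (it (Wp d 1) n).coeff 1 = 1 := by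
  induction n with
  | zero => rw [it_zero]; simp
  | succ n ih =>
    obtain ⟨h0, h1⟩ := ih
    have hc : ∀ F : ℂ[X], (Wp d 1).comp F = F ^ d + F := by
      intro F
      rw [Wp, C_1, one_mul, add_comp, pow_comp, X_comp]
    rw [it_succ, hc]
    have h2 : X ∣ it (Wp d 1) n := X_dvd_iff.2 h0
    have h3 := X_pow_dvd_iff.1 (pow_dvd_pow_of_dvd h2 d)
    rw [coeff_add, coeff_add, h3 0 (by omega), h3 1 (by omega), h0, h1]
    exact ⟨zero_add _, zero_add _⟩

private theorem opd_mc {d : ℕ} (hd : 3 ≤ d) : MC d (Wp d 1) := by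
  have h1 := wp_deg hd (one_pow (d - 1) : (1 : ℂ) ^ (d - 1) = 1)
  refine ⟨?_, h1, ?_⟩
  · rw [Monic, leadingCoeff, h1, Wp, C_1, one_mul, coeff_add, coeff_X_pow, coeff_X,
      if_pos rfl, if_neg (by omega), add_zero]
  · rw [Wp, C_1, one_mul, coeff_add, coeff_X_pow, coeff_X, if_neg (by omega),
      if_neg (by omega), add_zero]

/-- the second coefficient of `F (u X + v)` -/
private theorem opd_next {D : ℕ} (hD : 1 ≤ D) {F : ℂ[X]} (hF : MC D F) (u v : ℂ) :
    (F.comp (C u * X + C v)).coeff (D - 1) = D * v * u ^ (D - 1) := by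
  obtain ⟨hm, hn, hc⟩ := hF
  have h1 : F.comp (C u * X + C v) = (F.comp (X + C v)).comp (C u * X) := by
    rw [comp_assoc]
    congr 1
    simp
  rw [h1, comp_C_mul_X_coeff, ← taylor_apply, taylor_coeff]
  congr 1
  have h2 : (hasseDeriv (D - 1) F).natDegree ≤ 1 := by
    refine (natDegree_hasseDeriv_le _ _).trans ?_
    omega
  rw [eq_X_add_C_of_natDegree_le_one h2, hasseDeriv_coeff, hasseDeriv_coeff]
  have h3 : 1 + (D - 1) = D := by omega
  have h4 : F.coeff D = 1 := by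
    have := hm
    rw [Monic, leadingCoeff, hn] at this
    exact this
  rw [h3, h4, zero_add, hc, mul_zero, mul_one]
  have h5 : D.choose (D - 1) = D := by
    rw [Nat.choose_symm_of_eq_add (show D = (D - 1) + 1 by omega), Nat.choose_one_right]
  rw [h5]
  simp

theorem wp_inter {d : ℕ} (hd : 3 ≤ d) {a : ℂ} (ha : a ^ (d - 1) = 1) :
    Inter (Wp d 1) (Wp d a) := by
  have h1 : it (Wp d a) (d - 1) = it (Wp d 1) (d - 1) := by
    rw [wp_it hd ha, ha, C_1, one_mul]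
  have h2 : Geq (it (Wp d 1) (d - 1)) (it (Wp d 1) (d - 1)) :=
    ⟨X, by rw [natDegree_X], by rw [X_comp, comp_X]⟩
  refine ⟨it (Wp d 1) (d - 1), d - 1, by omega, h2, ?_⟩
  rw [h1]
  exact h2

/-- conjugacy of the iterates -/
theorem wp_conj {d : ℕ} (hd : 3 ≤ d) {a : ℂ} (ha : a ^ (d - 1) = 1) {n : ℕ} {L : ℂ[X]}
    (hL : L.natDegree = 1) (h : L.comp (it (Wp d 1) n) = (it (Wp d a) n).comp L) :
    a ^ n = 1 := by
  rcases Nat.eq_zero_or_pos n with rfl | hn
  · exact pow_zero _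
  have hcoef := opd_coeff hd n
  have hmc := mc_it (by omega) (opd_mc hd) hn
  have hD : 3 ≤ d ^ n := hd.trans (Nat.le_self_pow hn.ne' d)
  obtain ⟨u, v, hu, rfl⟩ := lin_form hL
  have ha0 : a ≠ 0 := by
    rintro rfl
    rw [zero_pow (by omega)] at ha
    exact zero_ne_one ha
  rw [wp_it hd ha, mul_comp, C_comp] at h
  have hv : v = 0 := by
    have h1 := congrArg (fun q => coeff q (d ^ n - 1)) h
    simp only [add_comp, mul_comp, C_comp, X_comp, coeff_add, coeff_C_mul] at h1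
    rw [opd_next (by omega) hmc, hmc.2.2, coeff_C, if_neg (by omega), mul_zero, zero_add] at h1
    have h2 := h1.symm
    rw [mul_eq_zero, mul_eq_zero, mul_eq_zero] at h2
    have h3 : ((d ^ n : ℕ) : ℂ) ≠ 0 := by
      rw [Nat.cast_ne_zero]
      omega
    rcases h2 with h2 | (h2 | h2) | h2
    · exact absurd h2 (pow_ne_zero _ ha0)
    · exact absurd h2 h3
    · exact h2
    · exact absurd h2 (pow_ne_zero _ hu)
  rw [hv, C_0, add_zero] at h
  have h1 := congrArg (fun q => coeff q 1) h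
  simp only [mul_comp, C_comp, X_comp, coeff_C_mul, comp_C_mul_X_coeff] at h1
  rw [hcoef.2, mul_one, pow_one, one_mul] at h1
  exact (mul_right_cancel₀ hu ((one_mul u).trans h1)).symm

theorem opt_lower {d : ℕ} (hd : 3 ≤ d) : ∃ P Q : ℂ[X], P.natDegree = d ∧ Q.natDegree = d ∧
    Inter P Q ∧ ∀ (n : ℕ) (R : ℂ[X]), 1 ≤ n → Geq R (it P n) → Geq R (it Q n) → d - 1 ∣ n := by
  obtain ⟨a, ha⟩ : ∃ a : ℂ, IsPrimitiveRoot a (d - 1) :=
    ⟨_, Complex.isPrimitiveRoot_exp (d - 1) (by omega)⟩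
  have ha1 := ha.pow_eq_one
  have h1 : (1 : ℂ) ^ (d - 1) = 1 := one_pow _
  refine ⟨Wp d 1, Wp d a, wp_deg hd h1, wp_deg hd ha1, wp_inter hd ha1, ?_⟩
  rintro n R hn ⟨p1, hp1, e1⟩ ⟨p2, hp2, e2⟩
  obtain ⟨L, hL, e⟩ := opt_lin hd h1 ha1 ⟨hn, hp1, hp2, e1, e2⟩
  exact ha.dvd_of_pow_eq_one n (wp_conj hd ha1 hL e)

end H12IT
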