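import Pool.Agent.H12.IT.Num

set_option autoImplicit false

/-! PROJECT IT, module Pri: the programs are primitive recursive. -/

namespace H12IT

open Ar

/-- primitive recursive arithmetic -/
class PrA (A : Type) [Primcodable A] [Ar A] : Prop where
  add : Primrec₂ (Ar.add : A → A → A)
  mul : Primrec₂ (Ar.mul : A → A → A)
  cst : Primrec (Ar.cst : Q3 → A)

theorem pri_add3 {B : Type} [Primcodable B] {f g : B → Q3} (hf : Primrec f) (hg : Primrec g) :
    Primrec (fun x => add3 (f x) (g x)) := add3_prim.comp hf hg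

theorem pri_mul3 {B : Type} [Primcodable B] {f g : B → Q3} (hf : Primrec f) (hg : Primrec g) :
    Primrec (fun x => mul3 (f x) (g x)) := mul3_prim.comp hf hg

theorem pri_neg3 {B : Type} [Primcodable B] {f : B → Q3} (hf : Primrec f) :
    Primrec (fun x => neg3 (f x)) := neg3_prim.comp hf

theorem pri_n3 {B : Type} [Primcodable B] {f : B → ℕ} (hf : Primrec f) :
    Primrec (fun x => n3 (f x)) := n3_prim.comp hf

instance : PrA G2 where
  add := by
    have h1 : Primrec (fun p : G2 × G2 => p.1.1) := Primrec.fst.comp Primrec.fst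
    have h2 : Primrec (fun p : G2 × G2 => p.1.2) := Primrec.snd.comp Primrec.fst
    have h3 : Primrec (fun p : G2 × G2 => p.2.1) := Primrec.fst.comp Primrec.snd
    have h4 : Primrec (fun p : G2 × G2 => p.2.2) := Primrec.snd.comp Primrec.snd
    exact Primrec.pair (pri_add3 h1 h3) (pri_add3 h2 h4)
  mul := by
    have h1 : Primrec (fun p : G2 × G2 => p.1.1) := Primrec.fst.comp Primrec.fst
    have h2 : Primrec (fun p : G2 × G2 => p.1.2) := Primrec.snd.comp Primrec.fst
    have h3 : Primrec (fun p : G2 × G2 => p.2.1) := Primrec.fst.comp Primrec.snd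
    have h4 : Primrec (fun p : G2 × G2 => p.2.2) := Primrec.snd.comp Primrec.snd
    exact Primrec.pair (pri_add3 (pri_mul3 h1 h3) (pri_neg3 (pri_mul3 h2 h4)))
      (pri_add3 (pri_mul3 h1 h4) (pri_mul3 h2 h3))
  cst := Primrec.pair Primrec.id (Primrec.const z3)

instance : PrA SP where
  add := Primrec.list_append
  mul := by
    have h1 : Primrec (fun p : SP × SP => p.1) := Primrec.fst
    have h2 : Primrec₂ (fun (p : SP × SP) (a : ℕ × Q3) =>
        p.2.map (fun b => (a.1 * b.1, mul3 a.2 b.2))) := by
      have h3 : Primrec (fun z : (SP × SP) × (ℕ × Q3) => z.1.2) := Primrec.snd.comp Primrec.fst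
      have h4 : Primrec₂ (fun (z : (SP × SP) × (ℕ × Q3)) (b : ℕ × Q3) =>
          (z.2.1 * b.1, mul3 z.2.2 b.2)) := by
        have k1 : Primrec (fun w : ((SP × SP) × (ℕ × Q3)) × (ℕ × Q3) => w.1.2.1) :=
          Primrec.fst.comp (Primrec.snd.comp Primrec.fst)
        have k2 : Primrec (fun w : ((SP × SP) × (ℕ × Q3)) × (ℕ × Q3) => w.1.2.2) :=
          Primrec.snd.comp (Primrec.snd.comp Primrec.fst)
        have k3 : Primrec (fun w : ((SP × SP) × (ℕ × Q3)) × (ℕ × Q3) => w.2.1) :=
          Primrec.fst.comp Primrec.snd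
        have k4 : Primrec (fun w : ((SP × SP) × (ℕ × Q3)) × (ℕ × Q3) => w.2.2) :=
          Primrec.snd.comp Primrec.snd
        exact Primrec.pair (Primrec.nat_mul.comp k1 k3) (pri_mul3 k2 k4)
      exact Primrec.list_map h3 h4
    exact Primrec.list_flatMap h1 h2
  cst := by
    have h : Primrec (fun q : Q3 => ((1, q) : ℕ × Q3)) :=
      Primrec.pair (Primrec.const 1) Primrec.id
    exact Primrec.list_cons.comp h (Primrec.const [])

section prim

variable {A : Type} [Primcodable A] [Ar A] [PrA A]

section ctx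

variable {B : Type} [Primcodable B]

theorem pri_add {f g : B → A} (hf : Primrec f) (hg : Primrec g) :
    Primrec (fun x => Ar.add (f x) (g x)) := PrA.add.comp hf hg

theorem pri_mul {f g : B → A} (hf : Primrec f) (hg : Primrec g) :
    Primrec (fun x => Ar.mul (f x) (g x)) := PrA.mul.comp hf hg

theorem pri_cst {f : B → Q3} (hf : Primrec f) :
    Primrec (fun x => (Ar.cst (f x) : A)) := PrA.cst.comp hf

theorem pri_sub {f g : B → A} (hf : Primrec f) (hg : Primrec g) :
    Primrec (fun x => sub (f x) (g x)) :=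
  pri_add hf (pri_mul (pri_cst (Primrec.const m3)) hg)

theorem pri_hor {l : B → List A} {g : B → A} (hl : Primrec l) (hg : Primrec g) :
    Primrec (fun x => hor (l x) (g x)) := by
  have hz : Primrec (fun _ : B => (zer : A)) := Primrec.const _
  have hs : Primrec₂ (fun (x : B) (ay : A × A) => Ar.add ay.1 (Ar.mul (g x) ay.2)) :=
    pri_add (Primrec.fst.comp Primrec.snd)
      (pri_mul (hg.comp Primrec.fst) (Primrec.snd.comp Primrec.snd))
  exact Primrec.list_foldr hl hz hs

theorem pri_horQ {l : B → List Q3} {g : B → A} (hl : Primrec l) (hg : Primrec g) :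
    Primrec (fun x => horQ (l x) (g x)) := by
  have hz : Primrec (fun _ : B => (zer : A)) := Primrec.const _
  have hs : Primrec₂ (fun (x : B) (ay : Q3 × A) =>
      Ar.add (Ar.cst ay.1) (Ar.mul (g x) ay.2)) :=
    pri_add (pri_cst (Primrec.fst.comp Primrec.snd))
      (pri_mul (hg.comp Primrec.fst) (Primrec.snd.comp Primrec.snd))
  exact Primrec.list_foldr hl hz hs

theorem pri_nst {l : B → List A} {n : B → ℕ} {g : B → A} (hl : Primrec l) (hn : Primrec n)
    (hg : Primrec g) : Primrec (fun x => nst (l x) (n x) (g x)) := by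
  have hs : Primrec₂ (fun (x : B) (ky : ℕ × A) => hor (l x) ky.2) :=
    pri_hor (hl.comp Primrec.fst) (Primrec.snd.comp Primrec.snd)
  exact Primrec.nat_rec' hn hg hs

theorem pri_dot {n : B → ℕ} {v p : B → List A} (hn : Primrec n) (hv : Primrec v)
    (hp : Primrec p) : Primrec (fun x => dot (n x) (v x) (p x)) := by
  have hz : Primrec (fun _ : B => (zer : A)) := Primrec.const _
  have hr : Primrec (fun x : B => List.range (n x)) := Primrec.list_range.comp hn
  have hs : Primrec₂ (fun (x : B) (jy : ℕ × A) =>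
      Ar.add (Ar.mul ((v x).getD jy.1 zer) ((p x).getD jy.1 zer)) jy.2) := by
    have k1 : Primrec (fun z : B × (ℕ × A) => v z.1) := hv.comp Primrec.fst
    have k2 : Primrec (fun z : B × (ℕ × A) => p z.1) := hp.comp Primrec.fst
    have k3 : Primrec (fun z : B × (ℕ × A) => z.2.1) := Primrec.fst.comp Primrec.snd
    have k4 : Primrec (fun z : B × (ℕ × A) => z.2.2) := Primrec.snd.comp Primrec.snd
    exact pri_add (pri_mul ((Primrec.list_getD zer).comp k1 k3)
      ((Primrec.list_getD zer).comp k2 k3)) k4
  exact Primrec.list_foldr hr hz hs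

theorem pri_getD {C : Type} [Primcodable C] (d : C) {l : B → List C} {n : B → ℕ}
    (hl : Primrec l) (hn : Primrec n) : Primrec (fun x => (l x).getD (n x) d) :=
  (Primrec.list_getD d).comp hl hn

omit [Ar A] [PrA A] in
theorem pri_blk {b : B → List (List A)} {k : B → ℕ} (hb : Primrec b) (hk : Primrec k) :
    Primrec (fun x => blk (b x) (k x)) :=
  pri_getD [] hb hk

theorem pri_eqn {n : B → ℕ} {P R p : B → List A} {z : B → ℕ} (hn : Primrec n) (hP : Primrec P)
    (hR : Primrec R) (hp : Primrec p) (hz : Primrec z) :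
    Primrec (fun x => eqn (n x) (P x) (R x) (p x) (z x)) :=
  pri_sub (pri_hor hp (pri_hor hR (pri_cst (pri_n3 hz))))
    (pri_nst hP hn (pri_hor hp (pri_cst (pri_n3 hz))))

theorem pri_range_map {C : Type} [Primcodable C] {n : B → ℕ} {f : B → ℕ → C} (hn : Primrec n)
    (hf : Primrec₂ f) : Primrec (fun x => (List.range (n x)).map (f x)) :=
  Primrec.list_map (Primrec.list_range.comp hn) hf

theorem pri_drop {C : Type} [Primcodable C] {n : B → ℕ} {l : B → List C} (hn : Primrec n)
    (hl : Primrec l) : Primrec (fun x => (l x).drop (n x)) :=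
  Primrec.list_drop.comp hn hl

theorem pri_append {C : Type} [Primcodable C] {l m : B → List C} (hl : Primrec l)
    (hm : Primrec m) : Primrec (fun x => l x ++ m x) :=
  Primrec.list_append.comp hl hm

theorem pri_cons {C : Type} [Primcodable C] {a : B → C} {l : B → List C} (ha : Primrec a)
    (hl : Primrec l) : Primrec (fun x => a x :: l x) :=
  Primrec.list_cons.comp ha hl

theorem pri_sysE {d : B → ℕ} {P : B → List A} {b : B → List (List A)} (hd : Primrec d)
    (hP : Primrec P) (hb : Primrec b) : Primrec (fun x => sysE (d x) (P x) (b x)) := by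
  have hKK : Primrec (fun x => KK (d x)) := KK_prim.comp hd
  have hTT : Primrec (fun x => TT (d x)) := TT_prim.comp hd
  have hNN : Primrec (fun x => NN (d x)) := NN_prim.comp hd
  have hblk : ∀ k : ℕ, Primrec (fun x => blk (b x) k) := fun k => pri_blk hb (Primrec.const k)
  have h1 : Primrec (fun _ : B => (one : A)) := Primrec.const _
  have ha : Primrec (fun x => sub (dot (KK (d x)) (blk (b x) 4) ((blk (b x) 2).drop 1)) one) :=
    pri_sub (pri_dot hKK (hblk 4) (pri_drop (Primrec.const 1) (hblk 2))) h1
  have hb' : Primrec (fun x => sub (dot (KK (d x)) (blk (b x) 5) ((blk (b x) 3).drop 1)) one) :=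
    pri_sub (pri_dot hKK (hblk 5) (pri_drop (Primrec.const 1) (hblk 3))) h1
  have hc : Primrec (fun x => (List.range (TT (d x))).map
      (eqn (NN (d x)) (P x) (blk (b x) 1) (blk (b x) 2))) := by
    refine pri_range_map hTT ?_
    exact pri_eqn (hNN.comp Primrec.fst) (hP.comp Primrec.fst) ((hblk 1).comp Primrec.fst)
      ((hblk 2).comp Primrec.fst) Primrec.snd
  have hq : Primrec (fun x => blk (b x) 0 ++ [zer, one]) :=
    pri_append (hblk 0) (Primrec.const _)
  have he : Primrec (fun x => (List.range (TT (d x))).map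
      (eqn (NN (d x)) (blk (b x) 0 ++ [zer, one]) (blk (b x) 1) (blk (b x) 3))) := by
    refine pri_range_map hTT ?_
    exact pri_eqn (hNN.comp Primrec.fst) (hq.comp Primrec.fst) ((hblk 1).comp Primrec.fst)
      ((hblk 3).comp Primrec.fst) Primrec.snd
  exact pri_append (pri_cons ha (pri_cons hb' (Primrec.const []))) (pri_append hc he)

theorem pri_PL {d : B → ℕ} {cs as : B → List (List Q3)} {t : B → A} (hd : Primrec d)
    (hc : Primrec cs) (ha : Primrec as) (ht : Primrec t) :
    Primrec (fun x => PL (d x) (cs x) (as x) (t x)) := by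
  refine pri_range_map (Primrec.succ.comp hd) ?_
  exact pri_horQ (pri_getD [] (hc.comp Primrec.fst) Primrec.snd)
    (pri_horQ (pri_getD [] (ha.comp Primrec.fst) Primrec.snd) (ht.comp Primrec.fst))

theorem pri_rab {d : B → ℕ} {q y : B → List A} {o : B → List (List Q3)} {t : B → A}
    (hd : Primrec d) (hq : Primrec q) (hy : Primrec y) (ho : Primrec o) (ht : Primrec t) :
    Primrec (fun x => rab (d x) (q x) (y x) (o x) (t x)) := by
  have hd1 : Primrec (fun x => d x - 1) := Primrec.nat_sub.comp hd (Primrec.const 1)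
  have h1 : Primrec (fun _ : B => (one : A)) := Primrec.const _
  refine pri_sub (pri_dot hd1 hy (pri_range_map hd1 ?_)) h1
  exact pri_sub (pri_getD zer (hq.comp Primrec.fst) Primrec.snd)
    (pri_horQ (pri_getD [] (ho.comp Primrec.fst) Primrec.snd) (ht.comp Primrec.fst))

theorem pri_allE {d : B → ℕ} {cs as : B → List (List Q3)} {M : B → List Q3}
    {S : B → List (List (List (List Q3)))} {t : B → A} {b Y : B → List (List A)}
    (hd : Primrec d) (hc : Primrec cs) (ha : Primrec as) (hM : Primrec M) (hS : Primrec S)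
    (ht : Primrec t) (hb : Primrec b) (hY : Primrec Y) :
    Primrec (fun x => allE (d x) (cs x) (as x) (M x) (S x) (t x) (b x) (Y x)) := by
  refine pri_cons (pri_horQ hM ht) (pri_append (pri_sysE hd (pri_PL hd hc ha ht) hb) ?_)
  refine pri_range_map (Primrec.list_length.comp hS) ?_
  exact pri_rab (hd.comp Primrec.fst)
    (pri_blk (hb.comp Primrec.fst) (Primrec.const 0))
    (pri_getD [] (hY.comp Primrec.fst) Primrec.snd)
    (pri_getD [] (pri_getD [] (hS.comp Primrec.fst) Primrec.snd) (Primrec.const 0))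
    (ht.comp Primrec.fst)

end ctx

theorem sub_prim : Primrec₂ (sub : A → A → A) := pri_sub Primrec.fst Primrec.snd

theorem hor_prim : Primrec₂ (hor : List A → A → A) := pri_hor Primrec.fst Primrec.snd

theorem horQ_prim : Primrec₂ (horQ : List Q3 → A → A) := pri_horQ Primrec.fst Primrec.snd

theorem nst_prim : Primrec (fun y : List A × ℕ × A => nst y.1 y.2.1 y.2.2) :=
  pri_nst Primrec.fst (Primrec.fst.comp Primrec.snd) (Primrec.snd.comp Primrec.snd)

theorem dot_prim : Primrec (fun y : ℕ × List A × List A => dot y.1 y.2.1 y.2.2) :=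
  pri_dot Primrec.fst (Primrec.fst.comp Primrec.snd) (Primrec.snd.comp Primrec.snd)

theorem blk_prim : Primrec₂ (blk : List (List A) → ℕ → List A) :=
  pri_blk Primrec.fst Primrec.snd

theorem eqn_prim : Primrec (fun y : ℕ × List A × List A × List A × ℕ =>
    eqn y.1 y.2.1 y.2.2.1 y.2.2.2.1 y.2.2.2.2) :=
  pri_eqn Primrec.fst (Primrec.fst.comp Primrec.snd)
    (Primrec.fst.comp (Primrec.snd.comp Primrec.snd))
    (Primrec.fst.comp (Primrec.snd.comp (Primrec.snd.comp Primrec.snd)))
    (Primrec.snd.comp (Primrec.snd.comp (Primrec.snd.comp Primrec.snd)))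

theorem sysE_prim : Primrec (fun y : ℕ × List A × List (List A) =>
    sysE y.1 y.2.1 y.2.2) :=
  pri_sysE Primrec.fst (Primrec.fst.comp Primrec.snd) (Primrec.snd.comp Primrec.snd)

theorem PL_prim : Primrec (fun y : ℕ × List (List Q3) × List (List Q3) × A =>
    PL y.1 y.2.1 y.2.2.1 y.2.2.2) :=
  pri_PL Primrec.fst (Primrec.fst.comp Primrec.snd)
    (Primrec.fst.comp (Primrec.snd.comp Primrec.snd))
    (Primrec.snd.comp (Primrec.snd.comp Primrec.snd))

theorem evB_prim : Primrec₂ (evB : List (List (List Q3)) → A → List (List A)) := by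
  have h1 : Primrec (fun z : List (List (List Q3)) × A => z.1) := Primrec.fst
  have h2 : Primrec₂ (fun (z : List (List (List Q3)) × A) (b : List (List Q3)) =>
      b.map (fun l => horQ l z.2)) := by
    have h3 : Primrec (fun w : (List (List (List Q3)) × A) × List (List Q3) => w.2) :=
      Primrec.snd
    have h4 : Primrec₂ (fun (w : (List (List (List Q3)) × A) × List (List Q3)) (l : List Q3) =>
        horQ l w.1.2) :=
      pri_horQ Primrec.snd (Primrec.snd.comp (Primrec.fst.comp Primrec.fst))
    exact Primrec.list_map h3 h4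
  exact Primrec.list_map h1 h2

theorem allE_prim : Primrec (fun y : ℕ × List (List Q3) × List (List Q3) × List Q3 ×
    List (List (List (List Q3))) × A × List (List A) × List (List A) =>
    allE y.1 y.2.1 y.2.2.1 y.2.2.2.1 y.2.2.2.2.1 y.2.2.2.2.2.1 y.2.2.2.2.2.2.1
      y.2.2.2.2.2.2.2) := by
  have s1 : Primrec (fun y : ℕ × List (List Q3) × List (List Q3) × List Q3 ×
    List (List (List (List Q3))) × A × List (List A) × List (List A) => y.2) := Primrec.snd
  have s2 : Primrec (fun y : ℕ × List (List Q3) × List (List Q3) × List Q3 ×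
    List (List (List (List Q3))) × A × List (List A) × List (List A) => y.2.2) :=
    Primrec.snd.comp s1
  have s3 : Primrec (fun y : ℕ × List (List Q3) × List (List Q3) × List Q3 ×
    List (List (List (List Q3))) × A × List (List A) × List (List A) => y.2.2.2) :=
    Primrec.snd.comp s2
  have s4 : Primrec (fun y : ℕ × List (List Q3) × List (List Q3) × List Q3 ×
    List (List (List (List Q3))) × A × List (List A) × List (List A) => y.2.2.2.2) :=
    Primrec.snd.comp s3
  have s5 : Primrec (fun y : ℕ × List (List Q3) × List (List Q3) × List Q3 ×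
    List (List (List (List Q3))) × A × List (List A) × List (List A) => y.2.2.2.2.2) :=
    Primrec.snd.comp s4
  have s6 : Primrec (fun y : ℕ × List (List Q3) × List (List Q3) × List Q3 ×
    List (List (List (List Q3))) × A × List (List A) × List (List A) => y.2.2.2.2.2.2) :=
    Primrec.snd.comp s5
  exact pri_allE Primrec.fst (Primrec.fst.comp s1) (Primrec.fst.comp s2) (Primrec.fst.comp s3)
    (Primrec.fst.comp s4) (Primrec.fst.comp s5) (Primrec.fst.comp s6) (Primrec.snd.comp s6)

end prim

theorem var_prim : Primrec var := by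
  have h : Primrec (fun m : ℕ => ((m, o3) : ℕ × Q3)) :=
    Primrec.pair Primrec.id (Primrec.const o3)
  exact Primrec.list_cons.comp h (Primrec.const [])

theorem pri_coefS {B : Type} [Primcodable B] {s : B → SP} {m : B → ℕ} (hs : Primrec s)
    (hm : Primrec m) : Primrec (fun x => coefS (s x) (m x)) := by
  have hz : Primrec (fun _ : B => z3) := Primrec.const _
  have hst : Primrec₂ (fun (x : B) (by' : (ℕ × Q3) × Q3) =>
      if by'.1.1 = m x then add3 by'.1.2 by'.2 else by'.2) := by
    have k1 : Primrec (fun w : B × ((ℕ × Q3) × Q3) => w.2.1.1) :=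
      Primrec.fst.comp (Primrec.fst.comp Primrec.snd)
    have k2 : Primrec (fun w : B × ((ℕ × Q3) × Q3) => m w.1) := hm.comp Primrec.fst
    have k3 : Primrec (fun w : B × ((ℕ × Q3) × Q3) => w.2.1.2) :=
      Primrec.snd.comp (Primrec.fst.comp Primrec.snd)
    have k4 : Primrec (fun w : B × ((ℕ × Q3) × Q3) => w.2.2) := Primrec.snd.comp Primrec.snd
    exact Primrec.ite (Primrec.eq.comp k1 k2) (pri_add3 k3 k4) k4
  exact Primrec.list_foldr hs hz hst

theorem ZT_prim : PrimrecPred ZT := by
  have hR : PrimrecRel (fun (a : ℕ × Q3) (s : SP) => (coefS s a.1).1 = (coefS s a.1).2.1) := by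
    have h : Primrec (fun w : (ℕ × Q3) × SP => coefS w.2 w.1.1) :=
      pri_coefS Primrec.snd (Primrec.fst.comp Primrec.fst)
    exact Primrec.eq.comp (Primrec.fst.comp h) (Primrec.fst.comp (Primrec.snd.comp h))
  have h2 := hR.forall_mem_list
  exact (h2.comp Primrec.id Primrec.id).of_eq (fun s => Iff.rfl)

end H12IT
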