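import Pool.Agent.H12.IT.Bse
import Pool.Agent.H12.IT.Gcd

set_option autoImplicit false

/-! PROJECT IT, module Rho: every semiconjugacy to an iterate is a semiconjugacy to `P`. -/

open Polynomial

namespace H12IT

theorem rho_arith {k l d N : ℕ} (hk : 1 ≤ k) (hN : k ≤ N) (h : k = l * Nat.gcd k (d ^ N)) :
    Nat.Coprime l d := by
  rw [Nat.coprime_iff_gcd_eq_one]
  by_contra hne
  obtain ⟨q, hq, hqg⟩ := Nat.exists_prime_and_dvd hne
  have hql : q ∣ l := dvd_trans hqg (Nat.gcd_dvd_left _ _)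
  have hqd : q ∣ d := dvd_trans hqg (Nat.gcd_dvd_right _ _)
  obtain ⟨v, m, hm, hkm⟩ := Nat.exists_eq_pow_mul_and_not_dvd (show k ≠ 0 by omega) q hq.ne_one
  have hv : v ≤ N := by
    have h1 : v < q ^ v := Nat.lt_pow_self hq.one_lt
    have h2 : q ^ v ≤ k := Nat.le_of_dvd hk ⟨m, hkm⟩
    omega
  have h1 : q ^ v ∣ Nat.gcd k (d ^ N) := by
    refine Nat.dvd_gcd ⟨m, hkm⟩ ?_
    exact dvd_trans (pow_dvd_pow q hv) (pow_dvd_pow_of_dvd hqd N)
  have h2 : q * q ^ v ∣ k := by
    rw [h]
    exact mul_dvd_mul hql h1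
  rw [hkm, mul_comm] at h2
  exact hm (Nat.dvd_of_mul_dvd_mul_left (pow_pos hq.pos v) h2)

/-- decomposition of a semiconjugacy -/
theorem semi_dec {P p R : ℂ[X]} (hd : 2 ≤ P.natDegree) (hP : NonSpecial P) {n : ℕ} (hn : 1 ≤ n)
    (hp : 1 ≤ p.natDegree) (h : p.comp R = (it P n).comp p) {j : ℕ} (hj : p.natDegree + 3 ≤ j) :
    ∃ B V D S E : ℂ[X], p = B.comp V ∧ it R j = D.comp V ∧ B.comp S = P.comp B ∧
      Nat.Coprime B.natDegree P.natDegree ∧ B.natDegree ≤ P.natDegree ∧
      V.natDegree = Nat.gcd p.natDegree (P.natDegree ^ (n * j)) ∧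
      V.comp D = E.comp (it S (n * j)) ∧ Sym B E ∧
      B.comp (V.comp D) = (it P (n * j)).comp B := by
  have hjN : j ≤ n * j := Nat.le_mul_of_pos_left j hn
  have h1 : p.comp (it R j) = (it P (n * j)).comp p := by
    rw [it_mul]
    exact semi_it h j
  have hdN : 1 ≤ P.natDegree ^ (n * j) := Nat.one_le_pow _ _ (by omega)
  have hRj : (it R j).natDegree = P.natDegree ^ (n * j) := by
    rw [semi_deg hp (by rw [natDegree_it]; exact hdN) h1, natDegree_it]
  obtain ⟨V, B, D, hV, hB, hD⟩ := gcd_right (A := it P (n * j)) (B := p) (f := p) (g := it R j)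
    (by rw [natDegree_it]; exact hdN) hp (by rw [hRj]; exact hdN) h1.symm
  rw [hRj] at hV
  have hk : p.natDegree = B.natDegree * V.natDegree := by
    conv_lhs => rw [hB, natDegree_comp]
  have hV1 : 1 ≤ V.natDegree := by
    rcases Nat.eq_zero_or_pos V.natDegree with h0 | h0
    · rw [h0, mul_zero] at hk
      omega
    · exact h0
  have hB1 : 1 ≤ B.natDegree := by
    rcases Nat.eq_zero_or_pos B.natDegree with h0 | h0
    · rw [h0, zero_mul] at hk
      omega
    · exact h0
  have hco : Nat.Coprime B.natDegree P.natDegree := by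
    refine rho_arith (N := n * j) hp (by omega) ?_
    rw [← hV]
    exact hk
  have hmain : B.comp (V.comp D) = (it P (n * j)).comp B := by
    refine comp_cancel hV1 ?_
    rw [comp_assoc, comp_assoc, ← hD, comp_assoc (it P (n * j)), ← hB, ← comp_assoc, ← hB]
    exact h1
  have hBk : B.natDegree ≤ p.natDegree := by
    rw [hk]
    exact Nat.le_mul_of_pos_right _ hV1
  have hb : 4 * B.natDegree ≤ P.natDegree ^ (n * j) := by
    have e1 : 4 * p.natDegree ≤ 2 ^ (p.natDegree + 3) := by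
      have := Nat.lt_two_pow_self (n := p.natDegree)
      rw [pow_add]
      omega
    have e2 : 2 ^ (p.natDegree + 3) ≤ 2 ^ (n * j) := Nat.pow_le_pow_right (by norm_num) (by omega)
    have e3 : 2 ^ (n * j) ≤ P.natDegree ^ (n * j) := Nat.pow_le_pow_left hd _
    omega
  obtain ⟨⟨S, hS⟩, hle⟩ := b_semi hd hP (N := n * j) (by omega) hB1 hco hb hmain
  have hit := semi_it hS (n * j)
  have hVD : B.comp (V.comp D) = B.comp (it S (n * j)) := by rw [hmain, hit]
  have hdeg : (it S (n * j)).natDegree = (V.comp D).natDegree := by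
    have := congrArg natDegree hVD
    rw [natDegree_comp, natDegree_comp (p := B)] at this
    exact (Nat.eq_of_mul_eq_mul_left hB1 this).symm
  have hVD1 : 1 ≤ (V.comp D).natDegree := by
    have := semi_deg hB1 (by rw [natDegree_it]; exact hdN) hmain
    rw [this, natDegree_it]
    exact hdN
  obtain ⟨E, hE1, hE2⟩ := sym_of_comp hB1 hVD1 hVD hdeg
  exact ⟨B, V, D, S, E, hB, hD, hS, hco, hle, hV, hE2, hE1, hmain⟩

end H12IT
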