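import Pool.Agent.H12.IT.Chc
import Pool.Agent.H12.IT.Cnc
import Pool.Agent.H12.IT.Cgd

set_option autoImplicit false

/-! PROJECT IT, module Spe: special polynomials (paper section 10). -/

open Polynomial

namespace H12IT

theorem spe_card (R : ℂ[X]) (hR : 1 ≤ R.natDegree) (E : Finset ℂ) :
    ∑ x ∈ E, (fib R x).card = (E.biUnion (fib R)).card := by
  rw [Finset.card_biUnion]
  intro x _ y _ hxy
  show Disjoint (fib R x) (fib R y)
  rw [Finset.disjoint_left]
  intro z hz hz'
  exact hxy (((mem_fib hR).1 hz).symm.trans ((mem_fib hR).1 hz'))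

theorem spe_mass (R : ℂ[X]) (hR : 1 ≤ R.natDegree) (E : Finset ℂ) :
    ∑ z ∈ E.biUnion (fib R), mu R z = E.card * R.natDegree := by
  rw [Finset.sum_biUnion]
  · rw [Finset.sum_congr rfl (fun x _ => sum_mu hR x), Finset.sum_const, smul_eq_mul]
  · intro x _ y _ hxy
    show Disjoint (fib R x) (fib R y)
    rw [Finset.disjoint_left]
    intro z hz hz'
    exact hxy (((mem_fib hR).1 hz).symm.trans ((mem_fib hR).1 hz'))

theorem spe_mem (R : ℂ[X]) (hR : 1 ≤ R.natDegree) (E : Finset ℂ) (z : ℂ) :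
    z ∈ E.biUnion (fib R) ↔ R.eval z ∈ E := by
  rw [Finset.mem_biUnion]
  constructor
  · rintro ⟨x, hx, hz⟩
    rw [(mem_fib hR).1 hz]; exact hx
  · intro h
    exact ⟨_, h, (mem_fib hR).2 rfl⟩

/-- a totally ramified fixed point has no other preimage -/
theorem spe_total {F : ℂ[X]} (hF : 1 ≤ F.natDegree) {o : ℂ} (h : mu F o = F.natDegree)
    {w : ℂ} (hw : F.eval w = F.eval o) : w = o := by
  by_contra hne
  have h1 := sum_mu hF (F.eval o)
  have hsub : ({w, o} : Finset ℂ) ⊆ fib F (F.eval o) := by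
    intro x hx
    rw [Finset.mem_insert, Finset.mem_singleton] at hx
    rcases hx with rfl | rfl
    · exact (mem_fib hF).2 hw
    · exact (mem_fib hF).2 rfl
  have h2 := Finset.sum_le_sum_of_subset (f := fun z => mu F z) hsub
  rw [Finset.sum_pair hne, h1, h] at h2
  have h3 := one_le_mu hF w
  omega

/-- a fibre with a single point is totally ramified -/
theorem spe_single {F : ℂ[X]} (hF : 1 ≤ F.natDegree) {o x : ℂ} (h : fib F x = {o}) :
    mu F o = F.natDegree := by
  have h1 := sum_mu hF x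
  rw [h, Finset.sum_singleton] at h1
  exact h1

theorem spe_chain {M R p : ℂ[X]} (hM : 1 ≤ M.natDegree) (hR : 1 ≤ R.natDegree)
    (hp : 1 ≤ p.natDegree) (h : p.comp R = M.comp p) (z : ℂ) :
    p.eval (R.eval z) = M.eval (p.eval z) ∧
      mu p (R.eval z) * mu R z = mu M (p.eval z) * mu p z := by
  constructor
  · rw [← eval_comp, h, eval_comp]
  · rw [← mu_comp hp hR, h, mu_comp hM hp]

/-- power type goes up along a semiconjugacy -/
theorem power_up {M R p : ℂ[X]} (hd : 2 ≤ M.natDegree) (hp : 1 ≤ p.natDegree)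
    (h : p.comp R = M.comp p) (hM : PowerType M) : PowerType R := by
  obtain ⟨o, ho, hmo⟩ := hM
  have hM1 : 1 ≤ M.natDegree := by omega
  have hRd : R.natDegree = M.natDegree := semi_deg hp hM1 h
  have hR1 : 1 ≤ R.natDegree := by omega
  have hch := spe_chain hM1 hR1 hp h
  set E := fib p o with hE
  have hback : E.biUnion (fib R) = E := by
    ext z
    rw [spe_mem R hR1, hE, mem_fib hp, mem_fib hp, (hch z).1]
    constructor
    · intro hz
      exact spe_total hM1 hmo (by rw [hz, ho])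
    · intro hz
      rw [hz, ho]
  have h1 := rh hR1 E
  rw [spe_card R hR1 E, hback] at h1
  have hne : 1 ≤ E.card := Finset.card_pos.2 (fib_nonempty hp o)
  have hc1 : E.card = 1 := by
    by_contra hne1
    obtain ⟨m, hm⟩ : ∃ m, E.card = m + 2 := ⟨E.card - 2, by omega⟩
    obtain ⟨D, hD⟩ : ∃ D, R.natDegree = D + 2 := ⟨R.natDegree - 2, by omega⟩
    rw [hm, hD] at h1
    nlinarith
  obtain ⟨e, he⟩ := Finset.card_eq_one.1 hc1
  have hRe : R.eval e = e := by
    have : R.eval e ∈ E := by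
      rw [← spe_mem R hR1, hback, he]; exact Finset.mem_singleton_self e
    rw [he, Finset.mem_singleton] at this
    exact this
  refine ⟨e, hRe, ?_⟩
  apply spe_single hR1 (x := e)
  ext z
  rw [mem_fib hR1, Finset.mem_singleton]
  constructor
  · intro hz
    have : z ∈ E := by
      rw [← hback, spe_mem R hR1, hz, he]; exact Finset.mem_singleton_self e
    rw [he, Finset.mem_singleton] at this
    exact this
  · rintro rfl
    exact hRe

/-- and down -/
theorem power_down {M R p : ℂ[X]} (hd : 2 ≤ M.natDegree) (hp : 1 ≤ p.natDegree)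
    (h : p.comp R = M.comp p) (hR : PowerType R) : PowerType M := by
  obtain ⟨o, ho, hmo⟩ := hR
  have hM1 : 1 ≤ M.natDegree := by omega
  have hRd : R.natDegree = M.natDegree := semi_deg hp hM1 h
  have hR1 : 1 ≤ R.natDegree := by omega
  obtain ⟨h1, h2⟩ := spe_chain hM1 hR1 hp h o
  rw [ho] at h1 h2
  refine ⟨p.eval o, h1.symm, ?_⟩
  rw [hmo, mul_comm] at h2
  have h3 := Nat.eq_of_mul_eq_mul_right (one_le_mu hp o) h2
  rw [← h3, hRd]

/-- twice the number of points is at most the mass plus the number of odd points -/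
theorem spe_odd (F : ℂ[X]) (hF : 1 ≤ F.natDegree) (T : Finset ℂ) :
    2 * T.card ≤ ∑ z ∈ T, mu F z + (T.filter (fun z => Odd (mu F z))).card := by
  rw [Finset.card_filter, ← Finset.sum_add_distrib, mul_comm, ← smul_eq_mul, ← Finset.sum_const]
  apply Finset.sum_le_sum
  intro z _
  have h1 := one_le_mu hF z
  by_cases ho : Odd (mu F z)
  · rw [if_pos ho]; omega
  · rw [if_neg ho]
    rw [Nat.not_odd_iff_even] at ho
    obtain ⟨m, hm⟩ := ho
    omega

theorem spe_odd_eq (F : ℂ[X]) (hF : 1 ≤ F.natDegree) (T : Finset ℂ)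
    (h : ∑ z ∈ T, mu F z + (T.filter (fun z => Odd (mu F z))).card ≤ 2 * T.card) :
    ∀ z ∈ T, (Odd (mu F z) → mu F z = 1) ∧ (¬ Odd (mu F z) → mu F z = 2) := by
  intro z hz
  by_contra hcon
  have h1 := one_le_mu hF z
  have hbig : 2 < mu F z + (if Odd (mu F z) then 1 else 0) := by
    by_cases ho : Odd (mu F z)
    · rw [if_pos ho]
      have : mu F z ≠ 1 := fun h1' => hcon ⟨fun _ => h1', fun h2 => absurd ho h2⟩
      omega
    · rw [if_neg ho]
      have h2 : mu F z ≠ 2 := fun h1' => hcon ⟨fun h2 => absurd h2 ho, fun _ => h1'⟩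
      rw [Nat.not_odd_iff_even] at ho
      obtain ⟨m, hm⟩ := ho
      omega
  have h2 : ∑ z ∈ T, 2 < ∑ z ∈ T, (mu F z + (if Odd (mu F z) then 1 else 0)) := by
    apply Finset.sum_lt_sum
    · intro w _
      have h1 := one_le_mu hF w
      by_cases ho : Odd (mu F w)
      · rw [if_pos ho]; omega
      · rw [if_neg ho]
        rw [Nat.not_odd_iff_even] at ho
        obtain ⟨m, hm⟩ := ho
        omega
    · exact ⟨z, hz, hbig⟩
  rw [Finset.sum_const, smul_eq_mul, Finset.sum_add_distrib, ← Finset.card_filter] at h2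
  omega

/-- Chebyshev type goes up along a semiconjugacy -/
theorem cheb_up {M R p : ℂ[X]} (hd : 2 ≤ M.natDegree) (hp : 1 ≤ p.natDegree)
    (h : p.comp R = M.comp p) (hM : ChebType M) : ChebType R := by
  obtain ⟨S, hS2, hS1, hS3⟩ := hM
  have hM1 : 1 ≤ M.natDegree := by omega
  have hRd : R.natDegree = M.natDegree := semi_deg hp hM1 h
  have hR1 : 1 ≤ R.natDegree := by omega
  have hch := spe_chain hM1 hR1 hp h
  set E := (S.biUnion (fib p)).filter (fun z => Odd (mu p z)) with hE
  have hmemE : ∀ z, z ∈ E ↔ p.eval z ∈ S ∧ Odd (mu p z) := by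
    intro z
    rw [hE, Finset.mem_filter, spe_mem p hp]
  -- parity
  have hpar : ∀ z, R.eval z ∈ E → (Odd (mu R z) ↔ z ∈ E) := by
    intro z hz
    obtain ⟨h1, h2⟩ := (hmemE _).1 hz
    obtain ⟨h3, h4⟩ := hch z
    rw [h3] at h1
    rw [hmemE]
    by_cases hpz : p.eval z ∈ S
    · rw [(hS1 _ hpz).2, one_mul] at h4
      rw [← h4, Nat.odd_mul]
      constructor
      · intro h5; exact ⟨hpz, h2, h5⟩
      · intro h5; exact h5.2.2
    · rw [hS3 _ h1 hpz] at h4
      constructor
      · intro h5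
        exfalso
        have : Odd (2 * mu p z) := by
          rw [← h4]; exact h2.mul h5
        rw [Nat.odd_mul] at this
        exact absurd this.1 (by decide)
      · intro h5; exact absurd h5.1 hpz
  -- at least two
  have hE2 : 2 ≤ E.card := by
    have h1 := rh hp S
    rw [spe_card p hp S, hS2] at h1
    have h2 := spe_odd p hp (S.biUnion (fib p))
    rw [spe_mass p hp S, hS2, ← hE] at h2
    omega
  set T := E.biUnion (fib R) with hT
  have hodd : T.filter (fun z => Odd (mu R z)) ⊆ E := by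
    intro z hz
    rw [Finset.mem_filter, hT, spe_mem R hR1] at hz
    exact (hpar z hz.1).1 hz.2
  have h1 := rh hR1 E
  rw [spe_card R hR1 E, ← hT] at h1
  have h2 := spe_odd R hR1 T
  rw [hT, spe_mass R hR1 E, ← hT] at h2
  have h3 := Finset.card_le_card hodd
  have hEc : E.card = 2 := by
    by_contra hne
    obtain ⟨m, hm⟩ : ∃ m, E.card = m + 3 := ⟨E.card - 3, by omega⟩
    obtain ⟨D, hD⟩ : ∃ D, R.natDegree = D + 2 := ⟨R.natDegree - 2, by omega⟩
    rw [hm, hD] at h1 h2
    rw [hm] at h3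
    nlinarith
  rw [hEc] at h1 h2 h3
  have hfc : T.filter (fun z => Odd (mu R z)) = E := by
    apply Finset.eq_of_subset_of_card_le hodd
    rw [hEc]
    omega
  have h4 := spe_odd_eq R hR1 T (by
    rw [hT, spe_mass R hR1 E, ← hT, hEc, hfc, hEc]
    omega)
  refine ⟨E, hEc, ?_, ?_⟩
  · intro w hw
    have hw' := hw
    rw [← hfc, Finset.mem_filter] at hw'
    refine ⟨(spe_mem R hR1 E w).1 hw'.1, (h4 w hw'.1).1 hw'.2⟩
  · intro w hw hwE
    have hwT : w ∈ T := (spe_mem R hR1 E w).2 hw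
    exact (h4 w hwT).2 (fun ho => hwE ((hpar w hw).1 ho))

/-- and down -/
theorem cheb_down {M R p : ℂ[X]} (hd : 2 ≤ M.natDegree) (hp : 1 ≤ p.natDegree)
    (h : p.comp R = M.comp p) (hR : ChebType R) : ChebType M := by
  have hM1 : 1 ≤ M.natDegree := by omega
  have hRd : R.natDegree = M.natDegree := semi_deg hp hM1 h
  obtain ⟨L, hL, hL2⟩ := cheb_sq (by omega : 2 ≤ R.natDegree) hR
  obtain ⟨L', hL', hLL', hL'L⟩ := lin_inv hL
  set D2 := R.natDegree ^ 2 with hD2
  have hD2' : 4 ≤ D2 := by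
    rw [hD2]
    have : 2 ≤ R.natDegree := by omega
    nlinarith
  have e1 : L'.comp (Ch D2) = (it R 2).comp L' := by
    calc L'.comp (Ch D2) = L'.comp ((Ch D2).comp (L.comp L')) := by rw [hLL', comp_X]
      _ = L'.comp (((Ch D2).comp L).comp L') := by rw [comp_assoc (Ch D2)]
      _ = L'.comp ((L.comp (it R 2)).comp L') := by rw [hL2]
      _ = (L'.comp L).comp ((it R 2).comp L') := by rw [comp_assoc L, comp_assoc L']
      _ = (it R 2).comp L' := by rw [hL'L, X_comp]
  have e2 : (p.comp L').comp (Ch D2) = (it M 2).comp (p.comp L') := by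
    rw [comp_assoc, e1, ← comp_assoc, semi_it h 2, comp_assoc]
  have e3 : (Ch p.natDegree).comp (Ch D2) = (Ch D2).comp (Ch p.natDegree) := by
    rw [Ch_comp, Ch_comp, mul_comm]
  obtain ⟨L2, hL2d, hL2p, hL2e⟩ := down_unique (p1 := Ch p.natDegree) (p2 := p.comp L')
    (R := Ch D2) (M1 := Ch D2) (M2 := it M 2) (by rw [Ch_deg hp]; exact hp)
    (by rw [Ch_deg (by omega)]; omega) e3 e2 (by rw [natDegree_comp, hL', Ch_deg hp, mul_one])
  have h5 : ChebType (it M 2) := conj_cheb (P := Ch D2) (by rw [Ch_deg (by omega)]; omega)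
    ⟨_, Ch_cheb (by omega)⟩ ⟨L2, hL2d, hL2e.symm⟩
  obtain ⟨S, hS⟩ := h5
  exact ⟨S, cheb_of_it hd (by norm_num) hS⟩

theorem power_conj {P Q : ℂ[X]} (hd : 2 ≤ P.natDegree) (hPQ : Q.natDegree = P.natDegree)
    (hP : PowerType P) (hQ : PowerType Q) : Conj P Q := by
  obtain ⟨o, ho, hmo⟩ := hP
  obtain ⟨o', ho', hmo'⟩ := hQ
  have hPf := total_form (by omega : 1 ≤ P.natDegree) hmo
  have hQf := total_form (by omega : 1 ≤ Q.natDegree) hmo'
  have ha : P.leadingCoeff ≠ 0 := by
    rw [Ne, leadingCoeff_eq_zero]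
    rintro rfl
    simp at hd
  have ha' : Q.leadingCoeff ≠ 0 := by
    rw [Ne, leadingCoeff_eq_zero]
    rintro rfl
    rw [natDegree_zero] at hPQ
    omega
  obtain ⟨c, hc⟩ := IsAlgClosed.exists_pow_nat_eq (P.leadingCoeff / Q.leadingCoeff)
    (by omega : 0 < P.natDegree - 1)
  have hc0 : c ≠ 0 := by
    rintro rfl
    rw [zero_pow (by omega)] at hc
    exact (div_ne_zero ha ha') hc.symm
  have hcd : Q.leadingCoeff * c ^ P.natDegree = c * P.leadingCoeff := by
    have : c ^ P.natDegree = c ^ (P.natDegree - 1) * c := by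
      rw [← pow_succ]; congr 1; omega
    rw [this, hc]
    field_simp
  refine ⟨C c * X + C (o' - c * o), natDegree_linear hc0, ?_⟩
  rw [hPf, hQf, ho, ho', hPQ]
  generalize P.natDegree = d at *
  generalize P.leadingCoeff = a at *
  generalize Q.leadingCoeff = a' at *
  have h1 : (C c * X + C (o' - c * o) : ℂ[X]) = C o' + C c * (X - C o) := by
    rw [C_sub, C_mul]; ring
  rw [h1]
  have h2 : (C o' + C c * (X - C o) : ℂ[X]).comp (C o + C a * (X - C o) ^ d)
      = C o' + C (c * a) * (X - C o) ^ d := by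
    simp only [add_comp, mul_comp, C_comp, sub_comp, X_comp]
    rw [C_mul]; ring
  have h3 : (C o' + C a' * (X - C o') ^ d : ℂ[X]).comp (C o' + C c * (X - C o))
      = C o' + C (a' * c ^ d) * (X - C o) ^ d := by
    simp only [add_comp, mul_comp, C_comp, sub_comp, X_comp, pow_comp]
    rw [C_mul, C_pow, add_sub_cancel_left, mul_pow]; ring
  rw [h2, h3, hcd]

end H12IT
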