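import Pool.Agent.H12.IT.Spe
import Pool.Agent.H12.IT.Tri

set_option autoImplicit false

/-! PROJECT IT, module Spf: special polynomials, consequences. -/

open Polynomial

namespace H12IT

theorem spf_deg {P : ℂ[X]} (hd : 2 ≤ P.natDegree) {n : ℕ} (hn : 1 ≤ n) :
    2 ≤ (it P n).natDegree := by
  rw [natDegree_it]
  calc 2 ≤ P.natDegree := hd
    _ = P.natDegree ^ 1 := (pow_one _).symm
    _ ≤ P.natDegree ^ n := Nat.pow_le_pow_right (by omega) hn

theorem spf_symm {P Q : ℂ[X]} (h : Inter P Q) : Inter Q P := by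
  obtain ⟨R, n, hn, h1, h2⟩ := h
  exact ⟨R, n, hn, h2, h1⟩

theorem inter_power {P Q : ℂ[X]} (hd : 2 ≤ P.natDegree) (h : Inter P Q) (hP : PowerType P) :
    PowerType Q := by
  have hQ : 2 ≤ Q.natDegree := by rw [inter_deg hd h]; exact hd
  obtain ⟨R, n, hn, ⟨p1, hp1, e1⟩, ⟨p2, hp2, e2⟩⟩ := h
  have h1 : PowerType (it P n) := (power_it hd hn).2 hP
  have h2 : PowerType R := power_up (spf_deg hd hn) hp1 e1 h1
  have h3 : PowerType (it Q n) := power_down (spf_deg hQ hn) hp2 e2 h2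
  exact (power_it hQ hn).1 h3

theorem inter_cheb {P Q : ℂ[X]} (hd : 2 ≤ P.natDegree) (h : Inter P Q) (hP : ChebType P) :
    ChebType Q := by
  have hQ : 2 ≤ Q.natDegree := by rw [inter_deg hd h]; exact hd
  obtain ⟨R, n, hn, ⟨p1, hp1, e1⟩, ⟨p2, hp2, e2⟩⟩ := h
  obtain ⟨S, hS⟩ := hP
  have h1 : ChebType (it P n) := ⟨S, (cheb_it hd hS hn).1⟩
  have h2 : ChebType R := cheb_up (spf_deg hd hn) hp1 e1 h1
  obtain ⟨S', hS'⟩ := cheb_down (spf_deg hQ hn) hp2 e2 h2
  exact ⟨S', cheb_of_it hQ hn hS'⟩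

theorem spf_or {P : ℂ[X]} (hP : ¬ NonSpecial P) : PowerType P ∨ ChebType P := by
  unfold NonSpecial at hP
  by_contra hcon
  rw [not_or] at hcon
  exact hP hcon

/-- special polynomials have triples with `n ≤ 2` and linear `p1, p2` -/
theorem spec_trip {P Q : ℂ[X]} (hd : 2 ≤ P.natDegree) (h : Inter P Q) (hP : ¬ NonSpecial P) :
    ∃ n R p1 p2, Trip P Q n R p1 p2 ∧ n ≤ 2 ∧ p1.natDegree = 1 ∧ p2.natDegree = 1 := by
  have hdeg := inter_deg hd h
  rcases spf_or hP with hp | hc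
  · have hq := inter_power hd h hp
    obtain ⟨L, hL, hLc⟩ := power_conj hd hdeg hp hq
    refine ⟨1, P, X, L, ⟨le_refl 1, by rw [natDegree_X], by rw [hL], ?_, ?_⟩, by norm_num,
      natDegree_X, hL⟩
    · rw [it_one, X_comp, comp_X]
    · rw [it_one]
      exact hLc
  · have hq := inter_cheb hd h hc
    have h1 := cheb_sq hd hc
    have h2 := cheb_sq (by rw [hdeg]; exact hd) hq
    rw [hdeg] at h2
    obtain ⟨L, hL, hLc⟩ := h1.trans h2.symm
    refine ⟨2, it P 2, X, L, ⟨by norm_num, by rw [natDegree_X], by rw [hL], ?_, ?_⟩, le_refl 2,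
      natDegree_X, hL⟩
    · rw [X_comp, comp_X]
    · exact hLc

theorem spf_top (F : ℂ[X]) (a b : ℂ) (n : ℕ) :
    (F.comp (C a * X + C b)).coeff n = (hasseDeriv n F).eval b * a ^ n := by
  have h1 : (C a * X + C b : ℂ[X]) = (X + C b).comp (C a * X) := by
    rw [add_comp, X_comp, C_comp]
  rw [h1, ← comp_assoc, comp_C_mul_X_coeff, ← taylor_apply, taylor_coeff]

theorem spf_hd {F : ℂ[X]} {d : ℕ} (hF : F.natDegree ≤ d) (b : ℂ) :
    (hasseDeriv d F).eval b = F.coeff d := by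
  have h1 : hasseDeriv d F = C (F.coeff d) := by
    ext n
    rw [hasseDeriv_coeff, coeff_C]
    rcases Nat.eq_zero_or_pos n with rfl | hn
    · simp
    · rw [if_neg hn.ne', coeff_eq_zero_of_natDegree_lt (by omega), mul_zero]
  rw [h1, eval_C]

theorem spf_hd1 {F : ℂ[X]} {d : ℕ} (hF : F.natDegree ≤ d + 1) (b : ℂ) :
    (hasseDeriv d F).eval b = F.coeff d + (d + 1) * F.coeff (d + 1) * b := by
  have h1 : hasseDeriv d F = C ((d + 1) * F.coeff (d + 1)) * X + C (F.coeff d) := by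
    ext n
    rw [hasseDeriv_coeff, coeff_add, coeff_C, coeff_C_mul, coeff_X]
    rcases Nat.lt_trichotomy n 1 with hn | rfl | hn
    · have : n = 0 := by omega
      subst this
      simp
    · rw [if_pos rfl, if_neg one_ne_zero, mul_one, add_zero, add_comm 1 d,
        Nat.choose_succ_self_right]
      push_cast
      ring
    · rw [if_neg (by omega), if_neg (by omega), mul_zero, add_zero,
        coeff_eq_zero_of_natDegree_lt (by omega), mul_zero]
  rw [h1, eval_add, eval_mul, eval_C, eval_X, eval_C]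
  ring

theorem spf_conj {d : ℕ} (hd : 2 ≤ d) {F : ℂ[X]} (hF : F.natDegree = d) :
    {Q : ℂ[X] | MC d Q ∧ Conj Q F}.Finite := by
  obtain ⟨e, rfl⟩ : ∃ e, d = e + 1 := ⟨d - 1, by omega⟩
  have he : 1 ≤ e := by omega
  set l : ℂ := F.coeff (e + 1) with hl
  have hl0 : l ≠ 0 := by
    rw [hl, ← hF]
    intro h0
    have h1 : F.leadingCoeff = 0 := h0
    rw [leadingCoeff_eq_zero] at h1
    rw [h1, natDegree_zero] at hF
    omega
  set b0 : ℂ := - F.coeff e / ((e + 1) * l) with hb0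
  set G : ℂ[X] := C l * X ^ (e + 1) - X with hG
  have hG0 : G ≠ 0 := by
    intro h0
    have h1 : G.coeff (e + 1) = 0 := by rw [h0, coeff_zero]
    rw [hG, coeff_sub, coeff_C_mul, coeff_X_pow, if_pos rfl, coeff_X, if_neg (by omega), mul_one,
      sub_zero] at h1
    exact hl0 h1
  apply ((G.roots.toFinset).image
    (fun a => C a⁻¹ * (F.comp (C a * X + C b0) - C b0))).finite_toSet.subset
  rintro Q ⟨⟨hQm, hQd, hQc⟩, L, hL, hLc⟩
  obtain ⟨a, b, ha, rfl⟩ := lin_form hL
  rw [add_comp, mul_comp, X_comp, C_comp, C_comp] at hLc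
  have hcast : ((e : ℂ) + 1) ≠ 0 := by exact_mod_cast Nat.succ_ne_zero e
  -- leading coefficient
  have h1 : a = l * a ^ (e + 1) := by
    have h2 := congrArg (fun p : ℂ[X] => p.coeff (e + 1)) hLc
    rw [spf_top, spf_hd hF.le, coeff_add, coeff_C_mul, coeff_C, if_neg (by omega), add_zero,
      ← hl] at h2
    have h3 : Q.coeff (e + 1) = 1 := by
      have h4 := hQm.coeff_natDegree
      rwa [hQd] at h4
    rw [h3, mul_one] at h2
    exact h2
  -- next coefficient
  have h2 : b = b0 := by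
    have h3 := congrArg (fun p : ℂ[X] => p.coeff e) hLc
    rw [Nat.add_sub_cancel] at hQc
    rw [spf_top, spf_hd1 hF.le, coeff_add, coeff_C_mul, coeff_C, if_neg (by omega), add_zero,
      hQc, mul_zero, ← hl] at h3
    have h4 : F.coeff e + (e + 1) * l * b = 0 := by
      rcases mul_eq_zero.1 h3.symm with h5 | h5
      · exact h5
      · exact absurd h5 (pow_ne_zero _ ha)
    rw [hb0, eq_div_iff (mul_ne_zero hcast hl0)]
    linear_combination h4
  rw [h2] at hLc
  rw [Finset.mem_coe, Finset.mem_image]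
  refine ⟨a, ?_, ?_⟩
  · rw [Multiset.mem_toFinset, mem_roots hG0, IsRoot.def, hG, eval_sub, eval_mul, eval_C, eval_pow,
      eval_X, ← h1, sub_self]
  · rw [← hLc, add_sub_cancel_right, ← mul_assoc, ← C_mul, inv_mul_cancel₀ ha, C_1, one_mul]

theorem spf_power {d : ℕ} (hd : 2 ≤ d) {Q : ℂ[X]} (hQ : MC d Q) (hP : PowerType Q) :
    Q = X ^ d := by
  obtain ⟨hQm, hQd, hQc⟩ := hQ
  obtain ⟨o, ho, hmu⟩ := hP
  unfold mu at hmu
  rw [ho, hQd] at hmu
  have hdvd : (X - C o) ^ d ∣ Q - C o := by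
    have h1 := pow_rootMultiplicity_dvd (Q - C o) o
    rwa [hmu] at h1
  have hdeg : degree (C o) < degree Q := by
    apply lt_of_le_of_lt degree_C_le
    rw [degree_eq_natDegree hQm.ne_zero, hQd]
    exact_mod_cast (by omega : 0 < d)
  have hm : (Q - C o).Monic := hQm.sub_of_left hdeg
  have hnd : (Q - C o).natDegree = d := by
    rw [natDegree_sub_C, hQd]
  have hm2 : ((X - C o) ^ d : ℂ[X]).Monic := (monic_X_sub_C o).pow d
  have hnd2 : ((X - C o) ^ d : ℂ[X]).natDegree = d := by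
    rw [natDegree_pow, natDegree_X_sub_C, mul_one]
  have heq : Q - C o = (X - C o) ^ d := by
    obtain ⟨c, hc⟩ := hdvd
    have hcm : c.Monic := by
      rw [hc] at hm
      exact hm2.of_mul_monic_left hm
    have hcd : c.natDegree = 0 := by
      have h1 := hm2.natDegree_mul hcm
      rw [← hc, hnd, hnd2] at h1
      omega
    rw [hcm.natDegree_eq_zero.1 hcd, mul_one] at hc
    exact hc
  obtain ⟨e, rfl⟩ : ∃ e, d = e + 1 := ⟨d - 1, by omega⟩
  have ho0 : o = 0 := by
    have h1 : ((X - C o) ^ (e + 1) : ℂ[X]).coeff e = 0 := by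
      rw [← heq, coeff_sub, coeff_C, if_neg (by omega), sub_zero]
      rw [Nat.add_sub_cancel] at hQc
      exact hQc
    have h2 : ((X - C o) ^ (e + 1) : ℂ[X]) = (X ^ (e + 1) : ℂ[X]).comp (C 1 * X + C (-o)) := by
      rw [X_pow_comp, C_1, one_mul, C_neg, sub_eq_add_neg]
    rw [h2, spf_top, spf_hd1 (by rw [natDegree_X_pow]), coeff_X_pow, coeff_X_pow, if_pos rfl,
      if_neg (by omega), one_pow, mul_one, mul_one, zero_add, mul_neg, neg_eq_zero,
      mul_eq_zero] at h1
    rcases h1 with h1 | h1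
    · exfalso
      have hcast : ((e : ℂ) + 1) ≠ 0 := by exact_mod_cast Nat.succ_ne_zero e
      exact hcast h1
    · exact h1
  rw [ho0, C_0, sub_zero, sub_zero] at heq
  exact heq

/-- monic centered special polynomials of degree `d` are finite in number -/
theorem spec_fin {d : ℕ} (hd : 2 ≤ d) : {Q : ℂ[X] | MC d Q ∧ ¬ NonSpecial Q}.Finite := by
  have h1 : (Ch d).natDegree = d := Ch_deg (by omega)
  have h2 : (- Ch d).natDegree = d := by rw [natDegree_neg, h1]
  apply (((Set.finite_singleton (X ^ d : ℂ[X])).union (spf_conj hd h1)).union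
    (spf_conj hd h2)).subset
  rintro Q ⟨hQ, hs⟩
  have hQd : Q.natDegree = d := hQ.2.1
  rcases spf_or hs with hp | hc
  · exact Or.inl (Or.inl (spf_power hd hQ hp))
  · rcases cheb_conj (by rw [hQd]; exact hd) hc with h3 | h3
    · rw [hQd] at h3
      exact Or.inl (Or.inr ⟨hQ, h3⟩)
    · rw [hQd] at h3
      exact Or.inr ⟨hQ, h3⟩

theorem inter_nonspecial {P Q : ℂ[X]} (hd : 2 ≤ P.natDegree) (h : Inter P Q)
    (hP : NonSpecial P) : NonSpecial Q := by
  have hQ : 2 ≤ Q.natDegree := by rw [inter_deg hd h]; exact hd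
  exact ⟨fun h1 => hP.1 (inter_power hQ (spf_symm h) h1),
    fun h1 => hP.2 (inter_cheb hQ (spf_symm h) h1)⟩

end H12IT
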