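import Pool.Agent.H12.IT.Hom

set_option autoImplicit false

/-! PROJECT IT, module Sps: semantics of the codes of polynomials. -/

open Polynomial

namespace H12IT

open Ar

/-- the polynomial with code `s`, as an element of the monoid algebra of `(ℕ, *)` -/
noncomputable def sem (s : SP) : MonoidAlgebra ℚ ℕ :=
  (s.map (fun a => MonoidAlgebra.single a.1 (rat a.2))).sum

theorem sps_nil : sem [] = 0 := rfl

theorem sps_cons (a : ℕ × Q3) (s : SP) :
    sem (a :: s) = MonoidAlgebra.single a.1 (rat a.2) + sem s := by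
  simp [sem]

theorem sps_app (s t : SP) : sem (s ++ t) = sem s + sem t := by
  simp [sem]

theorem sps_sing (a : ℕ × Q3) : sem [a] = MonoidAlgebra.single a.1 (rat a.2) := by
  simp [sem]

theorem sps_smul (a : ℕ × Q3) (t : SP) :
    sem (t.map (fun b => (a.1 * b.1, mul3 a.2 b.2))) =
      MonoidAlgebra.single a.1 (rat a.2) * sem t := by
  induction t with
  | nil => simp [sps_nil]
  | cons b t ih =>
    rw [List.map_cons, sps_cons, sps_cons, ih, mul_add, MonoidAlgebra.single_mul_single,
      rat_mul3]

theorem sps_mul (s t : SP) :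
    sem (s.flatMap (fun a => t.map (fun b => (a.1 * b.1, mul3 a.2 b.2)))) = sem s * sem t := by
  induction s with
  | nil => simp [sps_nil]
  | cons a s ih =>
    rw [List.flatMap_cons, sps_app, sps_smul, ih, sps_cons, add_mul]

theorem sem_isHom : IsHom sem where
  add := fun s t => sps_app s t
  mul := fun s t => sps_mul s t
  cst := fun q => by
    show sem [(1, q)] = algebraMap ℚ (MonoidAlgebra ℚ ℕ) (rat q)
    rw [sps_sing, MonoidAlgebra.coe_algebraMap]
    rfl

theorem sps_coefS_cons (b : ℕ × Q3) (s : SP) (m : ℕ) :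
    coefS (b :: s) m = if b.1 = m then add3 b.2 (coefS s m) else coefS s m := rfl

theorem sps_coeff (s : SP) (m : ℕ) : (sem s).coeff m = rat (coefS s m) := by
  induction s with
  | nil =>
    show (0 : ℕ →₀ ℚ) m = rat z3
    rw [rat_z3]; rfl
  | cons b s ih =>
    rw [sps_cons, MonoidAlgebra.coeff_add, Finsupp.add_apply, ih, MonoidAlgebra.coeff_single,
      Finsupp.single_apply, sps_coefS_cons]
    split_ifs with h
    · rw [rat_add3]
    · rw [zero_add]

theorem sps_coefS_none (s : SP) (m : ℕ) (h : ∀ a ∈ s, a.1 ≠ m) : coefS s m = z3 := by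
  induction s with
  | nil => rfl
  | cons b s ih =>
    rw [sps_coefS_cons, if_neg (h b List.mem_cons_self)]
    exact ih (fun a ha => h a (List.mem_cons_of_mem _ ha))

theorem ZT_iff (s : SP) : ZT s ↔ sem s = 0 := by
  constructor
  · intro h
    apply MonoidAlgebra.ext
    ext m
    rw [sps_coeff]
    show _ = (0 : ℚ)
    by_cases hm : ∃ a ∈ s, a.1 = m
    · obtain ⟨a, ha, rfl⟩ := hm
      exact (rat_eq_zero _).2 (h a ha)
    · rw [sps_coefS_none s m (fun a ha e => hm ⟨a, ha, e⟩), rat_z3]
  · intro h a _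
    rw [← rat_eq_zero, ← sps_coeff, h]
    rfl

theorem sem_surj (x : MonoidAlgebra ℚ ℕ) : ∃ s : SP, sem s = x := by
  induction x using MonoidAlgebra.induction_linear with
  | zero => exact ⟨[], rfl⟩
  | add x y hx hy =>
    obtain ⟨s, hs⟩ := hx
    obtain ⟨t, ht⟩ := hy
    exact ⟨s ++ t, by rw [sps_app, hs, ht]⟩
  | single m r =>
    obtain ⟨q, hq⟩ := rat_surj r
    exact ⟨[(m, q)], by rw [sps_sing, hq]⟩

theorem sem_var (m : ℕ) : sem (var m) = MonoidAlgebra.single m 1 := by
  show sem [(m, o3)] = _
  rw [sps_sing, rat_o3]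

/-- the multiplicative function with prescribed values at the primes -/
noncomputable def spsChi (f : ℕ → ℂ) : ℕ →* ℂ where
  toFun := fun n => if n = 0 then 0 else n.factorization.prod (fun p k => f p ^ k)
  map_one' := by simp
  map_mul' := fun m n => by
    by_cases hm : m = 0
    · simp [hm]
    by_cases hn : n = 0
    · simp [hn]
    rw [if_neg (mul_ne_zero hm hn), if_neg hm, if_neg hn, Nat.factorization_mul hm hn]
    exact Finsupp.prod_add_index' (fun p => pow_zero _) (fun p a b => pow_add _ _ _)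

theorem sps_chi_prime (f : ℕ → ℂ) {p : ℕ} (hp : p.Prime) : spsChi f p = f p := by
  show (if p = 0 then 0 else p.factorization.prod (fun p k => f p ^ k)) = f p
  rw [if_neg hp.ne_zero, hp.factorization,
    Finsupp.prod_single_index (h := fun p k => f p ^ k) (pow_zero _), pow_one]

/-- evaluation: the primes are sent to arbitrary numbers -/
theorem eval_exists (f : ℕ → ℂ) : ∃ e : SP → ℂ, IsHom e ∧ (∀ p : ℕ, p.Prime → e (var p) = f p) ∧
    ∀ s : SP, ZT s → e s = 0 := by
  have hL := algHom_isHom (MonoidAlgebra.lift ℚ ℂ ℕ (spsChi f))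
  refine ⟨fun s => MonoidAlgebra.lift ℚ ℂ ℕ (spsChi f) (sem s), ⟨?_, ?_, ?_⟩, ?_, ?_⟩
  · intro x y
    show MonoidAlgebra.lift ℚ ℂ ℕ (spsChi f) (sem (Ar.add x y)) = _
    rw [sem_isHom.add]
    exact hL.add _ _
  · intro x y
    show MonoidAlgebra.lift ℚ ℂ ℕ (spsChi f) (sem (Ar.mul x y)) = _
    rw [sem_isHom.mul]
    exact hL.mul _ _
  · intro q
    show MonoidAlgebra.lift ℚ ℂ ℕ (spsChi f) (sem (Ar.cst q)) = _
    rw [sem_isHom.cst]
    exact hL.cst _
  · intro p hp
    show MonoidAlgebra.lift ℚ ℂ ℕ (spsChi f) (sem (var p)) = _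
    rw [sem_var, MonoidAlgebra.lift_single, one_smul, sps_chi_prime f hp]
  · intro s hs
    show MonoidAlgebra.lift ℚ ℂ ℕ (spsChi f) (sem s) = _
    rw [(ZT_iff s).1 hs, map_zero]

/-- polynomials in one variable -/
theorem one_var (g : ℕ) : ∃ φ : ℚ[X] →ₐ[ℚ] MonoidAlgebra ℚ ℕ, φ X = sem (var g) :=
  ⟨Polynomial.aeval (sem (var g)), Polynomial.aeval_X _⟩

/-- polynomials in several variables -/
theorem many_var (N : ℕ) : ∃ φ : MvPolynomial (Fin N) ℚ →ₐ[ℚ] MonoidAlgebra ℚ ℕ,
    ∀ i : Fin N, φ (MvPolynomial.X i) = sem (var i) :=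
  ⟨MvPolynomial.aeval (fun i : Fin N => sem (var i)), fun _ => MvPolynomial.aeval_X _ _⟩

/-- prescribed values for blocks of variables -/
theorem assign {vs : List (List ℕ)} {xs : List (List ℂ)}
    (h : vs.map List.length = xs.map List.length) (hn : vs.flatten.Nodup) :
    ∃ f : ℕ → ℂ, vs.map (fun b => b.map f) = xs := by
  induction vs generalizing xs with
  | nil =>
    cases xs with
    | nil => exact ⟨fun _ => 0, rfl⟩
    | cons u xs => simp at h
  | cons b vs ih =>
    cases xs with
    | nil => simp at h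
    | cons u xs =>
      rw [List.map_cons, List.map_cons, List.cons.injEq] at h
      rw [List.flatten_cons, List.nodup_append] at hn
      obtain ⟨hb, hvs, hd⟩ := hn
      obtain ⟨f, hf⟩ := ih h.2 hvs
      refine ⟨fun n => if n ∈ b then u.getD (b.idxOf n) 0 else f n, ?_⟩
      rw [List.map_cons]
      congr 1
      · apply List.ext_getElem
        · rw [List.length_map]; exact h.1
        · intro i h1 h2
          rw [List.length_map] at h1
          rw [List.getElem_map]
          show (if b[i] ∈ b then u.getD (b.idxOf b[i]) 0 else f b[i]) = u[i]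
          rw [if_pos (List.getElem_mem h1), hb.idxOf_getElem i h1,
            List.getD_eq_getElem _ _ h2]
      · rw [← hf]
        apply List.map_congr_left
        intro b' hb'
        apply List.map_congr_left
        intro n hn'
        show (if n ∈ b then u.getD (b.idxOf n) 0 else f n) = f n
        rw [if_neg]
        intro hnb
        exact hd n hnb n (List.mem_flatten.2 ⟨b', hb', hn'⟩) rfl

end H12IT
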