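import Pool.Agent.H12.IT.Trb
import Pool.Agent.H12.IT.Nbs
import Pool.Agent.H12.IT.Spf

set_option autoImplicit false

/-! PROJECT IT, module Thm1: the bound theorem. -/

open Polynomial

namespace H12IT

theorem thm1 {P Q : ℂ[X]} (hd : 2 ≤ P.natDegree) (h : Inter P Q) :
    ∃ n R p1 p2, Trip P Q n R p1 p2 ∧ n ≤ P.natDegree + 1 ∧
      p1.natDegree ≤ P.natDegree * K2 P.natDegree ∧
      p2.natDegree ≤ P.natDegree * K2 P.natDegree := by
  by_cases hP : NonSpecial P
  · have hQ := inter_nonspecial hd h hP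
    obtain ⟨n, R, p1, p2, ht, h1, h2⟩ := tri_bound hd hP hQ h
    obtain ⟨n', R', hn', ht'⟩ := n_bound hd hP hQ ht
    exact ⟨n', R', p1, p2, ht', hn', h1, h2⟩
  · obtain ⟨n, R, p1, p2, ht, hn, h1, h2⟩ := spec_trip hd h hP
    have hk : 1 ≤ P.natDegree * K2 P.natDegree := by
      have h3 : 0 < P.natDegree := by omega
      have : 0 < P.natDegree * K2 P.natDegree := by
        unfold K2
        positivity
      omega
    exact ⟨n, R, p1, p2, ht, by omega, by omega, by omega⟩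

/-- with the exponent `(d+1)!` for all -/
theorem thm1_fact {P Q : ℂ[X]} (hd : 2 ≤ P.natDegree) (h : Inter P Q) :
    ∃ R p1 p2, Trip P Q (P.natDegree + 1).factorial R p1 p2 ∧
      p1.natDegree ≤ P.natDegree * K2 P.natDegree ∧
      p2.natDegree ≤ P.natDegree * K2 P.natDegree := by
  obtain ⟨n, R, p1, p2, ht, hn, h1, h2⟩ := thm1 hd h
  obtain ⟨hn1, hp1, hp2, e1, e2⟩ := ht
  obtain ⟨k, hk⟩ : n ∣ (P.natDegree + 1).factorial := Nat.dvd_factorial (by omega) hn
  refine ⟨it R k, p1, p2, ⟨Nat.factorial_pos _, hp1, hp2, ?_, ?_⟩, h1, h2⟩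
  · rw [hk, Nat.mul_comm n k, Nat.mul_comm k n, it_mul P n k]
    exact semi_it e1 k
  · rw [hk, it_mul Q n k]
    exact semi_it e2 k

end H12IT
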